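import Mathlib

/-!
# Project MR (MP_e0aac0_nt): interfaces between the blocks

Everything here is a definition of a proposition; no theorem is stated.
`Om n` is the number of prime factors of `n` counted with multiplicity.
All thresholds are uniform in the function `b : ℕ → ℝ`, `|b| ≤ 1` (which may depend on `X`).
-/

set_option autoImplicit false

namespace MRP

open Finset

/-- The number of prime factors with multiplicity. -/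
abbrev Om (n : ℕ) : ℕ := ArithmeticFunction.cardFactors n

/-- `∑_{n ≤ X} 1/n`. -/
noncomputable def LS (X : ℕ) : ℝ := ∑ n ∈ Finset.Icc 1 X, (1 / (n : ℝ))

/-- The logarithmic mean of `b (Ω n)` over `n ≤ X`. -/
noncomputable def mX (X : ℕ) (b : ℕ → ℝ) : ℝ :=
  (∑ n ∈ Finset.Icc 1 X, (1 / (n : ℝ)) * b (Om n)) / LS X

/-- `e(x) = exp(2 π i x)`. -/
noncomputable def eC (x : ℝ) : ℂ := Complex.exp (2 * (Real.pi : ℂ) * Complex.I * (x : ℂ))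

/-- The primes in `(P, 2P]`. -/
def dyP (P : ℕ) : Finset ℕ := (Finset.Ioc P (2 * P)).filter Nat.Prime

/-- The shifted function `b₁(m) = b(m - 1)` (so `b₁(Ω(pn)) = b(Ω(n))`). -/
def dn (b : ℕ → ℝ) : ℕ → ℝ := fun m => b (m - 1)

/-- The shifted function `b(m + s)`. -/
def up (s : ℕ) (b : ℕ → ℝ) : ℕ → ℝ := fun m => b (m + s)

/-- Block A: entropy decrement. -/
def ENT : Prop :=
  ∀ ε : ℝ, 0 < ε → ∀ P0 : ℕ, ∃ P1 X0 : ℕ, ∀ X : ℕ, X0 ≤ X → ∀ a b : ℕ → ℝ,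
    (∀ m, a m = 0 ∨ a m = 1) → (∀ m, b m = 0 ∨ b m = 1) →
    ∃ P : ℕ, P0 ≤ P ∧ P ≤ P1 ∧
      |(∑ n ∈ Finset.Icc 1 X, (1 / (n : ℝ)) * (a (Om n) * b (Om (n + 1)))) -
        (1 / ((dyP P).card : ℝ)) * ∑ p ∈ dyP P, ∑ n ∈ Finset.Icc 1 X,
          (1 / (n : ℝ)) * (dn a (Om n) * dn b (Om (n + p)))| ≤ ε * Real.log X

/-- Block B: the circle step. -/
def CIRC : Prop :=
  ∀ ε : ℝ, 0 < ε → ∃ P0 : ℕ, ∀ P : ℕ, P0 ≤ P → ∃ X0 : ℕ, ∀ X : ℕ, X0 ≤ X →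
    ∀ A b : ℕ → ℝ, (∀ n, |A n| ≤ 1) → (∀ m, |b m| ≤ 1) →
      |∑ n ∈ Finset.Icc 1 X, (1 / (n : ℝ)) * ∑ p ∈ dyP P, A n * (b (Om (n + p)) - mX X b)| ≤
        ε * (dyP P).card * Real.log X

/-- Block C: short exponential sums, supremum over the frequency outside the mean. -/
def EXP : Prop :=
  ∀ ε : ℝ, 0 < ε → ∃ H0 : ℕ, ∀ H : ℕ, H0 ≤ H → ∃ X0 : ℕ, ∀ X : ℕ, X0 ≤ X →
    ∀ b : ℕ → ℝ, (∀ m, |b m| ≤ 1) → ∀ α : ℝ,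
      ∑ n ∈ Finset.Icc 1 X, (1 / (n : ℝ)) *
        ‖∑ j ∈ Finset.Icc 1 H, ((b (Om (n + j)) - mX X b : ℝ) : ℂ) * eC ((j : ℝ) * α)‖ ≤
          ε * H * Real.log X

/-- Block C': short sums along arithmetic progressions. -/
def MRAP : Prop :=
  ∀ q : ℕ, 1 ≤ q → ∀ ε : ℝ, 0 < ε → ∃ H0 : ℕ, ∀ H : ℕ, H0 ≤ H → ∃ X0 : ℕ, ∀ X : ℕ, X0 ≤ X →
    ∀ b : ℕ → ℝ, (∀ m, |b m| ≤ 1) → ∀ r : ℕ,
      ∑ n ∈ Finset.Icc 1 X, (1 / (n : ℝ)) *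
        |∑ j ∈ (Finset.Icc 1 H).filter (fun j => (n + j) % q = r % q),
          (b (Om (n + j)) - mX X b)| ≤ ε * H * Real.log X

/-- Block D, nonprincipal characters. -/
def MRCHI1 : Prop :=
  ∀ (q : ℕ) (_ : 1 ≤ q) (χ : DirichletCharacter ℂ q), χ ≠ 1 →
    ∀ ε : ℝ, 0 < ε → ∃ H0 : ℕ, ∀ H : ℕ, H0 ≤ H → ∃ X0 : ℕ, ∀ X : ℕ, X0 ≤ X →
    ∀ b : ℕ → ℝ, (∀ m, |b m| ≤ 1) →
      ∑ n ∈ Finset.Icc 1 X, (1 / (n : ℝ)) *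
        ‖∑ j ∈ Finset.Icc 1 H, ((b (Om (n + j)) : ℝ) : ℂ) * χ ((n + j : ℕ) : ZMod q)‖ ≤
          ε * H * Real.log X

/-- Block D, principal character. -/
def MRCHI0 : Prop :=
  ∀ (q : ℕ) (_ : 1 ≤ q),
    ∀ ε : ℝ, 0 < ε → ∃ H0 : ℕ, ∀ H : ℕ, H0 ≤ H → ∃ X0 : ℕ, ∀ X : ℕ, X0 ≤ X →
    ∀ b : ℕ → ℝ, (∀ m, |b m| ≤ 1) →
      ∑ n ∈ Finset.Icc 1 X, (1 / (n : ℝ)) *
        |(∑ j ∈ (Finset.Icc 1 H).filter (fun j => Nat.Coprime (n + j) q), b (Om (n + j))) -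
          (H : ℝ) * ((Nat.totient q : ℝ) / (q : ℝ)) * mX X b| ≤ ε * H * Real.log X

/-- Block F: shift invariance of the law. -/
def LAW1 : Prop :=
  ∀ ε : ℝ, 0 < ε → ∃ X0 : ℕ, ∀ X : ℕ, X0 ≤ X → ∀ b : ℕ → ℝ, (∀ m, |b m| ≤ 1) →
    |mX X (up 1 b) - mX X b| ≤ ε

/-- Block F: the law in short multiplicative windows, with a coprimality condition. -/
def LAW2 : Prop :=
  ∀ (q : ℕ) (_ : 1 ≤ q) (κ ε : ℝ), 0 < κ → κ ≤ 1 → 0 < ε → ∃ X0 : ℕ, ∀ X : ℕ, X0 ≤ X →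
    ∀ x : ℝ, (X : ℝ) ^ ε ≤ x → x ≤ X → ∀ b : ℕ → ℝ, (∀ m, |b m| ≤ 1) →
      |(∑ n ∈ (Finset.Ioc ⌊x⌋₊ ⌊(1 + κ) * x⌋₊).filter (fun n => Nat.Coprime n q), b (Om n)) -
        κ * x * ((Nat.totient q : ℝ) / (q : ℝ)) * mX X b| ≤ ε * κ * x

/-- Block E: sums over primes are bounded on the 1-line, with a constant which does not depend on
the lower end of the range. -/
def PRIME1 : Prop :=
  ∀ (q : ℕ) (_ : 1 ≤ q) (χ : DirichletCharacter ℂ q), ∃ C : ℝ, ∀ d1 d2 : ℝ, 0 < d1 → d1 < d2 →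
    d2 ≤ 1 → ∃ X0 : ℝ, ∀ X : ℝ, X0 ≤ X → ∀ t : ℝ, |t| ≤ X → (2 ≤ |t| ∨ χ ≠ 1) →
      ‖∑ p ∈ (Finset.Ioc ⌊X ^ d1⌋₊ ⌊X ^ d2⌋₊).filter Nat.Prime,
        χ ((p : ℕ) : ZMod q) * ((p : ℂ) ^ (-(1 + (t : ℂ) * Complex.I)))‖ ≤ C

/-- The final box statement of helper11 for `k = 2`. -/
def LogBoxes2 (N : ℕ) (δ : ℝ) : Prop :=
  ∀ A : Fin 2 → Finset ℕ,
    |(∑ n ∈ (Finset.Icc 1 N).filter
        (fun n => ∀ i : Fin 2, ArithmeticFunction.cardFactors (n + (i : ℕ)) ∈ A i),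
          (1 / (n : ℝ))) / (∑ n ∈ Finset.Icc 1 N, (1 / (n : ℝ))) -
      ∏ i : Fin 2, ((∑ n ∈ (Finset.Icc 1 N).filter
        (fun n => ArithmeticFunction.cardFactors n ∈ A i), (1 / (n : ℝ))) /
          (∑ n ∈ Finset.Icc 1 N, (1 / (n : ℝ))))| ≤ δ

/-- What the assembly has to give. -/
def GOAL : Prop := ∀ δ : ℝ, 0 < δ → ∃ N0 : ℕ, ∀ N : ℕ, N0 ≤ N → LogBoxes2 N δ

end MRP
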