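import Mathlib
import Pool.Agent.Helper6.MR.Iface

/-!
# Project MR, phase T2: interfaces at a single scale

Ordinary averages over `n ≤ x`; all thresholds are uniform in the functions of `Ω`, which may
depend on `x` in an arbitrary way.
-/

set_option autoImplicit false

namespace MRP

open Finset

/-- The mean of `b (Ω n)` over `n ≤ x`. -/
noncomputable def mx (x : ℕ) (b : ℕ → ℝ) : ℝ := (∑ n ∈ Finset.Icc 1 x, b (Om n)) / (x : ℝ)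

/-- The primes in `(P, (1 + κ) P]`. -/
noncomputable def blP (P : ℕ) (κ : ℝ) : Finset ℕ :=
  (Finset.Ioc P ⌊(1 + κ) * (P : ℝ)⌋₊).filter Nat.Prime

/-- Block D at every scale, nonprincipal characters. -/
def MRCHI1x : Prop :=
  ∀ (q : ℕ) (_ : 1 ≤ q) (χ : DirichletCharacter ℂ q), χ ≠ 1 →
    ∀ ε : ℝ, 0 < ε → ∃ H0 : ℕ, ∀ H : ℕ, H0 ≤ H → ∃ x0 : ℕ, ∀ x : ℕ, x0 ≤ x →
    ∀ b : ℕ → ℝ, (∀ m, |b m| ≤ 1) →
      ∑ n ∈ Finset.Icc 1 x,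
        ‖∑ j ∈ Finset.Icc 1 H, ((b (Om (n + j)) : ℝ) : ℂ) * χ ((n + j : ℕ) : ZMod q)‖ ≤
          ε * H * x

/-- Block D at every scale, principal character. -/
def MRCHI0x : Prop :=
  ∀ (q : ℕ) (_ : 1 ≤ q),
    ∀ ε : ℝ, 0 < ε → ∃ H0 : ℕ, ∀ H : ℕ, H0 ≤ H → ∃ x0 : ℕ, ∀ x : ℕ, x0 ≤ x →
    ∀ b : ℕ → ℝ, (∀ m, |b m| ≤ 1) →
      ∑ n ∈ Finset.Icc 1 x,
        |(∑ j ∈ (Finset.Icc 1 H).filter (fun j => Nat.Coprime (n + j) q), b (Om (n + j))) -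
          (H : ℝ) * ((Nat.totient q : ℝ) / (q : ℝ)) * mx x b| ≤ ε * H * x

/-- Block C' at every scale. -/
def MRAPx : Prop :=
  ∀ q : ℕ, 1 ≤ q → ∀ ε : ℝ, 0 < ε → ∃ H0 : ℕ, ∀ H : ℕ, H0 ≤ H → ∃ x0 : ℕ, ∀ x : ℕ, x0 ≤ x →
    ∀ b : ℕ → ℝ, (∀ m, |b m| ≤ 1) → ∀ r : ℕ,
      ∑ n ∈ Finset.Icc 1 x,
        |∑ j ∈ (Finset.Icc 1 H).filter (fun j => (n + j) % q = r % q),
          (b (Om (n + j)) - mx x b)| ≤ ε * H * x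

/-- Block C at every scale. -/
def EXPx : Prop :=
  ∀ ε : ℝ, 0 < ε → ∃ H0 : ℕ, ∀ H : ℕ, H0 ≤ H → ∃ x0 : ℕ, ∀ x : ℕ, x0 ≤ x →
    ∀ b : ℕ → ℝ, (∀ m, |b m| ≤ 1) → ∀ α : ℝ,
      ∑ n ∈ Finset.Icc 1 x,
        ‖∑ j ∈ Finset.Icc 1 H, ((b (Om (n + j)) - mx x b : ℝ) : ℂ) * eC ((j : ℝ) * α)‖ ≤
          ε * H * x

/-- Block B at every scale; `σ` is free (indicator of a block, signs). -/
def CIRCx : Prop :=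
  ∀ ε : ℝ, 0 < ε → ∃ P0 : ℕ, ∀ P : ℕ, P0 ≤ P → ∃ x0 : ℕ, ∀ x : ℕ,
    x0 ≤ x → ∀ A σ b : ℕ → ℝ, (∀ n, |A n| ≤ 1) → (∀ p, |σ p| ≤ 1) → (∀ m, |b m| ≤ 1) →
      |∑ n ∈ Finset.Icc 1 x, ∑ p ∈ dyP P, σ p * (A n * (b (Om (n + p)) - mx x b))| ≤
        ε * (dyP P).card * x

/-- Block F at every scale: shift invariance of the law of `Ω`, and its slow variation with `x`. -/
def LAW1x : Prop :=
  ∀ ε : ℝ, 0 < ε → ∃ x0 : ℕ, ∀ x : ℕ, x0 ≤ x → ∀ b : ℕ → ℝ, (∀ m, |b m| ≤ 1) →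
    |mx x (up 1 b) - mx x b| ≤ ε ∧ |mx x (dn b) - mx x b| ≤ ε ∧
    ∀ y : ℕ, (x : ℝ) ^ ε ≤ y → y ≤ x → |mx y b - mx x b| ≤ ε

/-- Block F at every scale, the form used in the blocks B and C (`x / d` is natural division). -/
def LAWx : Prop :=
  ∀ ε : ℝ, 0 < ε → ∀ d : ℕ, 1 ≤ d → ∃ x0 : ℕ, ∀ x : ℕ, x0 ≤ x → ∀ b : ℕ → ℝ, (∀ m, |b m| ≤ 1) →
    |mx x (up 1 b) - mx x b| ≤ ε ∧ |mx (x / d) b - mx x b| ≤ ε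

/-- Block F at every scale: the law in short multiplicative windows, with a coprimality
condition. -/
def LAW2x : Prop :=
  ∀ (q : ℕ) (_ : 1 ≤ q) (κ ε : ℝ), 0 < κ → κ ≤ 1 → 0 < ε → ∃ x0 : ℕ, ∀ x : ℕ, x0 ≤ x →
    ∀ b : ℕ → ℝ, (∀ m, |b m| ≤ 1) →
      |(∑ n ∈ (Finset.Ioc x ⌊(1 + κ) * (x : ℝ)⌋₊).filter (fun n => Nat.Coprime n q), b (Om n)) -
        κ * x * ((Nat.totient q : ℝ) / (q : ℝ)) * mx x b| ≤ ε * κ * x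

/-- Product functions in every window `(N / K, N]`, `K ≥ K0`. -/
def PSTARw : Prop :=
  ∀ ε : ℝ, 0 < ε → ∃ K0 N0 : ℕ, ∀ N K : ℕ, N0 ≤ N → K0 ≤ K → K ≤ N → ∀ a b : ℕ → ℝ,
    (∀ m, |a m| ≤ 1) → (∀ m, |b m| ≤ 1) →
      ∑ M ∈ Finset.Ioc (N / K) N, (1 / (M : ℝ)) *
        |(∑ n ∈ Finset.Icc 1 M, a (Om n) * b (Om (n + 1))) / (M : ℝ) - mx M a * mx M b| ≤
          ε * Real.log K

/-- The final theorem: in EVERY window `(N / K, N]`, `K ≥ K0(ε)`, and for every bounded function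
`F` (which may depend on the window). -/
def GOALw : Prop :=
  ∀ ε : ℝ, 0 < ε → ∃ K0 N0 : ℕ, ∀ N K : ℕ, N0 ≤ N → K0 ≤ K → K ≤ N →
    ∀ F : (Fin 2 → ℕ) → ℝ, (∀ ℓ, |F ℓ| ≤ 1) →
    ∑ M ∈ Finset.Ioc (N / K) N, (1 / (M : ℝ)) *
      |(1 / (M : ℝ) * ∑ n ∈ Finset.Icc 1 M,
          F (fun i => ArithmeticFunction.cardFactors (n + i))) -
        1 / (M : ℝ) ^ 2 * ∑ m ∈ Fintype.piFinset (fun _ : Fin 2 => Finset.Icc 1 M),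
          F (fun i => ArithmeticFunction.cardFactors (m i))| ≤ ε * Real.log K

end MRP
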