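import Mathlib
import Pool.Agent.Helper6.MR.Iface

/-!
# Project MR, block E: definitions and statements of all modules

Exponential sums `n^{it}` of every order, growth of `L(s, χ)` slightly to the left of `Re s = 1`,
Landau's lemma, and bounded sums over primes at `1 + it`.
-/

set_option autoImplicit false

namespace MRP.E

open Finset Complex DirichletCharacter

/-- `exp (i x)` -/
noncomputable def ph (x : ℝ) : ℂ := Complex.exp ((x : ℂ) * Complex.I)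

/-- `D 0` is a phase function on `[a, b]` with successive derivatives `D 1, D 2, …`; the `k`-th
derivative has size `lam`, the `(k+1)`-st has size at most `A * lam / N`. -/
def Phase (k : ℕ) (A N lam a b : ℝ) (D : ℕ → ℝ → ℝ) : Prop :=
  (∀ i ≤ k, ∀ x ∈ Set.Icc a b, HasDerivAt (D i) (D (i + 1) x) x) ∧
  (∀ x ∈ Set.Icc a b, lam ≤ D k x ∧ D k x ≤ A * lam) ∧
  (∀ x ∈ Set.Icc a b, |D (k + 1) x| ≤ A * lam / N)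

/-- E01: first derivative test -/
def StFirst : Prop := ∀ (A N lam a b : ℝ) (D : ℕ → ℝ → ℝ), 1 ≤ A → 1 ≤ N → 0 < lam →
  A * lam ≤ 3 → Phase 1 A N lam a b D → ∀ m n : ℤ, a ≤ m → (n : ℝ) ≤ b → (n : ℝ) - m ≤ N →
    ‖∑ j ∈ Finset.Icc m n, ph (D 0 j)‖ ≤ 11 * A / lam

/-- E03: differencing a phase -/
def StDiff : Prop := ∀ (k : ℕ) (A N lam a b h : ℝ) (D : ℕ → ℝ → ℝ), 0 < h → h ≤ b - a →
  Phase (k + 1) A N lam a b D → Phase k A N (h * lam) a (b - h) (fun i x => D i (x + h) - D i x)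

/-- derivative test of order `k`, with a power saving -/
def StOrder (k : ℕ) : Prop := ∀ (A ε : ℝ), 1 ≤ A → 0 < ε → ε < 1 → ∃ c C : ℝ, 0 < c ∧ 0 < C ∧
  ∀ (N lam : ℝ), 1 ≤ N → N ^ (-2 + ε) ≤ lam → lam ≤ N ^ (-ε) →
  ∀ (a b : ℝ) (D : ℕ → ℝ → ℝ), Phase k A N lam a b D → ∀ m n : ℤ, a ≤ m → (n : ℝ) ≤ b →
    (n : ℝ) - m ≤ N → ‖∑ j ∈ Finset.Icc m n, ph (D 0 j)‖ ≤ C * N ^ (1 - c)

/-- E06: sums of `(j + θ)^{it}` over an interval -/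
def StExpSum : Prop := ∀ K : ℕ, ∃ c C : ℝ, 0 < c ∧ 0 < C ∧ ∀ (N θ t : ℝ), 1 ≤ N → 0 ≤ θ → θ ≤ 1 →
  N ^ (1 / 2 : ℝ) ≤ |t| → |t| ≤ N ^ (K : ℝ) → ∀ m n : ℤ, N ≤ m → (n : ℝ) ≤ 2 * N →
    ‖∑ j ∈ Finset.Icc m n, ph (t * Real.log ((j : ℝ) + θ))‖ ≤ C * N ^ (1 - c)

/-- E07: sums of `χ(j) j^{it}` over an interval -/
def StCharSum : Prop := ∀ (q : ℕ), 1 ≤ q → ∀ (χ : DirichletCharacter ℂ q) (K : ℕ), ∃ c C : ℝ,
  0 < c ∧ 0 < C ∧ ∀ (N t : ℝ), 1 ≤ N → N ^ (1 / 2 : ℝ) ≤ |t| → |t| ≤ N ^ (K : ℝ) →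
    ∀ m n : ℕ, N ≤ m → (n : ℝ) ≤ 2 * N →
      ‖∑ j ∈ Finset.Ioc m n, χ ((j : ℕ) : ZMod q) * ph (t * Real.log (j : ℝ))‖ ≤ C * N ^ (1 - c)

/-- E08: Dirichlet polynomials of `χ` close to `Re s = 1` -/
def StPoly : Prop := ∀ (q : ℕ), 1 ≤ q → ∀ (χ : DirichletCharacter ℂ q) (δ : ℝ), 0 < δ → δ ≤ 1 →
  ∃ c C X₀ : ℝ, 0 < c ∧ 0 < C ∧ ∀ X ≥ X₀, ∀ s : ℂ, 1 ≤ |s.im| → |s.im| ≤ 3 * X → 1 - c ≤ s.re →
    s.re ≤ 3 → ∀ M : ℕ, X ^ δ ≤ M → (M : ℝ) ≤ max (X ^ δ + 1) (s.im ^ 2 + 1) →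
      ‖∑ n ∈ Finset.Icc 1 M, χ ((n : ℕ) : ZMod q) * (n : ℂ) ^ (-s)‖ ≤
        ‖∑ n ∈ Finset.Icc 1 ⌊X ^ δ⌋₊, χ ((n : ℕ) : ZMod q) * (n : ℂ) ^ (-s)‖ + C

/-- E09: growth of `L(s, χ)` slightly to the left of `Re s = 1`; the width of the region is
`log log X / (δ log X)` for an arbitrarily small constant `δ` -/
def StGrowth : Prop := ∀ (q : ℕ) [NeZero q] (χ : DirichletCharacter ℂ q) (δ : ℝ), 0 < δ → δ ≤ 1 →
  ∃ X₀ : ℝ, ∀ X ≥ X₀, ∀ s : ℂ, 1 ≤ |s.im| → |s.im| ≤ 3 * X →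
    1 - Real.log (Real.log X) / (δ * Real.log X) ≤ s.re → s.re ≤ 3 →
      ‖LFunction χ s‖ ≤ (Real.log X) ^ 3

/-- E10: Borel and Caratheodory for the logarithmic derivative of a function without zeros -/
def StBorel : Prop := ∀ (g : ℂ → ℂ) (s₀ : ℂ) (r M : ℝ), 0 < r → 0 < M →
  DifferentiableOn ℂ g (Metric.ball s₀ r) → (∀ s ∈ Metric.ball s₀ r, g s ≠ 0) →
  (∀ s ∈ Metric.ball s₀ r, ‖g s‖ ≤ Real.exp M * ‖g s₀‖) →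
    ∀ s ∈ Metric.closedBall s₀ (r / 2), ‖deriv g s / g s‖ ≤ 24 * M / r

/-- E11: local factorisation: the logarithmic derivative in terms of the nearby zeros -/
def StLocal : Prop := ∀ (f : ℂ → ℂ) (s₀ : ℂ) (R M : ℝ), 0 < R → 0 < M →
  (∀ s ∈ Metric.closedBall s₀ R, DifferentiableAt ℂ f s) → f s₀ ≠ 0 →
  (∀ s ∈ Metric.closedBall s₀ R, ‖f s‖ ≤ Real.exp M * ‖f s₀‖) →
    ∃ Z : Multiset ℂ, (∀ ρ ∈ Z, ρ ∈ Metric.closedBall s₀ (R / 3) ∧ f ρ = 0) ∧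
      (∀ ρ ∈ Metric.closedBall s₀ (R / 3), f ρ = 0 → ρ ∈ Z) ∧
      ∀ s ∈ Metric.closedBall s₀ (R / 6), f s ≠ 0 →
        ‖deriv f s / f s - (Z.map (fun ρ => 1 / (s - ρ))).sum‖ ≤ 100 * M / R

/-- E12a: the inequality 3-4-1 for logarithmic derivatives -/
def StThree : Prop := ∀ (q : ℕ) [NeZero q] (χ : DirichletCharacter ℂ q) (x t : ℝ), 0 < x →
  0 ≤ 3 * (-(deriv riemannZeta (1 + x) / riemannZeta (1 + x)).re) -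
    4 * (deriv (LFunction χ) (1 + x + Complex.I * t) / LFunction χ (1 + x + Complex.I * t)).re -
    (deriv (LFunction (χ ^ 2)) (1 + x + Complex.I * (2 * t)) /
      LFunction (χ ^ 2) (1 + x + Complex.I * (2 * t))).re

/-- E12b: trivial bounds to the right of `1` -/
def StTriv : Prop := ∃ C : ℝ, 0 < C ∧ ∀ x : ℝ, 0 < x → x ≤ 1 →
  -(deriv riemannZeta (1 + x) / riemannZeta (1 + x)).re ≤ 1 / x + C ∧
  ∀ (q : ℕ) [NeZero q] (χ : DirichletCharacter ℂ q) (t : ℝ),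
    ‖deriv (LFunction χ) (1 + x + Complex.I * t) / LFunction χ (1 + x + Complex.I * t)‖ ≤
      1 / x + C ∧
    1 ≤ (2 / x) * ‖LFunction χ (1 + x + Complex.I * t)‖

/-- E13/E14: Landau's lemma. `L'/L(1 + η + it) ≪ δ log X`, absolute constant -/
def StLandau : Prop := ∃ C : ℝ, 0 < C ∧ ∀ (q : ℕ) [NeZero q] (χ : DirichletCharacter ℂ q) (δ : ℝ),
  0 < δ → δ ≤ 1 → ∃ X₀ : ℝ, ∀ X ≥ X₀, ∀ t η : ℝ, 2 ≤ |t| → |t| ≤ X → 0 < η →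
    η ≤ 1 / (δ * Real.log X) →
    ‖deriv (LFunction χ) (1 + η + Complex.I * t) / LFunction χ (1 + η + Complex.I * t)‖ ≤
      C * (δ * Real.log X)

/-- E15: from the logarithmic derivative to sums over primes -/
def StIntegral : Prop := ∀ (q : ℕ) [NeZero q] (χ : DirichletCharacter ℂ q) (t a b B : ℝ), 0 < a →
  a ≤ b → b ≤ 1 → 0 ≤ B → (∀ η : ℝ, a ≤ η → η ≤ b →
    ‖deriv (LFunction χ) (1 + η + Complex.I * t) / LFunction χ (1 + η + Complex.I * t)‖ ≤ B) →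
    ‖∑' p : Nat.Primes, χ ((p : ℕ) : ZMod q) * ((p : ℕ) : ℂ) ^ (-(1 + (t : ℂ) * Complex.I)) *
      ((((p : ℕ) : ℝ) ^ (-a) - ((p : ℕ) : ℝ) ^ (-b) : ℝ) : ℂ)‖ ≤ (b - a) * B + 4

/-- E16: comparison of smooth and sharp ranges of primes -/
def StCompare : Prop := ∃ C : ℝ, 0 < C ∧ ∀ (u : ℕ → ℂ) (Y₁ Y₂ : ℝ), (∀ n, ‖u n‖ ≤ 1) →
  3 ≤ Y₁ → Y₁ ≤ Y₂ →
    ‖∑ p ∈ (Finset.Ioc ⌊Y₁⌋₊ ⌊Y₂⌋₊).filter Nat.Prime, u p / (p : ℂ)‖ ≤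
      ‖∑' p : Nat.Primes, u p / ((p : ℕ) : ℂ) *
        ((((p : ℕ) : ℝ) ^ (-(1 / Real.log Y₂)) - ((p : ℕ) : ℝ) ^ (-(1 / Real.log Y₁)) : ℝ) : ℂ)‖
        + C

/-- E17: bounded `t`, nonprincipal character -/
def StSmallT : Prop := ∀ (q : ℕ) [NeZero q] (χ : DirichletCharacter ℂ q) (T : ℝ), χ ≠ 1 →
  ∃ B : ℝ, 0 < B ∧ ∀ x t : ℝ, 0 < x → x ≤ 1 → |t| ≤ T →
    ‖deriv (LFunction χ) (1 + x + Complex.I * t) / LFunction χ (1 + x + Complex.I * t)‖ ≤ B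

end MRP.E
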