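import Mathlib
import Pool.Agent.Helper6.MR.EDefs

/-!
# E01: first derivative test without monotonicity

PROOF.  If `n < m` the sum is empty.  Put `Δ_j = D 0 (j+1) - D 0 j` for `m ≤ j ≤ n-1`.  By the mean value theorem
(`exists_hasDerivAt_eq_slope` or `Convex.norm_image_sub_le...`) `lam ≤ Δ_j ≤ A*lam ≤ 3`.  Put `w_j = ph Δ_j - 1`; then
`‖w_j‖ = 2 |sin (Δ_j/2)| ≥ (2/π) Δ_j ≥ lam/2` (`Real.mul_le_sin` / `Real.mul_abs_le_abs_sin`, `Δ_j/2 ≤ π/2`), and
`ph (D 0 j) = (ph (D 0 (j+1)) - ph (D 0 j)) / w_j`.  Abel summation over `j = m .. n-1`: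
the sum is at most `2/lam + 2/lam + ∑_{j=m+1}^{n-1} |1/w_j - 1/w_{j-1}|`, and
`|1/w_j - 1/w_{j-1}| ≤ |ph Δ_j - ph Δ_{j-1}| / (|w_j| |w_{j-1}|) ≤ (4/lam^2) |Δ_j - Δ_{j-1}| ≤ (4/lam^2) (A lam/N)`
(`Δ_j - Δ_{j-1}` is the increment over `[j-1, j]` of `x ↦ D 0 (x+1) - D 0 x` whose derivative is `D 1 (x+1) - D 1 x`, of size
`≤ sup |D 2| ≤ A lam / N`).  There are at most `N` terms.  The last term `j = n` is `≤ 1 ≤ 3/(A lam) ≤ 3A/lam`.  Total
`≤ (4 + 4A + 3A)/lam ≤ 11 A/lam`.  (See `Pool/Agent/Helper8/Order/ExpSum.lean`, `slow_sum`, for a similar proof; it may be used: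
import it if convenient.)
-/

set_option autoImplicit false

namespace MRP.E

open Finset Complex DirichletCharacter

private lemma e01_cexp_sub_le (x y : ℝ) :
    ‖Complex.exp ((x : ℝ) * Complex.I) - Complex.exp ((y : ℝ) * Complex.I)‖ ≤ |x - y| := by
  have h1 : Complex.exp ((x : ℝ) * Complex.I) - Complex.exp ((y : ℝ) * Complex.I)
      = Complex.exp ((y : ℝ) * Complex.I) * (Complex.exp (Complex.I * ((x - y : ℝ) : ℂ)) - 1) := by
    rw [mul_sub, ← Complex.exp_add, mul_one]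
    congr 2
    push_cast; ring
  rw [h1, norm_mul, Complex.norm_exp_ofReal_mul_I, one_mul]
  have := Real.norm_exp_I_mul_ofReal_sub_one_le (x := x - y)
  simpa [Real.norm_eq_abs] using this

private lemma e01_cexp_sub_one_ge (x : ℝ) (hx : |x| ≤ 3) :
    |x| / 2 ≤ ‖Complex.exp ((x : ℝ) * Complex.I) - 1‖ := by
  have h1 : ‖Complex.exp (Complex.I * (x : ℂ)) - 1‖ = ‖2 * Real.sin (x / 2)‖ :=
    Complex.norm_exp_I_mul_ofReal_sub_one x
  rw [mul_comm, h1, norm_mul, Real.norm_eq_abs, Real.norm_eq_abs, abs_two]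
  have hpi := Real.pi_gt_three
  have hpi4 := Real.pi_lt_four
  have h2 := Real.mul_abs_le_abs_sin (x := x / 2) (by rw [abs_div, abs_two]; linarith)
  rw [abs_div, abs_two] at h2
  have h3 : 1 / 2 ≤ 2 / Real.pi := by
    rw [div_le_div_iff₀ (by norm_num) (by linarith)]; linarith
  have h4 : 1 / 2 * (|x| / 2) ≤ 2 / Real.pi * (|x| / 2) :=
    mul_le_mul_of_nonneg_right h3 (by positivity)
  linarith

private lemma e01_slow (θ : ℕ → ℝ) (K : ℕ) (lam ν : ℝ) (hlam : 0 < lam) (hν : 0 ≤ ν)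
    (h1 : ∀ n, n ≤ K → lam ≤ |θ (n + 1) - θ n|)
    (h2 : ∀ n, n ≤ K → |θ (n + 1) - θ n| ≤ 3)
    (h3 : ∀ n, n < K → |(θ (n + 2) - θ (n + 1)) - (θ (n + 1) - θ n)| ≤ ν) :
    ‖∑ n ∈ range (K + 1), Complex.exp ((θ n : ℝ) * Complex.I)‖
      ≤ 4 / lam + (K : ℝ) * (4 * ν / lam ^ 2) := by
  set z : ℕ → ℂ := fun n => Complex.exp ((θ n : ℝ) * Complex.I) with hz
  set w : ℕ → ℂ := fun n => Complex.exp (((θ (n + 1) - θ n : ℝ) : ℂ) * Complex.I) - 1 with hw
  have hwlb : ∀ n, n ≤ K → lam / 2 ≤ ‖w n‖ := by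
    intro n hb
    have := e01_cexp_sub_one_ge (θ (n + 1) - θ n) (h2 n hb)
    have := h1 n hb
    simp only [hw]; linarith
  have hw0 : ∀ n, n ≤ K → w n ≠ 0 := by
    intro n hb h
    have := hwlb n hb
    rw [h, norm_zero] at this
    linarith
  have hzw : ∀ n, z (n + 1) - z n = z n * w n := by
    intro n
    simp only [hz, hw]
    rw [mul_sub, ← Complex.exp_add, mul_one]
    congr 2
    push_cast; ring
  have hz1 : ∀ n, ‖z n‖ = 1 := fun n => Complex.norm_exp_ofReal_mul_I _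
  have hinv : ∀ n, n ≤ K → ‖(w n)⁻¹‖ ≤ 2 / lam := by
    intro n hb
    rw [norm_inv]
    have h := hwlb n hb
    rw [inv_le_comm₀ (by linarith) (by positivity), inv_div]
    exact h
  have hdiff : ∀ n, n < K → ‖(w (n + 1))⁻¹ - (w n)⁻¹‖ ≤ 4 * ν / lam ^ 2 := by
    intro n hb
    have e : (w (n + 1))⁻¹ - (w n)⁻¹ = (w n - w (n + 1)) * ((w (n + 1))⁻¹ * (w n)⁻¹) := by
      have h1 := hw0 n hb.le
      have h2 := hw0 (n + 1) (by omega)
      field_simp
    have h4 : ‖w n - w (n + 1)‖ ≤ ν := by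
      have e2 : w n - w (n + 1) = Complex.exp (((θ (n + 1) - θ n : ℝ) : ℂ) * Complex.I)
          - Complex.exp (((θ (n + 1 + 1) - θ (n + 1) : ℝ) : ℂ) * Complex.I) := by
        simp only [hw]; ring
      rw [e2]
      refine (e01_cexp_sub_le _ _).trans ?_
      rw [abs_sub_comm]
      exact h3 n hb
    rw [e, norm_mul, norm_mul]
    have i1 := hinv (n + 1) (by omega)
    have i2 := hinv n hb.le
    calc ‖w n - w (n + 1)‖ * (‖(w (n + 1))⁻¹‖ * ‖(w n)⁻¹‖)
        ≤ ν * (2 / lam * (2 / lam)) := by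
          apply mul_le_mul h4 (mul_le_mul i1 i2 (norm_nonneg _) (by positivity)) (by positivity) hν
      _ = 4 * ν / lam ^ 2 := by field_simp; ring
  have key : ∀ k, k ≤ K →
      ‖∑ n ∈ range (k + 1), z n - ((w k)⁻¹ * z (k + 1) - (w 0)⁻¹ * z 0)‖
        ≤ k * (4 * ν / lam ^ 2) := by
    intro k
    induction k with
    | zero =>
      intro _
      have h5 := hzw 0
      have h6 := hw0 0 (by omega)
      have e : ∑ n ∈ range (0 + 1), z n - ((w 0)⁻¹ * z (0 + 1) - (w 0)⁻¹ * z 0) = 0 := by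
        rw [zero_add, Finset.sum_range_one]
        have h7 : z 1 = z 0 + z 0 * w 0 := by
          rw [← h5]; ring
        rw [h7]
        field_simp
        ring
      rw [e]
      simp
    | succ k ih =>
      intro hk
      have ih' := ih (by omega)
      rw [Finset.sum_range_succ]
      have e : ∑ n ∈ range (k + 1), z n + z (k + 1)
          - ((w (k + 1))⁻¹ * z (k + 1 + 1) - (w 0)⁻¹ * z 0)
          = (∑ n ∈ range (k + 1), z n - ((w k)⁻¹ * z (k + 1) - (w 0)⁻¹ * z 0))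
            - ((w (k + 1))⁻¹ - (w k)⁻¹) * z (k + 1) := by
        have h5 := hzw (k + 1)
        have h6 := hw0 (k + 1) (by omega)
        have h7 : (w (k + 1))⁻¹ * z (k + 1 + 1)
            = (w (k + 1))⁻¹ * z (k + 1) + z (k + 1) := by
          have : z (k + 1 + 1) = z (k + 1) + z (k + 1) * w (k + 1) := by
            rw [← h5]; ring
          rw [this]; field_simp
        rw [h7]; ring
      rw [e]
      refine (norm_sub_le _ _).trans ?_
      rw [norm_mul, hz1, mul_one]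
      have := hdiff k (by omega)
      push_cast
      linarith
  have hk := key K le_rfl
  have h8 : ‖(w K)⁻¹ * z (K + 1) - (w 0)⁻¹ * z 0‖ ≤ 4 / lam := by
    refine (norm_sub_le _ _).trans ?_
    rw [norm_mul, norm_mul, hz1, hz1, mul_one, mul_one]
    have i1 := hinv K le_rfl
    have i2 := hinv 0 (Nat.zero_le _)
    have : 4 / lam = 2 / lam + 2 / lam := by ring
    linarith
  have h9 := norm_sub_norm_le (∑ n ∈ range (K + 1), z n)
    ((w K)⁻¹ * z (K + 1) - (w 0)⁻¹ * z 0)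
  linarith

private lemma e01_mvt {f f' : ℝ → ℝ} {a b x : ℝ}
    (h : ∀ y ∈ Set.Icc a b, HasDerivAt f (f' y) y) (hx : a ≤ x) (hx' : x + 1 ≤ b) :
    ∃ c ∈ Set.Ioo x (x + 1), f' c = f (x + 1) - f x := by
  have hsub : ∀ y ∈ Set.Icc x (x + 1), HasDerivAt f (f' y) y := fun y hy =>
    h y ⟨hx.trans hy.1, hy.2.trans hx'⟩
  obtain ⟨c, hc, he⟩ := exists_hasDerivAt_eq_slope f f' (by linarith : x < x + 1)
    (fun y hy => (hsub y hy).continuousAt.continuousWithinAt)
    (fun y hy => hsub y (Set.Ioo_subset_Icc_self hy))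
  refine ⟨c, hc, ?_⟩
  rw [he, add_sub_cancel_left, div_one]

theorem stFirst : StFirst := by
  intro A N lam a b D hA hN hlam hAlam hPh m n ham hnb hnm
  obtain ⟨hd, hb1, hb2⟩ := hPh
  have hd0 : ∀ x ∈ Set.Icc a b, HasDerivAt (D 0) (D 1 x) x := fun x hx => hd 0 (by norm_num) x hx
  have hd1 : ∀ x ∈ Set.Icc a b, HasDerivAt (D 1) (D 2 x) x := fun x hx => hd 1 le_rfl x hx
  have hbig : 1 ≤ 3 * A / lam := by
    rw [le_div_iff₀ hlam]
    nlinarith
  have hA0 : 0 < A := by linarith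
  by_cases hmn : n < m
  · rw [Finset.Icc_eq_empty (by omega)]
    simp only [Finset.sum_empty, norm_zero]
    positivity
  push Not at hmn
  obtain ⟨L, hL⟩ : ∃ L : ℕ, n = m + L := ⟨(n - m).toNat, by omega⟩
  have hsum : ∑ j ∈ Finset.Icc m n, ph (D 0 j) =
      ∑ i ∈ range (L + 1), ph (D 0 ((m : ℝ) + i)) := by
    symm
    apply Finset.sum_bij (fun (i : ℕ) _ => m + (i : ℤ))
    · intro i hi
      rw [Finset.mem_range] at hi
      rw [Finset.mem_Icc]
      omega
    · intro i _ j _ hij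
      omega
    · intro j hj
      rw [Finset.mem_Icc] at hj
      exact ⟨(j - m).toNat, by rw [Finset.mem_range]; omega, by omega⟩
    · intro i _
      push_cast
      rfl
  rw [hsum]
  have hnorm : ∀ x : ℝ, ‖ph x‖ = 1 := fun x => Complex.norm_exp_ofReal_mul_I x
  rcases Nat.eq_zero_or_pos L with h0 | hpos
  · subst h0
    rw [zero_add, Finset.sum_range_one, hnorm]
    refine hbig.trans ?_
    exact div_le_div_of_nonneg_right (by linarith) hlam.le
  · obtain ⟨K, rfl⟩ : ∃ K, L = K + 1 := ⟨L - 1, by omega⟩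
    have hKb : (m : ℝ) + ((K : ℝ) + 1) ≤ b := by
      have : (n : ℝ) = (m : ℝ) + ((K : ℝ) + 1) := by
        rw [hL]
        push_cast
        ring
      linarith
    have hKN : (K : ℝ) ≤ N := by
      have : (n : ℝ) = (m : ℝ) + ((K : ℝ) + 1) := by
        rw [hL]
        push_cast
        ring
      linarith
    have hinc : ∀ i : ℕ, i ≤ K → lam ≤ D 0 ((m : ℝ) + ((i + 1 : ℕ) : ℝ)) - D 0 ((m : ℝ) + i) ∧
        D 0 ((m : ℝ) + ((i + 1 : ℕ) : ℝ)) - D 0 ((m : ℝ) + i) ≤ A * lam := by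
      intro i hi
      have hi' : (i : ℝ) ≤ K := by exact_mod_cast hi
      have hi0 : (0 : ℝ) ≤ i := Nat.cast_nonneg i
      obtain ⟨c, hc, he⟩ := e01_mvt (x := (m : ℝ) + i) hd0 (by linarith) (by linarith)
      have e : (m : ℝ) + ((i + 1 : ℕ) : ℝ) = (m : ℝ) + i + 1 := by push_cast; ring
      rw [e, ← he]
      exact hb1 c ⟨by linarith [hc.1], by linarith [hc.2]⟩
    rw [Finset.sum_range_succ]
    refine (norm_add_le _ _).trans ?_
    rw [hnorm]
    have hslow := e01_slow (fun i => D 0 ((m : ℝ) + i)) K lam (A * lam / N) hlam (by positivity)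
      (fun i hi => (hinc i hi).1.trans (le_abs_self _))
      (fun i hi => by
        rw [abs_of_nonneg (hlam.le.trans (hinc i hi).1)]
        exact (hinc i hi).2.trans hAlam)
      (fun i hi => by
        have hi' : (i : ℝ) + 1 ≤ K := by exact_mod_cast hi
        have hi0 : (0 : ℝ) ≤ i := Nat.cast_nonneg i
        have hg : ∀ y ∈ Set.Icc a (b - 1), HasDerivAt (fun y => D 0 (y + 1) - D 0 y)
            ((fun y => D 1 (y + 1) - D 1 y) y) y := by
          intro y hy
          have e1 : HasDerivAt (fun y => D 0 (y + 1)) (D 1 (y + 1)) y := by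
            have := (hd0 (y + 1) ⟨by linarith [hy.1], by linarith [hy.2]⟩).comp_add_const y 1
            exact this
          exact e1.sub (hd0 y ⟨hy.1, by linarith [hy.2]⟩)
        obtain ⟨c, hc, he⟩ := e01_mvt (x := (m : ℝ) + i) hg (by linarith) (by linarith)
        obtain ⟨c', hc', he'⟩ := e01_mvt (x := c) hd1 (by linarith [hc.1]) (by linarith [hc.2])
        have e1 : (m : ℝ) + ((i + 1 : ℕ) : ℝ) = (m : ℝ) + i + 1 := by push_cast; ring
        have e2 : (m : ℝ) + ((i + 2 : ℕ) : ℝ) = (m : ℝ) + i + 1 + 1 := by push_cast; ring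
        rw [e1, e2]
        have e3 : D 0 ((m : ℝ) + i + 1 + 1) - D 0 ((m : ℝ) + i + 1) -
            (D 0 ((m : ℝ) + i + 1) - D 0 ((m : ℝ) + i)) = D 2 c' := by
          rw [he']
          exact he.symm
        rw [e3]
        exact hb2 c' ⟨by linarith [hc.1, hc'.1], by linarith [hc.2, hc'.2]⟩)
    have hslow' : ‖∑ i ∈ range (K + 1), ph (D 0 ((m : ℝ) + i))‖ ≤
        4 / lam + (K : ℝ) * (4 * (A * lam / N) / lam ^ 2) := hslow
    have h5 : (K : ℝ) * (4 * (A * lam / N) / lam ^ 2) ≤ 4 * A / lam := by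
      have e : (K : ℝ) * (4 * (A * lam / N) / lam ^ 2) = ((K : ℝ) / N) * (4 * A / lam) := by
        field_simp
      rw [e]
      have : (K : ℝ) / N ≤ 1 := by
        rw [div_le_one (by linarith)]
        exact hKN
      calc ((K : ℝ) / N) * (4 * A / lam) ≤ 1 * (4 * A / lam) :=
            mul_le_mul_of_nonneg_right this (by positivity)
        _ = 4 * A / lam := one_mul _
    have h6 : (4 : ℝ) / lam ≤ 4 * A / lam := div_le_div_of_nonneg_right (by linarith) hlam.le
    have h7 : 11 * A / lam = 4 * A / lam + 4 * A / lam + 3 * A / lam := by ring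
    rw [h7]
    linarith

end MRP.E
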