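import Mathlib
import Pool.Agent.Helper6.MR.EDefs

/-!
# E03: differencing a phase

PROOF.  For `x ∈ [a, b-h]` both `x` and `x+h` are in `[a,b]`.  `HasDerivAt` of the difference: `HasDerivAt.comp_add_const`,
`HasDerivAt.sub`.  `D k (x+h) - D k x = h * D (k+1) ξ` with `ξ ∈ [x, x+h]` (mean value theorem `exists_hasDerivAt_eq_slope`,
continuity from `HasDerivAt`), hence in `[h*lam, A*(h*lam)]`.  In the same way `|D (k+1) (x+h) - D (k+1) x| = h |D (k+2) ξ| ≤ h A lam/N`.
-/

set_option autoImplicit false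

namespace MRP.E

open Finset Complex DirichletCharacter

theorem stDiff : StDiff := by
  intro k A N lam a b h D hh hba hP
  obtain ⟨h1, h2, h3⟩ := hP
  have hmem : ∀ x ∈ Set.Icc a (b - h), ∀ ξ ∈ Set.Icc x (x + h), ξ ∈ Set.Icc a b := by
    intro x hx ξ hξ
    exact ⟨hx.1.trans hξ.1, by linarith [hξ.2, hx.2]⟩
  have hmvt : ∀ i ≤ k + 1, ∀ x ∈ Set.Icc a (b - h), ∃ ξ ∈ Set.Icc a b,
      D i (x + h) - D i x = h * D (i + 1) ξ := by
    intro i hi x hx
    obtain ⟨ξ, hξ, hξ'⟩ := exists_hasDerivAt_eq_slope (D i) (D (i + 1))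
      (show x < x + h by linarith)
      (fun y hy => (h1 i hi y (hmem x hx y hy)).continuousAt.continuousWithinAt)
      (fun y hy => h1 i hi y (hmem x hx y ⟨hy.1.le, hy.2.le⟩))
    refine ⟨ξ, hmem x hx ξ ⟨hξ.1.le, hξ.2.le⟩, ?_⟩
    rw [hξ', add_sub_cancel_left]
    field_simp
  refine ⟨?_, ?_, ?_⟩
  · intro i hi x hx
    have e1 := h1 i (by omega) (x + h) (hmem x hx _ ⟨by linarith, le_rfl⟩)
    have e2 := h1 i (by omega) x (hmem x hx _ ⟨le_rfl, by linarith⟩)
    exact (e1.comp_add_const x h).sub e2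
  · intro x hx
    obtain ⟨ξ, hξ, e⟩ := hmvt k (by omega) x hx
    have e3 := h2 ξ hξ
    constructor
    · change h * lam ≤ D k (x + h) - D k x
      rw [e]
      exact mul_le_mul_of_nonneg_left e3.1 hh.le
    · change D k (x + h) - D k x ≤ A * (h * lam)
      rw [e, show A * (h * lam) = h * (A * lam) by ring]
      exact mul_le_mul_of_nonneg_left e3.2 hh.le
  · intro x hx
    obtain ⟨ξ, hξ, e⟩ := hmvt (k + 1) le_rfl x hx
    change |D (k + 1) (x + h) - D (k + 1) x| ≤ A * (h * lam) / N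
    rw [e, abs_mul, abs_of_pos hh, show A * (h * lam) / N = h * (A * lam / N) by ring]
    exact mul_le_mul_of_nonneg_left (h3 ξ hξ) hh.le

end MRP.E
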