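import Mathlib
import Pool.Agent.Helper6.MR.EDefs
import Pool.Agent.Helper42.Rec.ExpSum

/-!
# E04: second derivative test with a power saving

PROOF.  Given `A, ε` put `η = ε/4` and let `N₀` be large in terms of `A, ε`; for `N < N₀` use the trivial bound `N + 1 ≤ 2N₀`
(choose `C` accordingly; note `N ^ (1-c) ≥ 1`).  For `N ≥ N₀` put `J = ⌈N^η⌉`, `Dd = ⌈N^(-1+η)/lam⌉` (natural numbers `≥ 1`).  Since
`lam ≥ N^(-2+4η)`: `N^(-1+η)/lam ≤ N^(1-3η)`, so `Dd ≤ 2 N^(1-3η)`, `J*Dd ≤ 4 N^(1-2η)`, and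
`J*Dd*lam*A ≤ 2 N^η (N^(-1+η) + lam) A ≤ 2A (N^(-1+2η) + N^(-3η)) ≤ 3`.
Apply `Pool.Agent.Helper50.Rec.ExpSum.vdc_int m n (fun j => ph (D 0 j)) J Dd`.  For the shift
`h = j*Dd`, `1 ≤ j < J`: `ph (D 0 (i+h)) * conj (ph (D 0 i)) = ph (D 0 (i+h) - D 0 i)`; by `StDiff` (k = 1) this is a phase of order `1`
with `h*lam` on `[a, b-h]` (if `h > b - a` the sum over `Icc m (n-h)` is empty) and `A*(h*lam) ≤ 3`, so by `StFirst`
the correlation is `≤ 11A/(h*lam) ≤ 11A/(Dd*lam) ≤ 11 A N^(1-η) =: T`.  Hence `‖S‖^2 ≤ (N+1+J*Dd) ((N+1)/J + T)`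
and `c = η/2` works.
-/

set_option autoImplicit false

namespace MRP.E

open Finset Complex DirichletCharacter

theorem ph_norm (x : ℝ) : ‖ph x‖ = 1 := by
  unfold ph
  rw [Complex.norm_exp_ofReal_mul_I]

theorem ph_conj (x y : ℝ) : ph x * (starRingEnd ℂ) (ph y) = ph (x - y) := by
  unfold ph
  rw [← Complex.exp_conj, ← Complex.exp_add]
  congr 1
  rw [map_mul, Complex.conj_ofReal, Complex.conj_I]
  push_cast
  ring

theorem e04_card (m n : ℤ) (N : ℝ) (hN : 1 ≤ N) (h : (n : ℝ) - m ≤ N) :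
    ((Icc m n).card : ℝ) ≤ 2 * N := by
  rw [Int.card_Icc]
  rcases le_or_gt m n with hmn | hmn
  · have h1 : (0 : ℤ) ≤ n + 1 - m := by omega
    have h2 : (((n + 1 - m).toNat : ℕ) : ℝ) = (n : ℝ) + 1 - m := by
      have : (((n + 1 - m).toNat : ℕ) : ℤ) = n + 1 - m := Int.toNat_of_nonneg h1
      have h3 : ((((n + 1 - m).toNat : ℕ) : ℤ) : ℝ) = ((n + 1 - m : ℤ) : ℝ) := by rw [this]
      push_cast at h3
      rw [← h3]
    rw [h2]
    linarith
  · have h1 : (n + 1 - m).toNat = 0 := by omega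
    rw [h1]
    push_cast
    linarith

theorem e04_triv (m n : ℤ) (N : ℝ) (hN : 1 ≤ N) (h : (n : ℝ) - m ≤ N) (g : ℝ → ℝ) :
    ‖∑ j ∈ Icc m n, ph (g j)‖ ≤ 2 * N := by
  refine (norm_sum_le _ _).trans ?_
  rw [Finset.sum_congr rfl fun (j : ℤ) _ => ph_norm (g (j : ℝ)), Finset.sum_const, nsmul_eq_mul,
    mul_one]
  exact e04_card m n N hN h

theorem e04_fin (S E F N A η : ℝ) (hN : 1 ≤ N) (hA : 1 ≤ A)
    (h : S ^ 2 ≤ E * F) (h1 : E ≤ 6 * N) (h2 : F ≤ (2 + 11 * A) * N ^ (1 - η)) (h3 : 0 ≤ F) :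
    S ≤ 6 * (2 + 11 * A) * N ^ (1 - η / 2) := by
  have hN0 : 0 < N := by linarith
  have h19 : (N ^ (1 - η / 2)) ^ 2 = N * N ^ (1 - η) := by
    rw [← Real.rpow_natCast, ← Real.rpow_mul hN0.le]
    have h20 : N * N ^ (1 - η) = N ^ (1 : ℝ) * N ^ (1 - η) := by rw [Real.rpow_one]
    rw [h20, ← Real.rpow_add hN0]
    congr 1
    push_cast
    ring
  have h4 : E * F ≤ (6 * N) * ((2 + 11 * A) * N ^ (1 - η)) :=
    mul_le_mul h1 h2 h3 (by linarith)
  have h5 : (6 * N) * ((2 + 11 * A) * N ^ (1 - η)) = (6 * (2 + 11 * A)) * (N ^ (1 - η / 2)) ^ 2 := by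
    rw [h19]; ring
  have h6 : (6 * (2 + 11 * A)) * (N ^ (1 - η / 2)) ^ 2 ≤
      ((6 * (2 + 11 * A)) * N ^ (1 - η / 2)) ^ 2 := by
    rw [mul_pow]
    refine mul_le_mul_of_nonneg_right ?_ (sq_nonneg _)
    have : 1 ≤ 6 * (2 + 11 * A) := by linarith
    nlinarith
  have h7 : 0 ≤ (6 * (2 + 11 * A)) * N ^ (1 - η / 2) :=
    mul_nonneg (by linarith) (Real.rpow_nonneg hN0.le _)
  exact le_of_sq_le_sq (by linarith) h7

theorem stOrder_two (h1 : StFirst) (h2 : StDiff) : StOrder 2 := by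
  intro A ε hA hε hε1
  set η : ℝ := ε / 4 with hη
  have hη0 : 0 < η := by positivity
  have hη1 : η < 1 / 4 := by rw [hη]; linarith
  have hε4 : ε = 4 * η := by rw [hη]; ring
  set N₀ : ℝ := (2 * A) ^ (1 / (2 * η)) with hN₀
  have hA0 : 0 < A := by linarith
  have hN₀1 : 1 ≤ N₀ := by
    rw [hN₀]
    exact Real.one_le_rpow (by linarith) (by positivity)
  refine ⟨η / 2, 2 * N₀ + 6 * (2 + 11 * A), by positivity, by positivity, ?_⟩
  intro N lam hN hl1 hl2 a b D hPh m n ham hnb hmn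
  have hN0 : 0 < N := by linarith
  have hpow1 : 1 ≤ N ^ (1 - η / 2) := Real.one_le_rpow hN (by linarith)
  rcases lt_or_ge N N₀ with hlt | hge
  · -- trivial bound
    calc ‖∑ j ∈ Icc m n, ph (D 0 j)‖ ≤ 2 * N := e04_triv m n N hN hmn (D 0)
      _ ≤ 2 * N₀ * 1 := by linarith
      _ ≤ (2 * N₀ + 6 * (2 + 11 * A)) * N ^ (1 - η / 2) := by
          refine mul_le_mul ?_ hpow1 zero_le_one ?_
          · linarith
          · positivity
  · have hlam : 0 < lam := lt_of_lt_of_le (Real.rpow_pos_of_pos hN0 _) hl1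
    set U : ℝ := N ^ η with hU
    have hU1 : 1 ≤ U := Real.one_le_rpow hN hη0.le
    set V : ℝ := N ^ (-1 + η) / lam with hV
    have hV0 : 0 < V := div_pos (Real.rpow_pos_of_pos hN0 _) hlam
    have hVle : V ≤ N ^ (1 - 3 * η) := by
      rw [hV, div_le_iff₀ hlam]
      have h3 : N ^ (1 - 3 * η) * N ^ (-2 + ε) ≤ N ^ (1 - 3 * η) * lam :=
        mul_le_mul_of_nonneg_left hl1 (Real.rpow_nonneg hN0.le _)
      refine le_trans (le_of_eq ?_) h3
      rw [← Real.rpow_add hN0, hε4]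
      congr 1
      ring
    set J : ℕ := ⌈U⌉₊ with hJ
    set Dd : ℕ := ⌈V⌉₊ with hDd
    have hJ1 : U ≤ J := Nat.le_ceil U
    have hJ2 : (J : ℝ) ≤ 2 * U := by
      have := (Nat.ceil_lt_add_one (by linarith : (0 : ℝ) ≤ U)).le
      rw [← hJ] at this
      linarith
    have hJpos : 1 ≤ J := by
      have : (1 : ℝ) ≤ J := le_trans hU1 hJ1
      exact_mod_cast this
    have hD1 : V ≤ Dd := Nat.le_ceil V
    have hD2 : (Dd : ℝ) ≤ V + 1 := by
      have := (Nat.ceil_lt_add_one hV0.le).le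
      rw [← hDd] at this
      exact this
    have hDpos : 0 < Dd := Nat.ceil_pos.2 hV0
    have hD3 : (Dd : ℝ) ≤ 2 * N ^ (1 - 3 * η) := by
      have : 1 ≤ N ^ (1 - 3 * η) := Real.one_le_rpow hN (by linarith)
      linarith
    have hJD : (J : ℝ) * Dd ≤ 4 * N := by
      have h3 : (J : ℝ) * Dd ≤ (2 * U) * (2 * N ^ (1 - 3 * η)) :=
        mul_le_mul hJ2 hD3 (Nat.cast_nonneg _) (by linarith)
      have h4 : (2 * U) * (2 * N ^ (1 - 3 * η)) = 4 * N ^ (1 - 2 * η) := by
        have : U * N ^ (1 - 3 * η) = N ^ (1 - 2 * η) := by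
          rw [hU, ← Real.rpow_add hN0]
          congr 1
          ring
        calc (2 * U) * (2 * N ^ (1 - 3 * η)) = 4 * (U * N ^ (1 - 3 * η)) := by ring
          _ = _ := by rw [this]
      have h5 : N ^ (1 - 2 * η) ≤ N := by
        calc N ^ (1 - 2 * η) ≤ N ^ (1 : ℝ) := Real.rpow_le_rpow_of_exponent_le hN (by linarith)
          _ = N := Real.rpow_one N
      rw [h4] at h3
      linarith
    -- the condition of the first derivative test
    have hkey : A * ((J : ℝ) * Dd * lam) ≤ 3 := by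
      have h3 : (Dd : ℝ) * lam ≤ N ^ (-1 + η) + N ^ (-(4 * η)) := by
        have h4 : (Dd : ℝ) * lam ≤ (V + 1) * lam := mul_le_mul_of_nonneg_right hD2 hlam.le
        have h5 : V * lam = N ^ (-1 + η) := by
          rw [hV]; exact div_mul_cancel₀ _ hlam.ne'
        rw [hε4] at hl2
        nlinarith
      have h6 : (J : ℝ) * ((Dd : ℝ) * lam) ≤ (2 * U) * (N ^ (-1 + η) + N ^ (-(4 * η))) :=
        mul_le_mul hJ2 h3 (by positivity) (by linarith)
      have h7 : U * N ^ (-1 + η) ≤ N ^ (-(2 * η)) := by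
        rw [hU, ← Real.rpow_add hN0]
        exact Real.rpow_le_rpow_of_exponent_le hN (by linarith)
      have h8 : U * N ^ (-(4 * η)) ≤ N ^ (-(2 * η)) := by
        rw [hU, ← Real.rpow_add hN0]
        exact Real.rpow_le_rpow_of_exponent_le hN (by linarith)
      have h9 : 2 * A ≤ N ^ (2 * η) := by
        have h10 : N₀ ^ (2 * η) ≤ N ^ (2 * η) :=
          Real.rpow_le_rpow (by linarith) hge (by positivity)
        have h11 : N₀ ^ (2 * η) = 2 * A := by
          rw [hN₀, ← Real.rpow_mul (by linarith)]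
          have : 1 / (2 * η) * (2 * η) = 1 := by field_simp
          rw [this, Real.rpow_one]
        linarith
      have h12 : A * N ^ (-(2 * η)) ≤ 1 / 2 := by
        rw [Real.rpow_neg hN0.le, ← div_eq_mul_inv, div_le_iff₀ (Real.rpow_pos_of_pos hN0 _)]
        linarith
      have h13 : (J : ℝ) * Dd * lam ≤ 4 * N ^ (-(2 * η)) := by
        calc (J : ℝ) * Dd * lam = (J : ℝ) * ((Dd : ℝ) * lam) := by ring
          _ ≤ (2 * U) * (N ^ (-1 + η) + N ^ (-(4 * η))) := h6
          _ = 2 * (U * N ^ (-1 + η)) + 2 * (U * N ^ (-(4 * η))) := by ring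
          _ ≤ 4 * N ^ (-(2 * η)) := by linarith
      calc A * ((J : ℝ) * Dd * lam) ≤ A * (4 * N ^ (-(2 * η))) :=
            mul_le_mul_of_nonneg_left h13 hA0.le
        _ = 4 * (A * N ^ (-(2 * η))) := by ring
        _ ≤ 3 := by linarith
    set T : ℝ := 11 * A * N ^ (1 - η) with hT
    have hT0 : 0 ≤ T := by positivity
    have hcorr : ∀ j : ℕ, 1 ≤ j → j < J →
        ‖∑ i ∈ Icc m (n - (j : ℤ) * Dd), (fun i : ℤ => ph (D 0 (i : ℝ))) (i + (j : ℤ) * Dd) *
          (starRingEnd ℂ) ((fun i : ℤ => ph (D 0 (i : ℝ))) i)‖ ≤ T := by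
      intro j hj1 hj2
      set h : ℝ := (j : ℝ) * Dd with hh
      have hjr : (1 : ℝ) ≤ j := by exact_mod_cast hj1
      have hDr : (1 : ℝ) ≤ Dd := by exact_mod_cast hDpos
      have hhD : (Dd : ℝ) ≤ h := by rw [hh]; nlinarith
      have hh0 : 0 < h := by linarith
      by_cases hemp : m ≤ n - (j : ℤ) * Dd
      · have hempR : (m : ℝ) ≤ n - h := by
          have : ((m : ℤ) : ℝ) ≤ ((n - (j : ℤ) * Dd : ℤ) : ℝ) := by exact_mod_cast hemp
          push_cast at this
          rw [hh]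
          exact this
        have hba : h ≤ b - a := by linarith
        have hP1 := h2 1 A N lam a b h D hh0 hba hPh
        have hcond : A * (h * lam) ≤ 3 := by
          refine le_trans ?_ hkey
          refine mul_le_mul_of_nonneg_left ?_ hA0.le
          refine mul_le_mul_of_nonneg_right ?_ hlam.le
          rw [hh]
          refine mul_le_mul_of_nonneg_right ?_ (Nat.cast_nonneg _)
          exact_mod_cast hj2.le
        have hF := h1 A N (h * lam) a (b - h) (fun i x => D i (x + h) - D i x) hA hN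
          (mul_pos hh0 hlam) hcond hP1 m (n - (j : ℤ) * Dd) ham
          (by push_cast; rw [← hh]; linarith) (by push_cast; rw [← hh]; linarith)
        have hsum : ∑ i ∈ Icc m (n - (j : ℤ) * Dd),
            (fun i : ℤ => ph (D 0 (i : ℝ))) (i + (j : ℤ) * Dd) *
              (starRingEnd ℂ) ((fun i : ℤ => ph (D 0 (i : ℝ))) i) =
            ∑ i ∈ Icc m (n - (j : ℤ) * Dd), ph (D 0 ((i : ℝ) + h) - D 0 (i : ℝ)) := by
          refine Finset.sum_congr rfl fun i _ => ?_
          show ph (D 0 (((i + (j : ℤ) * Dd : ℤ)) : ℝ)) * (starRingEnd ℂ) (ph (D 0 (i : ℝ))) = _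
          rw [ph_conj]
          have : (((i + (j : ℤ) * Dd : ℤ)) : ℝ) = (i : ℝ) + h := by
            rw [hh]; push_cast; ring
          rw [this]
        rw [hsum]
        refine hF.trans ?_
        rw [hT, div_le_iff₀ (mul_pos hh0 hlam)]
        have hVl : N ^ (-1 + η) ≤ h * lam := by
          have h5 : V * lam = N ^ (-1 + η) := by
            rw [hV]; exact div_mul_cancel₀ _ hlam.ne'
          rw [← h5]
          exact mul_le_mul_of_nonneg_right (le_trans hD1 hhD) hlam.le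
        have h14 : N ^ (1 - η) * N ^ (-1 + η) = 1 := by
          rw [← Real.rpow_add hN0]
          have : 1 - η + (-1 + η) = 0 := by ring
          rw [this, Real.rpow_zero]
        have h15 : N ^ (1 - η) * N ^ (-1 + η) ≤ N ^ (1 - η) * (h * lam) :=
          mul_le_mul_of_nonneg_left hVl (Real.rpow_nonneg hN0.le _)
        calc 11 * A = 11 * A * 1 := (mul_one _).symm
          _ = 11 * A * (N ^ (1 - η) * N ^ (-1 + η)) := by rw [h14]
          _ ≤ 11 * A * (N ^ (1 - η) * (h * lam)) :=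
              mul_le_mul_of_nonneg_left h15 (by positivity)
          _ = 11 * A * N ^ (1 - η) * (h * lam) := by ring
      · rw [Finset.Icc_eq_empty hemp, Finset.sum_empty, norm_zero]
        exact hT0
    have hv := Pool.Agent.Helper50.Rec.ExpSum.vdc_int m n (fun i : ℤ => ph (D 0 (i : ℝ)))
      (fun i => (ph_norm _).le) J Dd hJpos T hT0 hcorr
    have hcard := e04_card m n N hN hmn
    have hcard0 : (0 : ℝ) ≤ ((Icc m n).card : ℝ) := Nat.cast_nonneg _
    have hJ0 : (0 : ℝ) < J := by linarith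
    have hfirst : ((Icc m n).card : ℝ) + J * Dd ≤ 6 * N := by linarith
    have hsecond : ((Icc m n).card : ℝ) / J + T ≤ (2 + 11 * A) * N ^ (1 - η) := by
      have h16 : ((Icc m n).card : ℝ) / J ≤ 2 * N ^ (1 - η) := by
        rw [div_le_iff₀ hJ0]
        have h17 : N ^ (1 - η) * U = N := by
          rw [hU, ← Real.rpow_add hN0]
          have : 1 - η + η = 1 := by ring
          rw [this, Real.rpow_one]
        have h18 : N ^ (1 - η) * U ≤ N ^ (1 - η) * J :=
          mul_le_mul_of_nonneg_left hJ1 (Real.rpow_nonneg hN0.le _)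
        nlinarith
      rw [hT]
      linarith
    have hF0 : 0 ≤ ((Icc m n).card : ℝ) / J + T := add_nonneg (div_nonneg hcard0 hJ0.le) hT0
    have hfin := e04_fin _ _ _ N A η hN hA hv hfirst hsecond hF0
    refine hfin.trans ?_
    refine mul_le_mul_of_nonneg_right ?_ (Real.rpow_nonneg hN0.le _)
    have : 0 ≤ N₀ := by linarith
    linarith

end MRP.E
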