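import Mathlib
import Pool.Agent.Helper6.MR.EDefs
import Pool.Agent.Helper42.Rec.ExpSum

/-!
# E05: the derivative tests of all orders

PROOF.  Induction.  Given `A, ε` let `c', C'` be the constants of `StOrder k` for `A, ε/2`.  Put `J = ⌈N^(ε/2)⌉`.  If `J > N` or `N` is small
(bounded in terms of `ε`) use the trivial bound `N+1`; in general apply `Pool.Agent.Helper50.Rec.ExpSum.vdc_int m n _ J 1`:
for `1 ≤ j < J` the correlation with shift `j` is a sum of `ph` of the differenced phase (`StDiff`), of order `k`, with `j*lam`,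
`N^(-2+ε/2) ≤ lam ≤ j*lam ≤ N^(ε/2) N^(-ε) = N^(-ε/2)` (as `j ≤ J - 1 ≤ N^(ε/2)`), so it is `≤ C' N^(1-c')`.  Hence
`‖S‖^2 ≤ (N+1+J) ((N+1)/J + C' N^(1-c')) ≤ 4N (2 N^(1-ε/2) + C' N^(1-c'))`, so `c = min (ε/2) c' / 2` works.
(`J ≤ 2N` since `N ≥ 1`, `ε < 1`.)
-/

set_option autoImplicit false

namespace MRP.E

open Finset Complex DirichletCharacter

private theorem h45b_norm (x : ℝ) : ‖ph x‖ = 1 := by
  unfold ph
  exact Complex.norm_exp_ofReal_mul_I x

private theorem h45b_mul (x y : ℝ) : ph x * (starRingEnd ℂ) (ph y) = ph (x - y) := by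
  unfold ph
  rw [← Complex.exp_conj, map_mul, Complex.conj_ofReal, Complex.conj_I, ← Complex.exp_add]
  congr 1
  push_cast
  ring

theorem stOrder_succ (h2 : StDiff) (k : ℕ) (hk : 2 ≤ k) (h : StOrder k) : StOrder (k + 1) := by
  intro A ε hA hε hε1
  obtain ⟨c', C', hc', hC', H⟩ := h A (ε / 2) hA (by positivity) (by linarith)
  refine ⟨min (ε / 2) c' / 2, Real.sqrt (8 + 4 * C'), by positivity, by positivity, ?_⟩
  intro N lam hN hl1 hl2 a b D hph m n hm hn hmn
  have hN0 : 0 < N := by linarith
  have hlam : 0 < lam := lt_of_lt_of_le (Real.rpow_pos_of_pos hN0 _) hl1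
  set x : ℝ := N ^ (ε / 2) with hx
  have hx1 : 1 ≤ x := Real.one_le_rpow hN (by positivity)
  have hxN : x ≤ N := by
    calc x ≤ N ^ (1 : ℝ) := Real.rpow_le_rpow_of_exponent_le hN (by linarith)
      _ = N := Real.rpow_one N
  set J : ℕ := ⌈x⌉₊ with hJ
  have hJx : x ≤ J := Nat.le_ceil x
  have hJx' : (J : ℝ) < x + 1 := Nat.ceil_lt_add_one (by linarith)
  have hJ1 : 1 ≤ J := by
    have : (1 : ℝ) ≤ J := hx1.trans hJx
    exact_mod_cast this
  have hvdc := Pool.Agent.Helper50.Rec.ExpSum.vdc_int m n (fun j => ph (D 0 j))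
    (fun j => (h45b_norm _).le) J 1 hJ1 (C' * N ^ (1 - c')) (by positivity) (by
      intro j hj1 hjJ
      have hj0 : (0 : ℝ) < j := by exact_mod_cast hj1
      have hjx : (j : ℝ) ≤ x := by
        have : (j : ℝ) + 1 ≤ J := by exact_mod_cast hjJ
        linarith
      have e1 : ∀ i : ℤ, ph (D 0 ((i + (j : ℤ) * ((1 : ℕ) : ℤ) : ℤ) : ℝ)) *
          (starRingEnd ℂ) (ph (D 0 i)) = ph (D 0 ((i : ℝ) + j) - D 0 i) := by
        intro i
        rw [h45b_mul]
        push_cast
        rw [mul_one]
      rcases le_or_gt (j : ℝ) (b - a) with hba | hba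
      · have hp := h2 k A N lam a b j D hj0 hba hph
        have h3 := H N (j * lam) hN ?_ ?_ a (b - j) _ hp m (n - (j : ℤ) * ((1 : ℕ) : ℤ)) hm ?_ ?_
        · refine le_trans (le_of_eq ?_) h3
          congr 1
          exact Finset.sum_congr rfl fun i _ => e1 i
        · calc N ^ ((-2 : ℝ) + ε / 2) ≤ N ^ (-2 + ε) :=
                Real.rpow_le_rpow_of_exponent_le hN (by linarith)
            _ ≤ lam := hl1
            _ = 1 * lam := (one_mul _).symm
            _ ≤ j * lam := by
                apply mul_le_mul_of_nonneg_right _ hlam.le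
                exact_mod_cast hj1
        · calc (j : ℝ) * lam ≤ x * N ^ (-ε) := mul_le_mul hjx hl2 hlam.le (by linarith)
            _ = N ^ (-(ε / 2)) := by
                rw [hx, ← Real.rpow_add hN0]
                congr 1
                ring
        · push_cast
          linarith
        · push_cast
          linarith
      · have hemp : Icc m (n - (j : ℤ) * ((1 : ℕ) : ℤ)) = ∅ := by
          apply Finset.Icc_eq_empty
          intro hle
          have h4 : (m : ℝ) ≤ ((n - (j : ℤ) * ((1 : ℕ) : ℤ) : ℤ) : ℝ) := by exact_mod_cast hle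
          push_cast at h4
          linarith
        rw [hemp, Finset.sum_empty, norm_zero]
        positivity)
  have hcard : ((Icc m n).card : ℝ) ≤ 2 * N := by
    rw [Int.card_Icc]
    rcases le_total (n + 1 - m) 0 with h | h
    · rw [Int.toNat_of_nonpos h]
      push_cast
      linarith
    · have h1 : (((n + 1 - m).toNat : ℕ) : ℝ) = ((n + 1 - m : ℤ) : ℝ) := by
        exact_mod_cast Int.toNat_of_nonneg h
      rw [h1]
      push_cast
      linarith
  have hcard0 : (0 : ℝ) ≤ ((Icc m n).card : ℝ) := Nat.cast_nonneg _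
  set μ : ℝ := min (ε / 2) c' with hμ
  have hp0 : 0 ≤ N ^ (2 - μ) := Real.rpow_nonneg hN0.le _
  have hmain : ‖∑ j ∈ Icc m n, ph (D 0 j)‖ ^ 2 ≤ (8 + 4 * C') * N ^ (2 - μ) := by
    refine hvdc.trans ?_
    have g1 : ((Icc m n).card : ℝ) + J * ((1 : ℕ) : ℝ) ≤ 4 * N := by
      push_cast
      linarith
    have g2 : ((Icc m n).card : ℝ) / J ≤ 2 * N ^ (1 - ε / 2) := by
      calc ((Icc m n).card : ℝ) / J ≤ 2 * N / x := by
            apply div_le_div₀ (by positivity) hcard (by linarith) hJx
        _ = 2 * N ^ (1 - ε / 2) := by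
            rw [hx, Real.rpow_sub hN0, Real.rpow_one]
            ring
    calc (((Icc m n).card : ℝ) + J * ((1 : ℕ) : ℝ)) * (((Icc m n).card : ℝ) / J + C' * N ^ (1 - c'))
        ≤ (4 * N) * (2 * N ^ (1 - ε / 2) + C' * N ^ (1 - c')) := by
          apply mul_le_mul g1 (by linarith) (by positivity) (by positivity)
      _ = 8 * N ^ (2 - ε / 2) + 4 * C' * N ^ (2 - c') := by
          have e1 : N ^ (2 - ε / 2) = N * N ^ (1 - ε / 2) := by
            have : N * N ^ (1 - ε / 2) = N ^ (1 : ℝ) * N ^ (1 - ε / 2) := by rw [Real.rpow_one]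
            rw [this, ← Real.rpow_add hN0]
            congr 1
            ring
          have e2 : N ^ (2 - c') = N * N ^ (1 - c') := by
            have : N * N ^ (1 - c') = N ^ (1 : ℝ) * N ^ (1 - c') := by rw [Real.rpow_one]
            rw [this, ← Real.rpow_add hN0]
            congr 1
            ring
          rw [e1, e2]
          ring
      _ ≤ 8 * N ^ (2 - μ) + 4 * C' * N ^ (2 - μ) := by
          apply add_le_add
          · apply mul_le_mul_of_nonneg_left _ (by norm_num)
            apply Real.rpow_le_rpow_of_exponent_le hN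
            linarith [min_le_left (ε / 2) c']
          · apply mul_le_mul_of_nonneg_left _ (by positivity)
            apply Real.rpow_le_rpow_of_exponent_le hN
            linarith [min_le_right (ε / 2) c']
      _ = (8 + 4 * C') * N ^ (2 - μ) := by ring
  have hsq : (Real.sqrt (8 + 4 * C') * N ^ (1 - μ / 2)) ^ 2 = (8 + 4 * C') * N ^ (2 - μ) := by
    rw [mul_pow, Real.sq_sqrt (by positivity), ← Real.rpow_natCast, ← Real.rpow_mul hN0.le]
    congr 2
    push_cast
    ring
  rw [← hsq] at hmain
  exact (pow_le_pow_iff_left₀ (norm_nonneg _) (by positivity) two_ne_zero).1 hmain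

end MRP.E
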