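import Mathlib
import Pool.Agent.Helper6.MR.EDefs

/-!
# E06: sums of (j + θ)^{it}

PROOF.  Let `K` be given, `k` runs through `2, …, K + 1`; take the constants of `StOrder k` with `A = 3^k * k`, `ε = 1/4`, and let `c` be the
minimum of the `c_k` (and `≤ 1/2`), `C` large.  For `N < N₀(K)` use the trivial bound.  For `N ≥ N₀`: since `N^(1/2) ≤ |t| ≤ N^K` there is
`k ∈ [2, K+1]` with `N^(k-3/2) ≤ |t| ≤ N^(k-1/2)` (the intervals `[k-3/2, k-1/2]` cover `[1/2, K+1/2]`; if `K = 0` then `N = 1`).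
Let `σ = ±1` be the sign of `(-1)^(k-1) t` and `D 0 x = σ t log (x+θ)`, `D i x = σ t (-1)^(i-1) (i-1)! / (x+θ)^i` for `i ≥ 1`.  On `[m, n] ⊆ [N, 2N]`:
`N ≤ x+θ ≤ 3N`, so with `lam = (k-1)! |t| / (3N)^k`: `lam ≤ D k x ≤ (k-1)! |t|/N^k = 3^k lam`, `|D (k+1) x| ≤ k! |t| / N^(k+1) = k 3^k lam / N`.
`lam = c_k |t|/N^k` with `(k-1)!/3^k = c_k`, so `N^(-7/4) ≤ c_k N^(-3/2) ≤ lam ≤ c_k N^(-1/2) ≤ N^(-1/4)` for `N ≥ N₀`.  Apply `StOrder k`
(sum over `Icc m n`, `n - m ≤ N`).  If `σ = -1` the sum is the complex conjugate (`ph (-x) = conj (ph x)`).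
-/

set_option autoImplicit false

namespace MRP.E

open Finset Complex DirichletCharacter

private theorem h45_ph_norm (x : ℝ) : ‖ph x‖ = 1 := by
  unfold ph
  exact Complex.norm_exp_ofReal_mul_I x

private theorem h45_ph_neg (x : ℝ) : ph (-x) = (starRingEnd ℂ) (ph x) := by
  unfold ph
  rw [← Complex.exp_conj, map_mul, Complex.conj_ofReal, Complex.conj_I]
  congr 1
  push_cast
  ring

private theorem h45_sum_neg (T : Finset ℤ) (f : ℤ → ℝ) :
    ‖∑ j ∈ T, ph (-f j)‖ = ‖∑ j ∈ T, ph (f j)‖ := by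
  have : ∑ j ∈ T, ph (-f j) = (starRingEnd ℂ) (∑ j ∈ T, ph (f j)) := by
    rw [map_sum]
    exact Finset.sum_congr rfl fun j _ => h45_ph_neg _
  rw [this, Complex.norm_conj]

private theorem h45_triv {N : ℝ} (hN : 1 ≤ N) (f : ℤ → ℝ) (m n : ℤ) (hm : N ≤ m)
    (hn : (n : ℝ) ≤ 2 * N) : ‖∑ j ∈ Finset.Icc m n, ph (f j)‖ ≤ 2 * N := by
  refine (norm_sum_le _ _).trans ?_
  rw [Finset.sum_congr rfl fun j _ => h45_ph_norm _, Finset.sum_const, nsmul_eq_mul, mul_one,
    Int.card_Icc]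
  rcases le_total (n + 1 - m) 0 with h | h
  · rw [Int.toNat_of_nonpos h]
    push_cast
    linarith
  · have h1 : (((n + 1 - m).toNat : ℕ) : ℝ) = ((n + 1 - m : ℤ) : ℝ) := by
      exact_mod_cast Int.toNat_of_nonneg h
    rw [h1]
    push_cast
    linarith

/-- The phase and its derivatives. -/
private noncomputable def h45D (s θ : ℝ) : ℕ → ℝ → ℝ
  | 0 => fun x => s * Real.log (x + θ)
  | (i + 1) => fun x => s * (-1) ^ i * (i.factorial : ℝ) / (x + θ) ^ (i + 1)

private theorem h45D_deriv (s θ : ℝ) (i : ℕ) {x : ℝ} (hx : 0 < x + θ) :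
    HasDerivAt (h45D s θ i) (h45D s θ (i + 1) x) x := by
  have h0 : HasDerivAt (fun y : ℝ => y + θ) 1 x := (hasDerivAt_id x).add_const θ
  cases i with
  | zero =>
    have h1 := (h0.log hx.ne').const_mul s
    have e : h45D s θ (0 + 1) x = s * (1 / (x + θ)) := by
      simp only [h45D]
      simp
      ring
    rw [e]
    exact h1
  | succ i =>
    have h1 := h0.pow (i + 1)
    have h2 := (hasDerivAt_const x (s * (-1) ^ i * (i.factorial : ℝ))).div h1
      (pow_ne_zero _ hx.ne')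
    have e : h45D s θ (i + 1 + 1) x = (0 * (x + θ) ^ (i + 1) - s * (-1) ^ i * (i.factorial : ℝ) *
        (((i + 1 : ℕ) : ℝ) * (x + θ) ^ (i + 1 - 1) * 1)) / ((x + θ) ^ (i + 1)) ^ 2 := by
      simp only [h45D]
      rw [Nat.add_sub_cancel, Nat.factorial_succ, div_eq_div_iff (pow_ne_zero _ hx.ne')
        (pow_ne_zero _ (pow_ne_zero _ hx.ne'))]
      push_cast
      ring
    rw [e]
    exact h2

private theorem h45_one (l : ℕ) (hl : 1 ≤ l) (h : StOrder (l + 1)) :
    ∃ c C : ℝ, 0 < c ∧ 0 < C ∧ ∀ (N θ t : ℝ), 1 ≤ N → 0 ≤ θ → θ ≤ 1 →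
      N ^ ((l : ℝ) - 1 / 2) ≤ |t| → |t| ≤ N ^ ((l : ℝ) + 1 / 2) → ∀ m n : ℤ, N ≤ m →
        (n : ℝ) ≤ 2 * N →
        ‖∑ j ∈ Finset.Icc m n, ph (t * Real.log ((j : ℝ) + θ))‖ ≤ C * N ^ (1 - c) := by
  have hA : (1 : ℝ) ≤ 3 ^ (l + 1) * ((l : ℝ) + 1) := by
    have h1 : (1 : ℝ) ≤ 3 ^ (l + 1) := one_le_pow₀ (by norm_num)
    have h2 : (1 : ℝ) ≤ (l : ℝ) + 1 := by
      have : (0 : ℝ) ≤ l := Nat.cast_nonneg l
      linarith
    exact one_le_mul_of_one_le_of_one_le h1 h2
  obtain ⟨c0, C0, hc0, hC0, H⟩ := h (3 ^ (l + 1) * ((l : ℝ) + 1)) (1 / 4) hA (by norm_num)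
    (by norm_num)
  set cK : ℝ := (l.factorial : ℝ) / 3 ^ (l + 1) with hcK
  have hcK0 : 0 < cK := by positivity
  set Mx : ℝ := max cK cK⁻¹ with hMx
  have hMx0 : 0 < Mx := lt_of_lt_of_le hcK0 (le_max_left _ _)
  refine ⟨min c0 1, max C0 (2 * Mx ^ 4), lt_min hc0 one_pos, lt_max_of_lt_left hC0, ?_⟩
  intro N θ t hN hθ0 hθ1 ht1 ht2 m n hm hn
  have hN0 : 0 < N := by linarith
  rcases lt_or_ge N (Mx ^ 4) with hlt | hge
  · -- small N
    refine (h45_triv hN (fun j => t * Real.log ((j : ℝ) + θ)) m n hm hn).trans ?_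
    have h1 : N = N ^ (min c0 1) * N ^ (1 - min c0 1) := by
      rw [← Real.rpow_add hN0, add_sub_cancel, Real.rpow_one]
    have h2 : N ^ (min c0 1) ≤ Mx ^ 4 := by
      refine le_trans ?_ hlt.le
      calc N ^ (min c0 1) ≤ N ^ (1 : ℝ) := Real.rpow_le_rpow_of_exponent_le hN (min_le_right _ _)
        _ = N := Real.rpow_one N
    have h3 : 0 ≤ N ^ (1 - min c0 1) := Real.rpow_nonneg hN0.le _
    calc 2 * N = 2 * (N ^ (min c0 1) * N ^ (1 - min c0 1)) := by rw [← h1]
      _ ≤ 2 * (Mx ^ 4 * N ^ (1 - min c0 1)) :=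
          mul_le_mul_of_nonneg_left (mul_le_mul_of_nonneg_right h2 h3) (by norm_num)
      _ = 2 * Mx ^ 4 * N ^ (1 - min c0 1) := by ring
      _ ≤ max C0 (2 * Mx ^ 4) * N ^ (1 - min c0 1) :=
          mul_le_mul_of_nonneg_right (le_max_right _ _) h3
  · have hq : Mx ≤ N ^ (1 / 4 : ℝ) := by
      have h1 : (Mx ^ 4) ^ (((4 : ℕ) : ℝ)⁻¹) = Mx := Real.pow_rpow_inv_natCast hMx0.le (by norm_num)
      have h2 : (Mx ^ 4) ^ (((4 : ℕ) : ℝ)⁻¹) ≤ N ^ (((4 : ℕ) : ℝ)⁻¹) :=
        Real.rpow_le_rpow (by positivity) hge (by positivity)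
      rw [h1] at h2
      have h3 : (((4 : ℕ) : ℝ)⁻¹) = (1 / 4 : ℝ) := by norm_num
      rw [h3] at h2
      exact h2
    have hq1 : cK ≤ N ^ (1 / 4 : ℝ) := (le_max_left _ _).trans hq
    have hq2 : N ^ (-(1 / 4) : ℝ) ≤ cK := by
      have h1 : cK⁻¹ ≤ N ^ (1 / 4 : ℝ) := (le_max_right _ _).trans hq
      rw [Real.rpow_neg hN0.le]
      exact inv_le_of_inv_le₀ hcK0 h1
    set lam : ℝ := |t| * (l.factorial : ℝ) / (3 * N) ^ (l + 1) with hlam
    have hlam' : lam = cK * (|t| * N ^ (-((l : ℝ) + 1))) := by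
      rw [hlam, hcK, Real.rpow_neg hN0.le]
      have h1 : N ^ ((l : ℝ) + 1) = N ^ (l + 1) := by
        rw [← Real.rpow_natCast]
        push_cast
        rfl
      rw [h1, mul_pow]
      field_simp
    have hl1 : N ^ ((-2 : ℝ) + 1 / 4) ≤ lam := by
      rw [hlam']
      have h1 : N ^ (-(3 / 2) : ℝ) ≤ |t| * N ^ (-((l : ℝ) + 1)) := by
        have h2 : N ^ (-(3 / 2) : ℝ) = N ^ ((l : ℝ) - 1 / 2) * N ^ (-((l : ℝ) + 1)) := by
          rw [← Real.rpow_add hN0]
          congr 1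
          ring
        rw [h2]
        exact mul_le_mul_of_nonneg_right ht1 (Real.rpow_nonneg hN0.le _)
      have h3 : N ^ ((-2 : ℝ) + 1 / 4) = N ^ (-(1 / 4) : ℝ) * N ^ (-(3 / 2) : ℝ) := by
        rw [← Real.rpow_add hN0]
        congr 1
        ring
      rw [h3]
      exact mul_le_mul hq2 h1 (Real.rpow_nonneg hN0.le _) hcK0.le
    have hl2 : lam ≤ N ^ (-(1 / 4) : ℝ) := by
      rw [hlam']
      have h1 : |t| * N ^ (-((l : ℝ) + 1)) ≤ N ^ (-(1 / 2) : ℝ) := by
        have h2 : N ^ (-(1 / 2) : ℝ) = N ^ ((l : ℝ) + 1 / 2) * N ^ (-((l : ℝ) + 1)) := by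
          rw [← Real.rpow_add hN0]
          congr 1
          ring
        rw [h2]
        exact mul_le_mul_of_nonneg_right ht2 (Real.rpow_nonneg hN0.le _)
      have h3 : N ^ (-(1 / 4) : ℝ) = N ^ (1 / 4 : ℝ) * N ^ (-(1 / 2) : ℝ) := by
        rw [← Real.rpow_add hN0]
        congr 1
        ring
      rw [h3]
      exact mul_le_mul hq1 h1 (mul_nonneg (abs_nonneg _) (Real.rpow_nonneg hN0.le _))
        (Real.rpow_nonneg hN0.le _)
    set s : ℝ := (-1) ^ l * |t| with hs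
    have hs1 : s * (-1) ^ l = |t| := by
      rw [hs]
      have : ((-1 : ℝ) ^ l) * (-1) ^ l = 1 := by
        rw [← mul_pow]
        norm_num
      calc (-1 : ℝ) ^ l * |t| * (-1) ^ l = ((-1 : ℝ) ^ l * (-1) ^ l) * |t| := by ring
        _ = |t| := by rw [this, one_mul]
    have hst : s = t ∨ s = -t := by
      rcases neg_one_pow_eq_or ℝ l with h1 | h1 <;> rcases abs_choice t with h2 | h2 <;>
        simp [hs, h1, h2]
    have hx : ∀ x ∈ Set.Icc (m : ℝ) (n : ℝ), N ≤ x + θ ∧ x + θ ≤ 3 * N := by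
      intro x hx
      constructor
      · linarith [hx.1]
      · linarith [hx.2]
    have hDk : ∀ x, h45D s θ (l + 1) x = |t| * (l.factorial : ℝ) / (x + θ) ^ (l + 1) := by
      intro x
      simp only [h45D]
      rw [hs1]
    have hDk1 : ∀ x, 0 < x + θ → |h45D s θ (l + 1 + 1) x| =
        |t| * ((l + 1).factorial : ℝ) / (x + θ) ^ (l + 1 + 1) := by
      intro x hx0
      simp only [h45D]
      have h1 : s * (-1) ^ (l + 1) = -|t| := by
        rw [pow_succ, ← mul_assoc, hs1]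
        ring
      rw [h1, abs_div, abs_mul, abs_neg, abs_abs, Nat.abs_cast, abs_of_pos (pow_pos hx0 _)]
    have hph : Phase (l + 1) (3 ^ (l + 1) * ((l : ℝ) + 1)) N lam m n (h45D s θ) := by
      refine ⟨?_, ?_, ?_⟩
      · intro i _ x hxm
        exact h45D_deriv s θ i (by linarith [(hx x hxm).1])
      · intro x hxm
        obtain ⟨h1, h2⟩ := hx x hxm
        have hx0 : 0 < x + θ := by linarith
        rw [hDk]
        constructor
        · rw [hlam]
          apply div_le_div_of_nonneg_left (by positivity) (pow_pos hx0 _)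
          exact pow_le_pow_left₀ hx0.le h2 _
        · calc |t| * (l.factorial : ℝ) / (x + θ) ^ (l + 1)
              ≤ |t| * (l.factorial : ℝ) / N ^ (l + 1) := by
                apply div_le_div_of_nonneg_left (by positivity) (pow_pos hN0 _)
                exact pow_le_pow_left₀ hN0.le h1 _
            _ = 3 ^ (l + 1) * 1 * lam := by
                rw [hlam, mul_pow]
                field_simp
            _ ≤ 3 ^ (l + 1) * ((l : ℝ) + 1) * lam := by
                apply mul_le_mul_of_nonneg_right _ (by positivity)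
                apply mul_le_mul_of_nonneg_left _ (by positivity)
                have : (0 : ℝ) ≤ l := Nat.cast_nonneg l
                linarith
      · intro x hxm
        obtain ⟨h1, h2⟩ := hx x hxm
        have hx0 : 0 < x + θ := by linarith
        rw [hDk1 x hx0]
        calc |t| * ((l + 1).factorial : ℝ) / (x + θ) ^ (l + 1 + 1)
            ≤ |t| * ((l + 1).factorial : ℝ) / N ^ (l + 1 + 1) := by
              apply div_le_div_of_nonneg_left (by positivity) (pow_pos hN0 _)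
              exact pow_le_pow_left₀ hN0.le h1 _
          _ = 3 ^ (l + 1) * ((l : ℝ) + 1) * lam / N := by
              rw [hlam, mul_pow, Nat.factorial_succ]
              push_cast
              field_simp
              ring
    have hfin := H N lam hN hl1 hl2 m n (h45D s θ) hph m n le_rfl le_rfl (by linarith)
    have e : ‖∑ j ∈ Finset.Icc m n, ph (t * Real.log ((j : ℝ) + θ))‖ =
        ‖∑ j ∈ Finset.Icc m n, ph (h45D s θ 0 j)‖ := by
      rcases hst with h1 | h1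
      · simp only [h45D, h1]
      · rw [← h45_sum_neg]
        congr 1
        apply Finset.sum_congr rfl
        intro j _
        simp only [h45D, h1]
        congr 1
        ring
    rw [e]
    refine hfin.trans ?_
    apply mul_le_mul (le_max_left _ _) _ (Real.rpow_nonneg hN0.le _) (hC0.le.trans (le_max_left _ _))
    apply Real.rpow_le_rpow_of_exponent_le hN
    linarith [min_le_left c0 1]

private theorem h45_all (h : ∀ k : ℕ, 2 ≤ k → StOrder k) (K : ℕ) :
    ∃ c C : ℝ, 0 < c ∧ 0 < C ∧ ∀ (N θ t : ℝ), 1 ≤ N → 0 ≤ θ → θ ≤ 1 →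
      N ^ (1 / 2 : ℝ) ≤ |t| → |t| ≤ N ^ ((K : ℝ) + 1 / 2) → ∀ m n : ℤ, N ≤ m →
        (n : ℝ) ≤ 2 * N →
        ‖∑ j ∈ Finset.Icc m n, ph (t * Real.log ((j : ℝ) + θ))‖ ≤ C * N ^ (1 - c) := by
  induction K with
  | zero =>
    obtain ⟨c, C, hc, hC, H⟩ := h45_one 1 le_rfl (h 2 le_rfl)
    refine ⟨c, C, hc, hC, fun N θ t hN h0 h1 ht1 ht2 m n hm hn => ?_⟩
    apply H N θ t hN h0 h1 _ _ m n hm hn
    · refine le_trans (le_of_eq ?_) ht1
      norm_num
    · refine ht2.trans ?_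
      apply Real.rpow_le_rpow_of_exponent_le hN
      norm_num
  | succ K ih =>
    obtain ⟨c1, C1, hc1, hC1, H1⟩ := ih
    obtain ⟨c2, C2, hc2, hC2, H2⟩ := h45_one (K + 1) (by omega) (h (K + 1 + 1) (by omega))
    refine ⟨min c1 c2, max C1 C2, lt_min hc1 hc2, lt_max_of_lt_left hC1, ?_⟩
    intro N θ t hN h0 h1 ht1 ht2 m n hm hn
    have hN0 : 0 < N := by linarith
    rcases le_total |t| (N ^ ((K : ℝ) + 1 / 2)) with hle | hge
    · refine (H1 N θ t hN h0 h1 ht1 hle m n hm hn).trans ?_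
      apply mul_le_mul (le_max_left _ _) _ (Real.rpow_nonneg hN0.le _)
        (hC1.le.trans (le_max_left _ _))
      apply Real.rpow_le_rpow_of_exponent_le hN
      linarith [min_le_left c1 c2]
    · refine (H2 N θ t hN h0 h1 ?_ ht2 m n hm hn).trans ?_
      · refine le_trans (le_of_eq ?_) hge
        congr 1
        push_cast
        ring
      · apply mul_le_mul (le_max_right _ _) _ (Real.rpow_nonneg hN0.le _)
          (hC1.le.trans (le_max_left _ _))
        apply Real.rpow_le_rpow_of_exponent_le hN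
        linarith [min_le_right c1 c2]

theorem stExpSum (h : ∀ k : ℕ, 2 ≤ k → StOrder k) : StExpSum := by
  intro K
  obtain ⟨c, C, hc, hC, H⟩ := h45_all h K
  refine ⟨c, C, hc, hC, fun N θ t hN h0 h1 ht1 ht2 m n hm hn => ?_⟩
  apply H N θ t hN h0 h1 ht1 _ m n hm hn
  refine ht2.trans ?_
  apply Real.rpow_le_rpow_of_exponent_le hN
  norm_num

end MRP.E
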