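import Mathlib
import Pool.Agent.Helper6.MR.EDefs

/-!
# E07: sums of χ(j) j^{it}

PROOF.  Split `j ∈ (m, n]` into residue classes: `j = q i + r`, `0 ≤ r < q`.  For fixed `r`, `χ(j) = χ(r)`, `log j = log q + log (i + r/q)`,
so the inner sum is `ph (t log q) ∑_{i} ph (t log (i + r/q))` over integers `i` with `m < q i + r ≤ n`, an interval contained in `[N', 2N' ]` with
`N' = N/q - 1` or so; to be safe cover: `i ≥ (m+1-r)/q ≥ (N+1-q)/q`, `i ≤ n/q ≤ 2N/q`.  Put `N' = max 1 (N/q - 1)`; then `2N/q ≤ 2N' + 2`, so drop at most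
`3` terms (or split into two intervals `[N', 2N']` and `(2N', 2N'+2]`).  Conditions for `StExpSum` with exponent `K + 1`: `N'^(1/2) ≤ N^(1/2) ≤ |t| ≤ N^K ≤ N'^(K+1)`
for `N ≥ N₀(q, K)`.  For `N < N₀` trivial bound.  The result is `≤ q (C N'^(1-c) + 3)`.
-/

set_option autoImplicit false

namespace MRP.E

open Finset Complex DirichletCharacter

private lemma e07_ph_add (x y : ℝ) : ph (x + y) = ph x * ph y := by
  unfold ph
  rw [← Complex.exp_add]
  congr 1
  push_cast
  ring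

private lemma e07_norm_ph (x : ℝ) : ‖ph x‖ = 1 := Complex.norm_exp_ofReal_mul_I x

/-- cover of an interval by two dyadic ones -/
private lemma e07_two {K : ℕ} {c C : ℝ} (hc : 0 < c) (hC : 0 < C)
    (h : ∀ (N θ t : ℝ), 1 ≤ N → 0 ≤ θ → θ ≤ 1 →
      N ^ (1 / 2 : ℝ) ≤ |t| → |t| ≤ N ^ (K : ℝ) → ∀ m n : ℤ, N ≤ m → (n : ℝ) ≤ 2 * N →
        ‖∑ j ∈ Finset.Icc m n, ph (t * Real.log ((j : ℝ) + θ))‖ ≤ C * N ^ (1 - c))
    {c' : ℝ} (hc' : c' ≤ c) (hc1 : c' ≤ 1)
    {N N₁ θ t : ℝ} (h1 : 1 ≤ N₁) (h2 : 2 * N₁ ≤ N) (hθ : 0 ≤ θ) (hθ1 : θ ≤ 1)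
    (ht : N ^ (1 / 2 : ℝ) ≤ |t|) (ht' : |t| ≤ N₁ ^ (K : ℝ)) (a b : ℤ) (ha : N₁ ≤ a)
    (hb : (b : ℝ) ≤ 4 * N₁) :
    ‖∑ j ∈ Finset.Icc a b, ph (t * Real.log ((j : ℝ) + θ))‖ ≤ 2 * C * N ^ (1 - c') := by
  set M : ℤ := ⌊2 * N₁⌋ with hM
  have hM1 : (M : ℝ) ≤ 2 * N₁ := Int.floor_le _
  have hM2 : 2 * N₁ < (M : ℝ) + 1 := Int.lt_floor_add_one _
  rw [← Finset.sum_filter_add_sum_filter_not _ (fun j => j ≤ M)]
  have e1 : (Finset.Icc a b).filter (fun j => j ≤ M) = Finset.Icc a (min b M) := by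
    ext j
    simp only [Finset.mem_filter, Finset.mem_Icc]
    omega
  have e2 : (Finset.Icc a b).filter (fun j => ¬ j ≤ M) = Finset.Icc (max a (M + 1)) b := by
    ext j
    simp only [Finset.mem_filter, Finset.mem_Icc]
    omega
  rw [e1, e2]
  refine (norm_add_le _ _).trans ?_
  have hpow : ∀ x : ℝ, 1 ≤ x → x ≤ N → C * x ^ (1 - c) ≤ C * N ^ (1 - c') := by
    intro x hx hxN
    refine mul_le_mul_of_nonneg_left ?_ hC.le
    calc x ^ (1 - c) ≤ x ^ (1 - c') := Real.rpow_le_rpow_of_exponent_le hx (by linarith)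
      _ ≤ N ^ (1 - c') := Real.rpow_le_rpow (by linarith) hxN (by linarith)
  have b1 := h N₁ θ t h1 hθ hθ1
    ((Real.rpow_le_rpow (by linarith) (by linarith) (by norm_num)).trans ht) ht' a (min b M) ha
    (by
      have : ((min b M : ℤ) : ℝ) ≤ M := by exact_mod_cast min_le_right b M
      linarith)
  have b2 := h (2 * N₁) θ t (by linarith) hθ hθ1
    ((Real.rpow_le_rpow (by linarith) (by linarith) (by norm_num)).trans ht)
    (ht'.trans (Real.rpow_le_rpow (by linarith) (by linarith) (Nat.cast_nonneg K)))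
    (max a (M + 1)) b
    (by
      have : ((M + 1 : ℤ) : ℝ) ≤ (max a (M + 1) : ℤ) := by exact_mod_cast le_max_right a (M + 1)
      push_cast at this ⊢
      linarith)
    (by linarith)
  have p1 := hpow N₁ h1 (by linarith)
  have p2 := hpow (2 * N₁) (by linarith) h2
  linarith

private lemma e07_inner {q : ℕ} (hq : 1 ≤ q) (χ : DirichletCharacter ℂ q) (t : ℝ) (m n r : ℕ)
    (hr : r < q) :
    ‖∑ j ∈ (Finset.Ioc m n).filter (fun j => j % q = r),
      χ ((j : ℕ) : ZMod q) * ph (t * Real.log (j : ℝ))‖ ≤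
    ‖∑ i ∈ Finset.Icc (((m : ℤ) - r) / q + 1) (((n : ℤ) - r) / q),
      ph (t * Real.log ((i : ℝ) + (r : ℝ) / q))‖ := by
  have hq0 : (0 : ℝ) < q := by exact_mod_cast hq
  have hqz : (0 : ℤ) < q := by exact_mod_cast hq
  have hiff1 : ∀ i : ℤ, ((m : ℤ) - r) / q + 1 ≤ i ↔ (m : ℤ) < q * i + r := by
    intro i
    rw [Int.add_one_le_iff, Int.ediv_lt_iff_lt_mul hqz]
    constructor <;> intro h <;> nlinarith
  have hiff2 : ∀ i : ℤ, i ≤ ((n : ℤ) - r) / q ↔ q * i + r ≤ (n : ℤ) := by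
    intro i
    rw [Int.le_ediv_iff_mul_le hqz]
    constructor <;> intro h <;> nlinarith
  have e : ∑ j ∈ (Finset.Ioc m n).filter (fun j => j % q = r),
      χ ((j : ℕ) : ZMod q) * ph (t * Real.log (j : ℝ)) =
      ∑ i ∈ Finset.Icc (((m : ℤ) - r) / q + 1) (((n : ℤ) - r) / q),
        (χ ((r : ℕ) : ZMod q) * ph (t * Real.log q)) *
          ph (t * Real.log ((i : ℝ) + (r : ℝ) / q)) := by
    apply Finset.sum_bij (fun (j : ℕ) _ => ((j / q : ℕ) : ℤ))
    · intro j hj
      rw [Finset.mem_filter, Finset.mem_Ioc] at hj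
      have hdiv := Nat.div_add_mod j q
      rw [hj.2] at hdiv
      have hz : (q : ℤ) * ((j / q : ℕ) : ℤ) + r = j := by exact_mod_cast hdiv
      rw [Finset.mem_Icc, hiff1, hiff2, hz]
      omega
    · intro j hj j' hj' hjj
      rw [Finset.mem_filter, Finset.mem_Ioc] at hj hj'
      have h1 := Nat.div_add_mod j q
      have h2 := Nat.div_add_mod j' q
      rw [hj.2] at h1
      rw [hj'.2] at h2
      have h3 : j / q = j' / q := by exact_mod_cast hjj
      rw [h3] at h1
      omega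
    · intro i hi
      rw [Finset.mem_Icc, hiff1, hiff2] at hi
      have hm0 : (0 : ℤ) ≤ m := Int.natCast_nonneg m
      have hi0 : 0 ≤ i := by
        by_contra hneg
        push Not at hneg
        have hrq : (r : ℤ) < q := by exact_mod_cast hr
        nlinarith [hi.1]
      obtain ⟨k, rfl⟩ := Int.eq_ofNat_of_zero_le hi0
      have hmod : (q * k + r) % q = r := by
        rw [Nat.mul_add_mod, Nat.mod_eq_of_lt hr]
      have hdiv : (q * k + r) / q = k := by
        rw [Nat.mul_add_div (by omega), Nat.div_eq_of_lt hr, add_zero]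
      refine ⟨q * k + r, ?_, ?_⟩
      · rw [Finset.mem_filter, Finset.mem_Ioc]
        refine ⟨⟨?_, ?_⟩, hmod⟩
        · exact_mod_cast hi.1
        · exact_mod_cast hi.2
      · show (((q * k + r) / q : ℕ) : ℤ) = k
        rw [hdiv]
    · intro j hj
      rw [Finset.mem_filter, Finset.mem_Ioc] at hj
      have hdiv := Nat.div_add_mod j q
      rw [hj.2] at hdiv
      have hχ : ((j : ℕ) : ZMod q) = ((r : ℕ) : ZMod q) := by
        rw [ZMod.natCast_eq_natCast_iff, Nat.ModEq, hj.2, Nat.mod_eq_of_lt hr]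
      have hjr : (j : ℝ) = q * ((j / q : ℕ) : ℝ) + r := by exact_mod_cast hdiv.symm
      have hj0 : (0 : ℝ) < j := by exact_mod_cast (by omega : 0 < j)
      have hpos : (0 : ℝ) < ((j / q : ℕ) : ℝ) + (r : ℝ) / q := by
        have : ((j / q : ℕ) : ℝ) + (r : ℝ) / q = (j : ℝ) / q := by
          rw [hjr]
          field_simp
        rw [this]
        positivity
      have hlog : Real.log (j : ℝ) = Real.log q + Real.log (((j / q : ℕ) : ℝ) + (r : ℝ) / q) := by
        rw [← Real.log_mul hq0.ne' hpos.ne', hjr]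
        congr 1
        field_simp
      rw [hχ, hlog, mul_add, e07_ph_add, ← mul_assoc]
      norm_cast
  rw [e, ← Finset.mul_sum, norm_mul, norm_mul, e07_norm_ph, mul_one]
  calc ‖χ ((r : ℕ) : ZMod q)‖ * _ ≤ 1 * _ :=
        mul_le_mul_of_nonneg_right (DirichletCharacter.norm_le_one χ _) (norm_nonneg _)
    _ = _ := one_mul _

theorem stCharSum (h : StExpSum) : StCharSum := by
  intro q hq χ K
  obtain ⟨c, C, hc, hC, hmain⟩ := h (K + 1)
  set N₀ : ℝ := (2 * (q : ℝ)) ^ (K + 1) with hN₀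
  have hq1 : (1 : ℝ) ≤ q := by exact_mod_cast hq
  have hq0 : (0 : ℝ) < q := by linarith
  have hN₀1 : 2 * (q : ℝ) ≤ N₀ := by
    rw [hN₀]
    exact le_self_pow₀ (by linarith) (by omega)
  have hc'0 : 0 < min c 1 := lt_min hc one_pos
  refine ⟨min c 1, 2 * q * C + N₀, hc'0, by positivity, ?_⟩
  intro N t hN ht1 ht2 m n hm hn
  have hexp : 0 ≤ 1 - min c 1 := by linarith [min_le_right c 1]
  have hNpow : 1 ≤ N ^ (1 - min c 1) := Real.one_le_rpow hN hexp
  have hN00 : 0 ≤ N₀ := by positivity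
  by_cases hNN : N < N₀
  · -- trivial bound
    have htriv : ‖∑ j ∈ Finset.Ioc m n, χ ((j : ℕ) : ZMod q) * ph (t * Real.log (j : ℝ))‖ ≤
        N₀ := by
      refine (norm_sum_le _ _).trans ?_
      have : ∀ j ∈ Finset.Ioc m n, ‖χ ((j : ℕ) : ZMod q) * ph (t * Real.log (j : ℝ))‖ ≤ 1 := by
        intro j _
        rw [norm_mul, e07_norm_ph, mul_one]
        exact DirichletCharacter.norm_le_one χ _
      refine (Finset.sum_le_sum this).trans ?_
      rw [Finset.sum_const, Nat.card_Ioc, nsmul_eq_mul, mul_one]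
      by_cases hmn : m ≤ n
      · rw [Nat.cast_sub hmn]
        linarith
      · rw [Nat.sub_eq_zero_of_le (by omega), Nat.cast_zero]
        exact hN00
    refine htriv.trans ?_
    calc N₀ ≤ (2 * q * C + N₀) * 1 := by
          have : 0 ≤ 2 * (q : ℝ) * C := by positivity
          linarith
      _ ≤ (2 * q * C + N₀) * N ^ (1 - min c 1) :=
          mul_le_mul_of_nonneg_left hNpow (by positivity)
  · push Not at hNN
    have hN0 : 0 < N := by linarith
    set N₁ : ℝ := N / (2 * q) with hN₁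
    have h2q : (0 : ℝ) < 2 * q := by positivity
    have hN₁1 : 1 ≤ N₁ := by
      rw [hN₁, le_div_iff₀ h2q, one_mul]
      exact hN₀1.trans hNN
    have h2N₁ : 2 * N₁ ≤ N := by
      have e : 2 * N₁ = N / q := by
        rw [hN₁]
        field_simp
      rw [e]
      exact div_le_self hN0.le hq1
    have hN₁K : |t| ≤ N₁ ^ ((K + 1 : ℕ) : ℝ) := by
      refine ht2.trans ?_
      rw [Real.rpow_natCast, Real.rpow_natCast, hN₁, div_pow, le_div_iff₀ (by positivity)]
      calc N ^ K * (2 * (q : ℝ)) ^ (K + 1) ≤ N ^ K * N :=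
            mul_le_mul_of_nonneg_left hNN (by positivity)
        _ = N ^ (K + 1) := by ring
    have hsplit : ∑ j ∈ Finset.Ioc m n, χ ((j : ℕ) : ZMod q) * ph (t * Real.log (j : ℝ)) =
        ∑ r ∈ Finset.range q, ∑ j ∈ (Finset.Ioc m n).filter (fun j => j % q = r),
          χ ((j : ℕ) : ZMod q) * ph (t * Real.log (j : ℝ)) :=
      (Finset.sum_fiberwise_of_maps_to
        (fun j _ => Finset.mem_range.2 (Nat.mod_lt j (by omega))) _).symm
    rw [hsplit]
    refine (norm_sum_le _ _).trans ?_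
    have hinner : ∀ r ∈ Finset.range q,
        ‖∑ j ∈ (Finset.Ioc m n).filter (fun j => j % q = r),
          χ ((j : ℕ) : ZMod q) * ph (t * Real.log (j : ℝ))‖ ≤
          2 * C * N ^ (1 - min c 1) := by
      intro r hr
      rw [Finset.mem_range] at hr
      have hrq : (r : ℝ) + 1 ≤ q := by exact_mod_cast hr
      have hr0 : (0 : ℝ) ≤ r := Nat.cast_nonneg r
      refine (e07_inner hq χ t m n r hr).trans ?_
      have hqz : (0 : ℤ) < q := by exact_mod_cast hq
      refine e07_two hc hC hmain (min_le_left c 1) (min_le_right c 1) hN₁1 h2N₁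
        (by positivity) (by rw [div_le_one hq0]; linarith) ht1 hN₁K _ _ ?_ ?_
      · have h1 : (m : ℤ) - r < q * (((m : ℤ) - r) / q + 1) := by
          have := Int.lt_ediv_add_one_mul_self ((m : ℤ) - r) hqz
          linarith
        have h2 : ((m : ℝ) - r) < q * ((((m : ℤ) - r) / q + 1 : ℤ) : ℝ) := by exact_mod_cast h1
        have h3 : N₁ * q ≤ ((((m : ℤ) - r) / q + 1 : ℤ) : ℝ) * q := by
          have e : N₁ * q = N / 2 := by
            rw [hN₁]
            field_simp
          rw [e]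
          have : 2 * (q : ℝ) ≤ N := hN₀1.trans hNN
          linarith
        exact le_of_mul_le_mul_right h3 hq0
      · have h1 : (q : ℤ) * (((n : ℤ) - r) / q) ≤ (n : ℤ) - r := Int.mul_ediv_self_le hqz.ne'
        have h2 : (q : ℝ) * ((((n : ℤ) - r) / q : ℤ) : ℝ) ≤ (n : ℝ) - r := by exact_mod_cast h1
        have h3 : ((((n : ℤ) - r) / q : ℤ) : ℝ) * q ≤ 4 * N₁ * q := by
          have e : 4 * N₁ * q = 2 * N := by
            rw [hN₁]
            field_simp
            ring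
          rw [e]
          linarith
        exact le_of_mul_le_mul_right h3 hq0
    refine (Finset.sum_le_sum hinner).trans ?_
    rw [Finset.sum_const, Finset.card_range, nsmul_eq_mul]
    have : 0 ≤ N₀ * N ^ (1 - min c 1) := by positivity
    linarith

end MRP.E
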