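import Mathlib
import Pool.Agent.Helper6.MR.EDefs

/-!
# E08: Dirichlet polynomials of χ close to Re s = 1

PROOF.  Let `c', C'` be the constants of `StCharSum` for `χ` and `K = ⌈1/δ⌉ + 2`, and `c = min (c'/2) (1/2)`.  Let `s = σ + iτ` (take `t = -τ` below: `n^(-s) = n^(-σ) ph (t log n)`,
`|t| = |τ|`), `A = ⌊X^δ⌋₊ ≥ 1`.  The part `n ≤ A` is the first sum.  If `M ≤ A + 2` the rest has at most `2` terms, each of size `≤ 1` (`σ ≥ 0`).
Otherwise `M ≤ τ^2 + 1` or `M ≤ X^δ + 1 ≤ A + 2`; so let `M ≤ τ^2 + 1`.  Split `(A, M]` into blocks `(N, min (2N) M]`, `N = 2^j A`, `N < M` (so `N ≤ τ^2`,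
`N^(1/2) ≤ |t|`, and `|t| ≤ 3X ≤ (X^δ/2)^K ≤ N^K` for `X ≥ X₀`).  On a block, partial summation with the decreasing weight `n^(-σ)`
and `StCharSum` give `≤ N^(-σ) * 2 C' N^(1-c') ≤ 2 C' N^(-c'/2)` (as `1 - σ ≤ c ≤ c'/2`).  Sum over `N = 2^j A`: geometric series, `≤ C`.
-/

set_option autoImplicit false

namespace MRP.E

open Finset Complex DirichletCharacter

/-- Abel summation identity. -/
theorem e08_abel_id (a : ℕ → ℂ) (w : ℕ → ℝ) (N k : ℕ) :
    ∑ n ∈ Finset.Ioc N (N + (k + 1)), (w n : ℂ) * a n =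
      (w (N + (k + 1)) : ℂ) * ∑ n ∈ Finset.Ioc N (N + (k + 1)), a n +
        ∑ j ∈ Finset.range k, ((w (N + j + 1) - w (N + j + 2) : ℝ) : ℂ) *
          ∑ n ∈ Finset.Ioc N (N + j + 1), a n := by
  induction k with
  | zero => simp
  | succ k ih =>
    have h1 : N + (k + 1 + 1) = (N + (k + 1)) + 1 := by ring
    rw [h1, Finset.sum_Ioc_succ_top (by omega), Finset.sum_Ioc_succ_top (by omega), ih,
      Finset.sum_range_succ]
    have h2 : N + k + 1 = N + (k + 1) := by ring
    have h3 : N + k + 2 = N + (k + 1) + 1 := by ring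
    rw [h2, h3]
    push_cast
    ring

/-- Abel summation bound. -/
theorem e08_abel (a : ℕ → ℂ) (w : ℕ → ℝ) (N L : ℕ) (B : ℝ) (hB : 0 ≤ B)
    (hw0 : ∀ n, N < n → 0 ≤ w n) (hw : ∀ n, N < n → w (n + 1) ≤ w n)
    (hS : ∀ m, m ≤ L → ‖∑ n ∈ Finset.Ioc N m, a n‖ ≤ B) :
    ‖∑ n ∈ Finset.Ioc N L, (w n : ℂ) * a n‖ ≤ B * w (N + 1) := by
  rcases Nat.lt_or_ge N L with hNL | hNL
  · obtain ⟨k, rfl⟩ : ∃ k, L = N + (k + 1) := ⟨L - N - 1, by omega⟩
    rw [e08_abel_id]
    have htel : ∀ k : ℕ, ∑ j ∈ Finset.range k, (w (N + j + 1) - w (N + j + 2)) =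
        w (N + 1) - w (N + k + 1) := by
      intro k
      induction k with
      | zero => simp
      | succ k ih =>
        rw [Finset.sum_range_succ, ih]
        have h2 : N + k + 2 = N + (k + 1) + 1 := by ring
        rw [h2]
        ring
    calc ‖(w (N + (k + 1)) : ℂ) * ∑ n ∈ Finset.Ioc N (N + (k + 1)), a n +
        ∑ j ∈ Finset.range k, ((w (N + j + 1) - w (N + j + 2) : ℝ) : ℂ) *
          ∑ n ∈ Finset.Ioc N (N + j + 1), a n‖
        ≤ ‖(w (N + (k + 1)) : ℂ) * ∑ n ∈ Finset.Ioc N (N + (k + 1)), a n‖ +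
          ∑ j ∈ Finset.range k, ‖((w (N + j + 1) - w (N + j + 2) : ℝ) : ℂ) *
          ∑ n ∈ Finset.Ioc N (N + j + 1), a n‖ := by
          refine (norm_add_le _ _).trans ?_
          gcongr
          exact norm_sum_le _ _
      _ ≤ w (N + (k + 1)) * B + ∑ j ∈ Finset.range k, (w (N + j + 1) - w (N + j + 2)) * B := by
          refine add_le_add ?_ (Finset.sum_le_sum ?_)
          · rw [norm_mul, Complex.norm_real, Real.norm_of_nonneg (hw0 _ (by omega))]
            exact mul_le_mul_of_nonneg_left (hS _ le_rfl) (hw0 _ (by omega))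
          · intro j hj
            have hj' := Finset.mem_range.mp hj
            have hd : 0 ≤ w (N + j + 1) - w (N + j + 2) := by
              have := hw (N + j + 1) (by omega)
              have h3 : N + j + 1 + 1 = N + j + 2 := by ring
              rw [h3] at this
              linarith
            rw [norm_mul, Complex.norm_real, Real.norm_of_nonneg hd]
            exact mul_le_mul_of_nonneg_left (hS _ (by omega)) hd
      _ = B * w (N + 1) := by
          rw [← Finset.sum_mul, htel]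
          have h2 : N + k + 1 = N + (k + 1) := by ring
          rw [h2]
          ring
  · rw [Finset.Ioc_eq_empty (by omega), Finset.sum_empty, norm_zero]
    exact mul_nonneg hB (hw0 _ (by omega))

/-- the complex power as weight times phase -/
theorem e08_cpow (n : ℕ) (hn : 1 ≤ n) (s : ℂ) :
    (n : ℂ) ^ (-s) = (((n : ℝ) ^ (-s.re) : ℝ) : ℂ) * ph ((-s.im) * Real.log (n : ℝ)) := by
  have hn0 : (n : ℂ) ≠ 0 := by
    exact_mod_cast (by omega : n ≠ 0)
  have hpos : (0 : ℝ) < n := by exact_mod_cast hn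
  rw [Complex.cpow_def_of_ne_zero hn0, ph, Real.rpow_def_of_pos hpos, Complex.ofReal_exp,
    ← Complex.exp_add]
  congr 1
  rw [← Complex.natCast_log]
  apply Complex.ext <;> simp <;> ring

theorem e08_norm_cpow_le (n : ℕ) (hn : 1 ≤ n) (s : ℂ) (hs : 0 ≤ s.re) :
    ‖(n : ℂ) ^ (-s)‖ ≤ 1 := by
  rw [Complex.norm_natCast_cpow_of_pos (by omega)]
  simp only [Complex.neg_re]
  exact Real.rpow_le_one_of_one_le_of_nonpos (by exact_mod_cast hn) (by linarith)

theorem stPoly (h : StCharSum) : StPoly := by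
  intro q hq χ δ hδ0 hδ1
  set K : ℕ := ⌈1 / δ⌉₊ + 2 with hK
  obtain ⟨c', C', hc', hC', hmain⟩ := h q hq χ K
  set r : ℝ := (2 : ℝ) ^ (-(c' / 2)) with hr
  have hr0 : 0 < r := Real.rpow_pos_of_pos (by norm_num) _
  have hr1 : r < 1 := Real.rpow_lt_one_of_one_lt_of_neg (by norm_num) (by linarith)
  set T : ℝ := 3 * 2 ^ K + 2 with hT
  have hT0 : (0 : ℝ) < T := by positivity
  refine ⟨min (c' / 2) (1 / 2), C' * (1 - r)⁻¹ + 1, T ^ (1 / δ), ?_, ?_, ?_⟩
  · exact lt_min (by linarith) (by norm_num)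
  · have : 0 < (1 - r)⁻¹ := inv_pos.mpr (by linarith)
    positivity
  intro X hX s hs1 hs3 hsre hsre3 M hM1 hM2
  have hcc1 : min (c' / 2) (1 / 2 : ℝ) ≤ c' / 2 := min_le_left _ _
  have hcc2 : min (c' / 2) (1 / 2 : ℝ) ≤ 1 / 2 := min_le_right _ _
  have hσ0 : (1 : ℝ) / 2 ≤ s.re := by linarith
  -- X is large
  have hT1 : (1 : ℝ) ≤ T := by
    have : (0 : ℝ) ≤ 3 * 2 ^ K := by positivity
    linarith
  have hX1 : 1 ≤ X := by
    refine le_trans ?_ hX
    exact Real.one_le_rpow hT1 (by positivity)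
  have hX0 : 0 < X := by linarith
  have hXδ : T ≤ X ^ δ := by
    have h1 : (T ^ (1 / δ)) ^ δ ≤ X ^ δ :=
      Real.rpow_le_rpow (by positivity) hX hδ0.le
    rwa [← Real.rpow_mul hT0.le, one_div_mul_cancel hδ0.ne', Real.rpow_one] at h1
  set A : ℕ := ⌊X ^ δ⌋₊ with hA
  have hXδ0 : 0 ≤ X ^ δ := by linarith
  have hA1 : (A : ℝ) ≤ X ^ δ := Nat.floor_le hXδ0
  have hA2 : X ^ δ < A + 1 := Nat.lt_floor_add_one _
  have hAhalf : X ^ δ / 2 ≤ A := by
    have : (0 : ℝ) ≤ 3 * 2 ^ K := by positivity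
    linarith
  have hApos : (1 : ℝ) ≤ A := by
    have h1 : (0 : ℝ) ≤ 3 * 2 ^ K := by positivity
    linarith
  have hAnat : 1 ≤ A := by exact_mod_cast hApos
  have hAK : 3 * X ≤ (A : ℝ) ^ (K : ℝ) := by
    have hKδ : 1 + δ ≤ δ * K := by
      have h1 : 1 / δ ≤ (⌈1 / δ⌉₊ : ℝ) := Nat.le_ceil _
      have h2 : (K : ℝ) = (⌈1 / δ⌉₊ : ℝ) + 2 := by rw [hK]; push_cast; ring
      rw [h2]
      have h3 : 1 ≤ δ * (⌈1 / δ⌉₊ : ℝ) := by
        calc (1 : ℝ) = δ * (1 / δ) := by field_simp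
          _ ≤ _ := mul_le_mul_of_nonneg_left h1 hδ0.le
      nlinarith
    have h4 : X * X ^ δ ≤ (X ^ δ) ^ (K : ℝ) := by
      calc X * X ^ δ = X ^ (1 + δ) := by rw [Real.rpow_add hX0, Real.rpow_one]
        _ ≤ X ^ (δ * K) := Real.rpow_le_rpow_of_exponent_le hX1 hKδ
        _ = (X ^ δ) ^ (K : ℝ) := by rw [Real.rpow_mul hX0.le]
    have h5 : (X ^ δ / 2) ^ (K : ℝ) ≤ (A : ℝ) ^ (K : ℝ) :=
      Real.rpow_le_rpow (by positivity) hAhalf (by positivity)
    have h6 : (X ^ δ / 2) ^ (K : ℝ) = (X ^ δ) ^ (K : ℝ) / 2 ^ K := by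
      rw [Real.div_rpow hXδ0 (by norm_num), Real.rpow_natCast, Real.rpow_natCast]
    rw [h6] at h5
    refine le_trans ?_ h5
    rw [le_div_iff₀ (by positivity)]
    refine le_trans ?_ h4
    have h7 : 3 * 2 ^ K ≤ X ^ δ := by linarith
    calc 3 * X * 2 ^ K = X * (3 * 2 ^ K) := by ring
      _ ≤ X * X ^ δ := mul_le_mul_of_nonneg_left h7 hX0.le
  -- split
  have hAM : A ≤ M := by
    have : (A : ℝ) ≤ M := hA1.trans hM1
    exact_mod_cast this
  have hsplit : ∑ n ∈ Finset.Icc 1 M, χ ((n : ℕ) : ZMod q) * (n : ℂ) ^ (-s) =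
      ∑ n ∈ Finset.Icc 1 A, χ ((n : ℕ) : ZMod q) * (n : ℂ) ^ (-s) +
      ∑ n ∈ Finset.Ioc A M, χ ((n : ℕ) : ZMod q) * (n : ℂ) ^ (-s) := by
    have e1 : Finset.Icc 1 M = Finset.Ioc 0 M := by ext x; simp; omega
    have e2 : Finset.Icc 1 A = Finset.Ioc 0 A := by ext x; simp; omega
    rw [e1, e2, Finset.sum_Ioc_consecutive _ (Nat.zero_le _) hAM]
  rw [hsplit]
  refine (norm_add_le _ _).trans (add_le_add le_rfl ?_)
  have hrinv : 0 ≤ C' * (1 - r)⁻¹ := by
    have : 0 < (1 - r)⁻¹ := inv_pos.mpr (by linarith)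
    positivity
  by_cases hcase : (M : ℝ) ≤ X ^ δ + 1
  · -- at most one term
    have hM3 : M ≤ A + 1 := by
      have : (M : ℝ) < A + 2 := by linarith
      have : M < A + 2 := by exact_mod_cast this
      omega
    have hterm : ∀ n ∈ Finset.Ioc A M, ‖χ ((n : ℕ) : ZMod q) * (n : ℂ) ^ (-s)‖ ≤ 1 := by
      intro n hn
      have hn' := Finset.mem_Ioc.mp hn
      rw [norm_mul]
      exact mul_le_one₀ (χ.norm_le_one _) (norm_nonneg _)
        (e08_norm_cpow_le n (by omega) s (by linarith))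
    calc ‖∑ n ∈ Finset.Ioc A M, χ ((n : ℕ) : ZMod q) * (n : ℂ) ^ (-s)‖
        ≤ ∑ n ∈ Finset.Ioc A M, ‖χ ((n : ℕ) : ZMod q) * (n : ℂ) ^ (-s)‖ := norm_sum_le _ _
      _ ≤ ∑ n ∈ Finset.Ioc A M, (1 : ℝ) := Finset.sum_le_sum hterm
      _ ≤ 1 := by
          simp only [Finset.sum_const, Nat.card_Ioc, nsmul_eq_mul, mul_one]
          have : M - A ≤ 1 := by omega
          exact_mod_cast this
      _ ≤ C' * (1 - r)⁻¹ + 1 := by linarith
  · have hM4 : (M : ℝ) ≤ s.im ^ 2 + 1 := by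
      rcases le_max_iff.mp hM2 with h1 | h1
      · exact absurd h1 hcase
      · exact h1
    have hblock : ∀ N L : ℕ, A ≤ N → N < L → L ≤ 2 * N → (L : ℝ) ≤ s.im ^ 2 + 1 →
        ‖∑ n ∈ Finset.Ioc N L, χ ((n : ℕ) : ZMod q) * (n : ℂ) ^ (-s)‖ ≤
          C' * (N : ℝ) ^ (-(c' / 2)) := by
      intro N L hAN hNL hL2 hLs
      have hN1 : 1 ≤ N := hAnat.trans hAN
      have hN1' : (1 : ℝ) ≤ N := by exact_mod_cast hN1
      have hN0 : (0 : ℝ) < N := by linarith
      have hrew : ∑ n ∈ Finset.Ioc N L, χ ((n : ℕ) : ZMod q) * (n : ℂ) ^ (-s) =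
          ∑ n ∈ Finset.Ioc N L, (((n : ℝ) ^ (-s.re) : ℝ) : ℂ) *
            (χ ((n : ℕ) : ZMod q) * ph ((-s.im) * Real.log (n : ℝ))) := by
        refine Finset.sum_congr rfl ?_
        intro n hn
        have hn' := Finset.mem_Ioc.mp hn
        rw [e08_cpow n (by omega) s]
        ring
      rw [hrew]
      have hNs : (N : ℝ) ≤ s.im ^ 2 := by
        have : (N : ℝ) + 1 ≤ L := by exact_mod_cast hNL
        linarith
      have hNt : (N : ℝ) ^ (1 / 2 : ℝ) ≤ |(-s.im)| := by
        rw [abs_neg, ← Real.sqrt_eq_rpow, ← Real.sqrt_sq_eq_abs]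
        exact Real.sqrt_le_sqrt hNs
      have htK : |(-s.im)| ≤ (N : ℝ) ^ (K : ℝ) := by
        rw [abs_neg]
        refine hs3.trans (hAK.trans ?_)
        exact Real.rpow_le_rpow (by positivity) (by exact_mod_cast hAN) (by positivity)
      have habel := e08_abel (fun n => χ ((n : ℕ) : ZMod q) * ph ((-s.im) * Real.log (n : ℝ)))
        (fun n => (n : ℝ) ^ (-s.re)) N L (C' * (N : ℝ) ^ (1 - c')) (by positivity)
        (fun n _ => by positivity)
        (fun n hn => by
          have hn0 : (0 : ℝ) < n := by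
            have : 0 < n := by omega
            exact_mod_cast this
          refine Real.rpow_le_rpow_of_nonpos hn0 ?_ (by linarith)
          push_cast
          linarith)
        (fun m hm => by
          refine hmain (N : ℝ) (-s.im) hN1' hNt htK N m le_rfl ?_
          have : m ≤ 2 * N := hm.trans hL2
          exact_mod_cast this)
      refine habel.trans ?_
      have h1 : ((N + 1 : ℕ) : ℝ) ^ (-s.re) ≤ (N : ℝ) ^ (-s.re) := by
        refine Real.rpow_le_rpow_of_nonpos hN0 ?_ (by linarith)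
        push_cast
        linarith
      calc C' * (N : ℝ) ^ (1 - c') * ((N + 1 : ℕ) : ℝ) ^ (-s.re)
          ≤ C' * (N : ℝ) ^ (1 - c') * (N : ℝ) ^ (-s.re) :=
            mul_le_mul_of_nonneg_left h1 (by positivity)
        _ = C' * (N : ℝ) ^ (1 - c' + -s.re) := by rw [Real.rpow_add hN0]; ring
        _ ≤ C' * (N : ℝ) ^ (-(c' / 2)) := by
            refine mul_le_mul_of_nonneg_left ?_ hC'.le
            exact Real.rpow_le_rpow_of_exponent_le hN1' (by linarith)
    have hind : ∀ j : ℕ, ∀ L : ℕ, A ≤ L → L ≤ 2 ^ j * A → (L : ℝ) ≤ s.im ^ 2 + 1 →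
        ‖∑ n ∈ Finset.Ioc A L, χ ((n : ℕ) : ZMod q) * (n : ℂ) ^ (-s)‖ ≤
          C' * ∑ i ∈ Finset.range j, r ^ i := by
      intro j
      induction j with
      | zero =>
        intro L hAL hL _
        have : L = A := by
          simp only [pow_zero, one_mul] at hL
          omega
        subst this
        simp
      | succ j ih =>
        intro L hAL hL hLs
        rw [Finset.sum_range_succ]
        by_cases hj : L ≤ 2 ^ j * A
        · refine (ih L hAL hj hLs).trans ?_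
          have : 0 ≤ C' * r ^ j := by positivity
          linarith
        · have hj' : 2 ^ j * A < L := by omega
          have h2j : 1 ≤ 2 ^ j := Nat.one_le_two_pow
          have hAN : A ≤ 2 ^ j * A := Nat.le_mul_of_pos_left A (by omega)
          rw [← Finset.sum_Ioc_consecutive _ hAN hj'.le]
          refine (norm_add_le _ _).trans ?_
          rw [mul_add]
          refine add_le_add ?_ ?_
          · refine ih _ hAN le_rfl ?_
            have : ((2 ^ j * A : ℕ) : ℝ) ≤ L := by exact_mod_cast hj'.le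
            linarith
          · refine (hblock (2 ^ j * A) L hAN hj' ?_ hLs).trans ?_
            · calc L ≤ 2 ^ (j + 1) * A := hL
                _ = 2 * (2 ^ j * A) := by ring
            · refine mul_le_mul_of_nonneg_left ?_ hC'.le
              have e1 : r ^ j = ((2 ^ j : ℕ) : ℝ) ^ (-(c' / 2)) := by
                rw [hr, ← Real.rpow_natCast, ← Real.rpow_mul (by norm_num)]
                push_cast
                rw [← Real.rpow_natCast, ← Real.rpow_mul (by norm_num)]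
                congr 1
                ring
              rw [e1]
              refine Real.rpow_le_rpow_of_nonpos (by positivity) ?_ (by linarith)
              push_cast
              exact le_mul_of_one_le_right (by positivity) hApos
    have hex : ∃ j : ℕ, M ≤ 2 ^ j * A := by
      refine ⟨M, ?_⟩
      calc M ≤ 2 ^ M := Nat.lt_two_pow_self.le
        _ ≤ 2 ^ M * A := Nat.le_mul_of_pos_right _ (by omega)
    obtain ⟨j, hj⟩ := hex
    refine (hind j M hAM hj hM4).trans ?_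
    have hgeo : ∑ i ∈ Finset.range j, r ^ i ≤ (1 - r)⁻¹ := by
      have h1 := Summable.sum_le_tsum (Finset.range j) (fun i _ => pow_nonneg hr0.le i)
        (summable_geometric_of_lt_one hr0.le hr1)
      rwa [tsum_geometric_of_lt_one hr0.le hr1] at h1
    have := mul_le_mul_of_nonneg_left hgeo hC'.le
    linarith

end MRP.E
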