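import Mathlib
import Pool.Agent.Helper6.MR.EDefs
import Pool.Agent.Helper6.SW.Partial
import Pool.Agent.Helper16.SW.ZUp

/-!
# E09: growth of L(s, χ) to the left of Re s = 1

INPUTS: `Pool.Agent.Helper6.SW.stPartial : StPartial` (truncated Dirichlet series for `χ ≠ 1`) and `zeta_approx` in `Pool/Agent/Helper16/SW/ZUp.lean`
(`‖ζ s - PZ K s‖ ≤ ‖s‖ / s.re * K ^ (-s.re)`, `PZ K s = ∑_{n ≤ K} n^(-s) + K^(1-s)/(s-1)`).
PROOF.  Let `c, C` be as in `StPoly`; for `X ≥ X₀`: `r = log log X / (δ log X) ≤ min c (1/4)`.  Let `M = ⌈max (X^δ) (τ^2)⌉₊`, `τ = Im s` (so `X^δ ≤ M ≤ max (X^δ + 1) (τ^2 + 1)`).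
Short sum: `∑_{n ≤ X^δ} n^(-σ) ≤ X^(δ max(0, 1-σ)) (1 + log X^δ) ≤ (log X)(1 + log X)` because `X^(δ r) = log X`.
(1) `χ ≠ 1`: `‖L(s,χ)‖ ≤ ‖∑_{n≤M}‖ + 2 q ‖s‖ M^(-σ)/σ`, and `‖s‖ M^(-σ) ≤ (3+|τ|) max(1, τ^2)^(-3/4) ≤ 8`, say.
(2) `χ = 1`: `LFunctionTrivChar_eq_mul_riemannZeta` : `L(s,1) = ∏_{p | q} (1 - p^(-s)) ζ(s)`, the product is `≤ 2^q`; and
`‖ζ(s)‖ ≤ ‖∑_{n≤M} n^(-s)‖ + M^(1-σ)/|τ| + ‖s‖ M^(-σ)/σ` where `M^(1-σ) ≤ 2 max (X^(δ r)) (|τ|^(2r))·…`: either `M ≤ X^δ + 1` and `M^(1-σ) ≤ 2 log X`, or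
`M ≤ τ^2 + 1` and `M^(1-σ)/|τ| ≤ 2 |τ|^(2r - 1) ≤ 2`.  The polynomial is bounded by `StPoly` for the principal character mod 1 (`χ n = 1`).
Altogether `≤ C_q (log X)^2 ≤ (log X)^3` for `X ≥ X₀`.
-/

set_option autoImplicit false

namespace MRP.E

open Finset Complex DirichletCharacter

theorem pow_r {δ X : ℝ} (hδ : 0 < δ) (hX : 1 ≤ Real.log X) (hX0 : 0 < X) :
    (X ^ δ) ^ (Real.log (Real.log X) / (δ * Real.log X)) = Real.log X := by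
  have hl : 0 < Real.log X := by linarith
  rw [← Real.rpow_mul hX0.le, Real.rpow_def_of_pos hX0]
  have : Real.log X * (δ * (Real.log (Real.log X) / (δ * Real.log X))) =
      Real.log (Real.log X) := by
    field_simp
  rw [this, Real.exp_log hl]

theorem short_sum {q : ℕ} (χ : DirichletCharacter ℂ q) {δ X : ℝ} (hδ : 0 < δ) (hδ1 : δ ≤ 1)
    (hX : 1 ≤ Real.log X) (hX0 : 1 ≤ X) {s : ℂ}
    (hσ : 1 - Real.log (Real.log X) / (δ * Real.log X) ≤ s.re) :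
    ‖∑ n ∈ Finset.Icc 1 ⌊X ^ δ⌋₊, χ ((n : ℕ) : ZMod q) * (n : ℂ) ^ (-s)‖ ≤
      Real.log X * (1 + Real.log X) := by
  have hl : 0 < Real.log X := by linarith
  have hX0' : 0 < X := by linarith
  set r := Real.log (Real.log X) / (δ * Real.log X) with hr
  have hr0 : 0 ≤ r := div_nonneg (Real.log_nonneg hX) (by positivity)
  have hXδ : 1 ≤ X ^ δ := Real.one_le_rpow hX0 hδ.le
  refine (norm_sum_le _ _).trans ?_
  have hterm : ∀ n ∈ Finset.Icc 1 ⌊X ^ δ⌋₊,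
      ‖χ ((n : ℕ) : ZMod q) * (n : ℂ) ^ (-s)‖ ≤ Real.log X * ((n : ℝ))⁻¹ := by
    intro n hn
    rw [Finset.mem_Icc] at hn
    have hn1 : (1 : ℝ) ≤ n := by exact_mod_cast hn.1
    have hn0 : (0 : ℝ) < n := by linarith
    have hn2 : (n : ℝ) ≤ X ^ δ := (Nat.le_floor_iff (by linarith)).mp hn.2
    rw [norm_mul, Complex.norm_natCast_cpow_of_pos (by exact_mod_cast hn0)]
    have h1 : ‖χ ((n : ℕ) : ZMod q)‖ ≤ 1 := DirichletCharacter.norm_le_one χ _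
    have h2 : (n : ℝ) ^ (-s).re ≤ Real.log X * ((n : ℝ))⁻¹ := by
      calc (n : ℝ) ^ (-s).re ≤ (n : ℝ) ^ (r + (-1)) := by
            apply Real.rpow_le_rpow_of_exponent_le hn1
            rw [Complex.neg_re]
            linarith
        _ = (n : ℝ) ^ r * ((n : ℝ))⁻¹ := by
            rw [Real.rpow_add hn0, Real.rpow_neg_one]
        _ ≤ (X ^ δ) ^ r * ((n : ℝ))⁻¹ :=
            mul_le_mul_of_nonneg_right (Real.rpow_le_rpow hn0.le hn2 hr0) (by positivity)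
        _ = Real.log X * ((n : ℝ))⁻¹ := by rw [hr, pow_r hδ hX hX0']
    calc ‖χ ((n : ℕ) : ZMod q)‖ * (n : ℝ) ^ (-s).re ≤ 1 * (n : ℝ) ^ (-s).re :=
          mul_le_mul_of_nonneg_right h1 (Real.rpow_nonneg hn0.le _)
      _ = (n : ℝ) ^ (-s).re := one_mul _
      _ ≤ _ := h2
  refine (Finset.sum_le_sum hterm).trans ?_
  rw [← Finset.mul_sum]
  apply mul_le_mul_of_nonneg_left _ hl.le
  have h3 := harmonic_floor_le_one_add_log (X ^ δ) hXδ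
  rw [harmonic_eq_sum_Icc] at h3
  push_cast at h3
  refine h3.trans ?_
  rw [Real.log_rpow hX0']
  nlinarith

theorem choose_M {δ X τ : ℝ} (hX1 : 1 ≤ X ^ δ) : ∃ M : ℕ, 1 ≤ M ∧ X ^ δ ≤ M ∧
    τ ^ 2 ≤ M ∧ (M : ℝ) ≤ max (X ^ δ + 1) (τ ^ 2 + 1) := by
  refine ⟨⌈max (X ^ δ) (τ ^ 2)⌉₊, ?_, (le_max_left _ _).trans (Nat.le_ceil _),
    (le_max_right _ _).trans (Nat.le_ceil _), ?_⟩
  · rw [Nat.one_le_ceil_iff]
    exact lt_of_lt_of_le (by linarith) (le_max_left _ _)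
  · have h := (Nat.ceil_lt_add_one (show (0 : ℝ) ≤ max (X ^ δ) (τ ^ 2) from
      (by linarith : (0 : ℝ) ≤ X ^ δ).trans (le_max_left _ _))).le
    rwa [← max_add_add_right] at h

theorem err_le {s : ℂ} {M : ℕ} (hM : 1 ≤ M) (h1 : s.im ^ 2 ≤ M) (hτ : 1 ≤ |s.im|)
    (hσ : 3 / 4 ≤ s.re) (hσ3 : s.re ≤ 3) : ‖s‖ / s.re * (M : ℝ) ^ (-s.re) ≤ 6 := by
  have hM1 : (1 : ℝ) ≤ M := by exact_mod_cast hM
  have hn : ‖s‖ ≤ 4 * |s.im| := by
    have := Complex.norm_le_abs_re_add_abs_im s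
    rw [abs_of_nonneg (by linarith : (0 : ℝ) ≤ s.re)] at this
    linarith
  have h2 : (M : ℝ) ^ (-s.re) ≤ 1 / |s.im| := by
    calc (M : ℝ) ^ (-s.re) ≤ (M : ℝ) ^ (-(1 / 2 : ℝ)) :=
          Real.rpow_le_rpow_of_exponent_le hM1 (by linarith)
      _ = 1 / Real.sqrt M := by
          rw [Real.rpow_neg (by linarith), ← Real.sqrt_eq_rpow, one_div]
      _ ≤ 1 / |s.im| := by
          apply one_div_le_one_div_of_le (by linarith)
          apply Real.le_sqrt_of_sq_le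
          rwa [sq_abs]
  have hs0 : 0 < s.re := by linarith
  have h3 : ‖s‖ * (M : ℝ) ^ (-s.re) ≤ 4 := by
    calc ‖s‖ * (M : ℝ) ^ (-s.re) ≤ (4 * |s.im|) * (1 / |s.im|) :=
          mul_le_mul hn h2 (Real.rpow_nonneg (by linarith) _) (by positivity)
      _ = 4 := by
          field_simp
  rw [div_mul_eq_mul_div, div_le_iff₀ hs0]
  linarith

theorem main_le {δ X : ℝ} (hδ : 0 < δ) (hX : 1 ≤ Real.log X) (hX0 : 1 ≤ X) {s : ℂ} {M : ℕ}
    (hM1 : 1 ≤ M) (hM : (M : ℝ) ≤ max (X ^ δ + 1) (s.im ^ 2 + 1)) (hτ : 1 ≤ |s.im|)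
    (hr4 : Real.log (Real.log X) / (δ * Real.log X) ≤ 1 / 4)
    (hσ : 1 - Real.log (Real.log X) / (δ * Real.log X) ≤ s.re) :
    ‖(M : ℂ) ^ (1 - s) / (s - 1)‖ ≤ 2 * Real.log X := by
  have hl : 0 < Real.log X := by linarith
  have hX0' : 0 < X := by linarith
  set r := Real.log (Real.log X) / (δ * Real.log X) with hr
  have hr0 : 0 ≤ r := div_nonneg (Real.log_nonneg hX) (by positivity)
  have hXδ : 1 ≤ X ^ δ := Real.one_le_rpow hX0 hδ.le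
  have hM1' : (1 : ℝ) ≤ M := by exact_mod_cast hM1
  have hn : |s.im| ≤ ‖s - 1‖ := by
    have := Complex.abs_im_le_norm (s - 1)
    simpa using this
  rw [norm_div, Complex.norm_natCast_cpow_of_pos hM1]
  have h1 : (M : ℝ) ^ (1 - s).re ≤ (M : ℝ) ^ r := by
    apply Real.rpow_le_rpow_of_exponent_le hM1'
    rw [Complex.sub_re, Complex.one_re]
    linarith
  have h2r : (2 : ℝ) ^ r ≤ 2 := by
    calc (2 : ℝ) ^ r ≤ 2 ^ (1 : ℝ) :=
          Real.rpow_le_rpow_of_exponent_le (by norm_num) (by linarith)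
      _ = 2 := Real.rpow_one 2
  have h2 : (M : ℝ) ^ r ≤ 2 * Real.log X * |s.im| := by
    rcases le_max_iff.mp hM with h | h
    · calc (M : ℝ) ^ r ≤ (2 * X ^ δ) ^ r :=
            Real.rpow_le_rpow (by linarith) (by linarith) hr0
        _ = 2 ^ r * (X ^ δ) ^ r := Real.mul_rpow (by norm_num) (by linarith)
        _ = 2 ^ r * Real.log X := by rw [hr, pow_r hδ hX hX0']
        _ ≤ 2 * Real.log X := mul_le_mul_of_nonneg_right h2r hl.le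
        _ ≤ 2 * Real.log X * |s.im| := le_mul_of_one_le_right (by linarith) hτ
    · have hτ2 : 1 ≤ s.im ^ 2 := by
        rw [← sq_abs]
        nlinarith
      calc (M : ℝ) ^ r ≤ (2 * |s.im| ^ 2) ^ r :=
            Real.rpow_le_rpow (by linarith) (by rw [sq_abs]; linarith) hr0
        _ = 2 ^ r * (|s.im| ^ 2) ^ r := Real.mul_rpow (by norm_num) (by positivity)
        _ ≤ 2 * |s.im| := by
            apply mul_le_mul h2r _ (by positivity) (by norm_num)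
            rw [← Real.rpow_natCast, ← Real.rpow_mul (abs_nonneg _)]
            calc |s.im| ^ (((2 : ℕ) : ℝ) * r) ≤ |s.im| ^ (1 : ℝ) :=
                  Real.rpow_le_rpow_of_exponent_le hτ (by push_cast; linarith)
              _ = |s.im| := Real.rpow_one _
        _ ≤ 2 * Real.log X * |s.im| := by
            apply mul_le_mul_of_nonneg_right _ (abs_nonneg _)
            linarith
  rw [div_le_iff₀ (by linarith)]
  calc (M : ℝ) ^ (1 - s).re ≤ 2 * Real.log X * |s.im| := h1.trans h2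
    _ ≤ 2 * Real.log X * ‖s - 1‖ := mul_le_mul_of_nonneg_left hn (by linarith)

theorem ev_all {δ c L₀ X₁ : ℝ} (hc : 0 < c) :
    ∃ X₀ : ℝ, ∀ X ≥ X₀, Real.log (Real.log X) / (δ * Real.log X) ≤ c ∧
      Real.log (Real.log X) / (δ * Real.log X) ≤ 1 / 4 ∧ L₀ ≤ Real.log X ∧ X₁ ≤ X ∧
        1 ≤ X ∧ 1 ≤ Real.log X := by
  have t1 : Filter.Tendsto (fun X : ℝ => Real.log (Real.log X) / (δ * Real.log X))
      Filter.atTop (nhds 0) := by
    have h := ((Real.isLittleO_log_id_atTop.tendsto_div_nhds_zero).comp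
      Real.tendsto_log_atTop).const_mul (1 / δ)
    rw [mul_zero] at h
    refine h.congr fun X => ?_
    simp only [Function.comp, id]
    rw [div_mul_div_comm, one_mul]
  have h1 := t1.eventually (gt_mem_nhds hc)
  have h2 := t1.eventually (gt_mem_nhds (show (0 : ℝ) < 1 / 4 by norm_num))
  have h3 := Real.tendsto_log_atTop.eventually_ge_atTop L₀
  have h4 := Real.tendsto_log_atTop.eventually_ge_atTop 1
  obtain ⟨X₀, h⟩ := Filter.eventually_atTop.mp (h1.and (h2.and (h3.and (h4.and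
    ((Filter.eventually_ge_atTop X₁).and (Filter.eventually_ge_atTop (1 : ℝ)))))))
  exact ⟨X₀, fun X hX => ⟨(h X hX).1.le, (h X hX).2.1.le, (h X hX).2.2.1, (h X hX).2.2.2.2.1,
    (h X hX).2.2.2.2.2, (h X hX).2.2.2.1⟩⟩

theorem final_le {K B ℓ : ℝ} (hK : 0 ≤ K) (h1 : 1 ≤ ℓ) (h2 : K * (2 + B) ≤ ℓ) (hB : 0 ≤ B)
    {x : ℝ} (hx : x ≤ K * (ℓ * (1 + ℓ) + B * ℓ)) : x ≤ ℓ ^ 3 := by
  have h3 : ℓ * (1 + ℓ) + B * ℓ ≤ (2 + B) * ℓ ^ 2 := by nlinarith [mul_nonneg hB (by linarith : (0 : ℝ) ≤ ℓ - 1), mul_nonneg (mul_nonneg hB (by linarith : (0 : ℝ) ≤ ℓ - 1)) (by linarith : (0:ℝ) ≤ ℓ)]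
  calc x ≤ K * (ℓ * (1 + ℓ) + B * ℓ) := hx
    _ ≤ K * ((2 + B) * ℓ ^ 2) := mul_le_mul_of_nonneg_left h3 hK
    _ = (K * (2 + B)) * ℓ ^ 2 := by ring
    _ ≤ ℓ * ℓ ^ 2 := mul_le_mul_of_nonneg_right h2 (by positivity)
    _ = ℓ ^ 3 := by ring

theorem growth_ne (h : StPoly) (q : ℕ) [NeZero q] (χ : DirichletCharacter ℂ q) (hχ : χ ≠ 1)
    (δ : ℝ) (hδ : 0 < δ) (hδ1 : δ ≤ 1) :
    ∃ X₀ : ℝ, ∀ X ≥ X₀, ∀ s : ℂ, 1 ≤ |s.im| → |s.im| ≤ 3 * X →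
      1 - Real.log (Real.log X) / (δ * Real.log X) ≤ s.re → s.re ≤ 3 →
        ‖LFunction χ s‖ ≤ (Real.log X) ^ 3 := by
  have hq : 1 ≤ q := Nat.one_le_iff_ne_zero.mpr (NeZero.ne q)
  obtain ⟨c, C, X₁, hc, hC, hP⟩ := h q hq χ δ hδ hδ1
  obtain ⟨X₀, hX₀⟩ := ev_all (δ := δ) (c := c) (L₀ := 1 * (2 + (C + 12 * q))) (X₁ := X₁) hc
  refine ⟨X₀, fun X hX s hτ hτX hσ hσ3 => ?_⟩
  obtain ⟨hrc, hr4, hL, hX1, hX2, hl1⟩ := hX₀ X hX
  have hXδ : 1 ≤ X ^ δ := Real.one_le_rpow hX2 hδ.le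
  obtain ⟨M, hM1, hM2, hM3, hM4⟩ := choose_M (τ := s.im) hXδ
  have hσ34 : 3 / 4 ≤ s.re := by linarith
  have h1 := hP X hX1 s hτ hτX (by linarith) hσ3 M hM2 hM4
  have h2 := short_sum χ hδ hδ1 hl1 hX2 hσ
  have h3 := Pool.Agent.Helper6.SW.stPartial q χ hχ s (by linarith) M hM1
  have h4 := err_le hM1 hM3 hτ hσ34 hσ3
  have h5 : ‖LFunction χ s‖ ≤ ‖∑ n ∈ Finset.Icc 1 M, χ ((n : ℕ) : ZMod q) * (n : ℂ) ^ (-s)‖ +
      2 * q * ‖s‖ * (M : ℝ) ^ (-s.re) / s.re := by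
    have := norm_sub_norm_le (LFunction χ s)
      (∑ n ∈ Finset.Icc 1 M, χ ((n : ℕ) : ZMod q) * (n : ℂ) ^ (-s))
    linarith
  have h6 : 2 * q * ‖s‖ * (M : ℝ) ^ (-s.re) / s.re ≤ 12 * q := by
    have : 2 * q * ‖s‖ * (M : ℝ) ^ (-s.re) / s.re =
        (2 * q) * (‖s‖ / s.re * (M : ℝ) ^ (-s.re)) := by ring
    rw [this]
    have hq0 : (0 : ℝ) ≤ q := Nat.cast_nonneg q
    nlinarith
  refine final_le (K := 1) (B := C + 12 * q) (by norm_num) hl1 hL (by positivity) ?_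
  have h7 : C + 12 * q ≤ (C + 12 * q) * Real.log X :=
    le_mul_of_one_le_right (by positivity) hl1
  linarith

theorem growth_one (h : StPoly) (q : ℕ) [NeZero q] (δ : ℝ) (hδ : 0 < δ) (hδ1 : δ ≤ 1) :
    ∃ X₀ : ℝ, ∀ X ≥ X₀, ∀ s : ℂ, 1 ≤ |s.im| → |s.im| ≤ 3 * X →
      1 - Real.log (Real.log X) / (δ * Real.log X) ≤ s.re → s.re ≤ 3 →
        ‖LFunction (1 : DirichletCharacter ℂ q) s‖ ≤ (Real.log X) ^ 3 := by
  obtain ⟨c, C, X₁, hc, hC, hP⟩ := h 1 le_rfl (1 : DirichletCharacter ℂ 1) δ hδ hδ1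
  obtain ⟨X₀, hX₀⟩ := ev_all (δ := δ) (c := c)
    (L₀ := (2 : ℝ) ^ q.primeFactors.card * (2 + (C + 8))) (X₁ := X₁) hc
  refine ⟨X₀, fun X hX s hτ hτX hσ hσ3 => ?_⟩
  obtain ⟨hrc, hr4, hL, hX1, hX2, hl1⟩ := hX₀ X hX
  have hXδ : 1 ≤ X ^ δ := Real.one_le_rpow hX2 hδ.le
  obtain ⟨M, hM1, hM2, hM3, hM4⟩ := choose_M (τ := s.im) hXδ
  have hσ34 : 3 / 4 ≤ s.re := by linarith
  have him : s.im ≠ 0 := by
    intro h0
    rw [h0, abs_zero] at hτ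
    linarith
  have hs1 : s ≠ 1 := by
    intro h0
    rw [h0] at him
    simp at him
  have h1 := hP X hX1 s hτ hτX (by linarith) hσ3 M hM2 hM4
  have h2 := short_sum (1 : DirichletCharacter ℂ 1) hδ hδ1 hl1 hX2 hσ
  have h3 := Pool.Agent.Helper16.SW.zeta_approx (s := s) (by linarith) him hM1
  have h4 := err_le hM1 hM3 hτ hσ34 hσ3
  have h5 := main_le hδ hl1 hX2 hM1 hM4 hτ hr4 hσ
  have h6 : ∑ n ∈ Finset.Icc 1 M, (1 : DirichletCharacter ℂ 1) ((n : ℕ) : ZMod 1) * (n : ℂ) ^ (-s) =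
      ∑ n ∈ Finset.Icc 1 M, (n : ℂ) ^ (-s) := by
    apply Finset.sum_congr rfl
    intro n _
    rw [MulChar.one_apply (isUnit_of_subsingleton _), one_mul]
  rw [h6] at h1
  have h7 : ‖Pool.Agent.Helper16.SW.PZ M s‖ ≤
      ‖∑ n ∈ Finset.Icc 1 M, (n : ℂ) ^ (-s)‖ + ‖(M : ℂ) ^ (1 - s) / (s - 1)‖ :=
    norm_add_le _ _
  have h8 : ‖riemannZeta s‖ ≤ ‖Pool.Agent.Helper16.SW.PZ M s‖ +
      ‖s‖ / s.re * (M : ℝ) ^ (-s.re) := by
    have := norm_sub_norm_le (riemannZeta s) (Pool.Agent.Helper16.SW.PZ M s)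
    linarith
  have h9 : ‖riemannZeta s‖ ≤ Real.log X * (1 + Real.log X) + (C + 8) * Real.log X := by
    have h10 : C + 6 ≤ (C + 6) * Real.log X := le_mul_of_one_le_right (by positivity) hl1
    linarith
  have h11 : ‖∏ p ∈ q.primeFactors, (1 - (p : ℂ) ^ (-s))‖ ≤ (2 : ℝ) ^ q.primeFactors.card := by
    rw [norm_prod]
    calc ∏ p ∈ q.primeFactors, ‖1 - (p : ℂ) ^ (-s)‖ ≤ ∏ _p ∈ q.primeFactors, (2 : ℝ) := by
          apply Finset.prod_le_prod (fun _ _ => norm_nonneg _)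
          intro p hp
          have hp0 : 0 < p := (Nat.prime_of_mem_primeFactors hp).pos
          have h12 : ‖(p : ℂ) ^ (-s)‖ ≤ 1 := by
            rw [Complex.norm_natCast_cpow_of_pos hp0]
            apply Real.rpow_le_one_of_one_le_of_nonpos (by exact_mod_cast hp0)
            rw [Complex.neg_re]
            linarith
          calc ‖1 - (p : ℂ) ^ (-s)‖ ≤ ‖(1 : ℂ)‖ + ‖(p : ℂ) ^ (-s)‖ := norm_sub_le _ _
            _ ≤ 2 := by
                rw [norm_one]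
                linarith
      _ = (2 : ℝ) ^ q.primeFactors.card := by
          rw [Finset.prod_const]
  refine final_le (K := (2 : ℝ) ^ q.primeFactors.card) (B := C + 8) (by positivity) hl1 hL
    (by positivity) ?_
  have h13 : LFunction (1 : DirichletCharacter ℂ q) s = LFunctionTrivChar q s := rfl
  rw [h13, LFunctionTrivChar_eq_mul_riemannZeta hs1, norm_mul]
  exact mul_le_mul h11 h9 (norm_nonneg _) (by positivity)

theorem stGrowth (h : StPoly) : StGrowth := by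
  intro q _ χ δ hδ hδ1
  by_cases hχ : χ = 1
  · subst hχ
    exact growth_one h q δ hδ hδ1
  · exact growth_ne h q χ hχ δ hδ hδ1

end MRP.E
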