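import Mathlib
import Pool.Agent.Helper6.MR.EDefs

/-!
# E10: Borel and Caratheodory for g with no zeros

PROOF.  A nonvanishing differentiable function on a ball has a differentiable logarithm there: see `Mathlib/Analysis/Complex/BranchLogRoot.lean`
(or `DifferentiableOn.isExactOn_ball` / primitive of `g'/g`).  Translate to centre `0`: `h z = log (g (s₀+z)/g s₀)`, `h 0 = 0`, `Re h ≤ M` on `ball 0 r`
since `exp (Re h) = ‖g‖/‖g s₀‖ ≤ exp M`.  `Complex.borelCaratheodory_zero`: `‖h z‖ ≤ 2M‖z‖/(r-‖z‖) ≤ 6M` for `‖z‖ ≤ 3r/4`.  For `‖z‖ ≤ r/2` Cauchy's estimate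
on the circle of radius `r/4` around `z` (`Complex.norm_deriv_le_of_forall_mem_sphere_norm_le`): `‖h' z‖ ≤ 6M/(r/4) = 24M/r`, and `h' = g'/g`.
-/

set_option autoImplicit false

namespace MRP.E

open Finset Complex DirichletCharacter

theorem stBorel : StBorel := by
  intro g s₀ r M hr hM hd hnz hb s hs
  have hs0 : s₀ ∈ Metric.ball s₀ r := Metric.mem_ball_self hr
  have hd' : DifferentiableOn ℂ (fun z => deriv g z / g z) (Metric.ball s₀ r) :=
    (hd.deriv Metric.isOpen_ball).div hd hnz
  obtain ⟨F, hF0, hF⟩ := hd'.isExactOn_ball.with_val_at s₀ 0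
  have hgd : ∀ z ∈ Metric.ball s₀ r, HasDerivAt g (deriv g z) z := fun z hz =>
    (hd.differentiableAt (Metric.isOpen_ball.mem_nhds hz)).hasDerivAt
  have hφ : ∀ z ∈ Metric.ball s₀ r, HasDerivAt (fun w => g w * Complex.exp (-F w)) 0 z := by
    intro z hz
    have h1 := (hgd z hz).mul ((hF z hz).neg.cexp)
    have h2 : deriv g z * Complex.exp (-F z) +
        g z * (Complex.exp (-F z) * (-(deriv g z / g z))) = 0 := by
      have := hnz z hz
      field_simp
      ring
    rw [← h2]
    exact h1
  have hconst : ∀ z ∈ Metric.ball s₀ r, g z * Complex.exp (-F z) = g s₀ := by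
    intro z hz
    have h1 := Metric.isOpen_ball.is_const_of_deriv_eq_zero (𝕜 := ℂ)
      (f := fun w => g w * Complex.exp (-F w))
      (convex_ball s₀ r).isPreconnected
      (fun w hw => (hφ w hw).differentiableAt.differentiableWithinAt)
      (fun w hw => (hφ w hw).deriv) hz hs0
    rw [h1]
    simp only [hF0, neg_zero, Complex.exp_zero, mul_one]
  have hre : ∀ z ∈ Metric.ball s₀ r, (F z).re ≤ M := by
    intro z hz
    have h1 := hconst z hz
    have h2 : g z = g s₀ * Complex.exp (F z) := by
      rw [← h1, mul_assoc, ← Complex.exp_add, neg_add_cancel, Complex.exp_zero, mul_one]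
    have h3 := hb z hz
    have h4 : 0 < ‖g s₀‖ := norm_pos_iff.2 (hnz s₀ hs0)
    rw [h2, norm_mul, Complex.norm_exp, mul_comm] at h3
    have h5 := le_of_mul_le_mul_right h3 h4
    exact Real.exp_le_exp.1 h5
  have hbc : ∀ z : ℂ, ‖z‖ < r → ‖F (s₀ + z)‖ ≤ 2 * M * ‖z‖ / (r - ‖z‖) := by
    intro z hz
    have hm : ∀ w ∈ Metric.ball (0 : ℂ) r, s₀ + w ∈ Metric.ball s₀ r := by
      intro w hw
      rw [mem_ball_zero_iff] at hw
      rw [mem_ball_iff_norm, add_sub_cancel_left]
      exact hw
    apply Complex.borelCaratheodory_zero (f := fun w => F (s₀ + w)) (R := r) hM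
    · intro w hw
      have h1 := (hF (s₀ + w) (hm w hw)).differentiableAt
      have h2 : DifferentiableAt ℂ (fun w => F (s₀ + w)) w :=
        DifferentiableAt.comp w h1 ((differentiableAt_const s₀).add differentiableAt_id)
      exact h2.differentiableWithinAt
    · intro w hw
      exact hre _ (hm w hw)
    · exact hr
    · rw [mem_ball_zero_iff]
      exact hz
    · simp only [add_zero, hF0]
  have hs2 : ‖s - s₀‖ ≤ r / 2 := by
    rw [← mem_closedBall_iff_norm]
    exact hs
  have hsub : ∀ z ∈ Metric.closedBall s (r / 4), ‖z - s₀‖ ≤ 3 * r / 4 := by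
    intro z hz
    rw [mem_closedBall_iff_norm] at hz
    calc ‖z - s₀‖ = ‖(z - s) + (s - s₀)‖ := by rw [sub_add_sub_cancel]
      _ ≤ ‖z - s‖ + ‖s - s₀‖ := norm_add_le _ _
      _ ≤ 3 * r / 4 := by linarith
  have hsub' : ∀ z ∈ Metric.closedBall s (r / 4), z ∈ Metric.ball s₀ r := by
    intro z hz
    rw [mem_ball_iff_norm]
    linarith [hsub z hz]
  have hdc : DiffContOnCl ℂ F (Metric.ball s (r / 4)) := by
    apply DifferentiableOn.diffContOnCl
    intro z hz
    exact (hF z (hsub' z (Metric.closure_ball_subset_closedBall hz))).differentiableAt.differentiableWithinAt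
  have hc : ∀ z ∈ Metric.sphere s (r / 4), ‖F z‖ ≤ 6 * M := by
    intro z hz
    have h1 := hsub z (Metric.sphere_subset_closedBall hz)
    have h2 := hbc (z - s₀) (by linarith)
    rw [add_sub_cancel] at h2
    refine h2.trans ?_
    rw [div_le_iff₀ (by linarith)]
    nlinarith [norm_nonneg (z - s₀)]
  have hfin := Complex.norm_deriv_le_of_forall_mem_sphere_norm_le (by positivity) hdc hc
  rw [(hF s (hsub' s (Metric.mem_closedBall_self (by positivity)))).deriv] at hfin
  refine hfin.trans (le_of_eq ?_)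
  field_simp
  ring

end MRP.E
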