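import Mathlib
import Pool.Agent.Helper6.MR.EDefs

/-!
# E11: local factorisation

PROOF.  Division lemma: if `f` is differentiable at every point of `closedBall s₀ R` and `f ρ = 0`, then `f = (z - ρ) g` on `closedBall s₀ R` with `g` differentiable at every
point of `closedBall s₀ R` (`g = dslope f ρ`; `Complex.differentiableOn_dslope`; note that `f` is differentiable in a neighbourhood only of each point of the open ball: use
`DifferentiableOn` on the open ball plus `DifferentiableAt` at every point of the closed ball, both are inherited by `dslope f ρ` for `ρ` in the open ball).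
Bound: if `‖f‖ ≤ exp M ‖f s₀‖` on `closedBall s₀ R`, `ρ ∈ closedBall s₀ (R/3)`, `f ρ = 0` (so `ρ ≠ s₀`), then on the sphere `‖z - s₀‖ = R`: `‖z - ρ‖ ≥ 2R/3 ≥ 2 ‖s₀ - ρ‖`, hence
`‖g z‖ = ‖f z‖/‖z-ρ‖ ≤ exp M ‖f s₀‖/(2‖s₀-ρ‖) = (exp M/2) ‖g s₀‖`; by the maximum modulus principle (`Complex.norm_le_of_forall_mem_frontier_norm_le`) the same on the closed ball.
In particular (at `s₀`) `exp M/2 ≥ 1`, i.e. `M - log 2 ≥ 0`.  Iterate: strong induction on `⌊M/log 2⌋₊`: if `f` has no zero in `closedBall s₀ (R/3)` take `Z = 0` and apply `StBorel`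
with `r = R/3` (`24 M/(R/3) = 72M/R`); otherwise take a zero `ρ`, apply the induction hypothesis to `g` with `M - log 2` (if `M - log 2 = 0` replace `M` by any positive number: prove the
statement with the bound `100 M'/R` for all `M' ≥ M`, `M' > 0`, or note `72 < 100`) and take `Z = ρ ::ₘ Z_g`; for `f s ≠ 0`: `f'/f = 1/(s-ρ) + g'/g`.
The zeros of `f` are `ρ` and those of `g`.
-/

set_option autoImplicit false

namespace MRP.E

open Finset Complex DirichletCharacter

/-- division by a linear factor -/
theorem dslope_diff {f : ℂ → ℂ} {s₀ ρ : ℂ} {R : ℝ} (hρ : ρ ∈ Metric.ball s₀ R)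
    (hf : ∀ s ∈ Metric.closedBall s₀ R, DifferentiableAt ℂ f s) :
    ∀ s ∈ Metric.closedBall s₀ R, DifferentiableAt ℂ (dslope f ρ) s := by
  intro s hs
  by_cases h : s = ρ
  · subst h
    have h1 : DifferentiableOn ℂ f (Metric.ball s₀ R) := fun z hz =>
      (hf z (Metric.ball_subset_closedBall hz)).differentiableWithinAt
    have h2 : DifferentiableOn ℂ (dslope f s) (Metric.ball s₀ R) :=
      (Complex.differentiableOn_dslope (Metric.isOpen_ball.mem_nhds hρ)).mpr h1
    exact h2.differentiableAt (Metric.isOpen_ball.mem_nhds hρ)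
  · exact (differentiableAt_dslope_of_ne h).mpr (hf s hs)

theorem local_core (h : StBorel) (s₀ : ℂ) (R : ℝ) (hR : 0 < R) : ∀ (n : ℕ) (f : ℂ → ℂ) (M : ℝ),
    M < n * Real.log 2 → (∀ s ∈ Metric.closedBall s₀ R, DifferentiableAt ℂ f s) → f s₀ ≠ 0 →
    (∀ s ∈ Metric.closedBall s₀ R, ‖f s‖ ≤ Real.exp M * ‖f s₀‖) →
    ∃ Z : Multiset ℂ, (∀ ρ ∈ Z, ρ ∈ Metric.closedBall s₀ (R / 3) ∧ f ρ = 0) ∧
      (∀ ρ ∈ Metric.closedBall s₀ (R / 3), f ρ = 0 → ρ ∈ Z) ∧
      ∀ s ∈ Metric.closedBall s₀ (R / 6), f s ≠ 0 →
        ‖deriv f s / f s - (Z.map (fun ρ => 1 / (s - ρ))).sum‖ ≤ 72 * M / R := by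
  intro n
  induction n with
  | zero =>
    intro f M hM _ h0 hb
    exfalso
    have h1 := hb s₀ (Metric.mem_closedBall_self hR.le)
    have h2 : Real.exp M < 1 := by
      rw [Real.exp_lt_one_iff]
      simpa using hM
    have h3 : 0 < ‖f s₀‖ := norm_pos_iff.mpr h0
    nlinarith
  | succ n ih =>
    intro f M hM hd h0 hb
    have h3 : 0 < ‖f s₀‖ := norm_pos_iff.mpr h0
    have hM0 : 0 ≤ M := by
      by_contra hneg
      push Not at hneg
      have h1 := hb s₀ (Metric.mem_closedBall_self hR.le)
      have h2 : Real.exp M < 1 := by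
        rw [Real.exp_lt_one_iff]
        exact hneg
      nlinarith
    by_cases hz : ∃ ρ ∈ Metric.closedBall s₀ (R / 3), f ρ = 0
    · obtain ⟨ρ, hρ, hρ0⟩ := hz
      have hρ1 : ‖s₀ - ρ‖ ≤ R / 3 := by
        rw [Metric.mem_closedBall, dist_comm, dist_eq_norm] at hρ
        exact hρ
      have hρb : ρ ∈ Metric.ball s₀ R := by
        rw [Metric.mem_ball, dist_comm, dist_eq_norm]
        linarith
      have hne : s₀ - ρ ≠ 0 := by
        intro hc
        apply h0
        rw [sub_eq_zero.mp hc]
        exact hρ0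
      have hfac : ∀ z, f z = (z - ρ) * dslope f ρ z := by
        intro z
        have := sub_smul_dslope f ρ z
        rw [hρ0, sub_zero, smul_eq_mul] at this
        exact this.symm
      have hgd := dslope_diff hρb hd
      have hg0 : dslope f ρ s₀ ≠ 0 := by
        intro hc
        apply h0
        rw [hfac s₀, hc, mul_zero]
      have hn0 : 0 < ‖s₀ - ρ‖ := norm_pos_iff.mpr hne
      have hg0p : 0 < ‖dslope f ρ s₀‖ := norm_pos_iff.mpr hg0
      -- bound on the sphere
      have hexp : Real.exp (M - Real.log 2) = Real.exp M / 2 := by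
        rw [Real.exp_sub, Real.exp_log (by norm_num)]
      have hbound : ∀ z ∈ Metric.closedBall s₀ R, ‖dslope f ρ z‖ ≤
          Real.exp (M - Real.log 2) * ‖dslope f ρ s₀‖ := by
        intro z hz
        have hcl : closure (Metric.ball s₀ R) = Metric.closedBall s₀ R :=
          closure_ball s₀ hR.ne'
        refine Complex.norm_le_of_forall_mem_frontier_norm_le (U := Metric.ball s₀ R)
          Metric.isBounded_ball ?_ ?_ (by rw [hcl]; exact hz)
        · refine ⟨fun w hw => (hgd w (Metric.ball_subset_closedBall hw)).differentiableWithinAt, ?_⟩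
          rw [hcl]
          exact fun w hw => (hgd w hw).continuousAt.continuousWithinAt
        · intro w hw
          rw [frontier_ball s₀ hR.ne', Metric.mem_sphere, dist_eq_norm] at hw
          have h4 : ‖f w‖ ≤ Real.exp M * ‖f s₀‖ := hb w (by
            rw [Metric.mem_closedBall, dist_eq_norm, hw])
          rw [hfac w, hfac s₀, norm_mul, norm_mul] at h4
          have h5 : 2 * ‖s₀ - ρ‖ ≤ ‖w - ρ‖ := by
            have : ‖w - s₀‖ ≤ ‖w - ρ‖ + ‖s₀ - ρ‖ := by
              have := norm_sub_le (w - ρ) (s₀ - ρ)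
              rwa [sub_sub_sub_cancel_right] at this
            linarith
          rw [hexp]
          have h6 : 2 * ‖s₀ - ρ‖ * ‖dslope f ρ w‖ ≤ ‖w - ρ‖ * ‖dslope f ρ w‖ :=
            mul_le_mul_of_nonneg_right h5 (norm_nonneg _)
          have h7 : ‖s₀ - ρ‖ * (2 * ‖dslope f ρ w‖) ≤
              ‖s₀ - ρ‖ * (Real.exp M * ‖dslope f ρ s₀‖) := by nlinarith
          have h8 := le_of_mul_le_mul_left h7 hn0
          linarith
      obtain ⟨Z, hZ1, hZ2, hZ3⟩ := ih (dslope f ρ) (M - Real.log 2)
        (by push_cast at hM; linarith) hgd hg0 hbound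
      refine ⟨ρ ::ₘ Z, ?_, ?_, ?_⟩
      · intro ρ' hρ'
        rcases Multiset.mem_cons.mp hρ' with h5 | h5
        · subst h5
          exact ⟨hρ, hρ0⟩
        · refine ⟨(hZ1 ρ' h5).1, ?_⟩
          rw [hfac ρ', (hZ1 ρ' h5).2, mul_zero]
      · intro ρ' hρ' h5
        by_cases h6 : ρ' = ρ
        · rw [h6]
          exact Multiset.mem_cons_self _ _
        · refine Multiset.mem_cons_of_mem (hZ2 ρ' hρ' ?_)
          have h7 := hfac ρ'
          rw [h5] at h7
          rcases mul_eq_zero.mp h7.symm with h8 | h8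
          · exact absurd (sub_eq_zero.mp h8) h6
          · exact h8
      · intro s hs hfs
        have hs1 : s ∈ Metric.closedBall s₀ R :=
          Metric.closedBall_subset_closedBall (by linarith) hs
        have hsρ : s - ρ ≠ 0 := by
          intro hc
          apply hfs
          rw [hfac s, hc, zero_mul]
        have hgs : dslope f ρ s ≠ 0 := by
          intro hc
          apply hfs
          rw [hfac s, hc, mul_zero]
        have hder : deriv f s = dslope f ρ s + (s - ρ) * deriv (dslope f ρ) s := by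
          have h5 : HasDerivAt (fun z => (z - ρ) * dslope f ρ z)
              (1 * dslope f ρ s + (s - ρ) * deriv (dslope f ρ) s) s :=
            ((hasDerivAt_id s).sub_const ρ).mul (hgd s hs1).hasDerivAt
          have h6 : f = fun z => (z - ρ) * dslope f ρ z := funext hfac
          have h7 : HasDerivAt f (1 * dslope f ρ s + (s - ρ) * deriv (dslope f ρ) s) s := by
            rw [h6]
            exact h6 ▸ h5
          rw [h7.deriv, one_mul]
        have h8 : deriv f s / f s = 1 / (s - ρ) + deriv (dslope f ρ) s / dslope f ρ s := by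
          rw [hder, hfac s]
          field_simp
        rw [Multiset.map_cons, Multiset.sum_cons, h8]
        have h9 := hZ3 s hs hgs
        have h10 : 72 * (M - Real.log 2) / R ≤ 72 * M / R := by
          apply div_le_div_of_nonneg_right _ hR.le
          have := Real.log_pos (show (1 : ℝ) < 2 by norm_num)
          linarith
        refine le_trans (le_of_eq ?_) (h9.trans h10)
        congr 1
        ring
    · push Not at hz
      refine ⟨0, by simp, fun ρ hρ h5 => absurd h5 (hz ρ hρ), ?_⟩
      intro s hs _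
      rw [Multiset.map_zero, Multiset.sum_zero, sub_zero]
      refine le_of_forall_pos_le_add fun ε hε => ?_
      have hsub : Metric.ball s₀ (R / 3) ⊆ Metric.closedBall s₀ R :=
        Metric.ball_subset_closedBall.trans (Metric.closedBall_subset_closedBall (by linarith))
      have h5 := h f s₀ (R / 3) (M + ε * R / 72) (by positivity) (by positivity)
        (fun z hz1 => (hd z (hsub hz1)).differentiableWithinAt)
        (fun z hz1 => hz z (Metric.ball_subset_closedBall hz1))
        (fun z hz1 => (hb z (hsub hz1)).trans (mul_le_mul_of_nonneg_right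
          (Real.exp_le_exp.mpr (by nlinarith [mul_pos hε hR])) (norm_nonneg _))) s
        (by convert hs using 2; ring)
      refine h5.trans (le_of_eq ?_)
      field_simp
      ring

theorem stLocal (h : StBorel) : StLocal := by
  intro f s₀ R M hR hM hd h0 hb
  obtain ⟨n, hn⟩ := exists_nat_gt (M / Real.log 2)
  have hl := Real.log_pos (show (1 : ℝ) < 2 by norm_num)
  rw [div_lt_iff₀ hl] at hn
  obtain ⟨Z, h1, h2, h3⟩ := local_core h s₀ R hR n f M hn hd h0 hb
  refine ⟨Z, h1, h2, fun s hs hfs => (h3 s hs hfs).trans ?_⟩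
  apply div_le_div_of_nonneg_right _ hR.le
  linarith

end MRP.E
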