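import Mathlib
import Pool.Agent.Helper6.MR.EDefs

/-!
# E12a: 3-4-1 for logarithmic derivatives

PROOF.  For `Re s > 1`: `-L'(s,χ)/L(s,χ) = ∑ Λ(n) χ(n) n^(-s)` (`DirichletCharacter.LSeries_twist_vonMangoldt_eq`, `LFunction_eq_LSeries`, `deriv_LFunction_eq_deriv_LSeries`;
zeta: `ArithmeticFunction.LSeries_vonMangoldt_eq_deriv_riemannZeta_div`; see `Pool/Agent/Helper51/SW/Transform.lean`, `LD_eq`, and `ZTransform.lean`).
The expression is `∑ Λ(n) n^(-1-x) (3 + 4 Re (χ(n) n^(-it)) + Re (χ(n)^2 n^(-2it)))`; every term is `≥ 0`: if `z = χ(n) n^(-it)` then `z = 0` or `|z| = 1` and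
`3 + 4 Re z + Re z^2 = 2 (1 + Re z)^2`.
-/

set_option autoImplicit false

namespace MRP.E

open Finset Complex DirichletCharacter

theorem e12a_local (a : ℝ) (z : ℂ) (ha : 0 ≤ a) (hz : z = 0 ∨ ‖z‖ = 1) :
    0 ≤ 3 * ((a : ℂ)).re + 4 * ((a : ℂ) * z).re + ((a : ℂ) * z ^ 2).re := by
  rcases hz with rfl | hz
  · simp
    exact ha
  · have h1 : z.re ^ 2 + z.im ^ 2 = 1 := by
      have := Complex.sq_norm z
      rw [hz, Complex.normSq_apply] at this
      nlinarith
    have h2 : (z ^ 2).re = z.re ^ 2 - z.im ^ 2 := by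
      rw [pow_two, Complex.mul_re]
      ring
    rw [Complex.re_ofReal_mul, Complex.re_ofReal_mul, Complex.ofReal_re, h2]
    have h3 : 3 * a + 4 * (a * z.re) + a * (z.re ^ 2 - z.im ^ 2) = a * (2 * (1 + z.re) ^ 2) := by
      have : z.im ^ 2 = 1 - z.re ^ 2 := by linarith
      rw [this]
      ring
    rw [h3]
    positivity

theorem stThree : StThree := by
  intro q _ χ x t hx
  set s1 : ℂ := 1 + x with hs1
  set s2 : ℂ := 1 + x + Complex.I * t with hs2
  set s3 : ℂ := 1 + x + Complex.I * (2 * t) with hs3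
  have r1 : 1 < s1.re := by rw [hs1]; simp [hx]
  have r2 : 1 < s2.re := by rw [hs2]; simp [hx]
  have r3 : 1 < s3.re := by rw [hs3]; simp [hx]
  set L : ℕ → ℂ := fun n => (ArithmeticFunction.vonMangoldt n : ℂ) with hL
  set f2 : ℕ → ℂ := (fun n : ℕ => χ (n : ZMod q)) * L with hf2
  set f3 : ℕ → ℂ := (fun n : ℕ => (χ ^ 2) (n : ZMod q)) * L with hf3
  have S1 : LSeriesSummable L s1 := ArithmeticFunction.LSeriesSummable_vonMangoldt r1
  have S2 : LSeriesSummable f2 s2 := LSeriesSummable_twist_vonMangoldt χ r2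
  have S3 : LSeriesSummable f3 s3 := LSeriesSummable_twist_vonMangoldt (χ ^ 2) r3
  have e1 : -(deriv riemannZeta s1 / riemannZeta s1).re = (LSeries L s1).re := by
    rw [hL, ArithmeticFunction.LSeries_vonMangoldt_eq_deriv_riemannZeta_div r1, neg_div,
      Complex.neg_re]
  have e2 : (deriv (LFunction χ) s2 / LFunction χ s2).re = -(LSeries f2 s2).re := by
    rw [hf2, hL, LSeries_twist_vonMangoldt_eq χ r2, deriv_LFunction_eq_deriv_LSeries χ r2,
      LFunction_eq_LSeries χ r2, neg_div, Complex.neg_re, neg_neg]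
  have e3 : (deriv (LFunction (χ ^ 2)) s3 / LFunction (χ ^ 2) s3).re = -(LSeries f3 s3).re := by
    rw [hf3, hL, LSeries_twist_vonMangoldt_eq (χ ^ 2) r3,
      deriv_LFunction_eq_deriv_LSeries (χ ^ 2) r3,
      LFunction_eq_LSeries (χ ^ 2) r3, neg_div, Complex.neg_re, neg_neg]
  rw [e1, e2, e3]
  have t1 : (LSeries L s1).re = ∑' n, (LSeries.term L s1 n).re := Complex.re_tsum S1
  have t2 : (LSeries f2 s2).re = ∑' n, (LSeries.term f2 s2 n).re := Complex.re_tsum S2
  have t3 : (LSeries f3 s3).re = ∑' n, (LSeries.term f3 s3 n).re := Complex.re_tsum S3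
  have q1 : Summable (fun n => (LSeries.term L s1 n).re) := (Complex.hasSum_re S1.hasSum).summable
  have q2 : Summable (fun n => (LSeries.term f2 s2 n).re) := (Complex.hasSum_re S2.hasSum).summable
  have q3 : Summable (fun n => (LSeries.term f3 s3 n).re) := (Complex.hasSum_re S3.hasSum).summable
  have key : 3 * (LSeries L s1).re + 4 * (LSeries f2 s2).re + (LSeries f3 s3).re
      = ∑' n, (3 * (LSeries.term L s1 n).re + 4 * (LSeries.term f2 s2 n).re
        + (LSeries.term f3 s3 n).re) := by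
    rw [t1, t2, t3, ← tsum_mul_left, ← tsum_mul_left,
      ← (q1.mul_left 3).tsum_add (q2.mul_left 4), ← ((q1.mul_left 3).add (q2.mul_left 4)).tsum_add q3]
  have fin : 3 * (LSeries L s1).re - 4 * -(LSeries f2 s2).re - -(LSeries f3 s3).re
      = 3 * (LSeries L s1).re + 4 * (LSeries f2 s2).re + (LSeries f3 s3).re := by ring
  rw [fin, key]
  refine tsum_nonneg (fun n => ?_)
  rcases eq_or_ne n 0 with rfl | hn
  · simp
  · have hnc : (n : ℂ) ≠ 0 := Nat.cast_ne_zero.2 hn
    set a : ℝ := ArithmeticFunction.vonMangoldt n / (n : ℝ) ^ (1 + x) with ha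
    set w : ℂ := (n : ℂ) ^ (Complex.I * t) with hw
    have hw0 : w ≠ 0 := by
      rw [hw, Ne, Complex.cpow_eq_zero_iff]
      tauto
    have hwn : ‖w‖ = 1 := by
      rw [hw, Complex.norm_natCast_cpow_of_pos (Nat.pos_of_ne_zero hn)]
      simp
    set z : ℂ := χ (n : ZMod q) / w with hz
    have p1 : (n : ℂ) ^ s1 = (((n : ℝ) ^ (1 + x) : ℝ) : ℂ) := by
      rw [Complex.ofReal_cpow (Nat.cast_nonneg n), hs1]
      push_cast
      rfl
    have p2 : (n : ℂ) ^ s2 = (n : ℂ) ^ s1 * w := by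
      rw [hs2, hs1, hw, ← Complex.cpow_add _ _ hnc]
    have p3 : (n : ℂ) ^ s3 = (n : ℂ) ^ s1 * w ^ 2 := by
      rw [hs3, hs1, hw, pow_two, ← Complex.cpow_add _ _ hnc, ← Complex.cpow_add _ _ hnc]
      congr 1
      ring
    have p0 : (n : ℂ) ^ s1 ≠ 0 := by
      rw [Ne, Complex.cpow_eq_zero_iff]
      tauto
    have a1 : LSeries.term L s1 n = (a : ℂ) := by
      rw [LSeries.term_of_ne_zero hn, hL, ha, p1]
      push_cast
      rfl
    have a0 : (a : ℂ) = L n / (n : ℂ) ^ s1 := by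
      rw [← a1, LSeries.term_of_ne_zero hn]
    have a2 : LSeries.term f2 s2 n = (a : ℂ) * z := by
      rw [LSeries.term_of_ne_zero hn, hf2, hz, a0, p2]
      simp only [Pi.mul_apply]
      field_simp
    have a3 : LSeries.term f3 s3 n = (a : ℂ) * z ^ 2 := by
      rw [LSeries.term_of_ne_zero hn, hf3, hz, a0, p3]
      simp only [Pi.mul_apply, MulChar.pow_apply' χ two_ne_zero]
      field_simp
    have hz1 : z = 0 ∨ ‖z‖ = 1 := by
      by_cases hu : IsUnit (n : ZMod q)
      · right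
        rw [hz, norm_div, hwn, div_one]
        obtain ⟨u, hu⟩ := hu
        rw [← hu]
        exact χ.unit_norm_eq_one u
      · left
        rw [hz, χ.map_nonunit hu, zero_div]
    have hapos : 0 ≤ a := by
      rw [ha]
      exact div_nonneg ArithmeticFunction.vonMangoldt_nonneg (Real.rpow_nonneg (Nat.cast_nonneg n) _)
    rw [a1, a2, a3]
    exact e12a_local a z hapos hz1

end MRP.E
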