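import Mathlib
import Pool.Agent.Helper6.MR.EDefs

/-!
# E12b: trivial bounds to the right of 1

PROOF.  (i) `-ζ'/ζ(1+x) ≤ 1/x + C`, `0 < x ≤ 1`: elementary: `x ζ(1+x)` and its derivative are bounded and bounded below; or: `Pool/Agent/Helper16/SW/ZCompact.lean`
(`stZCompact 0`: `-ζ'/ζ - ζ` is bounded for `0 < x ≤ 1/2`), `ζ(1+x) ≤ 1 + 1/x`, and compactness for `1/2 ≤ x ≤ 1`.
(ii) `‖L'/L(1+x+it, χ)‖ ≤ ∑ Λ(n) n^(-1-x) = -ζ'/ζ(1+x)`.  (iii) `1/L(s,χ) = ∑ μ(n) χ(n) n^(-s)` (`LSeries_zeta_mul_Lseries_moebius` twisted, or the Euler product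
`‖1 - χ(p) p^(-s)‖ ≤ 1 + p^(-σ) ≤ (1 - p^(-σ))⁻¹`), so `1 ≤ ζ(1+x) ‖L(1+x+it,χ)‖ ≤ (2/x) ‖L‖`.
-/

set_option autoImplicit false

namespace MRP.E

open Finset Complex DirichletCharacter

/-- comparison of a Dirichlet series with a nonnegative majorant -/
theorem e12b_norm_le (f : ℕ → ℂ) (g : ℕ → ℝ) (s : ℂ) (σ : ℝ) (hs : s.re = σ)
    (hfg : ∀ n, n ≠ 0 → ‖f n‖ ≤ g n) (hsum : LSeriesSummable (fun n => (g n : ℂ)) (σ : ℂ)) :
    ‖LSeries f s‖ ≤ (LSeries (fun n => (g n : ℂ)) (σ : ℂ)).re := by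
  set h : ℕ → ℝ := fun n => if n = 0 then 0 else g n / (n : ℝ) ^ σ with hh
  have e1 : ∀ n, LSeries.term (fun n => (g n : ℂ)) (σ : ℂ) n = ((h n : ℝ) : ℂ) := by
    intro n
    rcases eq_or_ne n 0 with rfl | hn
    · simp [hh]
    · rw [LSeries.term_of_ne_zero hn, hh]
      simp only [hn, if_false]
      push_cast
      rw [Complex.ofReal_cpow (Nat.cast_nonneg n), Complex.ofReal_natCast]
  have hsum' : Summable h := by
    have : Summable (fun n => ((h n : ℝ) : ℂ)) := by
      have h2 := hsum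
      unfold LSeriesSummable at h2
      refine h2.congr (fun n => (e1 n))
    exact_mod_cast this
  have e2 : LSeries (fun n => (g n : ℂ)) (σ : ℂ) = ((∑' n, h n : ℝ) : ℂ) := by
    unfold LSeries
    rw [Complex.ofReal_tsum]
    exact tsum_congr e1
  have e3 : ∀ n, ‖LSeries.term f s n‖ ≤ h n := by
    intro n
    rw [LSeries.norm_term_eq, hs]
    rcases eq_or_ne n 0 with rfl | hn
    · simp [hh]
    · simp only [hn, if_false, hh]
      exact div_le_div_of_nonneg_right (hfg n hn) (Real.rpow_nonneg (Nat.cast_nonneg n) _)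
  have hsn : Summable (fun n => ‖LSeries.term f s n‖) :=
    Summable.of_nonneg_of_le (fun _ => norm_nonneg _) e3 hsum'
  rw [e2, Complex.ofReal_re]
  unfold LSeries
  calc ‖∑' n, LSeries.term f s n‖ ≤ ∑' n, ‖LSeries.term f s n‖ := norm_tsum_le_tsum_norm hsn
    _ ≤ ∑' n, h n := Summable.tsum_le_tsum e3 hsn hsum'

/-- `ζ(1+x) ≤ 1 + 1/x` -/
theorem e12b_zeta_le (x : ℝ) (hx : 0 < x) : (riemannZeta (1 + x)).re ≤ 1 + 1 / x := by
  have hs : 1 < ((1 : ℂ) + x).re := by simp [hx]
  have h1 : (1 : ℝ) < 1 + x := by linarith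
  have e0 : riemannZeta (1 + x) = ((∑' n : ℕ, 1 / (n + 1 : ℝ) ^ (1 + x) : ℝ) : ℂ) := by
    rw [zeta_eq_tsum_one_div_nat_add_one_cpow hs, Complex.ofReal_tsum]
    refine tsum_congr (fun n => ?_)
    push_cast
    rw [Complex.ofReal_cpow (by positivity)]
    push_cast
    rfl
  have e1 := ZetaAsymptotics.zeta_limit_aux1 h1
  have e2 : 0 ≤ ZetaAsymptotics.termTSum (1 + x) :=
    tsum_nonneg (fun n => ZetaAsymptotics.term_nonneg _ _)
  rw [e0, Complex.ofReal_re]
  have e3 : 1 + x - 1 = x := by ring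
  rw [e3] at e1
  nlinarith

theorem stTriv : StTriv := by
  -- a bound for `ζ₁'/ζ₁` on the segment `[1, 2]`
  have hne : ∀ x : ℝ, x ∈ Set.Icc (0 : ℝ) 1 → riemannZeta₁ (1 + x) ≠ 0 := by
    intro x hx
    by_cases h : (1 : ℂ) + x = 1
    · rw [h, riemannZeta₁_one]
      exact one_ne_zero
    · intro h0
      have h1 := riemannZeta_eq_inv_sub_mul h
      rw [h0, mul_zero] at h1
      exact riemannZeta_ne_zero_of_one_le_re (by simp [hx.1]) h1
  have hcont : ContinuousOn (fun x : ℝ => deriv riemannZeta₁ (1 + x) / riemannZeta₁ (1 + x))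
      (Set.Icc (0 : ℝ) 1) := by
    have c0 : Continuous (fun x : ℝ => (1 : ℂ) + x) := by fun_prop
    refine ContinuousOn.div ?_ ?_ hne
    · exact (differentiable_riemannZeta₁.deriv.continuous.comp c0).continuousOn
    · exact (differentiable_riemannZeta₁.continuous.comp c0).continuousOn
  obtain ⟨C₀, hC₀⟩ := isCompact_Icc.exists_bound_of_continuousOn hcont
  have hzl : ∀ x : ℝ, 0 < x → x ≤ 1 →
      -(deriv riemannZeta (1 + x) / riemannZeta (1 + x)).re ≤ 1 / x + max C₀ 1 := by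
    intro x hx0 hx1
    have hx : ((1 : ℂ) + x) ≠ 1 := by
      intro h
      have := congrArg Complex.re h
      simp at this
      linarith
    have e1 := riemannZeta_eq_inv_sub_mul hx
    have e2 := deriv_riemannZeta_eq_neg_inv_sub_sq_mul_add hx
    have hz := hne x ⟨hx0.le, hx1⟩
    have hxc : (x : ℂ) ≠ 0 := by exact_mod_cast hx0.ne'
    have e3 : (1 : ℂ) + x - 1 = x := by ring
    rw [e3] at e1 e2
    have e4 : - (deriv riemannZeta (1 + x) / riemannZeta (1 + x))
        = ((1 / x : ℝ) : ℂ) - deriv riemannZeta₁ (1 + x) / riemannZeta₁ (1 + x) := by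
      rw [e2, e1]
      push_cast
      field_simp
      ring
    have e5 := congrArg Complex.re e4
    rw [Complex.neg_re, Complex.sub_re, Complex.ofReal_re] at e5
    rw [e5]
    have e6 := hC₀ x ⟨hx0.le, hx1⟩
    have e7 := Complex.abs_re_le_norm (deriv riemannZeta₁ (1 + x) / riemannZeta₁ (1 + x))
    have e8 := abs_le.1 (e7.trans e6)
    have e9 := le_max_left C₀ 1
    linarith [e8.1]
  refine ⟨max C₀ 1, lt_of_lt_of_le one_pos (le_max_right _ _), fun x hx0 hx1 => ⟨hzl x hx0 hx1, ?_⟩⟩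
  intro q _ χ t
  set s : ℂ := 1 + x + Complex.I * t with hs
  have hre : s.re = 1 + x := by simp [hs]
  have hs1 : 1 < s.re := by rw [hre]; linarith
  have hσ : 1 < (((1 + x : ℝ)) : ℂ).re := by rw [Complex.ofReal_re]; linarith
  have hσe : (((1 + x : ℝ)) : ℂ) = 1 + (x : ℂ) := by push_cast; ring
  constructor
  · rw [deriv_LFunction_eq_deriv_LSeries χ hs1, LFunction_eq_LSeries χ hs1]
    have e1 := LSeries_twist_vonMangoldt_eq χ hs1
    have e2 : ‖deriv (LSeries (fun n : ℕ => χ (n : ZMod q))) s / LSeries (fun n : ℕ => χ (n : ZMod q)) s‖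
        = ‖LSeries ((fun n : ℕ => χ (n : ZMod q)) * fun n => (ArithmeticFunction.vonMangoldt n : ℂ)) s‖ := by
      rw [e1, neg_div, norm_neg]
    rw [e2]
    have e3 := e12b_norm_le ((fun n : ℕ => χ (n : ZMod q)) * fun n => (ArithmeticFunction.vonMangoldt n : ℂ))
      (fun n => ArithmeticFunction.vonMangoldt n) s (1 + x) hre
      (fun n _ => by
        have h1 : ‖χ (n : ZMod q)‖ ≤ 1 := χ.norm_le_one _
        have h2 : 0 ≤ ArithmeticFunction.vonMangoldt n := ArithmeticFunction.vonMangoldt_nonneg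
        simp only [Pi.mul_apply, norm_mul, Complex.norm_real, Real.norm_eq_abs, abs_of_nonneg h2]
        nlinarith)
      (ArithmeticFunction.LSeriesSummable_vonMangoldt hσ)
    refine e3.trans ?_
    have e4 := ArithmeticFunction.LSeries_vonMangoldt_eq_deriv_riemannZeta_div hσ
    have e5 := hzl x hx0 hx1
    have e6 : (LSeries (fun n => ((ArithmeticFunction.vonMangoldt n : ℝ) : ℂ)) ((1 + x : ℝ) : ℂ)).re
        = -(deriv riemannZeta (1 + x) / riemannZeta (1 + x)).re := by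
      rw [e4, hσe, neg_div, Complex.neg_re]
    rw [e6]
    exact e5
  · rw [LFunction_eq_LSeries χ hs1]
    have e1 := LSeries.mul_mu_eq_one χ hs1
    have e2 := congrArg norm e1
    rw [norm_mul, norm_one] at e2
    have e3 := e12b_norm_le ((fun n : ℕ => χ (n : ZMod q)) * fun n => ((ArithmeticFunction.moebius n : ℤ) : ℂ))
      (fun _ => 1) s (1 + x) hre
      (fun n _ => by
        have h1 : ‖χ (n : ZMod q)‖ ≤ 1 := χ.norm_le_one _
        have h2 : ‖((ArithmeticFunction.moebius n : ℤ) : ℂ)‖ ≤ 1 := by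
          rw [Complex.norm_intCast]
          exact_mod_cast ArithmeticFunction.abs_moebius_le_one
        simp only [Pi.mul_apply, norm_mul]
        have h3 := norm_nonneg (χ (n : ZMod q))
        have h4 := norm_nonneg (((ArithmeticFunction.moebius n : ℤ) : ℂ))
        nlinarith)
      (by
        have := (LSeriesSummable_one_iff (s := (((1 + x : ℝ)) : ℂ))).2 hσ
        refine (LSeriesSummable_congr _ (fun {n} _ => ?_)).1 this
        simp)
    have e4 : (LSeries (fun _ => ((1 : ℝ) : ℂ)) ((1 + x : ℝ) : ℂ)).re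
        = (riemannZeta (1 + x)).re := by
      rw [← hσe, ← LSeries_one_eq_riemannZeta hσ]
      congr 1
    have e5 := e12b_zeta_le x hx0
    have e6 : 1 + 1 / x ≤ 2 / x := by
      have e61 : (2 : ℝ) / x = 1 / x + 1 / x := by ring
      have e62 : (1 : ℝ) ≤ 1 / x := by
        rw [le_div_iff₀ hx0]
        linarith
      linarith
    rw [e4] at e3
    have e7 : ‖LSeries ((fun n : ℕ => χ (n : ZMod q)) * fun n => ((ArithmeticFunction.moebius n : ℤ) : ℂ)) s‖ ≤ 2 / x :=
      e3.trans (e5.trans e6)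
    rw [← e2, mul_comm]
    exact mul_le_mul_of_nonneg_right e7 (norm_nonneg _)

end MRP.E
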