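import Mathlib
import Pool.Agent.Helper6.MR.EDefs

/-!
# E13: Landau lemma

PROOF.  Let `C₂ ≥ 1` be the constant of `StTriv`, `ℓ = log X`, `R = log log X/(δ ℓ)`, `C₁ = 500`, all statements for `X ≥ X₀(q, χ, δ)`.
(1) For `f = L(·, χ)` or `L(·, χ^2)`, `s₀ = 1 + η₀ + iτ` with `c/(δℓ) ≤ η₀ ≤ 1/(δℓ)` (`c` an absolute constant), `2 ≤ |τ| ≤ 2X + 2`: the hypotheses of `StLocal` hold with
this `R` and `M = 5 log log X`, because `closedBall s₀ R ⊆ {Re ≥ 1 - R, Re ≤ 3, 1 ≤ |Im| ≤ 3X}` (`StGrowth`: `‖f‖ ≤ ℓ^3`) and `‖f s₀‖ ≥ η₀/2` (`StTriv`), `2ℓ^3/η₀ ≤ ℓ^5`.  (`f` is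
differentiable away from `s = 1`.)  So `‖f'/f(s) - ∑_{ρ∈Z} 1/(s-ρ)‖ ≤ 100 M/R = C₁ δ ℓ` for `s ∈ closedBall s₀ (R/6)`; all `ρ ∈ Z` have `Re ρ < 1` (Mathlib: `LFunction_ne_zero_of_one_le_re`).
(2) ZERO-FREE REGION: no zero `ρ = β + iγ` of `L(·,χ)` with `3/2 ≤ |γ| ≤ X + 1` has `1 - β < c₀/(δℓ)`.
(3) conclusion.
-/

set_option autoImplicit false

namespace MRP.E

open Finset Complex DirichletCharacter

/-- all elementary largeness conditions on `X` -/
theorem e13_large (δ K : ℝ) (hδ : 0 < δ) : ∀ᶠ X : ℝ in Filter.atTop,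
    6 ≤ X ∧ K ≤ δ * Real.log X ∧ 6 ≤ Real.log (Real.log X) ∧
      Real.log (Real.log X) ≤ δ * Real.log X / 2 ∧ K ≤ Real.log X ∧ 1 ≤ Real.log X := by
  have h1 : ∀ᶠ X : ℝ in Filter.atTop, 6 ≤ X := Filter.eventually_ge_atTop 6
  have hl := Real.tendsto_log_atTop
  have h2 : ∀ᶠ X : ℝ in Filter.atTop, K ≤ δ * Real.log X :=
    (hl.const_mul_atTop hδ).eventually_ge_atTop K
  have h3 : ∀ᶠ X : ℝ in Filter.atTop, 6 ≤ Real.log (Real.log X) :=
    (hl.comp hl).eventually_ge_atTop 6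
  have h4 : ∀ᶠ X : ℝ in Filter.atTop, Real.log (Real.log X) ≤ δ * Real.log X / 2 := by
    have hlo := Real.isLittleO_log_id_atTop.def (c := δ / 2) (by positivity)
    have := hl.eventually hlo
    filter_upwards [this, hl.eventually_ge_atTop 1] with X hX hX1
    simp only [Real.norm_eq_abs, id] at hX
    rw [abs_of_nonneg (by linarith : (0 : ℝ) ≤ Real.log X)] at hX
    have := le_abs_self (Real.log (Real.log X))
    nlinarith
  have h5 : ∀ᶠ X : ℝ in Filter.atTop, K ≤ Real.log X := hl.eventually_ge_atTop K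
  have h6 : ∀ᶠ X : ℝ in Filter.atTop, 1 ≤ Real.log X := hl.eventually_ge_atTop 1
  filter_upwards [h1, h2, h3, h4, h5, h6] with X a b c d e f
  exact ⟨a, b, c, d, e, f⟩

/-- (1) the local factorisation near `1 + η₀ + iτ` -/
theorem e13_local (hG : StGrowth) (hL : StLocal) (C₂ : ℝ)
    (hT : ∀ x : ℝ, 0 < x → x ≤ 1 → ∀ (q : ℕ) [NeZero q] (χ : DirichletCharacter ℂ q) (t : ℝ),
      ‖deriv (LFunction χ) (1 + x + Complex.I * t) / LFunction χ (1 + x + Complex.I * t)‖ ≤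
        1 / x + C₂ ∧ 1 ≤ (2 / x) * ‖LFunction χ (1 + x + Complex.I * t)‖)
    (q : ℕ) [NeZero q] (χ : DirichletCharacter ℂ q) (δ κ : ℝ) (hδ : 0 < δ) (hδ1 : δ ≤ 1)
    (hκ : 0 < κ) : ∀ᶠ X : ℝ in Filter.atTop, ∀ τ η₀ : ℝ, 3 / 2 ≤ |τ| →
      |τ| ≤ 2 * X + 2 → κ / (δ * Real.log X) ≤ η₀ → η₀ ≤ 1 / (δ * Real.log X) →
      ∃ Z : Multiset ℂ,
        (∀ ρ ∈ Z, ρ ∈ Metric.closedBall (1 + (η₀ : ℂ) + Complex.I * τ)
          (Real.log (Real.log X) / (δ * Real.log X) / 3) ∧ LFunction χ ρ = 0) ∧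
        (∀ ρ ∈ Metric.closedBall (1 + (η₀ : ℂ) + Complex.I * τ)
          (Real.log (Real.log X) / (δ * Real.log X) / 3), LFunction χ ρ = 0 → ρ ∈ Z) ∧
        ∀ s ∈ Metric.closedBall (1 + (η₀ : ℂ) + Complex.I * τ)
          (Real.log (Real.log X) / (δ * Real.log X) / 6), LFunction χ s ≠ 0 →
          ‖deriv (LFunction χ) s / LFunction χ s - (Z.map (fun ρ => 1 / (s - ρ))).sum‖ ≤
            500 * (δ * Real.log X) := by
  obtain ⟨XG, hXG⟩ := hG q χ δ hδ hδ1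
  filter_upwards [e13_large δ (2 / κ + 2) hδ, Filter.eventually_ge_atTop XG] with X hX hXG'
  obtain ⟨hX6, hD, hLL, hR, hℓ, hℓ1⟩ := hX
  intro τ η₀ hτ1 hτ2 hη1 hη2
  set ℓ := Real.log X with hℓdef
  have hDpos : 0 < δ * ℓ := by positivity
  have hκ' : 0 < 2 / κ := by positivity
  have hη0 : 0 < η₀ := lt_of_lt_of_le (by positivity) hη1
  have hD2 : 2 ≤ δ * ℓ := by linarith
  have hη3 : η₀ ≤ 1 / 2 := hη2.trans (by
    rw [div_le_div_iff₀ hDpos (by norm_num)]; linarith)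
  set R := Real.log ℓ / (δ * ℓ) with hRdef
  have hRpos : 0 < R := by positivity
  have hR2 : R ≤ 1 / 2 := by
    rw [hRdef, div_le_div_iff₀ hDpos (by norm_num)]
    linarith
  have hM : 0 < 5 * Real.log ℓ := by linarith
  have hs0 := hT η₀ hη0 (by linarith) q χ τ
  set s₀ : ℂ := 1 + (η₀ : ℂ) + Complex.I * τ with hs₀
  have hre : s₀.re = 1 + η₀ := by simp [hs₀]
  have him : s₀.im = τ := by simp [hs₀]
  have hball : ∀ s ∈ Metric.closedBall s₀ R, 1 - R ≤ s.re ∧ s.re ≤ 3 ∧ 1 ≤ |s.im| ∧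
      |s.im| ≤ 3 * X := by
    intro s hs
    rw [Metric.mem_closedBall, dist_eq_norm] at hs
    have h1 := (Complex.abs_re_le_norm (s - s₀)).trans hs
    have h2 := (Complex.abs_im_le_norm (s - s₀)).trans hs
    rw [Complex.sub_re, hre, abs_le] at h1
    rw [Complex.sub_im, him] at h2
    have h3 : |τ| - |s.im| ≤ R := (abs_sub_abs_le_abs_sub τ s.im).trans (by
      rw [abs_sub_comm]; exact h2)
    have h4 : |s.im| - |τ| ≤ R := (abs_sub_abs_le_abs_sub s.im τ).trans h2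
    refine ⟨by linarith [h1.1], by linarith [h1.2], by linarith, by linarith⟩
  have hfs0 : LFunction χ s₀ ≠ 0 := by
    intro h
    have := hs0.2
    rw [h, norm_zero, mul_zero] at this
    linarith
  have key := hL (LFunction χ) s₀ R (5 * Real.log ℓ) hRpos hM ?_ hfs0 ?_
  · obtain ⟨Z, h1, h2, h3⟩ := key
    refine ⟨Z, h1, h2, fun s hs hne => (h3 s hs hne).trans (le_of_eq ?_)⟩
    rw [hRdef]
    have hlog : Real.log ℓ ≠ 0 := by
      have : 0 < Real.log ℓ := by linarith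
      exact this.ne'
    field_simp
    ring
  · intro s hs
    apply differentiableAt_LFunction
    left
    intro h
    have := (hball s hs).2.2.1
    rw [h] at this
    simp at this
    linarith
  · intro s hs
    obtain ⟨a, b, c, d⟩ := hball s hs
    have h1 := hXG X hXG' s c d (by rw [hRdef] at a; exact a) b
    have hexp : Real.exp (5 * Real.log ℓ) = ℓ ^ 5 := by
      rw [show (5 : ℝ) * Real.log ℓ = ((5 : ℕ) : ℝ) * Real.log ℓ by norm_num, Real.exp_nat_mul,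
        Real.exp_log (by linarith)]
    rw [hexp]
    have h2 : η₀ / 2 ≤ ‖LFunction χ s₀‖ := by
      have := hs0.2
      have h' : (2 / η₀) * ‖LFunction χ s₀‖ = ‖LFunction χ s₀‖ / (η₀ / 2) := by
        field_simp
      rw [h', le_div_iff₀ (by positivity)] at this
      linarith
    have h3 : ℓ ^ 3 ≤ ℓ ^ 5 * (η₀ / 2) := by
      have hk : κ ≤ η₀ * (δ * ℓ) := by
        rw [div_le_iff₀ hDpos] at hη1
        exact hη1
      have h4 : 2 ≤ κ * ℓ := by
        have : 2 / κ ≤ ℓ := by linarith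
        rw [div_le_iff₀ hκ] at this
        linarith
      have hℓpos : 0 < ℓ := by linarith
      have h5 : η₀ * (δ * ℓ) ≤ η₀ * ℓ := by
        apply mul_le_mul_of_nonneg_left _ hη0.le
        nlinarith
      have h6 : 2 ≤ η₀ * ℓ ^ 2 := by
        nlinarith
      nlinarith [pow_pos hℓpos 3]
    calc ‖LFunction χ s‖ ≤ ℓ ^ 3 := h1
      _ ≤ ℓ ^ 5 * (η₀ / 2) := h3
      _ ≤ ℓ ^ 5 * ‖LFunction χ s₀‖ := by
        apply mul_le_mul_of_nonneg_left h2
        positivity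

theorem e13_re_inv {w : ℂ} (hw : 0 ≤ w.re) : 0 ≤ (1 / w).re := by
  rw [one_div, Complex.inv_re]
  exact div_nonneg hw (Complex.normSq_nonneg _)

theorem e13_sum_re (Z : Multiset ℂ) (s : ℂ) :
    ((Z.map (fun ρ => 1 / (s - ρ))).sum).re = (Z.map (fun ρ => (1 / (s - ρ)).re)).sum := by
  induction Z using Multiset.induction_on with
  | empty => simp
  | cons a Z ih => simp only [Multiset.map_cons, Multiset.sum_cons, Complex.add_re, ih]

theorem e13_single (Z : Multiset ℂ) (s ρ : ℂ) (hρ : ρ ∈ Z) (h : ∀ ρ' ∈ Z, 0 ≤ (s - ρ').re) :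
    (1 / (s - ρ)).re ≤ ((Z.map (fun ρ => 1 / (s - ρ))).sum).re := by
  rw [e13_sum_re]
  apply Multiset.single_le_sum
  · intro x hx
    obtain ⟨a, ha, rfl⟩ := Multiset.mem_map.1 hx
    exact e13_re_inv (h a ha)
  · exact Multiset.mem_map_of_mem _ hρ

theorem e13_nonneg (Z : Multiset ℂ) (s : ℂ) (h : ∀ ρ' ∈ Z, 0 ≤ (s - ρ').re) :
    0 ≤ ((Z.map (fun ρ => 1 / (s - ρ))).sum).re := by
  rw [e13_sum_re]
  apply Multiset.sum_nonneg
  intro x hx
  obtain ⟨a, ha, rfl⟩ := Multiset.mem_map.1 hx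
  exact e13_re_inv (h a ha)

theorem e13_re_lt {q : ℕ} [NeZero q] {χ : DirichletCharacter ℂ q} {ρ : ℂ}
    (h : LFunction χ ρ = 0) (him : ρ.im ≠ 0) : ρ.re < 1 := by
  by_contra hc
  push Not at hc
  exact LFunction_ne_zero_of_one_le_re χ (.inr (fun h1 => him (by rw [h1]; simp))) hc h

/-- (2) zero-free region -/
theorem e13_zerofree (hG : StGrowth) (hL : StLocal) (h3 : StThree) (hT : StTriv)
    (q : ℕ) [NeZero q] (χ : DirichletCharacter ℂ q) (δ : ℝ) (hδ : 0 < δ) (hδ1 : δ ≤ 1) :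
    ∀ᶠ X : ℝ in Filter.atTop, ∀ ρ : ℂ, LFunction χ ρ = 0 → 3 / 2 ≤ |ρ.im| → |ρ.im| ≤ X + 1 →
      (1 / 50100) / (δ * Real.log X) ≤ 1 - ρ.re := by
  obtain ⟨C₂, hC₂, hT⟩ := hT
  have hT' := fun x hx hx1 => (hT x hx hx1).2
  filter_upwards [e13_large δ (C₂ + 2) hδ,
    e13_local hG hL C₂ hT' q χ δ (1 / 5010) hδ hδ1 (by norm_num),
    e13_local hG hL C₂ hT' q (χ ^ 2) δ (1 / 5010) hδ hδ1 (by norm_num)] with X hX hl1 hl2
  obtain ⟨hX6, hD, hLL, hR, hℓ, hℓ1⟩ := hX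
  intro ρ hρ him1 him2
  by_contra hcon
  push Not at hcon
  set D := δ * Real.log X with hDdef
  have hD0 : 0 < D := by linarith
  set η₀ : ℝ := (1 / 5010) / D with hη₀
  have hη0 : 0 < η₀ := by positivity
  have hηD : η₀ ≤ 1 / D := by
    rw [hη₀]
    gcongr
    norm_num
  have hη1 : η₀ ≤ 1 := hηD.trans (by rw [div_le_one hD0]; linarith)
  have hβ : ρ.re < 1 := e13_re_lt hρ (fun h => by rw [h] at him1; simp at him1; linarith)
  obtain ⟨Z, hZ1, hZ2, hZ3⟩ := hl1 ρ.im η₀ him1 (by linarith) le_rfl hηD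
  obtain ⟨W, hW1, hW2, hW3⟩ := hl2 (2 * ρ.im) η₀ (by rw [abs_mul]; norm_num; linarith)
    (by rw [abs_mul]; norm_num; linarith) le_rfl hηD
  set s₀ : ℂ := 1 + (η₀ : ℂ) + Complex.I * ρ.im with hs₀
  set s₂ : ℂ := 1 + (η₀ : ℂ) + Complex.I * ((2 * ρ.im : ℝ) : ℂ) with hs₂
  have hre : s₀.re = 1 + η₀ := by simp [hs₀]
  have him : s₀.im = ρ.im := by simp [hs₀]
  have hre2 : s₂.re = 1 + η₀ := by simp [hs₂]
  have him2' : s₂.im = 2 * ρ.im := by simp [hs₂]
  have hsub : s₀ - ρ = ((1 + η₀ - ρ.re : ℝ) : ℂ) := by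
    apply Complex.ext
    · simp [hre]
    · simp [him]
  have hR0 : 0 < Real.log (Real.log X) / D := by
    have : 0 < Real.log (Real.log X) := by linarith
    positivity
  have hR2 : Real.log (Real.log X) / D ≤ 1 / 2 := by
    rw [div_le_div_iff₀ hD0 (by norm_num)]
    linarith
  have hgap : 1 + η₀ - ρ.re < (11 / 50100) / D := by
    have : (11 / 50100 : ℝ) / D = (1 / 50100) / D + (1 / 5010) / D := by
      field_simp
      norm_num
    rw [this]
    linarith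
  have hgap0 : 0 < 1 + η₀ - ρ.re := by linarith
  -- ρ ∈ Z
  have hρZ : ρ ∈ Z := by
    apply hZ2 _ _ hρ
    rw [Metric.mem_closedBall, dist_comm, dist_eq_norm, hsub, Complex.norm_real,
      Real.norm_of_nonneg hgap0.le]
    have : (11 / 50100 : ℝ) / D ≤ Real.log (Real.log X) / D / 3 := by
      rw [div_right_comm (Real.log (Real.log X)) D 3]
      have : (11 / 50100 : ℝ) ≤ Real.log (Real.log X) / 3 := by linarith
      exact div_le_div_of_nonneg_right this hD0.le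
    linarith
  have hZre : ∀ ρ' ∈ Z, 0 ≤ (s₀ - ρ').re := by
    intro ρ' hρ'
    obtain ⟨hb, hz⟩ := hZ1 ρ' hρ'
    have : ρ'.re < 1 := by
      apply e13_re_lt hz
      intro h0
      rw [Metric.mem_closedBall, dist_comm, dist_eq_norm] at hb
      have h1 := (Complex.abs_im_le_norm (s₀ - ρ')).trans hb
      rw [Complex.sub_im, him, h0, sub_zero] at h1
      linarith
    rw [Complex.sub_re, hre]
    linarith
  have hWre : ∀ ρ' ∈ W, 0 ≤ (s₂ - ρ').re := by
    intro ρ' hρ'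
    obtain ⟨hb, hz⟩ := hW1 ρ' hρ'
    have : ρ'.re < 1 := by
      apply e13_re_lt hz
      intro h0
      rw [Metric.mem_closedBall, dist_comm, dist_eq_norm] at hb
      have h1 := (Complex.abs_im_le_norm (s₂ - ρ')).trans hb
      rw [Complex.sub_im, him2', h0, sub_zero, abs_mul] at h1
      norm_num at h1
      linarith
    rw [Complex.sub_re, hre2]
    linarith
  have hne0 : LFunction χ s₀ ≠ 0 := by
    apply LFunction_ne_zero_of_one_le_re χ (.inr _)
    · rw [hre]; linarith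
    · intro h
      have : s₀.re = 1 := by rw [h]; simp
      rw [hre] at this
      linarith
  have hne2 : LFunction (χ ^ 2) s₂ ≠ 0 := by
    apply LFunction_ne_zero_of_one_le_re (χ ^ 2) (.inr _)
    · rw [hre2]; linarith
    · intro h
      have : s₂.re = 1 := by rw [h]; simp
      rw [hre2] at this
      linarith
  have e1 := hZ3 s₀ (Metric.mem_closedBall_self (by positivity)) hne0
  have e2 := hW3 s₂ (Metric.mem_closedBall_self (by positivity)) hne2
  have f1 := e13_single Z s₀ ρ hρZ hZre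
  have f2 := e13_nonneg W s₂ hWre
  have g1 : ((Z.map (fun ρ => 1 / (s₀ - ρ))).sum).re - 500 * D ≤
      (deriv (LFunction χ) s₀ / LFunction χ s₀).re := by
    have := (Complex.abs_re_le_norm _).trans e1
    rw [Complex.sub_re, abs_le] at this
    linarith [this.1]
  have g2 : - (500 * D) ≤ (deriv (LFunction (χ ^ 2)) s₂ / LFunction (χ ^ 2) s₂).re := by
    have := (Complex.abs_re_le_norm _).trans e2
    rw [Complex.sub_re, abs_le] at this
    linarith [this.1]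
  have h3' := h3 q χ η₀ ρ.im hη0
  have hs2' : s₂ = 1 + (η₀ : ℂ) + Complex.I * (2 * (ρ.im : ℂ)) := by
    rw [hs₂]; push_cast; ring
  rw [← hs2', ← hs₀] at h3'
  have hζ := (hT η₀ hη0 hη1).1
  have hinv : (1 / (s₀ - ρ)).re = 1 / (1 + η₀ - ρ.re) := by
    rw [hsub, ← Complex.ofReal_one, ← Complex.ofReal_div, Complex.ofReal_re]
  rw [hinv] at f1
  have hbig : (50100 / 11) * D ≤ 1 / (1 + η₀ - ρ.re) := by
    rw [le_div_iff₀ hgap0]
    have : (50100 / 11) * D * (1 + η₀ - ρ.re) ≤ (50100 / 11) * D * ((11 / 50100) / D) := by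
      gcongr
    refine this.trans (le_of_eq ?_)
    field_simp
  have hinvη : 1 / η₀ = 5010 * D := by
    rw [hη₀]
    field_simp
  rw [hinvη] at hζ
  nlinarith

/-- the elementary comparison of the two sums over zeros -/
theorem e13_compare (c₀ η₁ : ℝ) (hc : 0 < c₀) (hη₁ : 0 < η₁) (s s₁ : ℂ) (Z : Multiset ℂ)
    (hs : ‖s₁ - s‖ ≤ η₁) (h1 : ∀ ρ ∈ Z, c₀ * η₁ ≤ (s - ρ).re) (h2 : ∀ ρ ∈ Z, η₁ ≤ (s₁ - ρ).re) :
    ‖(Z.map (fun ρ => 1 / (s - ρ))).sum - (Z.map (fun ρ => 1 / (s₁ - ρ))).sum‖ ≤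
      (1 + 1 / c₀) * ((Z.map (fun ρ => 1 / (s₁ - ρ))).sum).re := by
  induction Z using Multiset.induction_on with
  | empty => simp
  | cons a Z ih =>
    have ih' := ih (fun ρ hρ => h1 ρ (Multiset.mem_cons_of_mem hρ))
      (fun ρ hρ => h2 ρ (Multiset.mem_cons_of_mem hρ))
    have ha1 := h1 a (Multiset.mem_cons_self a Z)
    have ha2 := h2 a (Multiset.mem_cons_self a Z)
    simp only [Multiset.map_cons, Multiset.sum_cons, Complex.add_re]
    have hw : 0 < ‖s - a‖ := by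
      have := Complex.re_le_norm (s - a)
      have : 0 < c₀ * η₁ := by positivity
      linarith
    have hw1 : 0 < ‖s₁ - a‖ := by
      have := Complex.re_le_norm (s₁ - a)
      linarith
    have hwc : c₀ * η₁ ≤ ‖s - a‖ := ha1.trans (Complex.re_le_norm (s - a))
    have hne : s - a ≠ 0 := norm_pos_iff.1 hw
    have hne1 : s₁ - a ≠ 0 := norm_pos_iff.1 hw1
    have hone : ‖1 / (s - a) - 1 / (s₁ - a)‖ ≤ (1 + 1 / c₀) * (1 / (s₁ - a)).re := by
      have e : 1 / (s - a) - 1 / (s₁ - a) = (s₁ - s) / ((s - a) * (s₁ - a)) := by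
        field_simp
        ring
      rw [e, norm_div, norm_mul]
      have e2 : (1 / (s₁ - a)).re = (s₁ - a).re / ‖s₁ - a‖ ^ 2 := by
        rw [one_div, Complex.inv_re, Complex.normSq_eq_norm_sq]
      rw [e2]
      have htri : ‖s₁ - a‖ ≤ (1 + 1 / c₀) * ‖s - a‖ := by
        have t1 : ‖s₁ - a‖ ≤ ‖s₁ - s‖ + ‖s - a‖ := by
          have : s₁ - a = (s₁ - s) + (s - a) := by ring
          rw [this]; exact norm_add_le _ _
        have t2 : η₁ ≤ (1 / c₀) * ‖s - a‖ := by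
          rw [one_div, ← div_eq_inv_mul, le_div_iff₀ hc]
          linarith
        linarith
      calc ‖s₁ - s‖ / (‖s - a‖ * ‖s₁ - a‖) ≤ η₁ / (‖s - a‖ * ‖s₁ - a‖) := by gcongr
        _ ≤ (1 + 1 / c₀) * (η₁ / ‖s₁ - a‖ ^ 2) := by
          rw [← mul_div_assoc, div_le_div_iff₀ (by positivity) (by positivity)]
          have : η₁ * ‖s₁ - a‖ ^ 2 = η₁ * ‖s₁ - a‖ * ‖s₁ - a‖ := by ring
          rw [this]
          calc η₁ * ‖s₁ - a‖ * ‖s₁ - a‖ ≤ η₁ * ‖s₁ - a‖ * ((1 + 1 / c₀) * ‖s - a‖) := by gcongr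
            _ = (1 + 1 / c₀) * η₁ * (‖s - a‖ * ‖s₁ - a‖) := by ring
        _ ≤ (1 + 1 / c₀) * ((s₁ - a).re / ‖s₁ - a‖ ^ 2) := by gcongr
    calc ‖(1 / (s - a) + (Z.map (fun ρ => 1 / (s - ρ))).sum) -
          (1 / (s₁ - a) + (Z.map (fun ρ => 1 / (s₁ - ρ))).sum)‖
        = ‖(1 / (s - a) - 1 / (s₁ - a)) + ((Z.map (fun ρ => 1 / (s - ρ))).sum -
          (Z.map (fun ρ => 1 / (s₁ - ρ))).sum)‖ := by congr 1; ring
      _ ≤ ‖1 / (s - a) - 1 / (s₁ - a)‖ + ‖(Z.map (fun ρ => 1 / (s - ρ))).sum -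
          (Z.map (fun ρ => 1 / (s₁ - ρ))).sum‖ := norm_add_le _ _
      _ ≤ (1 + 1 / c₀) * (1 / (s₁ - a)).re + (1 + 1 / c₀) *
          ((Z.map (fun ρ => 1 / (s₁ - ρ))).sum).re := add_le_add hone ih'
      _ = _ := by ring

theorem stLandau (hG : StGrowth) (hL : StLocal) (h3 : StThree) (hT : StTriv) : StLandau := by
  have hT0 := hT
  obtain ⟨C₂, hC₂, hT1⟩ := hT
  have hT' := fun x hx hx1 => (hT1 x hx hx1).2
  refine ⟨30000000, by norm_num, ?_⟩
  intro q _ χ δ hδ hδ1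
  have hev := ((e13_large δ (C₂ + 2) hδ).and
    ((e13_local hG hL C₂ hT' q χ δ 1 hδ hδ1 (by norm_num)).and
      (e13_zerofree hG hL h3 hT0 q χ δ hδ hδ1)))
  obtain ⟨X₀, hX₀⟩ := Filter.eventually_atTop.1 hev
  refine ⟨X₀, fun X hX t η ht1 ht2 hη0 hη1 => ?_⟩
  obtain ⟨⟨hX6, hD, hLL, hR, hℓ, hℓ1⟩, hloc, hzf⟩ := hX₀ X hX
  set D := δ * Real.log X with hDdef
  have hD0 : 0 < D := by linarith
  set η₁ : ℝ := 1 / D with hη₁
  have hη₁0 : 0 < η₁ := by positivity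
  have hη₁1 : η₁ ≤ 1 := by rw [hη₁, div_le_one hD0]; linarith
  obtain ⟨Z, hZ1, hZ2, hZ3⟩ := hloc t η₁ (by linarith) (by linarith) le_rfl le_rfl
  set s₁ : ℂ := 1 + (η₁ : ℂ) + Complex.I * t with hs₁
  set s : ℂ := 1 + (η : ℂ) + Complex.I * t with hs
  have hre1 : s₁.re = 1 + η₁ := by simp [hs₁]
  have him1 : s₁.im = t := by simp [hs₁]
  have hre : s.re = 1 + η := by simp [hs]
  have hR0 : 0 < Real.log (Real.log X) / D := by
    have : 0 < Real.log (Real.log X) := by linarith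
    positivity
  have hR2 : Real.log (Real.log X) / D ≤ 1 / 2 := by
    rw [div_le_div_iff₀ hD0 (by norm_num)]
    linarith
  have hdiff : s₁ - s = ((η₁ - η : ℝ) : ℂ) := by
    rw [hs₁, hs]; push_cast; ring
  have hdn : ‖s₁ - s‖ ≤ η₁ := by
    rw [hdiff, Complex.norm_real, Real.norm_of_nonneg (by linarith)]
    linarith
  have hsb : s ∈ Metric.closedBall s₁ (Real.log (Real.log X) / D / 6) := by
    rw [Metric.mem_closedBall, dist_comm, dist_eq_norm]
    refine hdn.trans ?_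
    rw [hη₁, div_right_comm]
    have : (1 : ℝ) ≤ Real.log (Real.log X) / 6 := by linarith
    exact div_le_div_of_nonneg_right this hD0.le
  have hne : ∀ w : ℂ, 1 < w.re → LFunction χ w ≠ 0 := by
    intro w hw
    apply LFunction_ne_zero_of_one_le_re χ (.inr _) hw.le
    intro h
    rw [h] at hw
    simp at hw
  have hnes := hne s (by rw [hre]; linarith)
  have hnes1 := hne s₁ (by rw [hre1]; linarith)
  have e1 := hZ3 s hsb hnes
  have e2 := hZ3 s₁ (Metric.mem_closedBall_self (by positivity)) hnes1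
  have hZz : ∀ ρ ∈ Z, (1 / 50100) * η₁ ≤ 1 - ρ.re := by
    intro ρ hρ
    obtain ⟨hb, hz⟩ := hZ1 ρ hρ
    rw [Metric.mem_closedBall, dist_eq_norm] at hb
    have h2 := (Complex.abs_im_le_norm (ρ - s₁)).trans hb
    rw [Complex.sub_im, him1] at h2
    have h3' : |t| - |ρ.im| ≤ |ρ.im - t| := by
      rw [abs_sub_comm]; exact abs_sub_abs_le_abs_sub t ρ.im
    have h4 : |ρ.im| - |t| ≤ |ρ.im - t| := abs_sub_abs_le_abs_sub ρ.im t
    have := hzf ρ hz (by linarith) (by linarith)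
    rw [hη₁, ← mul_div_assoc, mul_one]
    exact this
  have hcmp := e13_compare (1 / 50100) η₁ (by norm_num) hη₁0 s s₁ Z hdn
    (fun ρ hρ => by rw [Complex.sub_re, hre]; linarith [hZz ρ hρ])
    (fun ρ hρ => by
      rw [Complex.sub_re, hre1]
      have := hZz ρ hρ
      have : 0 < (1 / 50100) * η₁ := by positivity
      linarith [hZz ρ hρ])
  have hb1 := (hT' η₁ hη₁0 hη₁1 q χ t).1
  rw [← hs₁] at hb1
  have hinv : 1 / η₁ = D := by rw [hη₁]; field_simp
  rw [hinv] at hb1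
  set S := (Z.map (fun ρ => 1 / (s - ρ))).sum with hS
  set S₁ := (Z.map (fun ρ => 1 / (s₁ - ρ))).sum with hS₁
  have hS₁n : ‖S₁‖ ≤ 502 * D := by
    have : S₁ = deriv (LFunction χ) s₁ / LFunction χ s₁ -
        (deriv (LFunction χ) s₁ / LFunction χ s₁ - S₁) := by ring
    rw [this]
    refine (norm_sub_le _ _).trans ?_
    linarith
  have hS₁re : S₁.re ≤ 502 * D := (Complex.re_le_norm _).trans hS₁n
  have hSn : ‖S‖ ≤ ‖S₁‖ + (1 + 1 / (1 / 50100 : ℝ)) * S₁.re := by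
    have : S = S₁ + (S - S₁) := by ring
    rw [this]
    refine (norm_add_le _ _).trans ?_
    linarith
  have hfin : ‖deriv (LFunction χ) s / LFunction χ s‖ ≤ ‖S‖ + 500 * D := by
    have : deriv (LFunction χ) s / LFunction χ s = S +
        (deriv (LFunction χ) s / LFunction χ s - S) := by ring
    rw [this]
    refine (norm_add_le _ _).trans ?_
    linarith
  norm_num at hSn
  linarith

end MRP.E
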