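import Mathlib
import Pool.Agent.Helper6.MR.EDefs

/-!
# E15: from the logarithmic derivative to sums over primes

PROOF.  Let `f n = χ(n) Λ(n)/log n` (`0` for `n ≤ 1`), `T(s) = LSeries f s` for `Re s > 1`; `LSeries_hasDerivAt`/`LSeries_deriv`: `T' = -LSeries (logMul f)`, `logMul f = χ Λ`, and
`LSeries (χ Λ) = -L'/L` (see `Pool/Agent/Helper51/SW/Transform.lean`).  So `‖T(1+a+it) - T(1+b+it)‖ ≤ (b-a) B` (`Convex.norm_image_sub_le_of_norm_hasDerivWithin_le` along the real segment).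
`T(1+a+it) - T(1+b+it) = ∑_n f(n) n^(-(1+it)) (n^(-a) - n^(-b))`; the prime powers `p^k`, `k ≥ 2`, contribute at most `∑_p ∑_{k≥2} p^(-k)/k ≤ ∑_p 1/(p(p-1)) ≤ 1` in absolute value
(`0 ≤ n^(-a) - n^(-b) ≤ 1`), the primes contribute the series of the statement (`Λ(p)/log p = 1`).
-/

set_option autoImplicit false

namespace MRP.E

open Finset Complex DirichletCharacter LSeries

private noncomputable def fI {q : ℕ} (χ : DirichletCharacter ℂ q) (n : ℕ) : ℂ :=
  χ ((n : ℕ) : ZMod q) * ((ArithmeticFunction.vonMangoldt n / Real.log n : ℝ) : ℂ)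

private theorem ratio_le (n : ℕ) :
    0 ≤ (ArithmeticFunction.vonMangoldt n / Real.log n : ℝ) ∧
      (ArithmeticFunction.vonMangoldt n / Real.log n : ℝ) ≤ 1 := by
  have h1 : 0 ≤ Real.log n := Real.log_natCast_nonneg n
  exact ⟨div_nonneg ArithmeticFunction.vonMangoldt_nonneg h1,
    div_le_one_of_le₀ ArithmeticFunction.vonMangoldt_le_log h1⟩

private theorem fI_norm {q : ℕ} (χ : DirichletCharacter ℂ q) (n : ℕ) : ‖fI χ n‖ ≤ 1 := by
  unfold fI
  rw [norm_mul, Complex.norm_real, Real.norm_eq_abs, abs_of_nonneg (ratio_le n).1]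
  exact mul_le_one₀ (DirichletCharacter.norm_le_one χ _) (ratio_le n).1 (ratio_le n).2

private theorem fI_zero {q : ℕ} (χ : DirichletCharacter ℂ q) : fI χ 0 = 0 := by
  simp [fI]

private theorem fI_support {q : ℕ} (χ : DirichletCharacter ℂ q) (n : ℕ) (h : fI χ n ≠ 0) :
    IsPrimePow n := by
  by_contra hn
  apply h
  unfold fI
  rw [ArithmeticFunction.vonMangoldt_eq_zero_iff.2 hn]
  simp

private theorem fI_logMul {q : ℕ} (χ : DirichletCharacter ℂ q) :
    logMul (fI χ) = fun n : ℕ => χ ((n : ℕ) : ZMod q) *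
      ((ArithmeticFunction.vonMangoldt n : ℝ) : ℂ) := by
  funext n
  unfold logMul fI
  rcases Nat.lt_or_ge n 2 with h | h
  · interval_cases n
    · simp
    · simp
  · have h1 : (Real.log n) ≠ 0 := by
      have : 0 < Real.log n := Real.log_pos (by exact_mod_cast h)
      exact this.ne'
    have h2 : Complex.log (n : ℂ) ≠ 0 := by
      rw [← Complex.natCast_log]
      exact_mod_cast h1
    push_cast
    field_simp

private theorem fI_abscissa {q : ℕ} (χ : DirichletCharacter ℂ q) {s : ℂ} (hs : 1 < s.re) :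
    abscissaOfAbsConv (fI χ) < s.re := by
  have h : abscissaOfAbsConv (fI χ) ≤ (1 : ℝ) :=
    abscissaOfAbsConv_le_of_forall_lt_LSeriesSummable fun y hy =>
      LSeriesSummable_of_bounded_of_one_lt_re (m := 1) (fun n _ => fI_norm χ n)
        (by simpa using hy)
  exact h.trans_lt (by exact_mod_cast hs)

private theorem fI_deriv {q : ℕ} [NeZero q] (χ : DirichletCharacter ℂ q) {s : ℂ}
    (hs : 1 < s.re) : HasDerivAt (LSeries (fI χ)) (deriv (LFunction χ) s / LFunction χ s) s := by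
  have h := LSeries_hasDerivAt (fI_abscissa χ hs)
  have h2 : -LSeries (logMul (fI χ)) s = deriv (LFunction χ) s / LFunction χ s := by
    rw [deriv_LFunction_eq_deriv_LSeries χ hs, LFunction_eq_LSeries χ hs, fI_logMul]
    have h3 := LSeries_twist_vonMangoldt_eq χ hs
    have h4 : LSeries (fun n : ℕ => χ ((n : ℕ) : ZMod q) *
        ((ArithmeticFunction.vonMangoldt n : ℝ) : ℂ)) s =
        -deriv (LSeries (fun n : ℕ => χ ((n : ℕ) : ZMod q))) s /
          LSeries (fun n : ℕ => χ ((n : ℕ) : ZMod q)) s := h3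
    rw [h4]
    ring
  rw [← h2]
  exact h

private theorem two_div_sq : Summable (fun p : Nat.Primes => 2 / ((p : ℕ) : ℝ) ^ 2) ∧
    ∑' p : Nat.Primes, 2 / ((p : ℕ) : ℝ) ^ 2 ≤ 4 := by
  have h0 : HasSum (fun n : ℕ => 2 * ((1 : ℝ) / (n : ℝ) ^ 2)) (2 * (Real.pi ^ 2 / 6)) :=
    hasSum_zeta_two.mul_left 2
  have h1 : HasSum (fun n : ℕ => (2 : ℝ) / (n : ℝ) ^ 2) (2 * (Real.pi ^ 2 / 6)) := by
    convert! h0 using 1
    funext n
    rw [mul_one_div]
  have hs : Summable (fun p : Nat.Primes => 2 / ((p : ℕ) : ℝ) ^ 2) :=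
    h1.summable.comp_injective (i := fun p : Nat.Primes => (p : ℕ)) Subtype.val_injective
  refine ⟨hs, ?_⟩
  calc ∑' p : Nat.Primes, 2 / ((p : ℕ) : ℝ) ^ 2 ≤ ∑' n : ℕ, (2 : ℝ) / (n : ℝ) ^ 2 := by
        refine Summable.tsum_le_tsum_of_inj (fun p : Nat.Primes => (p : ℕ))
          Subtype.val_injective (fun c _ => by positivity) (fun p => le_refl _) hs h1.summable
    _ = 2 * (Real.pi ^ 2 / 6) := h1.tsum_eq
    _ ≤ 4 := by
        have h2 := Real.pi_lt_d2
        have h3 := Real.pi_pos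
        nlinarith

private theorem mvG {q : ℕ} [NeZero q] (χ : DirichletCharacter ℂ q) (t a b B : ℝ) (ha : 0 < a)
    (hab : a ≤ b) (hL : ∀ η : ℝ, a ≤ η → η ≤ b →
    ‖deriv (LFunction χ) (1 + η + Complex.I * t) / LFunction χ (1 + η + Complex.I * t)‖ ≤ B) :
    ‖LSeries (fI χ) (1 + b + Complex.I * t) - LSeries (fI χ) (1 + a + Complex.I * t)‖ ≤
      B * (b - a) := by
  have hre : ∀ η : ℝ, ((1 : ℂ) + η + Complex.I * t).re = 1 + η := fun η => by simp
  have hG1 : ∀ η ∈ Set.Icc a b, HasDerivAt (fun η : ℝ => LSeries (fI χ) (1 + η + Complex.I * t))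
      (deriv (LFunction χ) (1 + η + Complex.I * t) / LFunction χ (1 + η + Complex.I * t)) η := by
    intro η hη
    have hs : 1 < ((1 : ℂ) + η + Complex.I * t).re := by
      rw [hre]; linarith [hη.1]
    have h1 := fI_deriv χ hs
    have h2 : HasDerivAt (fun η : ℝ => (1 : ℂ) + (η : ℂ) + Complex.I * t) 1 η := by
      have h3 : HasDerivAt (fun η : ℝ => (η : ℂ)) 1 η := Complex.ofRealCLM.hasDerivAt
      exact (h3.const_add 1).add_const _
    have h4 := HasDerivAt.comp_of_eq η h1 h2 rfl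
    rw [mul_one] at h4
    exact h4
  exact norm_image_sub_le_of_norm_deriv_le_segment' (f' := fun η : ℝ =>
      deriv (LFunction χ) (1 + η + Complex.I * t) / LFunction χ (1 + η + Complex.I * t))
      (fun η hη => (hG1 η hη).hasDerivWithinAt) (fun η hη => hL η hη.1 hη.2.le) b
      ⟨hab, le_refl _⟩

private theorem term_key {q : ℕ} (χ : DirichletCharacter ℂ q) (t η : ℝ) (n : ℕ) (hn : n ≠ 0) :
    term (fI χ) (1 + η + Complex.I * t) n =
        fI χ n * (n : ℂ) ^ (-(1 + (t : ℂ) * Complex.I)) * (((n : ℝ) ^ (-η) : ℝ) : ℂ) := by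
  have hnc : (n : ℂ) ≠ 0 := by exact_mod_cast hn
  rw [term_of_ne_zero hn, div_eq_mul_inv, ← Complex.cpow_neg, mul_assoc]
  congr 1
  rw [Complex.ofReal_cpow (Nat.cast_nonneg n), Complex.ofReal_natCast,
    ← Complex.cpow_add _ _ hnc]
  congr 1
  push_cast
  ring

private noncomputable def uI {q : ℕ} (χ : DirichletCharacter ℂ q) (t a b : ℝ) (n : ℕ) : ℂ :=
  term (fI χ) (1 + a + Complex.I * t) n - term (fI χ) (1 + b + Complex.I * t) n

private theorem uI_eq {q : ℕ} (χ : DirichletCharacter ℂ q) (t a b : ℝ) (n : ℕ) (hn : n ≠ 0) :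
    uI χ t a b n = fI χ n * (n : ℂ) ^ (-(1 + (t : ℂ) * Complex.I)) *
      ((((n : ℝ)) ^ (-a) - ((n : ℝ)) ^ (-b) : ℝ) : ℂ) := by
  unfold uI
  rw [term_key χ t a n hn, term_key χ t b n hn, Complex.ofReal_sub]
  ring

private theorem uI_norm {q : ℕ} (χ : DirichletCharacter ℂ q) (t a b : ℝ) (ha : 0 < a)
    (hab : a ≤ b) (n : ℕ) (hn : n ≠ 0) : ‖uI χ t a b n‖ ≤ 1 / (n : ℝ) := by
  have hn1 : (1 : ℝ) ≤ (n : ℝ) := by exact_mod_cast Nat.one_le_iff_ne_zero.2 hn
  have hnp : (0 : ℝ) < (n : ℝ) := by linarith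
  rw [uI_eq χ t a b n hn, norm_mul, norm_mul, Complex.norm_real, Real.norm_eq_abs]
  have h1 : ‖(n : ℂ) ^ (-(1 + (t : ℂ) * Complex.I))‖ = 1 / (n : ℝ) := by
    rw [Complex.norm_natCast_cpow_of_pos (Nat.pos_of_ne_zero hn)]
    simp [Real.rpow_neg_one]
  have h2 : ((n : ℝ)) ^ (-a) ≤ 1 := Real.rpow_le_one_of_one_le_of_nonpos hn1 (by linarith)
  have h3 : ((n : ℝ)) ^ (-b) ≤ ((n : ℝ)) ^ (-a) :=
    Real.rpow_le_rpow_of_exponent_le hn1 (by linarith)
  have h4 : 0 ≤ ((n : ℝ)) ^ (-b) := by positivity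
  rw [h1, abs_of_nonneg (by linarith)]
  calc ‖fI χ n‖ * (1 / (n : ℝ)) * (((n : ℝ)) ^ (-a) - ((n : ℝ)) ^ (-b))
      ≤ 1 * (1 / (n : ℝ)) * 1 := by
        gcongr
        · exact fI_norm χ n
        · linarith
    _ = 1 / (n : ℝ) := by ring

private theorem uI_support {q : ℕ} (χ : DirichletCharacter ℂ q) (t a b : ℝ) :
    Function.support (uI χ t a b) ⊆ {n | IsPrimePow n} := by
  intro n hn
  by_contra hcon
  apply hn
  have h1 : fI χ n = 0 := by
    by_contra h2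
    exact hcon (fI_support χ n h2)
  unfold uI
  rcases eq_or_ne n 0 with h0 | h0
  · subst h0; simp
  · rw [term_of_ne_zero h0, term_of_ne_zero h0, h1]
    simp

private theorem uI_sum {q : ℕ} (χ : DirichletCharacter ℂ q) (t a b : ℝ) (ha : 0 < a)
    (hab : a ≤ b) : Summable (uI χ t a b) ∧
    LSeries (fI χ) (1 + a + Complex.I * t) - LSeries (fI χ) (1 + b + Complex.I * t) =
      ∑' n, uI χ t a b n := by
  have hre : ∀ η : ℝ, ((1 : ℂ) + η + Complex.I * t).re = 1 + η := fun η => by simp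
  have hsa : Summable (term (fI χ) (1 + a + Complex.I * t)) :=
    LSeriesSummable_of_bounded_of_one_lt_re (m := 1) (fun n _ => fI_norm χ n)
      (by rw [hre]; linarith)
  have hsb : Summable (term (fI χ) (1 + b + Complex.I * t)) :=
    LSeriesSummable_of_bounded_of_one_lt_re (m := 1) (fun n _ => fI_norm χ n)
      (by rw [hre]; linarith)
  refine ⟨hsa.sub hsb, ?_⟩
  unfold LSeries
  exact (hsa.tsum_sub hsb).symm

private theorem uI_pow {q : ℕ} (χ : DirichletCharacter ℂ q) (t a b : ℝ) (ha : 0 < a)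
    (hab : a ≤ b) : ‖∑' (p : Nat.Primes) (k : ℕ), uI χ t a b ((p : ℕ) ^ (k + 2))‖ ≤ 4 := by
  obtain ⟨hs2, hs4⟩ := two_div_sq
  refine (tsum_of_norm_bounded hs2.hasSum fun p => ?_).trans hs4
  have hp2 : (2 : ℝ) ≤ ((p : ℕ) : ℝ) := by exact_mod_cast p.2.two_le
  have hpp : (0 : ℝ) < ((p : ℕ) : ℝ) := by linarith
  set x : ℝ := 1 / ((p : ℕ) : ℝ) with hx
  have hx0 : 0 ≤ x := by positivity
  have hx12 : x ≤ 1 / 2 := by
    rw [hx]
    exact one_div_le_one_div_of_le (by norm_num) hp2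
  have hgeo : HasSum (fun k : ℕ => x ^ k * x ^ 2) ((1 - x)⁻¹ * x ^ 2) :=
    (hasSum_geometric_of_lt_one hx0 (by linarith)).mul_right _
  refine (tsum_of_norm_bounded hgeo fun k => ?_).trans ?_
  · refine (uI_norm χ t a b ha hab _ (pow_ne_zero _ p.2.ne_zero)).trans (le_of_eq ?_)
    rw [← pow_add, hx, Nat.cast_pow, one_div_pow]
  · have h1 : (1 - x)⁻¹ ≤ 2 := by
      rw [inv_le_comm₀ (by linarith) (by norm_num)]
      linarith
    calc (1 - x)⁻¹ * x ^ 2 ≤ 2 * x ^ 2 := by gcongr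
      _ = 2 / ((p : ℕ) : ℝ) ^ 2 := by
          rw [hx]
          field_simp

private theorem uI_prime {q : ℕ} (χ : DirichletCharacter ℂ q) (t a b : ℝ) (p : Nat.Primes) :
    uI χ t a b p = χ ((p : ℕ) : ZMod q) *
      ((p : ℕ) : ℂ) ^ (-(1 + (t : ℂ) * Complex.I)) *
      ((((p : ℕ) : ℝ) ^ (-a) - ((p : ℕ) : ℝ) ^ (-b) : ℝ) : ℂ) := by
  rw [uI_eq χ t a b p p.2.ne_zero]
  congr 2
  unfold fI
  rw [ArithmeticFunction.vonMangoldt_apply_prime p.2, div_self, Complex.ofReal_one, mul_one]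
  exact (Real.log_pos (by exact_mod_cast p.2.one_lt)).ne'

theorem stIntegral : StIntegral := by
  intro q _ χ t a b B ha hab hb hB hL
  have hMV := mvG χ t a b B ha hab hL
  obtain ⟨husum, hGu⟩ := uI_sum χ t a b ha hab
  have hsplit := tsum_eq_tsum_primes_add_tsum_primes_of_support_subset_prime_powers husum
    (uI_support χ t a b)
  have hpow := uI_pow χ t a b ha hab
  have hprime : ∑' p : Nat.Primes, χ ((p : ℕ) : ZMod q) *
      ((p : ℕ) : ℂ) ^ (-(1 + (t : ℂ) * Complex.I)) *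
      ((((p : ℕ) : ℝ) ^ (-a) - ((p : ℕ) : ℝ) ^ (-b) : ℝ) : ℂ) =
      ∑' p : Nat.Primes, uI χ t a b p := tsum_congr fun p => (uI_prime χ t a b p).symm
  rw [hprime]
  rw [hsplit] at hGu
  generalize (∑' p : Nat.Primes, uI χ t a b p) = S1 at hGu ⊢
  generalize (∑' (p : Nat.Primes) (k : ℕ), uI χ t a b ((p : ℕ) ^ (k + 2))) = S2 at hGu hpow
  generalize LSeries (fI χ) (1 + a + Complex.I * t) = Ga at hGu hMV
  generalize LSeries (fI χ) (1 + b + Complex.I * t) = Gb at hGu hMV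
  have h1 : S1 = -(Gb - Ga) - S2 := by
    rw [neg_sub, hGu]
    ring
  rw [h1]
  calc ‖-(Gb - Ga) - S2‖ ≤ ‖-(Gb - Ga)‖ + ‖S2‖ := norm_sub_le _ _
    _ ≤ (b - a) * B + 4 := by
        rw [norm_neg]
        linarith

end MRP.E
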