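import Mathlib
import Pool.Agent.Helper6.MR.EDefs
import Pool.Agent.Helper16.UB.Mert

/-!
# E16: smooth and sharp ranges of primes

PROOF.  It suffices that for `Y ≥ 3`: `∑_{p ≤ Y} (1 - p^(-1/log Y))/p + ∑_{p > Y} p^(-1-1/log Y) ≤ C`.  First sum: `1 - p^(-1/log Y) ≤ log p/log Y` and `∑_{p≤Y} log p/p ≤ log Y + C'`
(Mertens; in the library: search `Pool/Agent/Helper16/UB/Mert.lean`, `Pool/Agent/Helper10/ArithSums.lean`, `Pool/Agent/Helper11/Sq/Mert.lean`, `Pool/Agent/Helper13/Om`).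
Second sum: dyadic blocks (or blocks `(Y^k, Y^(k+1)]`: `∑_{Y^k<p≤Y^(k+1)} 1/p ≤ (1/(k log Y)) ∑_{p ≤ Y^(k+1)} log p/p ≤ (k+1+C')/k`, times `e^(-k)`).
Then `1_{Y₁<p≤Y₂} = 1_{p≤Y₂} - 1_{p≤Y₁}` and compare each indicator with `p^(-1/log Y_i)`.
The series in the statement converges absolutely: `p^(-1-1/log Y)` is summable.
-/

set_option autoImplicit false

namespace MRP.E

open Finset Complex DirichletCharacter

/-- Mertens for a finite set of primes `≤ Z` -/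
private theorem cmp_mert (t : Finset Nat.Primes) (Z : ℝ) (hZ : 1 ≤ Z)
    (ht : ∀ p ∈ t, (((p : ℕ) : ℝ)) ≤ Z) :
    ∑ p ∈ t, Real.log ((p : ℕ) : ℝ) / ((p : ℕ) : ℝ) ≤ Real.log Z + Real.log 4 := by
  have hfl : 1 ≤ ⌊Z⌋₊ := Nat.le_floor (by exact_mod_cast hZ)
  have h1 : ∑ p ∈ t, Real.log ((p : ℕ) : ℝ) / ((p : ℕ) : ℝ) =
      ∑ n ∈ t.map ⟨fun p : Nat.Primes => (p : ℕ), Subtype.val_injective⟩,
        Real.log (n : ℝ) / (n : ℝ) := by
    rw [Finset.sum_map]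
    rfl
  rw [h1]
  have h2 : ∑ n ∈ t.map ⟨fun p : Nat.Primes => (p : ℕ), Subtype.val_injective⟩,
        Real.log (n : ℝ) / (n : ℝ) ≤ Pool.Agent.Helper16.UB.Aa ⌊Z⌋₊ := by
    unfold Pool.Agent.Helper16.UB.Aa
    refine Finset.sum_le_sum_of_subset_of_nonneg ?_ ?_
    · intro n hn
      rw [Finset.mem_map] at hn
      obtain ⟨p, hp, rfl⟩ := hn
      exact Pool.Agent.Helper16.UB.mem_PL.2 ⟨Nat.le_floor (ht p hp), p.2⟩
    · intro n _ _
      exact div_nonneg (Real.log_natCast_nonneg n) (Nat.cast_nonneg n)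
  refine h2.trans ((Pool.Agent.Helper16.UB.Aa_le _ hfl).trans ?_)
  have h3 : Real.log (⌊Z⌋₊ : ℝ) ≤ Real.log Z :=
    Real.log_le_log (by exact_mod_cast hfl) (Nat.floor_le (by linarith))
  linarith

private theorem cmp_l4 : Real.log 4 ≤ 2 := by
  have h : Real.log 4 = 2 * Real.log 2 := by
    rw [show (4 : ℝ) = 2 ^ 2 by norm_num, Real.log_pow]; norm_num
  rw [h]
  have := Real.log_two_lt_d9
  linarith

private theorem cmp_l3 {Y : ℝ} (hY : 3 ≤ Y) : 1 ≤ Real.log Y := by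
  have h : Real.exp 1 ≤ Y := le_trans Real.exp_one_lt_d9.le (by linarith)
  calc (1 : ℝ) = Real.log (Real.exp 1) := by simp
    _ ≤ Real.log Y := Real.log_le_log (Real.exp_pos 1) h

private theorem cmp_rpow (p : Nat.Primes) (x : ℝ) :
    ((p : ℕ) : ℝ) ^ x = Real.exp (Real.log ((p : ℕ) : ℝ) * x) :=
  Real.rpow_def_of_pos (by exact_mod_cast p.2.pos) x

/-- the small primes -/
private theorem cmp_small (t : Finset Nat.Primes) (Y : ℝ) (hY : 3 ≤ Y)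
    (ht : ∀ p ∈ t, (((p : ℕ) : ℝ)) ≤ Y) :
    ∑ p ∈ t, 1 / ((p : ℕ) : ℝ) * (1 - ((p : ℕ) : ℝ) ^ (-(1 / Real.log Y))) ≤ 3 := by
  have hl := cmp_l3 hY
  have h1 : ∑ p ∈ t, 1 / ((p : ℕ) : ℝ) * (1 - ((p : ℕ) : ℝ) ^ (-(1 / Real.log Y))) ≤
      ∑ p ∈ t, (1 / Real.log Y) * (Real.log ((p : ℕ) : ℝ) / ((p : ℕ) : ℝ)) := by
    refine Finset.sum_le_sum fun p _ => ?_
    have hp : (0 : ℝ) < ((p : ℕ) : ℝ) := by exact_mod_cast p.2.pos
    have h2 : 1 - ((p : ℕ) : ℝ) ^ (-(1 / Real.log Y)) ≤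
        Real.log ((p : ℕ) : ℝ) * (1 / Real.log Y) := by
      rw [cmp_rpow]
      have := Real.add_one_le_exp (Real.log ((p : ℕ) : ℝ) * (-(1 / Real.log Y)))
      linarith
    calc 1 / ((p : ℕ) : ℝ) * (1 - ((p : ℕ) : ℝ) ^ (-(1 / Real.log Y)))
        ≤ 1 / ((p : ℕ) : ℝ) * (Real.log ((p : ℕ) : ℝ) * (1 / Real.log Y)) := by gcongr
      _ = _ := by ring
  refine h1.trans ?_
  rw [← Finset.mul_sum]
  have h3 := cmp_mert t Y (by linarith) ht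
  have h4 := cmp_l4
  calc (1 / Real.log Y) * ∑ p ∈ t, Real.log ((p : ℕ) : ℝ) / ((p : ℕ) : ℝ)
      ≤ (1 / Real.log Y) * (Real.log Y + Real.log 4) := by gcongr
    _ = 1 + Real.log 4 / Real.log Y := by
        field_simp
    _ ≤ 1 + Real.log 4 / 1 := by gcongr
    _ ≤ 3 := by linarith

private theorem cmp_exp (k : ℕ) : ((k : ℝ) + 3) * Real.exp (-(k : ℝ)) ≤ 3 * (1 / 2) ^ k := by
  have h1 : (1 : ℝ) + (k : ℝ) * (1 / 3) ≤ (1 + 1 / 3) ^ k :=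
    one_add_mul_le_pow (by norm_num) k
  have h2 : Real.exp (-(k : ℝ)) = (Real.exp (-1)) ^ k := by
    rw [← Real.exp_nat_mul]
    congr 1
    ring
  have h3 : Real.exp (-1) ≤ 3 / 8 := by
    rw [Real.exp_neg, inv_le_comm₀ (Real.exp_pos 1) (by norm_num)]
    have := Real.exp_one_gt_d9
    linarith
  calc ((k : ℝ) + 3) * Real.exp (-(k : ℝ)) = 3 * (1 + (k : ℝ) * (1 / 3)) * (Real.exp (-1)) ^ k := by
        rw [h2]; ring
    _ ≤ 3 * (1 + 1 / 3) ^ k * (3 / 8) ^ k := by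
        have := Real.exp_pos (-1)
        gcongr
    _ = 3 * (1 / 2) ^ k := by
        rw [mul_assoc, ← mul_pow]
        norm_num

/-- the large primes -/
private theorem cmp_large (t : Finset Nat.Primes) (Y : ℝ) (hY : 3 ≤ Y)
    (ht : ∀ p ∈ t, Y < (((p : ℕ) : ℝ))) :
    ∑ p ∈ t, 1 / ((p : ℕ) : ℝ) * ((p : ℕ) : ℝ) ^ (-(1 / Real.log Y)) ≤ 6 := by
  classical
  have hl := cmp_l3 hY
  set L := Real.log Y with hL
  have hLpos : 0 < L := by linarith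
  set K : Nat.Primes → ℕ := fun p => ⌊Real.log ((p : ℕ) : ℝ) / L⌋₊ with hK
  have hx : ∀ p ∈ t, 1 ≤ Real.log ((p : ℕ) : ℝ) / L := fun p hp => by
    rw [one_le_div hLpos]
    exact Real.log_le_log (by linarith) (ht p hp).le
  have hterm : ∀ p ∈ t, 1 / ((p : ℕ) : ℝ) * ((p : ℕ) : ℝ) ^ (-(1 / L)) ≤
      Real.exp (-(K p : ℝ)) * ((1 / L) * (Real.log ((p : ℕ) : ℝ) / ((p : ℕ) : ℝ))) := by
    intro p hp
    have hpp : (0 : ℝ) < ((p : ℕ) : ℝ) := by exact_mod_cast p.2.pos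
    have h1 := hx p hp
    have h2 : (K p : ℝ) ≤ Real.log ((p : ℕ) : ℝ) / L := Nat.floor_le (by linarith)
    have h3 : ((p : ℕ) : ℝ) ^ (-(1 / L)) ≤ Real.exp (-(K p : ℝ)) := by
      rw [cmp_rpow]
      apply Real.exp_le_exp.2
      have : Real.log ((p : ℕ) : ℝ) * -(1 / L) = -(Real.log ((p : ℕ) : ℝ) / L) := by ring
      rw [this]
      linarith
    calc 1 / ((p : ℕ) : ℝ) * ((p : ℕ) : ℝ) ^ (-(1 / L))
        ≤ 1 / ((p : ℕ) : ℝ) * Real.exp (-(K p : ℝ)) := by gcongr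
      _ = 1 / ((p : ℕ) : ℝ) * Real.exp (-(K p : ℝ)) * 1 := by ring
      _ ≤ 1 / ((p : ℕ) : ℝ) * Real.exp (-(K p : ℝ)) * (Real.log ((p : ℕ) : ℝ) / L) := by
          gcongr
      _ = _ := by ring
  have hblock : ∀ k : ℕ, ∑ p ∈ t.filter (fun p => K p = k),
      Real.exp (-(K p : ℝ)) * ((1 / L) * (Real.log ((p : ℕ) : ℝ) / ((p : ℕ) : ℝ))) ≤
        3 * (1 / 2) ^ k := by
    intro k
    have h1 : ∑ p ∈ t.filter (fun p => K p = k),
        Real.exp (-(K p : ℝ)) * ((1 / L) * (Real.log ((p : ℕ) : ℝ) / ((p : ℕ) : ℝ))) =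
        Real.exp (-(k : ℝ)) * ((1 / L) * ∑ p ∈ t.filter (fun p => K p = k),
          (Real.log ((p : ℕ) : ℝ) / ((p : ℕ) : ℝ))) := by
      rw [Finset.mul_sum, Finset.mul_sum]
      refine Finset.sum_congr rfl fun p hp => ?_
      rw [(Finset.mem_filter.1 hp).2]
    rw [h1]
    have h2 := cmp_mert (t.filter (fun p => K p = k)) (Real.exp (((k : ℝ) + 1) * L))
      (Real.one_le_exp (by positivity)) (fun p hp => by
        rw [Finset.mem_filter] at hp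
        have hpp : (0 : ℝ) < ((p : ℕ) : ℝ) := by exact_mod_cast p.2.pos
        rw [← Real.exp_log hpp]
        apply Real.exp_le_exp.2
        have h3 : Real.log ((p : ℕ) : ℝ) / L < (K p : ℝ) + 1 := Nat.lt_floor_add_one _
        rw [hp.2, div_lt_iff₀ hLpos] at h3
        exact h3.le)
    rw [Real.log_exp] at h2
    have h4 := cmp_l4
    calc Real.exp (-(k : ℝ)) * ((1 / L) * ∑ p ∈ t.filter (fun p => K p = k),
          (Real.log ((p : ℕ) : ℝ) / ((p : ℕ) : ℝ)))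
        ≤ Real.exp (-(k : ℝ)) * ((1 / L) * (((k : ℝ) + 1) * L + Real.log 4)) := by gcongr
      _ = Real.exp (-(k : ℝ)) * (((k : ℝ) + 1) + Real.log 4 / L) := by
          field_simp
      _ ≤ Real.exp (-(k : ℝ)) * (((k : ℝ) + 1) + Real.log 4 / 1) := by gcongr
      _ ≤ Real.exp (-(k : ℝ)) * ((k : ℝ) + 3) := by
          apply mul_le_mul_of_nonneg_left _ (Real.exp_pos _).le
          rw [div_one]
          linarith
      _ = ((k : ℝ) + 3) * Real.exp (-(k : ℝ)) := by ring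
      _ ≤ 3 * (1 / 2) ^ k := cmp_exp k
  calc ∑ p ∈ t, 1 / ((p : ℕ) : ℝ) * ((p : ℕ) : ℝ) ^ (-(1 / L))
      ≤ ∑ p ∈ t, Real.exp (-(K p : ℝ)) *
          ((1 / L) * (Real.log ((p : ℕ) : ℝ) / ((p : ℕ) : ℝ))) := Finset.sum_le_sum hterm
    _ = ∑ k ∈ t.image K, ∑ p ∈ t.filter (fun p => K p = k),
          Real.exp (-(K p : ℝ)) * ((1 / L) * (Real.log ((p : ℕ) : ℝ) / ((p : ℕ) : ℝ))) := by
        rw [Finset.sum_fiberwise_of_maps_to (fun p hp => Finset.mem_image_of_mem K hp)]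
    _ ≤ ∑ k ∈ t.image K, 3 * (1 / 2 : ℝ) ^ k := Finset.sum_le_sum fun k _ => hblock k
    _ ≤ ∑' k : ℕ, 3 * (1 / 2 : ℝ) ^ k := by
        refine Summable.sum_le_tsum _ (fun k _ => by positivity) ?_
        exact summable_geometric_two.mul_left 3
    _ = 6 := by
        rw [tsum_mul_left, tsum_geometric_two]
        norm_num

private noncomputable def ind (Y : ℝ) (p : Nat.Primes) : ℝ :=
  if ((p : ℕ) : ℝ) ≤ Y then 1 else 0

private noncomputable def wI (Y : ℝ) (p : Nat.Primes) : ℝ :=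
  1 / ((p : ℕ) : ℝ) * |((p : ℕ) : ℝ) ^ (-(1 / Real.log Y)) - ind Y p|

private theorem wI_sum (Y : ℝ) (hY : 3 ≤ Y) (t : Finset Nat.Primes) :
    ∑ p ∈ t, wI Y p ≤ 9 := by
  classical
  have hl := cmp_l3 hY
  rw [← Finset.sum_filter_add_sum_filter_not t (fun p : Nat.Primes => ((p : ℕ) : ℝ) ≤ Y)]
  have h1 : ∑ p ∈ t.filter (fun p : Nat.Primes => ((p : ℕ) : ℝ) ≤ Y), wI Y p ≤ 3 := by
    refine le_trans (le_of_eq ?_) (cmp_small (t.filter (fun p : Nat.Primes =>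
      ((p : ℕ) : ℝ) ≤ Y)) Y hY (fun p hp => (Finset.mem_filter.1 hp).2))
    refine Finset.sum_congr rfl fun p hp => ?_
    have h2 := (Finset.mem_filter.1 hp).2
    have hp1 : (1 : ℝ) ≤ ((p : ℕ) : ℝ) := by exact_mod_cast p.2.one_lt.le
    have h3 : ((p : ℕ) : ℝ) ^ (-(1 / Real.log Y)) ≤ 1 :=
      Real.rpow_le_one_of_one_le_of_nonpos hp1 (by
        have : 0 ≤ 1 / Real.log Y := by positivity
        linarith)
    unfold wI ind
    rw [if_pos h2, abs_sub_comm, abs_of_nonneg (by linarith)]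
  have h2 : ∑ p ∈ t.filter (fun p : Nat.Primes => ¬ ((p : ℕ) : ℝ) ≤ Y), wI Y p ≤ 6 := by
    refine le_trans (le_of_eq ?_) (cmp_large (t.filter (fun p : Nat.Primes =>
      ¬ ((p : ℕ) : ℝ) ≤ Y)) Y hY (fun p hp => not_le.1 (Finset.mem_filter.1 hp).2))
    refine Finset.sum_congr rfl fun p hp => ?_
    have h2 := (Finset.mem_filter.1 hp).2
    unfold wI ind
    rw [if_neg h2, sub_zero, abs_of_nonneg (by positivity)]
  linarith

private theorem wI_nonneg (Y : ℝ) (p : Nat.Primes) : 0 ≤ wI Y p := by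
  unfold wI
  positivity

private theorem wI_hasSum (Y : ℝ) (hY : 3 ≤ Y) : Summable (wI Y) ∧ ∑' p, wI Y p ≤ 9 :=
  ⟨summable_of_sum_le (wI_nonneg Y) (wI_sum Y hY),
    Real.tsum_le_of_sum_le (wI_nonneg Y) (wI_sum Y hY)⟩

private theorem cI_bound (u : ℕ → ℂ) (hu : ∀ n, ‖u n‖ ≤ 1) (Y : ℝ) (hY : 3 ≤ Y) :
    Summable (fun p : Nat.Primes => u p / ((p : ℕ) : ℂ) *
      ((((p : ℕ) : ℝ) ^ (-(1 / Real.log Y)) - ind Y p : ℝ) : ℂ)) ∧
    ‖∑' p : Nat.Primes, u p / ((p : ℕ) : ℂ) *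
      ((((p : ℕ) : ℝ) ^ (-(1 / Real.log Y)) - ind Y p : ℝ) : ℂ)‖ ≤ 9 := by
  obtain ⟨h1, h2⟩ := wI_hasSum Y hY
  have h3 : ∀ p : Nat.Primes, ‖u p / ((p : ℕ) : ℂ) *
      ((((p : ℕ) : ℝ) ^ (-(1 / Real.log Y)) - ind Y p : ℝ) : ℂ)‖ ≤ wI Y p := fun p => by
    rw [norm_mul, norm_div, Complex.norm_real, Real.norm_eq_abs, Complex.norm_natCast]
    unfold wI
    gcongr
    exact hu p
  exact ⟨Summable.of_norm_bounded h1 h3, (tsum_of_norm_bounded h1.hasSum h3).trans h2⟩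

theorem stCompare : StCompare := by
  refine ⟨18, by norm_num, fun u Y₁ Y₂ hu h3 h12 => ?_⟩
  obtain ⟨s1, b1⟩ := cI_bound u hu Y₁ h3
  obtain ⟨s2, b2⟩ := cI_bound u hu Y₂ (h3.trans h12)
  set v : Nat.Primes → ℂ := fun p => u p / ((p : ℕ) : ℂ) * ((ind Y₂ p - ind Y₁ p : ℝ) : ℂ)
    with hv
  set T : Finset ℕ := Finset.Ioc ⌊Y₁⌋₊ ⌊Y₂⌋₊ with hT
  have hmem : ∀ p : Nat.Primes, (p : ℕ) ∈ T ↔ (Y₁ < ((p : ℕ) : ℝ) ∧ ((p : ℕ) : ℝ) ≤ Y₂) := by
    intro p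
    rw [hT, Finset.mem_Ioc, Nat.floor_lt (by linarith), Nat.le_floor_iff (by linarith)]
  have hvin : ∀ p : Nat.Primes, (p : ℕ) ∈ T → v p = u p / ((p : ℕ) : ℂ) := by
    intro p hp
    rw [hmem] at hp
    rw [hv]
    simp only
    unfold ind
    rw [if_pos hp.2, if_neg (not_le.2 hp.1)]
    simp
  have hvout : ∀ p : Nat.Primes, (p : ℕ) ∉ T → v p = 0 := by
    intro p hp
    rw [hmem, not_and_or, not_lt, not_le] at hp
    rw [hv]
    simp only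
    unfold ind
    rcases hp with hp | hp
    · rw [if_pos hp, if_pos (hp.trans h12)]
      simp
    · rw [if_neg (not_le.2 hp), if_neg (not_le.2 (lt_of_le_of_lt h12 hp))]
      simp
  set S : Finset Nat.Primes := T.subtype Nat.Prime with hS
  have hmS : ∀ p : Nat.Primes, p ∈ S ↔ (p : ℕ) ∈ T := fun p => Finset.mem_subtype
  have hout : ∀ p : Nat.Primes, p ∉ S → v p = 0 := by
    intro p hp
    exact hvout p fun h => hp ((hmS p).2 h)
  have hvs : Summable v := summable_of_ne_finset_zero hout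
  have hvt : ∑' p, v p = ∑ p ∈ T.filter Nat.Prime, u p / (p : ℂ) := by
    rw [tsum_eq_sum hout]
    have h5 : ∑ p ∈ S, v p = ∑ p ∈ S, u p / ((p : ℕ) : ℂ) :=
      Finset.sum_congr rfl fun p hp => hvin p ((hmS p).1 hp)
    rw [h5]
    exact Finset.sum_subtype_eq_sum_filter (s := T) (p := Nat.Prime) (fun n : ℕ => u n / (n : ℂ))
  have hsplit : ∑' p : Nat.Primes, u p / ((p : ℕ) : ℂ) *
        ((((p : ℕ) : ℝ) ^ (-(1 / Real.log Y₂)) - ((p : ℕ) : ℝ) ^ (-(1 / Real.log Y₁)) : ℝ) : ℂ) =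
      (∑' p : Nat.Primes, u p / ((p : ℕ) : ℂ) *
        ((((p : ℕ) : ℝ) ^ (-(1 / Real.log Y₂)) - ind Y₂ p : ℝ) : ℂ)) -
      (∑' p : Nat.Primes, u p / ((p : ℕ) : ℂ) *
        ((((p : ℕ) : ℝ) ^ (-(1 / Real.log Y₁)) - ind Y₁ p : ℝ) : ℂ)) + ∑' p, v p := by
    rw [← s2.tsum_sub s1, ← (s2.sub s1).tsum_add hvs]
    refine tsum_congr fun p => ?_
    rw [hv]
    simp only
    push_cast
    ring
  rw [hvt] at hsplit
  have hfin : ∑ p ∈ T.filter Nat.Prime, u p / (p : ℂ) =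
      (∑' p : Nat.Primes, u p / ((p : ℕ) : ℂ) *
        ((((p : ℕ) : ℝ) ^ (-(1 / Real.log Y₂)) - ((p : ℕ) : ℝ) ^ (-(1 / Real.log Y₁)) : ℝ) : ℂ)) -
      (∑' p : Nat.Primes, u p / ((p : ℕ) : ℂ) *
        ((((p : ℕ) : ℝ) ^ (-(1 / Real.log Y₂)) - ind Y₂ p : ℝ) : ℂ)) +
      (∑' p : Nat.Primes, u p / ((p : ℕ) : ℂ) *
        ((((p : ℕ) : ℝ) ^ (-(1 / Real.log Y₁)) - ind Y₁ p : ℝ) : ℂ)) := by
    rw [hsplit]
    ring
  rw [hfin]
  refine (norm_add_le _ _).trans ?_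
  refine le_trans (add_le_add_left (norm_sub_le _ _) _) ?_
  linarith

end MRP.E
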