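import Mathlib
import Pool.Agent.Helper6.MR.EDefs

/-!
# E17: bounded t, nonprincipal character

PROOF.  `L(·,χ)` is entire (`DirichletCharacter.differentiable_LFunction`, `χ ≠ 1`) and does not vanish on `Re s ≥ 1` (`LFunction_ne_zero_of_one_le_re`).  So `s ↦ deriv L / L` is continuous on the
compact set `{1 ≤ Re s ≤ 2, |Im s| ≤ T}`, hence bounded.
-/

set_option autoImplicit false

namespace MRP.E

open Finset Complex DirichletCharacter

theorem stSmallT : StSmallT := by
  intro q _ χ T hχ
  set K : Set ℂ := Set.Icc (1 : ℝ) 2 ×ℂ Set.Icc (-T) T with hK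
  have hKc : IsCompact K := by
    rw [hK]
    exact isCompact_Icc.reProdIm isCompact_Icc
  have hd : Differentiable ℂ (LFunction χ) := differentiable_LFunction hχ
  have hcont : ContinuousOn (fun s => deriv (LFunction χ) s / LFunction χ s) K := by
    refine ContinuousOn.div hd.deriv.continuous.continuousOn hd.continuous.continuousOn ?_
    intro s hs
    exact LFunction_ne_zero_of_one_le_re χ (Or.inl hχ) hs.1.1
  obtain ⟨C, hC⟩ := hKc.exists_bound_of_continuousOn hcont
  refine ⟨max C 1, lt_of_lt_of_le one_pos (le_max_right _ _), fun x t hx0 hx1 ht => ?_⟩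
  refine (hC (1 + x + Complex.I * t) ?_).trans (le_max_left _ _)
  have h1 : (1 + x + Complex.I * t : ℂ).re = 1 + x := by simp
  have h2 : (1 + x + Complex.I * t : ℂ).im = t := by simp
  refine ⟨?_, ?_⟩
  · show (1 + x + Complex.I * t : ℂ).re ∈ Set.Icc (1 : ℝ) 2
    rw [h1]
    exact ⟨by linarith, by linarith⟩
  · show (1 + x + Complex.I * t : ℂ).im ∈ Set.Icc (-T) T
    rw [h2]
    exact abs_le.1 ht

end MRP.E
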