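import Mathlib
import Pool.Agent.Helper6.MR.EDefs

/-!
# Project MR, block E: further statements (smooth sums, small frequencies)
-/

set_option autoImplicit false

namespace MRP.E

open Finset Complex DirichletCharacter

/-- E19: smooth sums `∑ ψ(log n - v) n^(-1-iu)` for a compactly supported `C²` function `ψ`,
frequencies up to any fixed power of the length -/
def StSmooth : Prop := ∀ (ψ : ℝ → ℝ) (K : ℕ), ContDiff ℝ 2 ψ → HasCompactSupport ψ →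
  ∃ c C : ℝ, 0 < c ∧ 0 < C ∧ ∀ v u : ℝ, 0 ≤ v → |u| ≤ Real.exp (K * v) →
    ‖∑' n : ℕ, ((ψ (Real.log n - v) / n : ℝ) : ℂ) * ph (-(u * Real.log n))‖ ≤
      C / (1 + u ^ 2) + C * Real.exp (-(c * v))

/-- E20a: nonprincipal character, bounded frequencies: the sum over primes is bounded -/
def StPrimeSmall1 : Prop := ∀ (q : ℕ) [NeZero q] (χ : DirichletCharacter ℂ q) (T : ℝ), χ ≠ 1 →
  ∃ C : ℝ, 0 < C ∧ ∀ x t : ℝ, 0 < x → x ≤ 1 → |t| ≤ T →
    ‖∑' p : Nat.Primes, χ ((p : ℕ) : ZMod q) * ((p : ℕ) : ℂ) ^ (-(1 + x + Complex.I * t))‖ ≤ C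

/-- E20b: principal character, bounded frequencies -/
def StPrimeSmall0 : Prop := ∀ (T : ℝ), ∃ C : ℝ, 0 < C ∧ ∀ x t : ℝ, 0 < x → x ≤ 1 → |t| ≤ T →
    ‖∑' p : Nat.Primes, ((p : ℕ) : ℂ) ^ (-(1 + x + Complex.I * t))‖ ≤
      Real.log (1 + 1 / ‖(x : ℂ) + Complex.I * t‖) + C

end MRP.E
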