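import Mathlib
import Pool.Agent.Helper6.MR.EDefs2

/-!
# E19: smooth sums of n^{-1-iu}

PROOF.  Let `ψ` vanish outside `[-A, A]`, `|ψ|, |ψ'|, |ψ''| ≤ B`.  Every term with `n = 0` vanishes (division by `0`), and only `e^(v-A) ≤ n ≤ e^(v+A)` contribute, so the sum is finite and
trivially `≤ C₀`.  For `v ≤ v₀(A, K)` take `C ≥ C₀ e^(c v₀)`.  Let `v ≥ v₀`.
(i) `|u| ≤ e^(v/2)`.  `g(x) = ψ(log x - v) x⁻¹ e^(-iu log x)` on `(0, ∞)`; for every integer `n`: `|g(n) - ∫_n^{n+1} g| ≤ ∫_n^{n+1} |g'|`, so `|∑ g(n) - ∫ g| ≤ ∫ |g'| ≤ C (1 + |u|) e^(-v) ≤ 2C e^(-v/2)`, and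
`∫ g(x) dx = ∫ ψ(y - v) e^(-iuy) dy`, which is `≤ 2AB` and (two integrations by parts, or: integral of the derivative of a compactly supported function is `0`) `≤ 2AB/u^2`, so `≤ C/(1+u^2)`.
(ii) `e^(v/2) ≤ |u| ≤ e^(Kv)`.  Cover `[e^(v-A), e^(v+A)]` by at most `3A + 2` blocks `(N, 2N]`; `N ≥ e^(v-A)`, `N^(1/2) ≤ ...`: for `N ≤ e^v · e^A` one has `N^(1/2) ≤ e^(A/2) e^(v/2)`, which may exceed `|u|` by a constant
factor: use (i) for `|u| ≤ e^(2v/3)` (error `C(1+|u|)e^(-v) ≤ 2C e^(-v/3)`) and (ii) only for `|u| ≥ e^(2v/3)`; and `|u| ≤ e^(Kv) ≤ N^(K+1)` for `v ≥ v₀`.  `StExpSum` with `θ = 0`, exponent `K+1` bounds the sums of `ph(-u log n)` over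
subintervals of `(N, 2N]` by `C N^(1-c)`; partial summation with the weight `ψ(log n - v)/n`, which is `≤ B/N` with total variation `≤ C/N`, gives `≤ C N^(-c) ≤ C' e^(-cv)`.
-/

set_option autoImplicit false

namespace MRP.E

open Finset Complex DirichletCharacter

namespace E19

theorem ph_norm (x : ℝ) : ‖ph x‖ = 1 := by
  unfold ph
  exact Complex.norm_exp_ofReal_mul_I x

theorem ph_add (x y : ℝ) : ph (x + y) = ph x * ph y := by
  unfold ph
  rw [← Complex.exp_add]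
  congr 1
  push_cast
  ring

theorem ph_log_deriv (u x : ℝ) (hx : 0 < x) :
    HasDerivAt (fun y : ℝ => ph (-(u * Real.log y)))
      (ph (-(u * Real.log x)) * (((-(u * x⁻¹) : ℝ) : ℂ) * I)) x := by
  unfold ph
  have h1 : HasDerivAt (fun y : ℝ => -(u * Real.log y)) (-(u * x⁻¹)) x :=
    ((Real.hasDerivAt_log hx.ne').const_mul u).neg
  exact (h1.ofReal_comp.mul_const I).cexp

theorem ph_lin_deriv (u x : ℝ) :
    HasDerivAt (fun y : ℝ => ph (-(u * y))) (ph (-(u * x)) * (((-u : ℝ) : ℂ) * I)) x := by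
  unfold ph
  have h1 : HasDerivAt (fun y : ℝ => -(u * y)) (-u) x := by
    have := ((hasDerivAt_id' x).const_mul u).neg
    rw [mul_one] at this
    exact this
  exact (h1.ofReal_comp.mul_const I).cexp

/-- the summand as a function of a real variable -/
noncomputable def GG (ψ : ℝ → ℝ) (v u x : ℝ) : ℂ :=
  ((ψ (Real.log x - v) / x : ℝ) : ℂ) * ph (-(u * Real.log x))

/-- its derivative -/
noncomputable def GG' (ψ ψ1 : ℝ → ℝ) (v u x : ℝ) : ℂ :=
  (((ψ1 (Real.log x - v) * x⁻¹ * x - ψ (Real.log x - v) * 1) / x ^ 2 : ℝ) : ℂ) *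
      ph (-(u * Real.log x)) +
    ((ψ (Real.log x - v) / x : ℝ) : ℂ) *
      (ph (-(u * Real.log x)) * (((-(u * x⁻¹) : ℝ) : ℂ) * I))

theorem GG_deriv (ψ ψ1 : ℝ → ℝ) (hd : ∀ x, HasDerivAt ψ (ψ1 x) x) (v u x : ℝ) (hx : 0 < x) :
    HasDerivAt (GG ψ v u) (GG' ψ ψ1 v u x) x := by
  unfold GG GG'
  have h1 : HasDerivAt (fun y : ℝ => Real.log y - v) x⁻¹ x :=
    (Real.hasDerivAt_log hx.ne').sub_const v
  have h2 : HasDerivAt (fun y : ℝ => ψ (Real.log y - v)) (ψ1 (Real.log x - v) * x⁻¹) x :=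
    (hd _).comp x h1
  have h3 : HasDerivAt (fun y : ℝ => ψ (Real.log y - v) / y)
      ((ψ1 (Real.log x - v) * x⁻¹ * x - ψ (Real.log x - v) * 1) / x ^ 2) x :=
    h2.div (hasDerivAt_id x) hx.ne'
  exact h3.ofReal_comp.mul (ph_log_deriv u x hx)

theorem GG'_norm (ψ ψ1 : ℝ → ℝ) (A B : ℝ) (h0 : ∀ x, A ≤ |x| → ψ x = 0)
    (h1 : ∀ x, A ≤ |x| → ψ1 x = 0) (hB0 : ∀ x, |ψ x| ≤ B) (hB1 : ∀ x, |ψ1 x| ≤ B)
    (v u x : ℝ) (hx : 0 < x) :
    ‖GG' ψ ψ1 v u x‖ ≤ 2 * B * (1 + |u|) * Real.exp (2 * (A - v)) := by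
  have hB : 0 ≤ B := le_trans (abs_nonneg _) (hB0 0)
  by_cases hc : A ≤ |Real.log x - v|
  · unfold GG'
    rw [h0 _ hc, h1 _ hc]
    simp only [zero_mul, sub_zero, zero_div, Complex.ofReal_zero, add_zero, norm_zero]
    positivity
  · have hlt : v - A < Real.log x := by
      have := (abs_lt.1 (not_le.1 hc)).1
      linarith
    have hxe : Real.exp (v - A) < x := by
      rwa [← Real.lt_log_iff_exp_lt hx]
    have hinv : x⁻¹ ≤ Real.exp (A - v) := by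
      have h2 : Real.exp (A - v) = (Real.exp (v - A))⁻¹ := by
        rw [← Real.exp_neg]
        congr 1
        ring
      rw [h2]
      exact inv_anti₀ (Real.exp_pos _) hxe.le
    have hinv0 : 0 < x⁻¹ := inv_pos.2 hx
    have hsq : x⁻¹ ^ 2 ≤ Real.exp (2 * (A - v)) := by
      have h3 : Real.exp (2 * (A - v)) = Real.exp (A - v) ^ 2 := by
        rw [← Real.exp_nat_mul]
        push_cast
        rfl
      rw [h3]
      exact pow_le_pow_left₀ hinv0.le hinv 2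
    have e1 : ‖(((ψ1 (Real.log x - v) * x⁻¹ * x - ψ (Real.log x - v) * 1) / x ^ 2 : ℝ) : ℂ) *
      ph (-(u * Real.log x))‖ ≤ 2 * B * x⁻¹ ^ 2 := by
      rw [norm_mul, ph_norm, mul_one, Complex.norm_real, Real.norm_eq_abs, abs_div,
        mul_assoc (ψ1 _), inv_mul_cancel₀ hx.ne', mul_one, mul_one, div_eq_mul_inv,
        abs_of_pos (by positivity : 0 < x ^ 2), inv_pow]
      have h4 : |ψ1 (Real.log x - v) - ψ (Real.log x - v)| ≤ 2 * B := by
        have := abs_sub (ψ1 (Real.log x - v)) (ψ (Real.log x - v))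
        have h5 := hB0 (Real.log x - v)
        have h6 := hB1 (Real.log x - v)
        linarith
      exact mul_le_mul_of_nonneg_right h4 (by positivity)
    have e2 : ‖((ψ (Real.log x - v) / x : ℝ) : ℂ) *
      (ph (-(u * Real.log x)) * (((-(u * x⁻¹) : ℝ) : ℂ) * I))‖ ≤ B * |u| * x⁻¹ ^ 2 := by
      rw [norm_mul, norm_mul, norm_mul, ph_norm, Complex.norm_real, Complex.norm_real,
        Complex.norm_I, mul_one, one_mul, Real.norm_eq_abs, Real.norm_eq_abs, abs_div, abs_neg,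
        abs_mul, abs_of_pos hx, abs_of_pos hinv0]
      have h5 := hB0 (Real.log x - v)
      calc |ψ (Real.log x - v)| / x * (|u| * x⁻¹) = |ψ (Real.log x - v)| * (|u| * x⁻¹ ^ 2) := by
            rw [div_eq_mul_inv]; ring
        _ ≤ B * (|u| * x⁻¹ ^ 2) := mul_le_mul_of_nonneg_right h5 (by positivity)
        _ = B * |u| * x⁻¹ ^ 2 := by ring
    have e3 : ‖GG' ψ ψ1 v u x‖ ≤ 2 * B * x⁻¹ ^ 2 + B * |u| * x⁻¹ ^ 2 := by
      unfold GG'
      exact le_trans (norm_add_le _ _) (add_le_add e1 e2)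
    have e4 : 2 * B * x⁻¹ ^ 2 + B * |u| * x⁻¹ ^ 2 ≤ 2 * B * (1 + |u|) * x⁻¹ ^ 2 := by
      have : 0 ≤ B * |u| * x⁻¹ ^ 2 := by positivity
      nlinarith
    have e5 : 2 * B * (1 + |u|) * x⁻¹ ^ 2 ≤ 2 * B * (1 + |u|) * Real.exp (2 * (A - v)) :=
      mul_le_mul_of_nonneg_left hsq (by positivity)
    linarith

theorem GG_lip (ψ ψ1 : ℝ → ℝ) (A B : ℝ) (hd : ∀ x, HasDerivAt ψ (ψ1 x) x)
    (h0 : ∀ x, A ≤ |x| → ψ x = 0)
    (h1 : ∀ x, A ≤ |x| → ψ1 x = 0) (hB0 : ∀ x, |ψ x| ≤ B) (hB1 : ∀ x, |ψ1 x| ≤ B)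
    (v u x y : ℝ) (hx : 0 < x) (hy : 0 < y) :
    ‖GG ψ v u y - GG ψ v u x‖ ≤ 2 * B * (1 + |u|) * Real.exp (2 * (A - v)) * |y - x| := by
  have := Convex.norm_image_sub_le_of_norm_hasDerivWithin_le (f := GG ψ v u)
    (f' := GG' ψ ψ1 v u) (s := Set.Ioi (0 : ℝ)) (x := x) (y := y)
    (C := 2 * B * (1 + |u|) * Real.exp (2 * (A - v)))
    (fun z hz => (GG_deriv ψ ψ1 hd v u z hz).hasDerivWithinAt)
    (fun z hz => GG'_norm ψ ψ1 A B h0 h1 hB0 hB1 v u z hz) (convex_Ioi 0) hx hy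
  rwa [Real.norm_eq_abs] at this

theorem GG_cont (ψ ψ1 : ℝ → ℝ) (hd : ∀ x, HasDerivAt ψ (ψ1 x) x) (v u : ℝ) :
    ContinuousOn (GG ψ v u) (Set.Ioi (0 : ℝ)) := fun x hx =>
  (GG_deriv ψ ψ1 hd v u x hx).continuousAt.continuousWithinAt

theorem GG_zero (ψ : ℝ → ℝ) (A : ℝ) (h0 : ∀ x, A ≤ |x| → ψ x = 0) (v u x : ℝ)
    (h : A ≤ |Real.log x - v|) : GG ψ v u x = 0 := by
  unfold GG
  rw [h0 _ h]
  simp

/-- sum minus integral -/
theorem sum_int (ψ ψ1 : ℝ → ℝ) (A B : ℝ) (hd : ∀ x, HasDerivAt ψ (ψ1 x) x)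
    (h0 : ∀ x, A ≤ |x| → ψ x = 0)
    (h1 : ∀ x, A ≤ |x| → ψ1 x = 0) (hB0 : ∀ x, |ψ x| ≤ B) (hB1 : ∀ x, |ψ1 x| ≤ B)
    (v u : ℝ) (M : ℕ) (hM : 1 ≤ M) :
    ‖(∑ n ∈ Ico 1 M, GG ψ v u n) - ∫ x in (1 : ℝ)..M, GG ψ v u x‖ ≤
      M * (2 * B * (1 + |u|) * Real.exp (2 * (A - v))) := by
  have hB : 0 ≤ B := le_trans (abs_nonneg _) (hB0 0)
  set D : ℝ := 2 * B * (1 + |u|) * Real.exp (2 * (A - v)) with hD
  have hD0 : 0 ≤ D := by positivity
  have hint : ∀ k ∈ Set.Ico 1 M, IntervalIntegrable (GG ψ v u) MeasureTheory.volume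
      ((k : ℕ) : ℝ) ((k + 1 : ℕ) : ℝ) := by
    intro k hk
    apply ContinuousOn.intervalIntegrable
    apply (GG_cont ψ ψ1 hd v u).mono
    intro x hx
    rw [Set.uIcc_of_le (by push_cast; linarith)] at hx
    have : (1 : ℝ) ≤ k := by exact_mod_cast hk.1
    exact lt_of_lt_of_le (by linarith) hx.1
  have hsum := intervalIntegral.sum_integral_adjacent_intervals_Ico (f := GG ψ v u)
    (μ := MeasureTheory.volume) (a := fun k : ℕ => (k : ℝ)) hM hint
  simp only [Nat.cast_one] at hsum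
  rw [← hsum, ← Finset.sum_sub_distrib]
  have hterm : ∀ k ∈ Ico 1 M,
      ‖GG ψ v u k - ∫ x in ((k : ℕ) : ℝ)..((k + 1 : ℕ) : ℝ), GG ψ v u x‖ ≤ D := by
    intro k hk
    have hk1 : (1 : ℝ) ≤ k := by exact_mod_cast (Finset.mem_Ico.1 hk).1
    have hc : GG ψ v u k = ∫ x in ((k : ℕ) : ℝ)..((k + 1 : ℕ) : ℝ), GG ψ v u k := by
      rw [intervalIntegral.integral_const]
      push_cast
      simp
    rw [hc, ← intervalIntegral.integral_sub]
    · have h2 := intervalIntegral.norm_integral_le_of_norm_le_const (a := ((k : ℕ) : ℝ))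
        (b := ((k + 1 : ℕ) : ℝ)) (C := D) (f := fun x => GG ψ v u k - GG ψ v u x) (by
          intro x hx
          rw [Set.uIoc_of_le (by push_cast; linarith)] at hx
          push_cast at hx
          have hxp : 0 < x := lt_trans (by linarith) hx.1
          have := GG_lip ψ ψ1 A B hd h0 h1 hB0 hB1 v u x k hxp (by linarith)
          refine le_trans this ?_
          have h3 : |(k : ℝ) - x| ≤ 1 := by
            rw [abs_le]
            constructor <;> linarith [hx.1, hx.2]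
          calc D * |(k : ℝ) - x| ≤ D * 1 := mul_le_mul_of_nonneg_left h3 hD0
            _ = D := mul_one _)
      refine le_trans h2 ?_
      push_cast
      simp
    · exact intervalIntegrable_const
    · exact hint k (Finset.mem_Ico.1 hk)
  calc ‖∑ k ∈ Ico 1 M, (GG ψ v u k - ∫ x in ((k : ℕ) : ℝ)..((k + 1 : ℕ) : ℝ), GG ψ v u x)‖
      ≤ ∑ k ∈ Ico 1 M, D := norm_sum_le_of_le _ hterm
    _ = ((M - 1 : ℕ) : ℝ) * D := by
        rw [Finset.sum_const, Nat.card_Ico, nsmul_eq_mul]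
    _ ≤ M * D := by
        refine mul_le_mul_of_nonneg_right ?_ hD0
        exact_mod_cast Nat.sub_le _ _

theorem ph_lin_cont (u : ℝ) : Continuous (fun y : ℝ => ph (-(u * y))) := by
  unfold ph
  fun_prop

/-- integration by parts -/
theorem by_parts (φ φ1 : ℝ → ℝ) (A u : ℝ) (hd : ∀ x, HasDerivAt φ (φ1 x) x)
    (hc : Continuous φ1) (ha : φ A = 0) (hb : φ (-A) = 0) :
    (∫ y in (-A)..A, ((φ1 y : ℝ) : ℂ) * ph (-(u * y))) =
      ((u : ℝ) : ℂ) * I * ∫ y in (-A)..A, ((φ y : ℝ) : ℂ) * ph (-(u * y)) := by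
  have hφ : Continuous φ := continuous_iff_continuousAt.2 fun x => (hd x).continuousAt
  have c1 : Continuous (fun y : ℝ => ((φ1 y : ℝ) : ℂ) * ph (-(u * y))) :=
    (Complex.continuous_ofReal.comp hc).mul (ph_lin_cont u)
  have c2 : Continuous (fun y : ℝ => ((φ y : ℝ) : ℂ) * ph (-(u * y))) :=
    (Complex.continuous_ofReal.comp hφ).mul (ph_lin_cont u)
  have hder : ∀ x ∈ Set.uIcc (-A) A, HasDerivAt (fun y : ℝ => ((φ y : ℝ) : ℂ) * ph (-(u * y)))
      (((φ1 x : ℝ) : ℂ) * ph (-(u * x)) +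
        ((φ x : ℝ) : ℂ) * (ph (-(u * x)) * (((-u : ℝ) : ℂ) * I))) x := fun x _ =>
    (hd x).ofReal_comp.mul (ph_lin_deriv u x)
  have c3 : Continuous (fun x : ℝ => ((φ x : ℝ) : ℂ) * (ph (-(u * x)) * (((-u : ℝ) : ℂ) * I))) :=
    (Complex.continuous_ofReal.comp hφ).mul ((ph_lin_cont u).mul continuous_const)
  have h := intervalIntegral.integral_eq_sub_of_hasDerivAt hder
    ((c1.add c3).intervalIntegrable _ _)
  rw [ha, hb, intervalIntegral.integral_add (c1.intervalIntegrable _ _)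
    (c3.intervalIntegrable _ _)] at h
  have h2 : (∫ x in (-A)..A, ((φ x : ℝ) : ℂ) * (ph (-(u * x)) * (((-u : ℝ) : ℂ) * I))) =
      -(((u : ℝ) : ℂ) * I * ∫ y in (-A)..A, ((φ y : ℝ) : ℂ) * ph (-(u * y))) := by
    rw [← neg_mul, ← intervalIntegral.integral_const_mul]
    congr 1
    ext x
    push_cast
    ring
  rw [h2] at h
  simp only [Complex.ofReal_zero, zero_mul, sub_zero] at h
  linear_combination h

theorem norm_J (φ : ℝ → ℝ) (A B u : ℝ) (hA : 0 ≤ A) (hB : ∀ x, |φ x| ≤ B) :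
    ‖∫ y in (-A)..A, ((φ y : ℝ) : ℂ) * ph (-(u * y))‖ ≤ 2 * A * B := by
  have h := intervalIntegral.norm_integral_le_of_norm_le_const (a := -A) (b := A) (C := B)
    (f := fun y => ((φ y : ℝ) : ℂ) * ph (-(u * y))) (by
      intro x _
      rw [norm_mul, ph_norm, mul_one, Complex.norm_real, Real.norm_eq_abs]
      exact hB x)
  have h2 : |A - -A| = 2 * A := by
    rw [sub_neg_eq_add, abs_of_nonneg (by linarith)]
    ring
  rw [h2] at h
  linarith

theorem J_bound (ψ ψ1 ψ2 : ℝ → ℝ) (A B u : ℝ) (hA : 0 ≤ A)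
    (hd : ∀ x, HasDerivAt ψ (ψ1 x) x) (hd1 : ∀ x, HasDerivAt ψ1 (ψ2 x) x)
    (hc2 : Continuous ψ2)
    (h0 : ∀ x, A ≤ |x| → ψ x = 0) (h1 : ∀ x, A ≤ |x| → ψ1 x = 0)
    (hB0 : ∀ x, |ψ x| ≤ B) (hB2 : ∀ x, |ψ2 x| ≤ B) :
    ‖∫ y in (-A)..A, ((ψ y : ℝ) : ℂ) * ph (-(u * y))‖ ≤ 4 * A * B / (1 + u ^ 2) := by
  have hc1 : Continuous ψ1 := continuous_iff_continuousAt.2 fun x => (hd1 x).continuousAt
  have e1 := by_parts ψ ψ1 A u hd hc1 (h0 A (le_abs_self A))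
    (h0 (-A) (by rw [abs_neg]; exact le_abs_self A))
  have e2 := by_parts ψ1 ψ2 A u hd1 hc2 (h1 A (le_abs_self A))
    (h1 (-A) (by rw [abs_neg]; exact le_abs_self A))
  rw [e1] at e2
  set J : ℂ := ∫ y in (-A)..A, ((ψ y : ℝ) : ℂ) * ph (-(u * y)) with hJ
  have n2 := norm_J ψ2 A B u hA hB2
  have n0 := norm_J ψ A B u hA hB0
  rw [e2, norm_mul, norm_mul, norm_mul, norm_mul, Complex.norm_I, mul_one,
    Complex.norm_real, Real.norm_eq_abs] at n2
  rw [le_div_iff₀ (by positivity)]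
  have h3 : |u| * (|u| * ‖J‖) = u ^ 2 * ‖J‖ := by
    rw [← mul_assoc, abs_mul_abs_self]
    ring
  rw [h3] at n2
  linarith [n0, n2, mul_comm (‖J‖) (1 + u ^ 2), mul_add (‖J‖) 1 (u ^ 2), mul_comm (‖J‖) (u ^ 2)]

/-- change of variables -/
theorem int_eq (ψ ψ1 : ℝ → ℝ) (A v u : ℝ) (hA : 0 < A) (hd : ∀ x, HasDerivAt ψ (ψ1 x) x)
    (h0 : ∀ x, A ≤ |x| → ψ x = 0) (hv : A ≤ v) (M : ℝ) (hM : Real.exp (A + v) ≤ M) :
    ∫ x in (1 : ℝ)..M, GG ψ v u x =
      ph (-(u * v)) * ∫ y in (-A)..A, ((ψ y : ℝ) : ℂ) * ph (-(u * y)) := by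
  have hcont := GG_cont ψ ψ1 hd v u
  have h1e : (1 : ℝ) ≤ Real.exp (-A + v) := Real.one_le_exp (by linarith)
  have hee : Real.exp (-A + v) ≤ Real.exp (A + v) := Real.exp_le_exp.2 (by linarith)
  have hint : ∀ a b : ℝ, 1 ≤ a → a ≤ b →
      IntervalIntegrable (GG ψ v u) MeasureTheory.volume a b := by
    intro a b ha hab
    apply ContinuousOn.intervalIntegrable
    apply hcont.mono
    intro x hx
    rw [Set.uIcc_of_le hab] at hx
    exact lt_of_lt_of_le (by linarith) hx.1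
  have s1 := intervalIntegral.integral_add_adjacent_intervals
    (hint 1 (Real.exp (-A + v)) le_rfl h1e)
    (hint (Real.exp (-A + v)) (Real.exp (A + v)) h1e hee)
  have s2 := intervalIntegral.integral_add_adjacent_intervals
    (hint 1 (Real.exp (A + v)) le_rfl (le_trans h1e hee))
    (hint (Real.exp (A + v)) M (le_trans h1e hee) hM)
  have z1 : ∫ x in (1 : ℝ)..Real.exp (-A + v), GG ψ v u x = 0 := by
    rw [intervalIntegral.integral_congr (g := fun _ => (0 : ℂ))]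
    · simp
    · intro x hx
      rw [Set.uIcc_of_le h1e] at hx
      apply GG_zero ψ A h0
      have hxp : 0 < x := lt_of_lt_of_le (by norm_num) hx.1
      have h3 : Real.log x ≤ -A + v := (Real.log_le_iff_le_exp hxp).2 hx.2
      have h4 : Real.log x - v ≤ -A := by linarith
      rw [abs_of_nonpos (by linarith)]
      linarith
  have z2 : ∫ x in Real.exp (A + v)..M, GG ψ v u x = 0 := by
    rw [intervalIntegral.integral_congr (g := fun _ => (0 : ℂ))]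
    · simp
    · intro x hx
      rw [Set.uIcc_of_le hM] at hx
      apply GG_zero ψ A h0
      have hxp : 0 < x := lt_of_lt_of_le (Real.exp_pos _) hx.1
      have h3 : A + v ≤ Real.log x := (Real.le_log_iff_exp_le hxp).2 hx.1
      have h4 : A ≤ Real.log x - v := by linarith
      rw [abs_of_nonneg (by linarith)]
      exact h4
  rw [← s2, ← s1, z1, z2, zero_add, add_zero]
  have hsub := intervalIntegral.integral_deriv_smul_comp' (a := -A) (b := A)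
    (f := fun y => Real.exp (y + v)) (f' := fun y => Real.exp (y + v)) (g := GG ψ v u)
    (by
      intro x _
      have h5 : HasDerivAt (fun y : ℝ => y + v) 1 x := (hasDerivAt_id' x).add_const v
      have h6 := h5.exp
      rw [mul_one] at h6
      exact h6)
    (by fun_prop)
    (by
      apply hcont.mono
      rintro _ ⟨y, _, rfl⟩
      exact Real.exp_pos _)
  rw [← hsub, ← intervalIntegral.integral_const_mul]
  congr 1
  ext y
  simp only [Function.comp_apply]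
  unfold GG
  rw [Real.log_exp, add_sub_cancel_right, mul_add, neg_add, ph_add]
  have hne : (Real.exp (y + v) : ℂ) ≠ 0 := by
    exact_mod_cast (Real.exp_pos (y + v)).ne'
  rw [Complex.real_smul]
  push_cast
  rw [Complex.ofReal_exp] at hne
  push_cast at hne
  field_simp

theorem block_nat (K : ℕ) (c C : ℝ) (h : ∀ (N θ t : ℝ), 1 ≤ N → 0 ≤ θ → θ ≤ 1 →
      N ^ (1 / 2 : ℝ) ≤ |t| → |t| ≤ N ^ (K : ℝ) → ∀ m n : ℤ, N ≤ m → (n : ℝ) ≤ 2 * N →
      ‖∑ j ∈ Finset.Icc m n, ph (t * Real.log ((j : ℝ) + θ))‖ ≤ C * N ^ (1 - c))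
    (N u : ℝ) (hN : 1 ≤ N) (h1 : N ^ (1 / 2 : ℝ) ≤ |u|) (h2 : |u| ≤ N ^ (K : ℝ)) (m n : ℕ)
    (hm : N ≤ m) (hn : (n : ℝ) ≤ 2 * N + 1) :
    ‖∑ j ∈ Ico m n, ph (-(u * Real.log j))‖ ≤ C * N ^ (1 - c) := by
  have h3 := h N 0 (-u) hN le_rfl zero_le_one (by rwa [abs_neg]) (by rwa [abs_neg])
    (m : ℤ) ((n : ℤ) - 1) (by exact_mod_cast hm) (by push_cast; linarith)
  have h4 : Finset.Icc (m : ℤ) ((n : ℤ) - 1) = (Ico m n).image (fun j : ℕ => (j : ℤ)) := by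
    ext x
    simp only [Finset.mem_Icc, Finset.mem_image, Finset.mem_Ico]
    constructor
    · rintro ⟨ha, hb⟩
      exact ⟨x.toNat, by omega, by omega⟩
    · rintro ⟨y, ⟨ha, hb⟩, rfl⟩
      omega
  rw [h4, Finset.sum_image (by intro x _ y _ hxy; simpa using hxy)] at h3
  refine le_trans (le_of_eq ?_) h3
  congr 1
  refine Finset.sum_congr rfl fun j _ => ?_
  congr 1
  push_cast
  rw [add_zero]
  ring

theorem chain_bound (K : ℕ) (c C : ℝ) (hC : 0 < C) (hc1 : c ≤ 1)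
    (h : ∀ (N θ t : ℝ), 1 ≤ N → 0 ≤ θ → θ ≤ 1 →
      N ^ (1 / 2 : ℝ) ≤ |t| → |t| ≤ N ^ (K : ℝ) → ∀ m n : ℤ, N ≤ m → (n : ℝ) ≤ 2 * N →
      ‖∑ j ∈ Finset.Icc m n, ph (t * Real.log ((j : ℝ) + θ))‖ ≤ C * N ^ (1 - c))
    (N0 u : ℝ) (hN : 1 ≤ N0) (k : ℕ) (h1 : (2 ^ k * N0) ^ (1 / 2 : ℝ) ≤ |u|)
    (h2 : |u| ≤ N0 ^ (K : ℝ)) (i : ℕ) (hi : i ≤ k) (n : ℕ) (hn : n ≤ ⌈2 ^ i * N0⌉₊) :
    ‖∑ j ∈ Ico ⌈N0⌉₊ n, ph (-(u * Real.log j))‖ ≤ i * (C * (2 ^ k * N0) ^ (1 - c)) := by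
  induction i generalizing n with
  | zero =>
    have : Ico ⌈N0⌉₊ n = ∅ := by
      apply Finset.Ico_eq_empty
      have : n ≤ ⌈N0⌉₊ := by simpa using hn
      omega
    rw [this]
    simp
  | succ i ih =>
    have hQ : 0 ≤ C * (2 ^ k * N0) ^ (1 - c) := by positivity
    by_cases hcase : n ≤ ⌈2 ^ i * N0⌉₊
    · refine le_trans (ih (by omega) n hcase) ?_
      refine mul_le_mul_of_nonneg_right ?_ hQ
      push_cast
      linarith
    · have hlt : ⌈2 ^ i * N0⌉₊ ≤ n := by omega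
      have hN0i : N0 ≤ 2 ^ i * N0 := by
        have : (1 : ℝ) ≤ 2 ^ i := one_le_pow₀ (by norm_num)
        nlinarith
      have hle : ⌈N0⌉₊ ≤ ⌈2 ^ i * N0⌉₊ := Nat.ceil_mono hN0i
      rw [← Finset.sum_Ico_consecutive _ hle hlt]
      have hNi1 : 1 ≤ 2 ^ i * N0 := le_trans hN hN0i
      have hik : (2 : ℝ) ^ i * N0 ≤ 2 ^ k * N0 := by
        refine mul_le_mul_of_nonneg_right ?_ (by linarith)
        exact pow_le_pow_right₀ (by norm_num) (by omega)
      have hb := block_nat K c C h (2 ^ i * N0) u hNi1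
        (le_trans (Real.rpow_le_rpow (by linarith) hik (by norm_num)) h1)
        (le_trans h2 (Real.rpow_le_rpow (by linarith) hN0i (by positivity)))
        ⌈2 ^ i * N0⌉₊ n (Nat.le_ceil _) (by
          have h5 : (n : ℝ) ≤ (⌈2 ^ (i + 1) * N0⌉₊ : ℝ) := by exact_mod_cast hn
          have h6 : (⌈2 ^ (i + 1) * N0⌉₊ : ℝ) < 2 ^ (i + 1) * N0 + 1 :=
            Nat.ceil_lt_add_one (by positivity)
          have h7 : (2 : ℝ) ^ (i + 1) * N0 = 2 * (2 ^ i * N0) := by ring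
          linarith)
      have hb2 : C * (2 ^ i * N0) ^ (1 - c) ≤ C * (2 ^ k * N0) ^ (1 - c) := by
        refine mul_le_mul_of_nonneg_left ?_ hC.le
        exact Real.rpow_le_rpow (by linarith) hik (by linarith)
      have ha := ih (by omega) ⌈2 ^ i * N0⌉₊ le_rfl
      refine le_trans (norm_add_le _ _) ?_
      push_cast
      linarith

theorem abel_id (w a : ℕ → ℂ) (m M : ℕ) (hM : m ≤ M) :
    ∑ n ∈ Ico m M, w n * a n = w M * (∑ j ∈ Ico m M, a j) +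
      ∑ n ∈ Ico m M, (w n - w (n + 1)) * ∑ j ∈ Ico m (n + 1), a j := by
  induction M, hM using Nat.le_induction with
  | base => simp
  | succ M hM ih =>
    rw [Finset.sum_Ico_succ_top hM, ih, Finset.sum_Ico_succ_top hM
      (fun n => (w n - w (n + 1)) * ∑ j ∈ Ico m (n + 1), a j), Finset.sum_Ico_succ_top hM a]
    ring

theorem abel_bound (w a : ℕ → ℂ) (m M : ℕ) (hM : m ≤ M) (D Q : ℝ) (hD : 0 ≤ D) (hQ : 0 ≤ Q)
    (hw : w M = 0) (h1 : ∀ n, m ≤ n → n < M → ‖w n - w (n + 1)‖ ≤ D)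
    (h2 : ∀ n, n ≤ M → ‖∑ j ∈ Ico m n, a j‖ ≤ Q) :
    ‖∑ n ∈ Ico m M, w n * a n‖ ≤ M * (D * Q) := by
  rw [abel_id w a m M hM, hw, zero_mul, zero_add]
  calc ‖∑ n ∈ Ico m M, (w n - w (n + 1)) * ∑ j ∈ Ico m (n + 1), a j‖ ≤
        ∑ n ∈ Ico m M, D * Q := by
        refine norm_sum_le_of_le _ fun n hn => ?_
        rw [Finset.mem_Ico] at hn
        rw [norm_mul]
        exact mul_le_mul (h1 n hn.1 hn.2) (h2 (n + 1) (by omega)) (norm_nonneg _) hD
    _ = ((M - m : ℕ) : ℝ) * (D * Q) := by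
        rw [Finset.sum_const, Nat.card_Ico, nsmul_eq_mul]
    _ ≤ M * (D * Q) := by
        refine mul_le_mul_of_nonneg_right ?_ (by positivity)
        exact_mod_cast Nat.sub_le _ _

/-- the series is a finite sum -/
theorem tsum_eq (ψ : ℝ → ℝ) (A : ℝ) (h0 : ∀ x, A ≤ |x| → ψ x = 0) (v u : ℝ) (m M : ℕ)
    (hA : 0 ≤ A) (hm : (m : ℝ) < Real.exp (v - A) + 1) (hM : Real.exp (A + v) ≤ M) :
    ∑' n : ℕ, ((ψ (Real.log n - v) / n : ℝ) : ℂ) * ph (-(u * Real.log n)) =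
      ∑ n ∈ Ico m M, GG ψ v u n := by
  refine tsum_eq_sum (s := Ico m M) (f := fun n : ℕ => GG ψ v u (n : ℝ)) fun n hn => ?_
  rcases Nat.eq_zero_or_pos n with hn0 | hn0
  · subst hn0
    simp [GG]
  · have hnr : (0 : ℝ) < n := by exact_mod_cast hn0
    apply GG_zero ψ A h0
    rw [Finset.mem_Ico, not_and_or, not_le, not_lt] at hn
    rcases hn with hn | hn
    · have h1 : (n : ℝ) + 1 ≤ m := by exact_mod_cast hn
      have h2 : (n : ℝ) ≤ Real.exp (v - A) := by linarith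
      have h3 : Real.log n ≤ v - A := (Real.log_le_iff_le_exp hnr).2 h2
      rw [abs_of_nonpos (by linarith)]
      linarith
    · have h1 : (M : ℝ) ≤ n := by exact_mod_cast hn
      have h3 : A + v ≤ Real.log n := (Real.le_log_iff_exp_le hnr).2 (le_trans hM h1)
      rw [abs_of_nonneg (by linarith)]
      linarith

theorem trivial_bound (ψ : ℝ → ℝ) (A B : ℝ) (h0 : ∀ x, A ≤ |x| → ψ x = 0) (hA : 0 ≤ A)
    (hB0 : ∀ x, |ψ x| ≤ B) (v u : ℝ) (hv : 0 ≤ v) :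
    ‖∑' n : ℕ, ((ψ (Real.log n - v) / n : ℝ) : ℂ) * ph (-(u * Real.log n))‖ ≤
      2 * B * Real.exp (2 * A) := by
  have hB : 0 ≤ B := le_trans (abs_nonneg _) (hB0 0)
  rw [tsum_eq ψ A h0 v u 1 ⌈Real.exp (A + v)⌉₊ hA
    (by push_cast; linarith [Real.exp_pos (v - A)]) (Nat.le_ceil _)]
  have hterm : ∀ n ∈ Ico 1 ⌈Real.exp (A + v)⌉₊, ‖GG ψ v u n‖ ≤ B * Real.exp (A - v) := by
    intro n hn
    have hn1 : (1 : ℝ) ≤ n := by exact_mod_cast (Finset.mem_Ico.1 hn).1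
    by_cases hc : A ≤ |Real.log n - v|
    · rw [GG_zero ψ A h0 v u n hc, norm_zero]
      positivity
    · have hlt : v - A < Real.log n := by
        have := (abs_lt.1 (not_le.1 hc)).1
        linarith
      have hxe : Real.exp (v - A) < n := by
        rwa [← Real.lt_log_iff_exp_lt (by linarith)]
      unfold GG
      rw [norm_mul, ph_norm, mul_one, Complex.norm_real, Real.norm_eq_abs, abs_div,
        abs_of_pos (by linarith : (0 : ℝ) < n), div_eq_mul_inv]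
      have h2 : Real.exp (A - v) = (Real.exp (v - A))⁻¹ := by
        rw [← Real.exp_neg]
        congr 1
        ring
      rw [h2]
      exact mul_le_mul (hB0 _) (inv_anti₀ (Real.exp_pos _) hxe.le) (by positivity) hB
  have hcard : ((⌈Real.exp (A + v)⌉₊ - 1 : ℕ) : ℝ) ≤ 2 * Real.exp (A + v) := by
    have h1 : (⌈Real.exp (A + v)⌉₊ : ℝ) < Real.exp (A + v) + 1 :=
      Nat.ceil_lt_add_one (Real.exp_pos _).le
    have h2 : 1 ≤ Real.exp (A + v) := Real.one_le_exp (by linarith)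
    have h3 : ((⌈Real.exp (A + v)⌉₊ - 1 : ℕ) : ℝ) ≤ (⌈Real.exp (A + v)⌉₊ : ℝ) := by
      exact_mod_cast Nat.sub_le _ _
    linarith
  calc ‖∑ n ∈ Ico 1 ⌈Real.exp (A + v)⌉₊, GG ψ v u n‖ ≤
        ∑ n ∈ Ico 1 ⌈Real.exp (A + v)⌉₊, B * Real.exp (A - v) := norm_sum_le_of_le _ hterm
    _ = ((⌈Real.exp (A + v)⌉₊ - 1 : ℕ) : ℝ) * (B * Real.exp (A - v)) := by
        rw [Finset.sum_const, Nat.card_Ico, nsmul_eq_mul]
    _ ≤ 2 * Real.exp (A + v) * (B * Real.exp (A - v)) :=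
        mul_le_mul_of_nonneg_right hcard (by positivity)
    _ = 2 * B * Real.exp (2 * A) := by
        have : Real.exp (2 * A) = Real.exp (A + v) * Real.exp (A - v) := by
          rw [← Real.exp_add]
          congr 1
          ring
        rw [this]
        ring

/-- small frequencies -/
theorem small_u (ψ ψ1 ψ2 : ℝ → ℝ) (A B : ℝ) (hA : 0 < A)
    (hd : ∀ x, HasDerivAt ψ (ψ1 x) x) (hd1 : ∀ x, HasDerivAt ψ1 (ψ2 x) x)
    (hc2 : Continuous ψ2)
    (h0 : ∀ x, A ≤ |x| → ψ x = 0) (h1 : ∀ x, A ≤ |x| → ψ1 x = 0)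
    (hB0 : ∀ x, |ψ x| ≤ B) (hB1 : ∀ x, |ψ1 x| ≤ B) (hB2 : ∀ x, |ψ2 x| ≤ B) (v u : ℝ)
    (hv : A ≤ v) (hu : |u| ≤ Real.exp (2 * v / 3)) :
    ‖∑' n : ℕ, ((ψ (Real.log n - v) / n : ℝ) : ℂ) * ph (-(u * Real.log n))‖ ≤
      4 * A * B / (1 + u ^ 2) + 8 * B * Real.exp (3 * A) * Real.exp (-(1 / 3 * v)) := by
  have hB : 0 ≤ B := le_trans (abs_nonneg _) (hB0 0)
  have hM1 : 1 ≤ ⌈Real.exp (A + v)⌉₊ := Nat.one_le_ceil_iff.2 (Real.exp_pos _)
  rw [tsum_eq ψ A h0 v u 1 ⌈Real.exp (A + v)⌉₊ hA.le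
    (by push_cast; linarith [Real.exp_pos (v - A)]) (Nat.le_ceil _)]
  have e1 := sum_int ψ ψ1 A B hd h0 h1 hB0 hB1 v u ⌈Real.exp (A + v)⌉₊ hM1
  have e2 := int_eq ψ ψ1 A v u hA hd h0 hv ⌈Real.exp (A + v)⌉₊ (Nat.le_ceil _)
  have e3 := J_bound ψ ψ1 ψ2 A B u hA.le hd hd1 hc2 h0 h1 hB0 hB2
  set S : ℂ := ∑ n ∈ Ico 1 ⌈Real.exp (A + v)⌉₊, GG ψ v u n with hS
  have e4 : ‖∫ x in (1 : ℝ)..⌈Real.exp (A + v)⌉₊, GG ψ v u x‖ ≤ 4 * A * B / (1 + u ^ 2) := by
    rw [e2, norm_mul, ph_norm, one_mul]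
    exact e3
  have e5 : ‖S‖ ≤ ‖S - ∫ x in (1 : ℝ)..⌈Real.exp (A + v)⌉₊, GG ψ v u x‖ +
      ‖∫ x in (1 : ℝ)..⌈Real.exp (A + v)⌉₊, GG ψ v u x‖ := by
    have := norm_add_le (S - ∫ x in (1 : ℝ)..⌈Real.exp (A + v)⌉₊, GG ψ v u x)
      (∫ x in (1 : ℝ)..⌈Real.exp (A + v)⌉₊, GG ψ v u x)
    simpa using this
  have hMle : (⌈Real.exp (A + v)⌉₊ : ℝ) ≤ 2 * Real.exp (A + v) := by
    have h1 : (⌈Real.exp (A + v)⌉₊ : ℝ) < Real.exp (A + v) + 1 :=
      Nat.ceil_lt_add_one (Real.exp_pos _).le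
    have h2 : 1 ≤ Real.exp (A + v) := Real.one_le_exp (by linarith)
    linarith
  have hu1 : 1 + |u| ≤ 2 * Real.exp (2 * v / 3) := by
    have : 1 ≤ Real.exp (2 * v / 3) := Real.one_le_exp (by linarith)
    linarith
  have e6 : (⌈Real.exp (A + v)⌉₊ : ℝ) * (2 * B * (1 + |u|) * Real.exp (2 * (A - v))) ≤
      8 * B * Real.exp (3 * A) * Real.exp (-(1 / 3 * v)) := by
    calc (⌈Real.exp (A + v)⌉₊ : ℝ) * (2 * B * (1 + |u|) * Real.exp (2 * (A - v))) ≤
        2 * Real.exp (A + v) * (2 * B * (2 * Real.exp (2 * v / 3)) * Real.exp (2 * (A - v))) := by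
          refine mul_le_mul hMle ?_ (by positivity) (by positivity)
          refine mul_le_mul_of_nonneg_right ?_ (Real.exp_pos _).le
          exact mul_le_mul_of_nonneg_left hu1 (by linarith)
      _ = 8 * B * (Real.exp (A + v) * Real.exp (2 * v / 3) * Real.exp (2 * (A - v))) := by ring
      _ = 8 * B * (Real.exp (3 * A) * Real.exp (-(1 / 3 * v))) := by
          congr 1
          rw [← Real.exp_add, ← Real.exp_add, ← Real.exp_add]
          congr 1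
          ring
      _ = 8 * B * Real.exp (3 * A) * Real.exp (-(1 / 3 * v)) := by ring
  linarith

/-- large frequencies -/
theorem large_u (ψ ψ1 : ℝ → ℝ) (A B : ℝ) (hA : 0 < A)
    (hd : ∀ x, HasDerivAt ψ (ψ1 x) x)
    (h0 : ∀ x, A ≤ |x| → ψ x = 0) (h1 : ∀ x, A ≤ |x| → ψ1 x = 0)
    (hB0 : ∀ x, |ψ x| ≤ B) (hB1 : ∀ x, |ψ1 x| ≤ B)
    (K : ℕ) (c C : ℝ) (hc : 0 < c) (hC : 0 < C) (hc1 : c ≤ 1)
    (h : ∀ (N θ t : ℝ), 1 ≤ N → 0 ≤ θ → θ ≤ 1 →
      N ^ (1 / 2 : ℝ) ≤ |t| → |t| ≤ N ^ ((K + 1 : ℕ) : ℝ) → ∀ m n : ℤ, N ≤ m → (n : ℝ) ≤ 2 * N →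
      ‖∑ j ∈ Finset.Icc m n, ph (t * Real.log ((j : ℝ) + θ))‖ ≤ C * N ^ (1 - c))
    (k : ℕ) (hk : Real.exp (2 * A) ≤ 2 ^ k) (v u : ℝ)
    (hv : A ≤ v) (hvk : 3 * (k : ℝ) ≤ v) (hvK : ((K : ℝ) + 1) * A ≤ v)
    (hu : Real.exp (2 * v / 3) ≤ |u|)
    (hu2 : |u| ≤ Real.exp (K * v)) :
    ‖∑' n : ℕ, ((ψ (Real.log n - v) / n : ℝ) : ℂ) * ph (-(u * Real.log n))‖ ≤
      (2 ^ (2 * k + 2) * B * k * C * Real.exp A) * Real.exp (-(c * v)) := by
  have hB : 0 ≤ B := le_trans (abs_nonneg _) (hB0 0)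
  set N0 : ℝ := Real.exp (v - A) with hN0
  have hN01 : 1 ≤ N0 := Real.one_le_exp (by linarith)
  have h2k : (1 : ℝ) ≤ 2 ^ k := one_le_pow₀ (by norm_num)
  have hkN : 1 ≤ 2 ^ k * N0 := by nlinarith
  have hexp : Real.exp (A + v) ≤ 2 ^ k * N0 := by
    have : Real.exp (A + v) = Real.exp (2 * A) * N0 := by
      rw [hN0, ← Real.exp_add]
      congr 1
      ring
    rw [this]
    exact mul_le_mul_of_nonneg_right hk (by positivity)
  have hkexp : (2 : ℝ) ^ k ≤ Real.exp k := by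
    have : (2 : ℝ) ≤ Real.exp 1 := by
      have := Real.add_one_le_exp (1 : ℝ)
      linarith
    calc (2 : ℝ) ^ k ≤ Real.exp 1 ^ k := pow_le_pow_left₀ (by norm_num) this k
      _ = Real.exp k := by rw [← Real.exp_nat_mul, mul_one]
  have hu1 : (2 ^ k * N0) ^ (1 / 2 : ℝ) ≤ |u| := by
    refine le_trans ?_ hu
    have h3 : 2 ^ k * N0 ≤ Real.exp (4 * v / 3) := by
      calc 2 ^ k * N0 ≤ Real.exp k * N0 := mul_le_mul_of_nonneg_right hkexp (by positivity)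
        _ = Real.exp (k + (v - A)) := by rw [hN0, ← Real.exp_add]
        _ ≤ Real.exp (4 * v / 3) := Real.exp_le_exp.2 (by linarith)
    calc (2 ^ k * N0) ^ (1 / 2 : ℝ) ≤ Real.exp (4 * v / 3) ^ (1 / 2 : ℝ) :=
          Real.rpow_le_rpow (by positivity) h3 (by norm_num)
      _ = Real.exp (2 * v / 3) := by
          rw [← Real.exp_mul]
          congr 1
          ring
  have hu3 : |u| ≤ N0 ^ ((K + 1 : ℕ) : ℝ) := by
    refine le_trans hu2 ?_
    rw [hN0, ← Real.exp_mul]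
    apply Real.exp_le_exp.2
    push_cast
    nlinarith
  set M : ℕ := ⌈2 ^ k * N0⌉₊ with hM
  have hMm : ⌈N0⌉₊ ≤ M := Nat.ceil_mono (by nlinarith)
  have hMexp : Real.exp (A + v) ≤ M := le_trans hexp (Nat.le_ceil _)
  rw [tsum_eq ψ A h0 v u ⌈N0⌉₊ M hA.le (Nat.ceil_lt_add_one (by positivity)) hMexp]
  have hsplit : ∑ n ∈ Ico ⌈N0⌉₊ M, GG ψ v u n =
      ∑ n ∈ Ico ⌈N0⌉₊ M, GG ψ v 0 n * ph (-(u * Real.log n)) := by
    refine Finset.sum_congr rfl fun n _ => ?_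
    unfold GG
    have : ph (-(0 * Real.log n)) = 1 := by
      unfold ph
      simp
    rw [this, mul_one]
  rw [hsplit]
  have hQ0 : 0 ≤ (k : ℝ) * (C * (2 ^ k * N0) ^ (1 - c)) := by positivity
  have hab := abel_bound (fun n => GG ψ v 0 n) (fun n => ph (-(u * Real.log n))) ⌈N0⌉₊ M hMm
    (2 * B * Real.exp (2 * (A - v))) ((k : ℝ) * (C * (2 ^ k * N0) ^ (1 - c)))
    (by positivity) hQ0
    (by
      apply GG_zero ψ A h0
      have hMpos : (0 : ℝ) < M := lt_of_lt_of_le (Real.exp_pos _) hMexp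
      have h3 : A + v ≤ Real.log M := (Real.le_log_iff_exp_le hMpos).2 hMexp
      rw [abs_of_nonneg (by linarith)]
      linarith)
    (by
      intro n hn1 _
      have hnpos : (0 : ℝ) < n := by
        have h4 : N0 ≤ n := Nat.ceil_le.1 hn1
        linarith
      have h5 := GG_lip ψ ψ1 A B hd h0 h1 hB0 hB1 v 0 ((n + 1 : ℕ) : ℝ) n
        (by push_cast; linarith) hnpos
      refine le_trans h5 (le_of_eq ?_)
      push_cast
      rw [abs_zero]
      have : |(n : ℝ) - (n + 1)| = 1 := by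
        rw [show (n : ℝ) - (n + 1) = -1 by ring]
        simp
      rw [this]
      ring)
    (by
      intro n hn
      exact chain_bound (K + 1) c C hC hc1 h N0 u hN01 k hu1 hu3 k le_rfl n hn)
  refine le_trans hab ?_
  have hMle : (M : ℝ) ≤ 2 * (2 ^ k * N0) := by
    have h6 : (M : ℝ) < 2 ^ k * N0 + 1 := Nat.ceil_lt_add_one (by positivity)
    linarith
  have hpow : (2 ^ k * N0) ^ (1 - c) ≤ 2 ^ k * Real.exp ((v - A) * (1 - c)) := by
    rw [Real.mul_rpow (by positivity) (by positivity), hN0, ← Real.exp_mul]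
    refine mul_le_mul_of_nonneg_right ?_ (Real.exp_pos _).le
    calc ((2 : ℝ) ^ k) ^ (1 - c) ≤ ((2 : ℝ) ^ k) ^ (1 : ℝ) :=
          Real.rpow_le_rpow_of_exponent_le h2k (by linarith)
      _ = 2 ^ k := Real.rpow_one _
  calc (M : ℝ) * (2 * B * Real.exp (2 * (A - v)) * ((k : ℝ) * (C * (2 ^ k * N0) ^ (1 - c)))) ≤
      2 * (2 ^ k * N0) * (2 * B * Real.exp (2 * (A - v)) *
        ((k : ℝ) * (C * (2 ^ k * Real.exp ((v - A) * (1 - c)))))) := by
        refine mul_le_mul hMle ?_ (by positivity) (by positivity)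
        refine mul_le_mul_of_nonneg_left ?_ (by positivity)
        refine mul_le_mul_of_nonneg_left ?_ (by positivity)
        exact mul_le_mul_of_nonneg_left hpow hC.le
    _ = (2 ^ (2 * k + 2) * B * k * C) *
        (Real.exp (v - A) * Real.exp (2 * (A - v)) * Real.exp ((v - A) * (1 - c))) := by
        rw [hN0]
        ring
    _ = (2 ^ (2 * k + 2) * B * k * C) * Real.exp (c * A + -(c * v)) := by
        congr 1
        rw [← Real.exp_add, ← Real.exp_add]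
        congr 1
        ring
    _ ≤ (2 ^ (2 * k + 2) * B * k * C) * (Real.exp A * Real.exp (-(c * v))) := by
        refine mul_le_mul_of_nonneg_left ?_ (by positivity)
        rw [← Real.exp_add]
        apply Real.exp_le_exp.2
        nlinarith
    _ = (2 ^ (2 * k + 2) * B * k * C * Real.exp A) * Real.exp (-(c * v)) := by ring

end E19

theorem stSmooth (h : StExpSum) : StSmooth := by
  intro ψ K hψ hcs
  have hψ1 : ContDiff ℝ 1 (deriv ψ) := by
    have h2 : ContDiff ℝ (1 + 1) ψ := by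
      have : (1 + 1 : WithTop ℕ∞) = 2 := by norm_num
      rw [this]
      exact hψ
    exact (contDiff_succ_iff_deriv.1 h2).2.2
  have hdiff : Differentiable ℝ ψ := hψ.differentiable (by norm_num)
  have hdiff1 : Differentiable ℝ (deriv ψ) := hψ1.differentiable (by norm_num)
  have hc2 : Continuous (deriv (deriv ψ)) := hψ1.continuous_deriv le_rfl
  have hd : ∀ x, HasDerivAt ψ (deriv ψ x) x := fun x => (hdiff x).hasDerivAt
  have hd1 : ∀ x, HasDerivAt (deriv ψ) (deriv (deriv ψ) x) x := fun x => (hdiff1 x).hasDerivAt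
  have hcs1 : HasCompactSupport (deriv ψ) := hcs.deriv
  have hcs2 : HasCompactSupport (deriv (deriv ψ)) := hcs1.deriv
  obtain ⟨A0, hA0, hA0'⟩ := hcs.exists_pos_le_norm
  obtain ⟨A1, hA1, hA1'⟩ := hcs1.exists_pos_le_norm
  obtain ⟨B0, hB0⟩ := hψ.continuous.bounded_above_of_compact_support hcs
  obtain ⟨B1, hB1⟩ := hψ1.continuous.bounded_above_of_compact_support hcs1
  obtain ⟨B2, hB2⟩ := hc2.bounded_above_of_compact_support hcs2
  set A : ℝ := max A0 A1 with hAdef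
  set B : ℝ := max 1 (max B0 (max B1 B2)) with hBdef
  have hA : 0 < A := lt_of_lt_of_le hA0 (le_max_left _ _)
  have hB : 0 < B := lt_of_lt_of_le one_pos (le_max_left _ _)
  have h0 : ∀ x, A ≤ |x| → ψ x = 0 := fun x hx =>
    hA0' x (le_trans (le_max_left _ _) hx)
  have h1 : ∀ x, A ≤ |x| → deriv ψ x = 0 := fun x hx =>
    hA1' x (le_trans (le_max_right _ _) hx)
  have b0 : ∀ x, |ψ x| ≤ B := fun x =>
    le_trans (hB0 x) (le_trans (le_max_left _ _) (le_max_right _ _))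
  have b1 : ∀ x, |deriv ψ x| ≤ B := fun x =>
    le_trans (hB1 x) (le_trans (le_trans (le_max_left _ _) (le_max_right _ _)) (le_max_right _ _))
  have b2 : ∀ x, |deriv (deriv ψ) x| ≤ B := fun x =>
    le_trans (hB2 x) (le_trans (le_trans (le_max_right _ _) (le_max_right _ _)) (le_max_right _ _))
  obtain ⟨c0, C0, hc0, hC0, hE⟩ := h (K + 1)
  set c1 : ℝ := min c0 1 with hc1def
  have hc1 : 0 < c1 := lt_min hc0 one_pos
  have hc1' : c1 ≤ 1 := min_le_right _ _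
  have hE' : ∀ (N θ t : ℝ), 1 ≤ N → 0 ≤ θ → θ ≤ 1 →
      N ^ (1 / 2 : ℝ) ≤ |t| → |t| ≤ N ^ ((K + 1 : ℕ) : ℝ) → ∀ m n : ℤ, N ≤ m → (n : ℝ) ≤ 2 * N →
      ‖∑ j ∈ Finset.Icc m n, ph (t * Real.log ((j : ℝ) + θ))‖ ≤ C0 * N ^ (1 - c1) := by
    intro N θ t hN h2 h3 h4 h5 m n h6 h7
    refine le_trans (hE N θ t hN h2 h3 h4 h5 m n h6 h7) ?_
    refine mul_le_mul_of_nonneg_left ?_ hC0.le
    exact Real.rpow_le_rpow_of_exponent_le hN (by linarith [min_le_left c0 1])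
  obtain ⟨k, hk⟩ := pow_unbounded_of_one_lt (Real.exp (2 * A)) (by norm_num : (1 : ℝ) < 2)
  set v0 : ℝ := max A (max (3 * (k : ℝ)) (((K : ℝ) + 1) * A)) with hv0
  set c : ℝ := min c1 (1 / 3) with hcdef
  have hc : 0 < c := lt_min hc1 (by norm_num)
  set C1 : ℝ := 4 * A * B with hC1
  set C2 : ℝ := 8 * B * Real.exp (3 * A) with hC2
  set C3 : ℝ := 2 ^ (2 * k + 2) * B * k * C0 * Real.exp A with hC3
  set C4 : ℝ := 2 * B * Real.exp (2 * A) * Real.exp (c * v0) with hC4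
  have hC1n : 0 ≤ C1 := by positivity
  have hC2n : 0 < C2 := by positivity
  have hC3n : 0 ≤ C3 := by positivity
  have hC4n : 0 ≤ C4 := by positivity
  refine ⟨c, C1 + C2 + C3 + C4, hc, by positivity, ?_⟩
  intro v u hv hu
  have hD : 0 ≤ (C1 + C2 + C3 + C4) / (1 + u ^ 2) := by positivity
  have hexp0 : 0 < Real.exp (-(c * v)) := Real.exp_pos _
  by_cases hvv : v0 ≤ v
  · have hvA : A ≤ v := le_trans (le_max_left _ _) hvv
    have hvk : 3 * (k : ℝ) ≤ v :=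
      le_trans (le_trans (le_max_left _ _) (le_max_right _ _)) hvv
    have hvK : ((K : ℝ) + 1) * A ≤ v :=
      le_trans (le_trans (le_max_right _ _) (le_max_right _ _)) hvv
    by_cases huu : |u| ≤ Real.exp (2 * v / 3)
    · refine le_trans (E19.small_u ψ (deriv ψ) (deriv (deriv ψ)) A B hA hd hd1 hc2 h0 h1 b0 b1 b2
        v u hvA huu) ?_
      have e1 : 4 * A * B / (1 + u ^ 2) ≤ (C1 + C2 + C3 + C4) / (1 + u ^ 2) := by
        refine div_le_div_of_nonneg_right ?_ (by positivity)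
        linarith
      have e2 : Real.exp (-(1 / 3 * v)) ≤ Real.exp (-(c * v)) := by
        apply Real.exp_le_exp.2
        have : c * v ≤ 1 / 3 * v := mul_le_mul_of_nonneg_right (min_le_right _ _) hv
        linarith
      have e3 : C2 * Real.exp (-(1 / 3 * v)) ≤ (C1 + C2 + C3 + C4) * Real.exp (-(c * v)) :=
        mul_le_mul (by linarith) e2 (Real.exp_pos _).le (by linarith)
      linarith
    · refine le_trans (E19.large_u ψ (deriv ψ) A B hA hd h0 h1 b0 b1 K c1 C0 hc1 hC0 hc1' hE' k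
        hk.le v u hvA hvk hvK (not_le.1 huu).le hu) ?_
      have e2 : Real.exp (-(c1 * v)) ≤ Real.exp (-(c * v)) := by
        apply Real.exp_le_exp.2
        have : c * v ≤ c1 * v := mul_le_mul_of_nonneg_right (min_le_left _ _) hv
        linarith
      have e3 : C3 * Real.exp (-(c1 * v)) ≤ (C1 + C2 + C3 + C4) * Real.exp (-(c * v)) :=
        mul_le_mul (by linarith) e2 (Real.exp_pos _).le (by linarith)
      linarith
  · refine le_trans (E19.trivial_bound ψ A B h0 hA.le b0 v u hv) ?_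
    have e1 : 2 * B * Real.exp (2 * A) ≤ C4 * Real.exp (-(c * v)) := by
      rw [hC4, mul_assoc (2 * B * Real.exp (2 * A)), ← Real.exp_add]
      have : 1 ≤ Real.exp (c * v0 + -(c * v)) := by
        apply Real.one_le_exp
        have : c * v ≤ c * v0 := mul_le_mul_of_nonneg_left (not_le.1 hvv).le hc.le
        linarith
      have h3 : 0 ≤ 2 * B * Real.exp (2 * A) := by positivity
      nlinarith
    have e3 : C4 * Real.exp (-(c * v)) ≤ (C1 + C2 + C3 + C4) * Real.exp (-(c * v)) :=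
      mul_le_mul_of_nonneg_right (by linarith) hexp0.le
    linarith

end MRP.E
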