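import Mathlib
import Pool.Agent.Helper6.MR.EDefs2

/-!
# E20a: sums over primes, nonprincipal character, bounded frequencies

PROOF.  `StIntegral` with `a = x`, `b = 1`, `B` from `StSmallT` (constant for `T`): `‖∑ χ(p) p^(-(1+it)) (p^(-x) - p^(-1))‖ ≤ B + 4`, and `‖∑ χ(p) p^(-(1+it)) p^(-1)‖ ≤ ∑ p^(-2) ≤ 2`.
`p^(-(1+x+it)) = p^(-(1+it)) p^(-x)`; all series converge absolutely.
-/

set_option autoImplicit false

namespace MRP.E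

open Finset Complex DirichletCharacter

theorem stPrimeSmall1 (hI : StIntegral) (hS : StSmallT) : StPrimeSmall1 := by
  intro q hq χ T hχ
  obtain ⟨B, hB0, hB⟩ := hS q χ T hχ
  have hS2 : Summable (fun p : Nat.Primes => (((p : ℕ) : ℝ)) ^ (-2 : ℝ)) :=
    Nat.Primes.summable_rpow.mpr (by norm_num)
  have hS2nn : 0 ≤ ∑' p : Nat.Primes, (((p : ℕ) : ℝ)) ^ (-2 : ℝ) :=
    tsum_nonneg fun p => Real.rpow_nonneg (Nat.cast_nonneg _) _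
  refine ⟨B + 4 + ∑' p : Nat.Primes, (((p : ℕ) : ℝ)) ^ (-2 : ℝ), by positivity, ?_⟩
  intro x t hx hx1 ht
  have hint := hI q χ t x 1 B hx hx1 le_rfl hB0.le (by
    intro η hη1 hη2
    exact hB η t (lt_of_lt_of_le hx hη1) hη2 ht)
  set F : Nat.Primes → ℂ := fun p =>
    χ ((p : ℕ) : ZMod q) * ((p : ℕ) : ℂ) ^ (-(1 + x + Complex.I * t)) with hF
  set G : Nat.Primes → ℂ := fun p =>
    χ ((p : ℕ) : ZMod q) * ((p : ℕ) : ℂ) ^ (-(1 + (t : ℂ) * Complex.I)) *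
      (((((p : ℕ) : ℝ) ^ (-1 : ℝ) : ℝ)) : ℂ) with hG
  have hFn : ∀ p, ‖F p‖ ≤ ((p : ℕ) : ℝ) ^ (-(1 + x)) := by
    intro p
    have h1 : ‖((p : ℕ) : ℂ) ^ (-(1 + (x : ℂ) + Complex.I * t))‖ = ((p : ℕ) : ℝ) ^ (-(1 + x)) := by
      rw [Complex.norm_natCast_cpow_of_pos p.2.pos]
      congr 1
      simp
    simp only [hF, norm_mul]
    rw [h1]
    calc ‖χ ((p : ℕ) : ZMod q)‖ * ((p : ℕ) : ℝ) ^ (-(1 + x)) ≤ 1 * ((p : ℕ) : ℝ) ^ (-(1 + x)) :=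
          mul_le_mul_of_nonneg_right (χ.norm_le_one _) (Real.rpow_nonneg (Nat.cast_nonneg _) _)
      _ = ((p : ℕ) : ℝ) ^ (-(1 + x)) := one_mul _
  have hGn : ∀ p, ‖G p‖ ≤ ((p : ℕ) : ℝ) ^ (-2 : ℝ) := by
    intro p
    have hp : (0 : ℝ) < ((p : ℕ) : ℝ) := Nat.cast_pos.mpr p.2.pos
    have h1 : ‖((p : ℕ) : ℂ) ^ (-(1 + (t : ℂ) * Complex.I))‖ = ((p : ℕ) : ℝ) ^ (-1 : ℝ) := by
      rw [Complex.norm_natCast_cpow_of_pos p.2.pos]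
      congr 1
      simp
    have h2 : ‖(((((p : ℕ) : ℝ) ^ (-1 : ℝ) : ℝ)) : ℂ)‖ = ((p : ℕ) : ℝ) ^ (-1 : ℝ) := by
      rw [Complex.norm_real, Real.norm_of_nonneg (Real.rpow_nonneg hp.le _)]
    simp only [hG, norm_mul]
    rw [h1, h2]
    have h3 : ((p : ℕ) : ℝ) ^ (-2 : ℝ) = ((p : ℕ) : ℝ) ^ (-1 : ℝ) * ((p : ℕ) : ℝ) ^ (-1 : ℝ) := by
      rw [← Real.rpow_add hp]
      norm_num
    rw [h3, mul_assoc]
    calc ‖χ ((p : ℕ) : ZMod q)‖ * (((p : ℕ) : ℝ) ^ (-1 : ℝ) * ((p : ℕ) : ℝ) ^ (-1 : ℝ)) ≤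
          1 * (((p : ℕ) : ℝ) ^ (-1 : ℝ) * ((p : ℕ) : ℝ) ^ (-1 : ℝ)) :=
          mul_le_mul_of_nonneg_right (χ.norm_le_one _)
            (mul_nonneg (Real.rpow_nonneg hp.le _) (Real.rpow_nonneg hp.le _))
      _ = _ := one_mul _
  have hFs : Summable F := by
    apply Summable.of_norm_bounded (Nat.Primes.summable_rpow.mpr (by linarith)) hFn
  have hGs : Summable G := Summable.of_norm_bounded hS2 hGn
  have hA : ∑' p : Nat.Primes, χ ((p : ℕ) : ZMod q) *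
      ((p : ℕ) : ℂ) ^ (-(1 + (t : ℂ) * Complex.I)) *
      ((((p : ℕ) : ℝ) ^ (-x) - ((p : ℕ) : ℝ) ^ (-(1 : ℝ)) : ℝ) : ℂ) =
      ∑' p, F p - ∑' p, G p := by
    rw [← hFs.tsum_sub hGs]
    apply tsum_congr
    intro p
    have hp0 : ((p : ℕ) : ℂ) ≠ 0 := Nat.cast_ne_zero.mpr p.2.ne_zero
    have h1 : ((((p : ℕ) : ℝ) ^ (-x) : ℝ) : ℂ) = ((p : ℕ) : ℂ) ^ (-(x : ℂ)) := by
      rw [Complex.ofReal_cpow (Nat.cast_nonneg _)]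
      push_cast
      rfl
    have h2 : ((p : ℕ) : ℂ) ^ (-(1 + (x : ℂ) + Complex.I * t)) =
        ((p : ℕ) : ℂ) ^ (-(1 + (t : ℂ) * Complex.I)) * ((p : ℕ) : ℂ) ^ (-(x : ℂ)) := by
      rw [← Complex.cpow_add _ _ hp0]
      congr 1
      ring
    simp only [hF, hG]
    rw [h2, Complex.ofReal_sub, h1]
    ring
  rw [hA] at hint
  have hGt : ‖∑' p, G p‖ ≤ ∑' p : Nat.Primes, (((p : ℕ) : ℝ)) ^ (-2 : ℝ) :=
    tsum_of_norm_bounded hS2.hasSum hGn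
  have hfin : ‖∑' p, F p‖ ≤ ‖∑' p, F p - ∑' p, G p‖ + ‖∑' p, G p‖ := by
    have := norm_add_le (∑' p, F p - ∑' p, G p) (∑' p, G p)
    rwa [sub_add_cancel] at this
  have hB1 : (1 - x) * B ≤ B := by nlinarith
  linarith

end MRP.E
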