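import Mathlib
import Pool.Agent.Helper6.MR.EDefs2
import Pool.Agent.Helper16.SW.ZCompact

/-!
# E20b: sums over primes, bounded frequencies, principal character

PROOF.  Let `f n = Λ(n)/log n` (`0` for `n ≤ 1`), `T(s) = LSeries f s` (`= log ζ(s)`), `T'(s) = ζ'/ζ(s)` for `Re s > 1`.  `ζ'/ζ(s) + 1/(s-1)` is continuous, hence bounded by some `B`, on the compact set
`{1 ≤ Re s ≤ 2, |Im s| ≤ T}` (in `Pool/Agent/Helper16/SW/ZCompact.lean`: `riemannZeta₁`, `zeta1_ne_zero`, `gZ_analytic`: the function `(s-1) ζ(s)` extends to an entire function without zeros in `Re s ≥ 1`; its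
logarithmic derivative is `ζ'/ζ(s) + 1/(s-1)`).  Hence `‖T(1+x+it) - T(2+it)‖ ≤ B + ‖∫_x^1 dη/(η+it)‖ = B + ‖log(1+it) - log(x+it)‖` (principal logarithm on `Re > 0`), and
`‖log(x+it)‖ ≤ |log ‖x+it‖| + π/2`, `|log ‖x+it‖| ≤ log(1 + 1/‖x+it‖) + log(1 + T + 1)`, `‖log(1+it)‖ ≤ log(1+T) + 2`, `‖T(2+it)‖ ≤ ∑ Λ(n)/(n^2 log n) ≤ 2`.  The prime powers contribute `≤ 1`.
-/

set_option autoImplicit false

namespace MRP.E

open Finset Complex DirichletCharacter

/-- the coefficients `Λ(n)/log n` of `log ζ` -/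
noncomputable def e20b_f (n : ℕ) : ℂ := ((ArithmeticFunction.vonMangoldt n / Real.log n : ℝ) : ℂ)

theorem e20b_f_norm (n : ℕ) (_ : n ≠ 0) : ‖e20b_f n‖ ≤ 1 := by
  unfold e20b_f
  rw [Complex.norm_real, Real.norm_eq_abs, abs_div]
  have h1 : (0 : ℝ) ≤ Real.log n := Real.log_natCast_nonneg n
  have h2 := @ArithmeticFunction.vonMangoldt_nonneg n
  rw [abs_of_nonneg h1, abs_of_nonneg h2]
  exact div_le_one_of_le₀ ArithmeticFunction.vonMangoldt_le_log h1

theorem e20b_f_le (n : ℕ) : ‖e20b_f n‖ ≤ (Real.log 2)⁻¹ * ArithmeticFunction.vonMangoldt n := by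
  unfold e20b_f
  rw [Complex.norm_real, Real.norm_eq_abs, abs_div]
  have h1 : (0 : ℝ) ≤ Real.log n := Real.log_natCast_nonneg n
  have h2 := @ArithmeticFunction.vonMangoldt_nonneg n
  rw [abs_of_nonneg h1, abs_of_nonneg h2]
  rcases Nat.lt_or_ge n 2 with hn | hn
  · interval_cases n
    · simp
    · simp
  · have h3 : Real.log 2 ≤ Real.log n :=
      Real.log_le_log (by norm_num) (by exact_mod_cast hn)
    have h4 : 0 < Real.log 2 := Real.log_pos (by norm_num)
    rw [div_eq_inv_mul]
    exact mul_le_mul_of_nonneg_right (inv_anti₀ h4 h3) h2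

theorem e20b_f_prime (p : ℕ) (hp : p.Prime) : e20b_f p = 1 := by
  unfold e20b_f
  rw [ArithmeticFunction.vonMangoldt_apply_prime hp, div_self]
  · simp
  · exact (Real.log_pos (by exact_mod_cast hp.one_lt)).ne'

theorem e20b_deriv (s : ℂ) (hs : 1 < s.re) :
    HasDerivAt (LSeries e20b_f) (deriv riemannZeta s / riemannZeta s) s := by
  have h1 : LSeries.abscissaOfAbsConv e20b_f < s.re := by
    refine lt_of_le_of_lt (LSeries.abscissaOfAbsConv_le_of_le_const ⟨1, e20b_f_norm⟩) ?_
    exact_mod_cast hs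
  have h2 := LSeries_hasDerivAt h1
  have h3 : LSeries (LSeries.logMul e20b_f) s
      = LSeries (fun n => ((ArithmeticFunction.vonMangoldt n : ℝ) : ℂ)) s := by
    refine LSeries_congr (fun {n} hn => ?_) s
    unfold LSeries.logMul e20b_f
    rw [← Complex.natCast_log]
    rcases eq_or_ne n 1 with rfl | h
    · simp
    · have h4 : Real.log n ≠ 0 := by
        refine (Real.log_pos ?_).ne'
        have : 2 ≤ n := by omega
        exact_mod_cast this
      have h4' : (Real.log n : ℂ) ≠ 0 := by exact_mod_cast h4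
      rw [Complex.ofReal_div]
      field_simp
  rw [h3, ArithmeticFunction.LSeries_vonMangoldt_eq_deriv_riemannZeta_div hs] at h2
  convert h2 using 1
  ring

/-- the prime powers contribute a bounded amount -/
theorem e20b_powers : ∃ C : ℝ, 0 ≤ C ∧ ∀ s : ℂ, 1 < s.re →
    ‖∑' p : Nat.Primes, ((p : ℕ) : ℂ) ^ (-s)‖ ≤ ‖LSeries e20b_f s‖ + C := by
  have hs0 := ArithmeticFunction.vonMangoldt.summable_residueClass_non_primes_div (0 : ZMod 1)
  have hs1 : Summable (fun n : ℕ => (if n.Prime then 0 else ArithmeticFunction.vonMangoldt n) / (n : ℝ)) := by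
    refine hs0.congr (fun n => ?_)
    have : ArithmeticFunction.vonMangoldt.residueClass (0 : ZMod 1) n
        = ArithmeticFunction.vonMangoldt n := by
      unfold ArithmeticFunction.vonMangoldt.residueClass
      rw [Set.indicator_of_mem]
      exact Subsingleton.elim _ _
    rw [this]
  have hs2 := hs1.mul_left (Real.log 2)⁻¹
  refine ⟨∑' n : ℕ, (Real.log 2)⁻¹ * ((if n.Prime then 0 else ArithmeticFunction.vonMangoldt n) / (n : ℝ)), ?_, ?_⟩
  · refine tsum_nonneg (fun n => ?_)
    have h4 : 0 < Real.log 2 := Real.log_pos (by norm_num)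
    have h5 := @ArithmeticFunction.vonMangoldt_nonneg n
    refine mul_nonneg (inv_nonneg.2 h4.le) (div_nonneg ?_ (Nat.cast_nonneg n))
    split_ifs
    · exact le_rfl
    · exact h5
  intro s hs
  have hsum : LSeriesSummable e20b_f s := LSeriesSummable_of_bounded_of_one_lt_re e20b_f_norm hs
  set r : ℕ → ℂ := fun n => if n.Prime then 0 else LSeries.term e20b_f s n with hr
  have hrb : ∀ n, ‖r n‖ ≤ (Real.log 2)⁻¹ * ((if n.Prime then 0 else ArithmeticFunction.vonMangoldt n) / (n : ℝ)) := by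
    intro n
    simp only [hr]
    by_cases hp : n.Prime
    · simp [hp]
    · simp only [hp, if_false]
      rw [LSeries.norm_term_eq]
      rcases eq_or_ne n 0 with rfl | hn
      · simp
      · simp only [hn, if_false]
        rw [← mul_div_assoc]
        have hn1 : (1 : ℝ) ≤ n := by exact_mod_cast Nat.one_le_iff_ne_zero.2 hn
        have h6 : (n : ℝ) ≤ (n : ℝ) ^ s.re := by
          calc (n : ℝ) = (n : ℝ) ^ (1 : ℝ) := (Real.rpow_one _).symm
            _ ≤ _ := Real.rpow_le_rpow_of_exponent_le hn1 hs.le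
        have h7 := e20b_f_le n
        have h8 : 0 ≤ (Real.log 2)⁻¹ * ArithmeticFunction.vonMangoldt n :=
          (norm_nonneg _).trans h7
        calc ‖e20b_f n‖ / (n : ℝ) ^ s.re ≤ ((Real.log 2)⁻¹ * ArithmeticFunction.vonMangoldt n) / (n : ℝ) ^ s.re :=
              div_le_div_of_nonneg_right h7 (by positivity)
          _ ≤ _ := div_le_div_of_nonneg_left h8 (by linarith) h6
  have hrs : Summable r := Summable.of_norm_bounded hs2 hrb
  have e1 : ∑' p : Nat.Primes, ((p : ℕ) : ℂ) ^ (-s) = ∑' n : ℕ, (LSeries.term e20b_f s n - r n) := by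
    have := tsum_subtype {p : ℕ | p.Prime} (fun n : ℕ => (n : ℂ) ^ (-s))
    have e2 : ∑' p : Nat.Primes, ((p : ℕ) : ℂ) ^ (-s)
        = ∑' n : ℕ, {p : ℕ | p.Prime}.indicator (fun n : ℕ => (n : ℂ) ^ (-s)) n := this
    rw [e2]
    refine tsum_congr (fun n => ?_)
    by_cases hp : n.Prime
    · rw [Set.indicator_of_mem (by exact hp)]
      simp only [hr, hp, if_true, sub_zero]
      rw [LSeries.term_of_ne_zero hp.ne_zero, e20b_f_prime n hp, Complex.cpow_neg]
      simp
    · rw [Set.indicator_of_notMem (by exact hp)]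
      simp [hr, hp]
  rw [e1, Summable.tsum_sub hsum hrs]
  refine (norm_sub_le _ _).trans ?_
  refine add_le_add le_rfl ?_
  calc ‖∑' n, r n‖ ≤ ∑' n, ‖r n‖ := norm_tsum_le_tsum_norm hrs.norm
    _ ≤ _ := Summable.tsum_le_tsum hrb hrs.norm hs2

/-- size of the logarithm -/
theorem e20b_log (z : ℂ) (hz : z ≠ 0) : ‖Complex.log z‖ ≤ Real.log (1 + 1 / ‖z‖) + ‖z‖ + Real.pi := by
  have h0 : 0 < ‖z‖ := norm_pos_iff.2 hz
  have h1 := Complex.norm_le_abs_re_add_abs_im (Complex.log z)
  rw [Complex.log_re, Complex.log_im] at h1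
  have h2 := Complex.abs_arg_le_pi z
  have h3 : |Real.log ‖z‖| ≤ Real.log (1 + 1 / ‖z‖) + ‖z‖ := by
    have h5 : 0 ≤ Real.log (1 + 1 / ‖z‖) := Real.log_nonneg (by
      have : 0 < 1 / ‖z‖ := by positivity
      linarith)
    rw [abs_le]
    constructor
    · have : Real.log (1 / ‖z‖) ≤ Real.log (1 + 1 / ‖z‖) :=
        Real.log_le_log (by positivity) (by linarith)
      rw [one_div, Real.log_inv] at this
      rw [one_div] at *
      linarith
    · have := Real.log_le_sub_one_of_pos h0
      linarith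
  linarith

theorem stPrimeSmall0 : StPrimeSmall0 := by
  intro T
  obtain ⟨C₁, hC₁0, hC₁⟩ := e20b_powers
  -- bound for the logarithmic derivative
  set K : Set ℂ := Set.Icc (1 : ℝ) 2 ×ℂ Set.Icc (-|T|) |T| with hK
  have hKc : IsCompact K := by
    rw [hK]
    exact isCompact_Icc.reProdIm isCompact_Icc
  have hKU : ∀ s ∈ K, riemannZeta₁ s ≠ 0 := by
    intro s hs
    exact Pool.Agent.Helper16.SW.zeta1_ne_zero hs.1.1
  have hcont : ContinuousOn (fun s => deriv riemannZeta₁ s / riemannZeta₁ s) K := by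
    refine ContinuousOn.div ?_ ?_ hKU
    · exact differentiable_riemannZeta₁.deriv.continuous.continuousOn
    · exact differentiable_riemannZeta₁.continuous.continuousOn
  obtain ⟨B, hB⟩ := hKc.exists_bound_of_continuousOn hcont
  -- bound at `2 + it`
  set A : ℝ := ∑' n : ℕ, ‖LSeries.term e20b_f 2 n‖ with hA
  have hA0 : 0 ≤ A := tsum_nonneg (fun _ => norm_nonneg _)
  have hA2 : ∀ t : ℝ, ‖LSeries e20b_f (2 + Complex.I * t)‖ ≤ A := by
    intro t
    have hs2 : LSeriesSummable e20b_f (2 + Complex.I * t) :=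
      LSeriesSummable_of_bounded_of_one_lt_re e20b_f_norm (by simp)
    refine (norm_tsum_le_tsum_norm hs2.norm).trans (le_of_eq ?_)
    refine tsum_congr (fun n => ?_)
    rw [LSeries.norm_term_eq, LSeries.norm_term_eq]
    simp
  refine ⟨C₁ + A + |B| + (Real.log 2 + (1 + |T|) + Real.pi) + ((1 + |T|) + Real.pi) + 1, by
    have := Real.pi_pos
    have h4 : 0 < Real.log 2 := Real.log_pos (by norm_num)
    positivity, ?_⟩
  intro x t hx0 hx1 ht
  have htT : |t| ≤ |T| := ht.trans (le_abs_self T)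
  have e0 : ((1 : ℂ) + x + Complex.I * t) = 1 + ((x : ℂ) + Complex.I * t) := by ring
  have hre : 1 < ((1 : ℂ) + x + Complex.I * t).re := by simp [hx0]
  have h1 := hC₁ _ hre
  -- the comparison function
  set G : ℝ → ℂ := fun y => LSeries e20b_f (1 + y + Complex.I * t) + Complex.log ((y : ℂ) + Complex.I * t) with hG
  have hGd : ∀ y ∈ Set.Icc x 1, HasDerivWithinAt G
      (deriv riemannZeta₁ (1 + y + Complex.I * t) / riemannZeta₁ (1 + y + Complex.I * t)) (Set.Icc x 1) y := by
    intro y hy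
    have hy0 : 0 < y := hx0.trans_le hy.1
    have hrey : 1 < ((1 : ℂ) + y + Complex.I * t).re := by simp [hy0]
    have d1 : HasDerivAt (fun y : ℝ => (1 : ℂ) + y + Complex.I * t) 1 y := by
      have := ((Complex.ofRealCLM.hasDerivAt (x := y)).const_add (1 : ℂ)).add_const (Complex.I * t)
      simpa using this
    have d2 : HasDerivAt (fun y : ℝ => (y : ℂ) + Complex.I * t) 1 y := by
      have := (Complex.ofRealCLM.hasDerivAt (x := y)).add_const (Complex.I * t)
      simpa using this
    have d3 := (e20b_deriv _ hrey).comp y d1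
    have hslit : ((y : ℂ) + Complex.I * t) ∈ Complex.slitPlane := by
      left
      simp [hy0]
    have d4 := (Complex.hasDerivAt_log hslit).comp y d2
    have d5 := d3.add d4
    have d6 : HasDerivAt G (deriv riemannZeta₁ (1 + y + Complex.I * t) / riemannZeta₁ (1 + y + Complex.I * t)) y := by
      refine d5.congr_deriv ?_
      have hs1 : ((1 : ℂ) + y + Complex.I * t) ≠ 1 := by
        intro h
        have := congrArg Complex.re h
        simp at this
        linarith
      have e1 := riemannZeta_eq_inv_sub_mul hs1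
      have e2 := deriv_riemannZeta_eq_neg_inv_sub_sq_mul_add hs1
      have hz := Pool.Agent.Helper16.SW.zeta1_ne_zero hrey.le
      have e3 : (1 : ℂ) + y + Complex.I * t - 1 = y + Complex.I * t := by ring
      have hyc : (y : ℂ) + Complex.I * t ≠ 0 := Complex.slitPlane_ne_zero hslit
      rw [e3] at e1 e2
      rw [e2, e1]
      field_simp
      ring
    exact d6.hasDerivWithinAt
  have hGb : ∀ y ∈ Set.Icc x 1, ‖deriv riemannZeta₁ (1 + y + Complex.I * t) / riemannZeta₁ (1 + y + Complex.I * t)‖ ≤ |B| := by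
    intro y hy
    refine (hB _ ?_).trans (le_abs_self B)
    refine ⟨?_, ?_⟩
    · show ((1 : ℂ) + y + Complex.I * t).re ∈ Set.Icc (1 : ℝ) 2
      have : ((1 : ℂ) + y + Complex.I * t).re = 1 + y := by simp
      rw [this]
      exact ⟨by linarith [hy.1], by linarith [hy.2]⟩
    · show ((1 : ℂ) + y + Complex.I * t).im ∈ Set.Icc (-|T|) |T|
      have : ((1 : ℂ) + y + Complex.I * t).im = t := by simp
      rw [this]
      exact abs_le.1 htT
  have h2 := (convex_Icc x 1).norm_image_sub_le_of_norm_hasDerivWithin_le hGd hGb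
    (Set.right_mem_Icc.2 hx1) (Set.left_mem_Icc.2 hx1)
  have h3 : ‖x - 1‖ ≤ 1 := by
    rw [Real.norm_eq_abs, abs_le]
    constructor <;> linarith
  have h4 : ‖G x - G 1‖ ≤ |B| := h2.trans (by
    have := mul_le_mul_of_nonneg_left h3 (abs_nonneg B)
    linarith)
  have hxz : (x : ℂ) + Complex.I * t ≠ 0 := by
    intro h
    have := congrArg Complex.re h
    simp at this
    linarith
  have h1z : ((1 : ℝ) : ℂ) + Complex.I * t ≠ 0 := by
    intro h
    have := congrArg Complex.re h
    simp at this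
  have h5 := e20b_log _ hxz
  have h6 := e20b_log _ h1z
  have h7 : ‖(x : ℂ) + Complex.I * t‖ ≤ 1 + |T| := by
    refine (norm_add_le _ _).trans ?_
    rw [norm_mul, Complex.norm_I, one_mul, Complex.norm_real, Complex.norm_real, Real.norm_eq_abs,
      Real.norm_eq_abs, abs_of_pos hx0]
    linarith
  have h8 : ‖((1 : ℝ) : ℂ) + Complex.I * t‖ ≤ 1 + |T| := by
    refine (norm_add_le _ _).trans ?_
    rw [norm_mul, Complex.norm_I, one_mul, Complex.norm_real, Complex.norm_real, Real.norm_eq_abs,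
      Real.norm_eq_abs, abs_of_pos one_pos]
    linarith
  have h9 : Real.log (1 + 1 / ‖((1 : ℝ) : ℂ) + Complex.I * t‖) ≤ Real.log 2 := by
    have h10 : (1 : ℝ) ≤ ‖((1 : ℝ) : ℂ) + Complex.I * t‖ := by
      have := Complex.abs_re_le_norm (((1 : ℝ) : ℂ) + Complex.I * t)
      simpa using this
    refine Real.log_le_log (by positivity) ?_
    have : 1 / ‖((1 : ℝ) : ℂ) + Complex.I * t‖ ≤ 1 := by
      rw [div_le_one (by linarith)]
      exact h10
    linarith
  have h11 : ‖LSeries e20b_f (1 + x + Complex.I * t)‖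
      ≤ ‖G x - G 1‖ + ‖LSeries e20b_f (2 + Complex.I * t)‖ + ‖Complex.log (((1 : ℝ) : ℂ) + Complex.I * t)‖
        + ‖Complex.log ((x : ℂ) + Complex.I * t)‖ := by
    have e5 : LSeries e20b_f (1 + x + Complex.I * t)
        = (G x - G 1) + LSeries e20b_f (2 + Complex.I * t) + Complex.log (((1 : ℝ) : ℂ) + Complex.I * t)
          - Complex.log ((x : ℂ) + Complex.I * t) := by
      simp only [hG]
      have e6 : (1 : ℂ) + ((1 : ℝ) : ℂ) + Complex.I * t = 2 + Complex.I * t := by
        push_cast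
        ring
      rw [e6]
      ring
    rw [e5]
    refine (norm_sub_le _ _).trans ?_
    refine add_le_add ?_ le_rfl
    exact norm_add₃_le
  have h12 := hA2 t
  linarith

end MRP.E
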