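import Mathlib
import Pool.Agent.Helper6.MR.EDefs2

/-!
# E21: the shape of the smooth sum bound used in block D

PROOF.  Put `ψ₁ x = exp x * ψ x`; it is `C²` with compact support (contained in `[-2, 4]`).  For `n ≥ 1`:
`ψ (log n - v) = exp v * (ψ₁ (log n - v) / n)`, because `exp (log n - v) = n / exp v`; and `(n:ℂ)^(-(u:ℂ) I) = ph (-(u log n))`.
If `n > N ≥ exp (v+4)` or `n = 0` the term of `StSmooth` vanishes, so the sum over `Icc 1 N` is `exp v` times the `tsum` (`tsum_eq_sum`).  Apply `StSmooth ψ₁ 2`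
(`|u| ≤ exp (3v/2) ≤ exp (2v)`); `exp v * (C/(1+u^2) + C exp(-cv)) = C (exp v/(1+u^2) + exp ((1-c) v))`.  Replace `c` by `min c (1/2)`.
-/

set_option autoImplicit false

namespace MRP.E

open Finset Complex DirichletCharacter

theorem smooth_shape (h : StSmooth) (ψ : ℝ → ℝ) (hψ : ContDiff ℝ 2 ψ) (h1 : ∀ x, x ≤ -2 → ψ x = 0)
    (h2 : ∀ x, 4 ≤ x → ψ x = 0) :
    ∃ C c : ℝ, 0 < C ∧ 0 < c ∧ c < 1 ∧ ∀ v : ℝ, 0 ≤ v → ∀ u : ℝ, |u| ≤ Real.exp (3 * v / 2) →
      ∀ N : ℕ, Real.exp (v + 4) ≤ N →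
        ‖∑ n ∈ Finset.Icc 1 N, ((ψ (Real.log n - v) : ℝ) : ℂ) * (n : ℂ) ^ (-(u : ℂ) * Complex.I)‖ ≤
          C * (Real.exp v / (1 + u ^ 2) + Real.exp ((1 - c) * v)) := by
  have hcs : HasCompactSupport (fun x => Real.exp x * ψ x) := by
    refine HasCompactSupport.of_support_subset_isCompact (isCompact_Icc (a := (-2 : ℝ)) (b := 4)) ?_
    intro x hx
    rw [Function.mem_support] at hx
    by_contra hx'
    apply hx
    rw [Set.mem_Icc, not_and_or, not_le, not_le] at hx'
    rcases hx' with h' | h'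
    · rw [h1 x h'.le, mul_zero]
    · rw [h2 x h'.le, mul_zero]
  obtain ⟨c, C, hc, hC, H⟩ := h (fun x => Real.exp x * ψ x) 2 (Real.contDiff_exp.mul hψ) hcs
  refine ⟨C, min c (1 / 2), hC, lt_min hc (by norm_num), (min_le_right _ _).trans_lt (by norm_num),
    fun v hv u hu N hN => ?_⟩
  have hu' : |u| ≤ Real.exp ((2 : ℕ) * v) := by
    refine hu.trans (Real.exp_le_exp.2 ?_)
    push_cast
    linarith
  have hmain := H v u hv hu'
  have hN0 : (0 : ℝ) < N := (Real.exp_pos _).trans_le hN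
  have hsum : ∑' n : ℕ, ((Real.exp (Real.log n - v) * ψ (Real.log n - v) / n : ℝ) : ℂ) *
      ph (-(u * Real.log n)) = ∑ n ∈ Finset.Icc 1 N,
        ((Real.exp (Real.log n - v) * ψ (Real.log n - v) / n : ℝ) : ℂ) *
          ph (-(u * Real.log n)) := by
    refine tsum_eq_sum fun n hn => ?_
    rw [Finset.mem_Icc, not_and_or, not_le, not_le] at hn
    rcases hn with hn | hn
    · obtain rfl : n = 0 := by omega
      simp
    · have h3 : 4 ≤ Real.log n - v := by
        have h4 : Real.exp (v + 4) ≤ n := hN.trans (by exact_mod_cast hn.le)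
        have h5 := Real.log_le_log (Real.exp_pos _) h4
        rw [Real.log_exp] at h5
        linarith
      rw [h2 _ h3]
      simp
  have hterm : ∑ n ∈ Finset.Icc 1 N,
      ((ψ (Real.log n - v) : ℝ) : ℂ) * (n : ℂ) ^ (-(u : ℂ) * Complex.I) =
      (Real.exp v : ℂ) * ∑ n ∈ Finset.Icc 1 N,
        ((Real.exp (Real.log n - v) * ψ (Real.log n - v) / n : ℝ) : ℂ) *
          ph (-(u * Real.log n)) := by
    rw [Finset.mul_sum]
    refine Finset.sum_congr rfl fun n hn => ?_
    have hn1 : 1 ≤ n := (Finset.mem_Icc.1 hn).1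
    have hn0 : (0 : ℝ) < n := by exact_mod_cast hn1
    have e1 : (n : ℂ) ^ (-(u : ℂ) * Complex.I) = ph (-(u * Real.log n)) := by
      rw [ph, Complex.cpow_def_of_ne_zero (by exact_mod_cast hn0.ne'), ← Complex.natCast_log]
      congr 1
      push_cast
      ring
    have e2 : Real.exp v * (Real.exp (Real.log n - v) * ψ (Real.log n - v) / n) =
        ψ (Real.log n - v) := by
      rw [Real.exp_sub, Real.exp_log hn0]
      have := (Real.exp_pos v).ne'
      field_simp
    rw [e1, ← mul_assoc, ← Complex.ofReal_mul, e2]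
  rw [hterm, norm_mul, Complex.norm_real, Real.norm_eq_abs, abs_of_pos (Real.exp_pos _), ← hsum]
  calc Real.exp v * _ ≤ Real.exp v * (C / (1 + u ^ 2) + C * Real.exp (-(c * v))) :=
        mul_le_mul_of_nonneg_left hmain (Real.exp_pos _).le
    _ = C * (Real.exp v / (1 + u ^ 2) + Real.exp ((1 - c) * v)) := by
        rw [show (1 - c) * v = v + -(c * v) by ring, Real.exp_add]
        ring
    _ ≤ C * (Real.exp v / (1 + u ^ 2) + Real.exp ((1 - min c (1 / 2)) * v)) := by
        apply mul_le_mul_of_nonneg_left _ hC.le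
        apply add_le_add le_rfl
        apply Real.exp_le_exp.2
        apply mul_le_mul_of_nonneg_right _ hv
        linarith [min_le_left c (1 / 2)]

end MRP.E
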