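import Mathlib
import Pool.Agent.Helper6.MR.E01
import Pool.Agent.Helper6.MR.E03
import Pool.Agent.Helper6.MR.E04
import Pool.Agent.Helper6.MR.E05
import Pool.Agent.Helper6.MR.E06
import Pool.Agent.Helper6.MR.E07
import Pool.Agent.Helper6.MR.E08
import Pool.Agent.Helper6.MR.E09
import Pool.Agent.Helper6.MR.E10
import Pool.Agent.Helper6.MR.E11
import Pool.Agent.Helper6.MR.E12a
import Pool.Agent.Helper6.MR.E12b
import Pool.Agent.Helper6.MR.E13
import Pool.Agent.Helper6.MR.E15
import Pool.Agent.Helper6.MR.E16
import Pool.Agent.Helper6.MR.E17
import Pool.Agent.Helper6.MR.E18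
import Pool.Agent.Helper6.MR.E19
import Pool.Agent.Helper6.MR.E20a
import Pool.Agent.Helper6.MR.E20b
import Pool.Agent.Helper6.MR.E21

/-! Block E put together: exponential sums, bounded sums over primes, smooth sums. -/

set_option autoImplicit false

namespace MRP.E

theorem order_all : ∀ k : ℕ, 2 ≤ k → StOrder k := by
  intro k hk
  induction k, hk using Nat.le_induction with
  | base => exact stOrder_two stFirst stDiff
  | succ k hk ih => exact stOrder_succ stDiff k hk ih

theorem expSum : StExpSum := stExpSum order_all

theorem charSum : StCharSum := stCharSum expSum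

theorem growth : StGrowth := stGrowth (stPoly charSum)

theorem landau : StLandau := stLandau growth (stLocal stBorel) stThree stTriv

/-- PRIME1 holds. -/
theorem prime1_holds : MRP.PRIME1 := prime1 landau stIntegral stCompare stSmallT

theorem smooth : StSmooth := stSmooth expSum

theorem primeSmall1 : StPrimeSmall1 := stPrimeSmall1 stIntegral stSmallT

theorem primeSmall0 : StPrimeSmall0 := stPrimeSmall0

end MRP.E
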