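import Mathlib
import Pool.Agent.Helper6.MR.Iface
import Pool.Agent.Helper6.MR.EDefs2

/-!
# Project MR, block U: large values (single scale)

`FF φ g N w t = ∑_{n ≤ N} g(n) φ(log n - w) n^{-1-it}`.  The main statement `StUMain` bounds the
mean square of `FF` with `g(n) = b(Ω n) χ(n)` over any set `U` of frequencies of measure at most
`exp (η v)`, at the single scale `v = log x`, uniformly in `b`.
-/

set_option autoImplicit false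

namespace MRP.U

open Finset Complex MeasureTheory MRP.E

/-- the smoothed Dirichlet polynomial at scale `w` -/
noncomputable def FF (φ : ℝ → ℝ) (g : ℕ → ℂ) (N : ℕ) (w t : ℝ) : ℂ :=
  ∑ n ∈ Finset.Icc 1 N, g n * ((φ (Real.log n - w) / n : ℝ) : ℂ) * ph (-(t * Real.log n))

/-- the coefficient function `b(Ω n + s) χ(n)` -/
noncomputable def cf {q : ℕ} (χ : DirichletCharacter ℂ q) (b : ℕ → ℝ) (s n : ℕ) : ℂ :=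
  ((b (Om n + s) : ℝ) : ℂ) * χ ((n : ℕ) : ZMod q)

/-- all prime factors of `n` are at most `D` -/
def Sm (D : ℝ) (n : ℕ) : Prop := ∀ p : ℕ, p.Prime → p ∣ n → (p : ℝ) ≤ D

open Classical in
/-- the coefficient function restricted to `D`-smooth integers -/
noncomputable def cs {q : ℕ} (χ : DirichletCharacter ℂ q) (b : ℕ → ℝ) (D : ℝ) (s n : ℕ) : ℂ :=
  if Sm D n then cf χ b s n else 0

/-- the primes in `(e^a, e^c]` -/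
noncomputable def prs (a c : ℝ) : Finset ℕ :=
  (Finset.Ioc ⌊Real.exp a⌋₊ ⌊Real.exp c⌋₊).filter Nat.Prime

/-- the sum of `1/p` over the primes in `(e^a, e^c]` -/
noncomputable def Wt (a c : ℝ) : ℝ := ∑ p ∈ prs a c, (1 / (p : ℝ))

/-- a fixed cutoff function: bounded by `B`, with derivative bounded by `B`, support in `[-A, A]` -/
def Cut (A B : ℝ) (φ : ℝ → ℝ) : Prop :=
  ContDiff ℝ 2 φ ∧ (∀ x, |φ x| ≤ B) ∧ (∀ x, |deriv φ x| ≤ B) ∧ (∀ x, A ≤ |x| → φ x = 0)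

/-- U1: the inequality of Halasz and Montgomery, smooth form, with the measure of `U` -/
def StHM : Prop := ∀ (A : ℝ) (K : ℕ), 1 ≤ A → ∃ c C : ℝ, 0 < c ∧ 0 < C ∧
  ∀ (w T : ℝ), 0 ≤ w → 0 ≤ T → 2 * T ≤ Real.exp (K * w) → ∀ U : Set ℝ, MeasurableSet U →
    U ⊆ Set.Icc (-T) T → ∀ (N : ℕ) (a : ℕ → ℂ), (∀ n : ℕ, A ≤ |Real.log n - w| → a n = 0) →
      ∫ t in U, ‖∑ n ∈ Finset.Icc 1 N, a n * ph (-(t * Real.log n))‖ ^ 2 ≤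
        C * (1 + (volume U).toReal * Real.exp (-(c * w))) * ∑ n ∈ Finset.Icc 1 N, n * ‖a n‖ ^ 2

/-- U1b: mean square of the smoothed polynomial over `U` -/
def StFF : Prop := ∀ (A B : ℝ) (K : ℕ), 1 ≤ A → 1 ≤ B → ∃ c C : ℝ, 0 < c ∧ 0 < C ∧
  ∀ (w T : ℝ), 0 ≤ w → 0 ≤ T → 2 * T ≤ Real.exp (K * w) → ∀ U : Set ℝ, MeasurableSet U →
    U ⊆ Set.Icc (-T) T → ∀ φ : ℝ → ℝ, (∀ x, |φ x| ≤ B) → (∀ x, A ≤ |x| → φ x = 0) →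
    ∀ (N : ℕ) (g : ℕ → ℂ), (∀ n, ‖g n‖ ≤ 1) →
      ∫ t in U, ‖FF φ g N w t‖ ^ 2 ≤ C * (1 + (volume U).toReal * Real.exp (-(c * w)))

/-- U2: integers in a multiplicative window -/
def StWindow : Prop := ∀ A : ℝ, 1 ≤ A → ∃ C : ℝ, 0 < C ∧ ∀ (w : ℝ), 0 ≤ w → ∀ N : ℕ,
  ∑ n ∈ (Finset.Icc 1 N).filter (fun n : ℕ => |Real.log n - w| ≤ A), (1 / (n : ℝ)) ≤ C

/-- U3: Turan and Kubilius in a multiplicative window -/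
def StTKw : Prop := ∀ A : ℝ, 1 ≤ A → ∃ C : ℝ, 0 < C ∧ ∀ (a c w : ℝ), 1 ≤ a → a ≤ c → 4 * c ≤ w →
  8 * A ≤ w → 1 ≤ Wt a c → ∀ N : ℕ,
    ∑ n ∈ (Finset.Icc 1 N).filter (fun n : ℕ => |Real.log n - w| ≤ A), (1 / (n : ℝ)) *
      (1 - (((prs a c).filter (fun p => p ∣ n)).card : ℝ) / Wt a c) ^ 2 ≤ C / Wt a c

open Classical in
/-- U4: integers with a very large prime factor are rare -/
def StLargeP : Prop := ∀ A : ℝ, 1 ≤ A → ∃ C : ℝ, 0 < C ∧ ∀ e : ℝ, 0 < e → e ≤ 1 / 2 →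
  ∃ v₀ : ℝ, ∀ v ≥ v₀, ∀ N : ℕ,
    ∑ n ∈ (Finset.Icc 1 N).filter (fun n : ℕ => |Real.log n - v| ≤ A ∧
      ∃ p : ℕ, p.Prime ∧ p ∣ n ∧ Real.exp ((1 - e) * v) < p), (1 / (n : ℝ)) ≤ C * e

/-- U5: sums over primes of a Lipschitz function (Brun and Titchmarsh) -/
def StPrimeInt : Prop := ∃ C : ℝ, 0 < C ∧ ∀ θ : ℝ, 0 < θ → θ ≤ 1 → ∃ Cθ : ℝ, 0 < Cθ ∧
  ∀ (L B : ℝ) (G : ℝ → ℝ), 1 ≤ L → 0 ≤ B → Continuous G → (∀ s, 0 ≤ G s) →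
    (∀ s ∈ Set.Icc 0 (L + 1), G s ≤ B) →
    (∀ s ∈ Set.Icc 0 (L + 1), ∀ s' ∈ Set.Icc 0 (L + 1), |G s - G s'| ≤ B * |s - s'|) →
      ∑ p ∈ (Finset.Icc 1 ⌊Real.exp L⌋₊).filter Nat.Prime,
        (Real.log p / p) * G (Real.log p) ≤
          C * (∫ s in (0 : ℝ)..(L + 1), G s) + C * B * θ * L + Cθ * B

/-- U6: convolution with a finite measure on the line; Plancherel -/
def StConv : Prop := ∀ (P : Finset ℕ) (c : ℕ → ℂ) (h : ℕ → ℝ) (G : ℝ → ℂ) (U₀ M : ℝ), 0 < U₀ →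
  ContDiff ℝ 1 G → HasCompactSupport G →
  (∀ u : ℝ, |u| ≤ U₀ → ‖∑ p ∈ P, c p * ph (-(u * h p))‖ ≤ M) →
    ∫ w : ℝ, ‖∑ p ∈ P, c p * G (w - h p)‖ ^ 2 ≤
      M ^ 2 * (∫ w : ℝ, ‖G w‖ ^ 2) +
        (∑ p ∈ P, ‖c p‖) ^ 2 / U₀ ^ 2 * ∫ w : ℝ, ‖deriv G w‖ ^ 2

/-- U7a: the decomposition of Turan and Kubilius; `log` of the primes shifts the scale -/
def StDecomp : Prop := ∀ (q : ℕ) (_ : 1 ≤ q) (χ : DirichletCharacter ℂ q) (A B : ℝ) (φ : ℝ → ℝ),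
  Cut A B φ → ∀ (a c w t D : ℝ) (N : ℕ) (b : ℕ → ℝ) (s : ℕ), 0 < Wt a c → Real.exp c ≤ D →
    Real.exp (w + A) ≤ N →
    FF φ (cs χ b D s) N w t =
      ((1 / Wt a c : ℝ) : ℂ) * ∑ p ∈ prs a c, (χ ((p : ℕ) : ZMod q) * (((1 / (p : ℝ) : ℝ)) : ℂ) *
        ph (-(t * Real.log p))) * FF φ (cs χ b D (s + 1)) N (w - Real.log p) t +
      ∑ n ∈ Finset.Icc 1 N, cs χ b D s n *
        ((1 - (((prs a c).filter (fun p => p ∣ n)).card : ℝ) / Wt a c : ℝ) : ℂ) *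
        ((φ (Real.log n - w) / n : ℝ) : ℂ) * ph (-(t * Real.log n))

/-- U8a: `log n = ∑_{d ∣ n} Λ(d)` applied to the smoothed polynomial -/
def StLogId : Prop := ∀ (q : ℕ) (_ : 1 ≤ q) (χ : DirichletCharacter ℂ q) (A B : ℝ) (φ : ℝ → ℝ),
  Cut A B φ → ∀ (v t D : ℝ) (N : ℕ) (b : ℕ → ℝ), 0 ≤ D → Real.exp (v + A) ≤ N → D ≤ N →
    (v : ℂ) * FF φ (cs χ b D 0) N v t =
      (∑ p ∈ (Finset.Icc 1 ⌊D⌋₊).filter Nat.Prime,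
        (χ ((p : ℕ) : ZMod q) * ((Real.log p / (p : ℝ) : ℝ) : ℂ) * ph (-(t * Real.log p))) *
          FF φ (cs χ b D 1) N (v - Real.log p) t) +
      (∑ d ∈ (Finset.Icc 1 N).filter (fun d => ¬ d.Prime),
        (((ArithmeticFunction.vonMangoldt d / (d : ℝ) : ℝ)) : ℂ) * ph (-(t * Real.log d)) *
          FF φ (fun m => cs χ b D 0 (d * m)) N (v - Real.log d) t) -
      ∑ n ∈ Finset.Icc 1 N, cs χ b D 0 n *
        (((Real.log n - v) * φ (Real.log n - v) / n : ℝ) : ℂ) * ph (-(t * Real.log n))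

/-- U7: the mean square over the scales; `D = exp ((1 - e) v)` -/
def StScales : Prop := ∀ (q : ℕ) (_ : 1 ≤ q) (χ : DirichletCharacter ℂ q) (A B : ℝ), 1 ≤ A → 1 ≤ B →
  ∀ e ε : ℝ, 0 < e → e ≤ 1 / 2 → 0 < ε → ∃ T₀ η v₀ : ℝ, 0 ≤ T₀ ∧ (χ ≠ 1 → T₀ = 0) ∧ 0 < η ∧
    ∀ v ≥ v₀, ∀ φ : ℝ → ℝ, Cut A B φ → ∀ N : ℕ, Real.exp (v + 2 * A + 2) ≤ N →
    ∀ b : ℕ → ℝ, (∀ m, |b m| ≤ 1) → ∀ s : ℕ,
    ∀ U : Set ℝ, MeasurableSet U → U ⊆ Set.Icc (-Real.exp (2 * v)) (Real.exp (2 * v)) →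
      (∀ t ∈ U, T₀ ≤ |t|) → volume U ≤ ENNReal.ofReal (Real.exp (η * v)) →
        ∫ w in (e * v / 2)..(v + 1), ∫ t in U,
          ‖FF φ (cs χ b (Real.exp ((1 - e) * v)) s) N w t‖ ^ 2 ≤ ε * v

/-- U8: the trick of Halasz: the value at one scale is bounded by the average over the smaller
scales, for the same function `b` -/
def StTrick : Prop := ∀ (q : ℕ) (_ : 1 ≤ q) (χ : DirichletCharacter ℂ q) (A B : ℝ), 1 ≤ A → 1 ≤ B →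
  ∀ e : ℝ, 0 < e → e ≤ 1 / 2 → ∃ C η : ℝ, 0 < C ∧ 0 < η ∧ ∀ ε : ℝ, 0 < ε → ∃ v₀ : ℝ,
    ∀ v ≥ v₀, ∀ φ : ℝ → ℝ, Cut A B φ → ∀ N : ℕ, Real.exp (v + 2 * A + 2) ≤ N →
    ∀ b : ℕ → ℝ, (∀ m, |b m| ≤ 1) →
    ∀ U : Set ℝ, MeasurableSet U → U ⊆ Set.Icc (-Real.exp (2 * v)) (Real.exp (2 * v)) →
      volume U ≤ ENNReal.ofReal (Real.exp (η * v)) →
        ∫ t in U, ‖FF φ (cs χ b (Real.exp ((1 - e) * v)) 0) N v t‖ ^ 2 ≤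
          ε + (C / v) * ∫ w in (e * v / 2)..(v + 1), ∫ t in U,
            ‖FF φ (cs χ b (Real.exp ((1 - e) * v)) 1) N w t‖ ^ 2

/-- The main statement of block U: any set of at most `exp (η v)` frequencies carries little mass,
at the single scale `v`, uniformly in `b`. -/
def StUMain : Prop := ∀ (q : ℕ) (_ : 1 ≤ q) (χ : DirichletCharacter ℂ q) (A B : ℝ), 1 ≤ A → 1 ≤ B →
  ∀ ε : ℝ, 0 < ε → ∃ T₀ η v₀ : ℝ, 0 ≤ T₀ ∧ (χ ≠ 1 → T₀ = 0) ∧ 0 < η ∧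
    ∀ v ≥ v₀, ∀ φ : ℝ → ℝ, Cut A B φ → ∀ N : ℕ, Real.exp (v + 2 * A + 2) ≤ N →
    ∀ b : ℕ → ℝ, (∀ m, |b m| ≤ 1) →
    ∀ U : Set ℝ, MeasurableSet U → U ⊆ Set.Icc (-Real.exp (2 * v)) (Real.exp (2 * v)) →
      (∀ t ∈ U, T₀ ≤ |t|) → volume U ≤ ENNReal.ofReal (Real.exp (η * v)) →
        ∫ t in U, ‖FF φ (cf χ b 0) N v t‖ ^ 2 ≤ ε

end MRP.U
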