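import Mathlib
import Pool.Agent.Helper6.MR.UDefs

/-!
# U01: Halasz and Montgomery, smooth form

PROOF.  Fix a `C²` function `Φ ≥ 0` with compact support and `Φ = 1` on `[-A, A]` (e.g. `ContDiffBump`), and let `c, C₀` be the constants of `StSmooth Φ K`:
`K(s) := ∑' n, (Φ(log n - w)/n) ph(-(s log n))` satisfies `‖K s‖ ≤ C₀/(1+s^2) + C₀ exp(-cw)` for `|s| ≤ exp(K w)`.  Let `f(t) = ∑_{n≤N} a_n ph(-(t log n))` (continuous, bounded), `U` of finite measure,
`S = ∫_U ‖f‖^2`, `A_n = ∫_U ph(-(t log n)) conj(f t) dt`.  Then `S = ∑ a_n A_n ≤ (∑ n‖a_n‖^2)^(1/2) (∑_{a_n ≠ 0} ‖A_n‖^2/n)^(1/2)` and, as `Φ(log n - w) = 1` when `a_n ≠ 0`,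
`∑_{a_n≠0} ‖A_n‖^2/n ≤ ∑_n (Φ(log n - w)/n) ‖A_n‖^2 = Re ∫_U ∫_U conj(f t) f(t') K(t - t') dt dt' ≤ ∫_U∫_U ((‖f t‖^2 + ‖f t'‖^2)/2) ‖K(t-t')‖ ≤ κ S`, where (finite sum over `n` with `Φ(log n - w) ≠ 0`)
`κ = sup_t ∫_U ‖K(t-t')‖ dt' ≤ C₀ ∫ ds/(1+s^2) + C₀ exp(-cw) vol(U) ≤ C₀ (4 + vol(U) exp(-cw))` since `|t - t'| ≤ 2T ≤ exp(Kw)`.  Hence `S ≤ (∑ n‖a_n‖^2)^(1/2) (κ S)^(1/2)`, so `S ≤ κ ∑ n ‖a_n‖^2`
(if `S = 0` trivial).
-/

set_option autoImplicit false

namespace MRP.U

open Finset Complex MeasureTheory MRP.E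

namespace U01

theorem ph_norm (x : ℝ) : ‖ph x‖ = 1 := by
  unfold ph
  exact Complex.norm_exp_ofReal_mul_I x

theorem ph_add (x y : ℝ) : ph (x + y) = ph x * ph y := by
  unfold ph
  rw [← Complex.exp_add]
  congr 1
  push_cast
  ring

theorem ph_conj (x : ℝ) : starRingEnd ℂ (ph x) = ph (-x) := by
  unfold ph
  rw [← Complex.exp_conj]
  congr 1
  simp

theorem int_of_bound {X : Type*} [MeasurableSpace X] [TopologicalSpace X] [OpensMeasurableSpace X]
    {E : Type*} [NormedAddCommGroup E] [SecondCountableTopologyEither X E]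
    (μ : Measure X) [IsFiniteMeasure μ] (g : X → E) (hg : Continuous g) (C : ℝ)
    (hC : ∀ x, ‖g x‖ ≤ C) : Integrable g μ :=
  Integrable.of_bound hg.aestronglyMeasurable C (Filter.Eventually.of_forall hC)

theorem dual_aux (μ : Measure ℝ) [IsFiniteMeasure μ] (I : Finset ℕ) (φ : ℕ → ℝ → ℂ)
    (hφ : ∀ n, Continuous (φ n)) (hφ1 : ∀ n t, ‖φ n t‖ = 1) (ω : ℕ → ℝ) (hω : ∀ n, 0 ≤ ω n)
    (a : ℕ → ℂ) (κ : ℝ) (hκ0 : 0 ≤ κ)
    (hκ : ∀ᵐ t ∂μ, ∫ t', ‖∑ n ∈ I, (ω n : ℂ) * (φ n t * starRingEnd ℂ (φ n t'))‖ ∂μ ≤ κ)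
    (hI : ∀ n ∈ I, 1 ≤ n) (ha : ∀ n ∈ I, a n ≠ 0 → ω n = 1 / (n : ℝ)) :
    ∫ t, ‖∑ n ∈ I, a n * φ n t‖ ^ 2 ∂μ ≤ κ * ∑ n ∈ I, (n : ℝ) * ‖a n‖ ^ 2 := by
  set f : ℝ → ℂ := fun t => ∑ n ∈ I, a n * φ n t with hfdef
  have hf : Continuous f := continuous_finsetSum _ fun n _ => continuous_const.mul (hφ n)
  have hfb : ∀ t, ‖f t‖ ≤ ∑ n ∈ I, ‖a n‖ := by
    intro t
    refine (norm_sum_le _ _).trans (le_of_eq ?_)
    refine Finset.sum_congr rfl fun n _ => ?_
    rw [norm_mul, hφ1, mul_one]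
  set Cf : ℝ := ∑ n ∈ I, ‖a n‖ with hCf
  have hCf0 : 0 ≤ Cf := Finset.sum_nonneg fun n _ => norm_nonneg _
  set Kz : ℝ × ℝ → ℂ := fun z => ∑ n ∈ I, (ω n : ℂ) * (φ n z.1 * starRingEnd ℂ (φ n z.2))
    with hKz
  have hK : Continuous Kz := by
    refine continuous_finsetSum _ fun n _ => continuous_const.mul ?_
    exact ((hφ n).comp continuous_fst).mul
      (Complex.continuous_conj.comp ((hφ n).comp continuous_snd))
  have hKb : ∀ z, ‖Kz z‖ ≤ ∑ n ∈ I, ω n := by
    intro z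
    refine (norm_sum_le _ _).trans (le_of_eq ?_)
    refine Finset.sum_congr rfl fun n _ => ?_
    rw [norm_mul, norm_mul, hφ1, RCLike.norm_conj, hφ1, mul_one, mul_one, Complex.norm_real,
      Real.norm_eq_abs, abs_of_nonneg (hω n)]
  set CK : ℝ := ∑ n ∈ I, ω n with hCK
  have hCK0 : 0 ≤ CK := Finset.sum_nonneg fun n _ => hω n
  have hKsw : ∀ z : ℝ × ℝ, ‖Kz z.swap‖ = ‖Kz z‖ := by
    intro z
    have h1 : Kz z.swap = starRingEnd ℂ (Kz z) := by
      rw [hKz]
      simp only [Prod.fst_swap, Prod.snd_swap, map_sum, map_mul, Complex.conj_ofReal,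
        Complex.conj_conj]
      refine Finset.sum_congr rfl fun n _ => ?_
      ring
    rw [h1, RCLike.norm_conj]
  set S : ℝ := ∫ t, ‖f t‖ ^ 2 ∂μ with hS
  have hS0 : 0 ≤ S := integral_nonneg fun t => by positivity
  set B : ℕ → ℂ := fun n => ∫ t, starRingEnd ℂ (f t) * φ n t ∂μ with hB
  have hcf : Continuous (fun t => starRingEnd ℂ (f t)) := Complex.continuous_conj.comp hf
  -- (1)
  have h1 : (S : ℂ) = ∑ n ∈ I, a n * B n := by
    have e1 : ∀ n ∈ I, a n * B n = ∫ t, a n * (starRingEnd ℂ (f t) * φ n t) ∂μ := fun n _ =>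
      (integral_const_mul _ _).symm
    rw [Finset.sum_congr rfl e1, ← integral_finsetSum]
    · rw [hS, ← integral_complex_ofReal]
      refine integral_congr_ae (Filter.Eventually.of_forall fun t => ?_)
      show ((‖f t‖ ^ 2 : ℝ) : ℂ) = ∑ n ∈ I, a n * (starRingEnd ℂ (f t) * φ n t)
      have e2 : ∑ n ∈ I, a n * (starRingEnd ℂ (f t) * φ n t) = starRingEnd ℂ (f t) * f t := by
        rw [hfdef, Finset.mul_sum]
        refine Finset.sum_congr rfl fun n _ => ?_
        ring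
      rw [e2, mul_comm, Complex.mul_conj']
      push_cast
      rfl
    · intro n _
      refine int_of_bound μ _ (continuous_const.mul (hcf.mul (hφ n))) (‖a n‖ * Cf) fun t => ?_
      rw [norm_mul, norm_mul, hφ1, mul_one, RCLike.norm_conj]
      exact mul_le_mul_of_nonneg_left (hfb t) (norm_nonneg _)
  -- (2)
  set X : ℝ := ∑ n ∈ I, (n : ℝ) * ‖a n‖ ^ 2 with hX
  have hX0 : 0 ≤ X := Finset.sum_nonneg fun n _ => by positivity
  set Z : ℝ := ∑ n ∈ I, ω n * ‖B n‖ ^ 2 with hZ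
  have hZ0 : 0 ≤ Z := Finset.sum_nonneg fun n _ => mul_nonneg (hω n) (by positivity)
  have h2 : S ^ 2 ≤ X * Z := by
    have e1 : S ≤ ∑ n ∈ I, (Real.sqrt n * ‖a n‖) * (Real.sqrt (ω n) * ‖B n‖) := by
      have e2 : S = ‖(S : ℂ)‖ := by
        rw [Complex.norm_real, Real.norm_eq_abs, abs_of_nonneg hS0]
      rw [e2, h1]
      refine (norm_sum_le _ _).trans (Finset.sum_le_sum fun n hn => ?_)
      rw [norm_mul]
      by_cases han : a n = 0
      · rw [han, norm_zero, zero_mul, mul_zero, zero_mul]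
      · have hn1 : (0 : ℝ) < n := by exact_mod_cast hI n hn
        have e3 : Real.sqrt n * Real.sqrt (ω n) = 1 := by
          rw [← Real.sqrt_mul hn1.le, ha n hn han, mul_one_div, div_self hn1.ne', Real.sqrt_one]
        have e4 : (Real.sqrt n * ‖a n‖) * (Real.sqrt (ω n) * ‖B n‖) =
            (Real.sqrt n * Real.sqrt (ω n)) * (‖a n‖ * ‖B n‖) := by ring
        rw [e4, e3, one_mul]
    have e5 : S ^ 2 ≤ (∑ n ∈ I, (Real.sqrt n * ‖a n‖) * (Real.sqrt (ω n) * ‖B n‖)) ^ 2 :=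
      pow_le_pow_left₀ hS0 e1 2
    refine e5.trans ((Finset.sum_mul_sq_le_sq_mul_sq _ _ _).trans (le_of_eq ?_))
    congr 1
    · refine Finset.sum_congr rfl fun n _ => ?_
      rw [mul_pow, Real.sq_sqrt (Nat.cast_nonneg n)]
    · refine Finset.sum_congr rfl fun n _ => ?_
      rw [mul_pow, Real.sq_sqrt (hω n)]
  -- (3)
  have hKint1 : Integrable (fun z : ℝ × ℝ => ‖f z.1‖ ^ 2 * ‖Kz z‖) (μ.prod μ) := by
    refine int_of_bound _ _ (((hf.comp continuous_fst).norm.pow 2).mul hK.norm) (Cf ^ 2 * CK)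
      fun z => ?_
    rw [Real.norm_eq_abs, abs_of_nonneg (by positivity)]
    exact mul_le_mul (pow_le_pow_left₀ (norm_nonneg _) (hfb _) 2) (hKb z) (norm_nonneg _)
      (by positivity)
  have hKint2 : Integrable (fun z : ℝ × ℝ => ‖f z.2‖ ^ 2 * ‖Kz z‖) (μ.prod μ) := by
    refine int_of_bound _ _ (((hf.comp continuous_snd).norm.pow 2).mul hK.norm) (Cf ^ 2 * CK)
      fun z => ?_
    rw [Real.norm_eq_abs, abs_of_nonneg (by positivity)]
    exact mul_le_mul (pow_le_pow_left₀ (norm_nonneg _) (hfb _) 2) (hKb z) (norm_nonneg _)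
      (by positivity)
  have hfirst : ∫ z, ‖f z.1‖ ^ 2 * ‖Kz z‖ ∂(μ.prod μ) ≤ κ * S := by
    rw [integral_prod _ hKint1, hS, ← integral_const_mul]
    refine integral_mono_ae hKint1.integral_prod_left ?_ ?_
    · refine int_of_bound _ _ (continuous_const.mul (hf.norm.pow 2)) (κ * Cf ^ 2) fun t => ?_
      rw [Real.norm_eq_abs, abs_of_nonneg (by positivity)]
      exact mul_le_mul_of_nonneg_left (pow_le_pow_left₀ (norm_nonneg _) (hfb _) 2) hκ0
    · filter_upwards [hκ] with t ht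
      show ∫ t', ‖f t‖ ^ 2 * ‖Kz (t, t')‖ ∂μ ≤ κ * ‖f t‖ ^ 2
      rw [integral_const_mul, mul_comm]
      exact mul_le_mul_of_nonneg_right ht (by positivity)
  have hsecond : ∫ z, ‖f z.2‖ ^ 2 * ‖Kz z‖ ∂(μ.prod μ) ≤ κ * S := by
    refine le_trans (le_of_eq ?_) hfirst
    rw [← integral_prod_swap (fun z : ℝ × ℝ => ‖f z.2‖ ^ 2 * ‖Kz z‖)]
    refine integral_congr_ae (Filter.Eventually.of_forall fun z => ?_)
    show ‖f z.swap.2‖ ^ 2 * ‖Kz z.swap‖ = ‖f z.1‖ ^ 2 * ‖Kz z‖
    rw [hKsw, Prod.snd_swap]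
  have h3 : Z ≤ κ * S := by
    have e1 : (Z : ℂ) = ∫ z : ℝ × ℝ, starRingEnd ℂ (f z.1) * f z.2 * Kz z ∂(μ.prod μ) := by
      have e2 : ∀ n ∈ I, ((ω n * ‖B n‖ ^ 2 : ℝ) : ℂ) = ∫ z : ℝ × ℝ, (ω n : ℂ) *
          ((starRingEnd ℂ (f z.1) * φ n z.1) * (f z.2 * starRingEnd ℂ (φ n z.2)))
            ∂(μ.prod μ) := by
        intro n _
        rw [integral_const_mul, integral_prod_mul (fun t => starRingEnd ℂ (f t) * φ n t)
          (fun t => f t * starRingEnd ℂ (φ n t))]
        have e3 : ∫ t, f t * starRingEnd ℂ (φ n t) ∂μ = starRingEnd ℂ (B n) := by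
          rw [hB]
          simp only
          rw [← integral_conj]
          refine integral_congr_ae (Filter.Eventually.of_forall fun t => ?_)
          show f t * starRingEnd ℂ (φ n t) = starRingEnd ℂ (starRingEnd ℂ (f t) * φ n t)
          rw [map_mul, Complex.conj_conj]
        rw [e3]
        have e4 : (∫ t, starRingEnd ℂ (f t) * φ n t ∂μ) = B n := rfl
        rw [e4, Complex.mul_conj']
        push_cast
        rfl
      rw [hZ]
      push_cast
      have e5 : ∑ n ∈ I, ((ω n : ℂ) * (‖B n‖ : ℂ) ^ 2) = ∑ n ∈ I, ((ω n * ‖B n‖ ^ 2 : ℝ) : ℂ) := by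
        refine Finset.sum_congr rfl fun n _ => ?_
        push_cast
        rfl
      rw [e5, Finset.sum_congr rfl e2, ← integral_finsetSum]
      · refine integral_congr_ae (Filter.Eventually.of_forall fun z => ?_)
        show ∑ n ∈ I, (ω n : ℂ) * ((starRingEnd ℂ (f z.1) * φ n z.1) *
          (f z.2 * starRingEnd ℂ (φ n z.2))) = starRingEnd ℂ (f z.1) * f z.2 * Kz z
        rw [hKz, Finset.mul_sum]
        refine Finset.sum_congr rfl fun n _ => ?_
        ring
      · intro n _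
        refine int_of_bound _ _ ?_ (ω n * (Cf * Cf)) fun z => ?_
        · exact continuous_const.mul (((hcf.comp continuous_fst).mul
            ((hφ n).comp continuous_fst)).mul ((hf.comp continuous_snd).mul
            (Complex.continuous_conj.comp ((hφ n).comp continuous_snd))))
        · rw [norm_mul, norm_mul, norm_mul, norm_mul, hφ1, RCLike.norm_conj, RCLike.norm_conj, hφ1,
            mul_one, mul_one, Complex.norm_real, Real.norm_eq_abs, abs_of_nonneg (hω n)]
          exact mul_le_mul_of_nonneg_left (mul_le_mul (hfb _) (hfb _) (norm_nonneg _) hCf0) (hω n)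
    have e6 : Z = ‖(Z : ℂ)‖ := by
      rw [Complex.norm_real, Real.norm_eq_abs, abs_of_nonneg hZ0]
    rw [e6, e1]
    refine (norm_integral_le_integral_norm _).trans ?_
    have e7 : ∫ z, ‖starRingEnd ℂ (f z.1) * f z.2 * Kz z‖ ∂(μ.prod μ) ≤
        ∫ z, ((1 / 2) * (‖f z.1‖ ^ 2 * ‖Kz z‖) + (1 / 2) * (‖f z.2‖ ^ 2 * ‖Kz z‖)) ∂(μ.prod μ) := by
      refine integral_mono_of_nonneg (Filter.Eventually.of_forall fun z => norm_nonneg _)
        ((hKint1.const_mul _).add (hKint2.const_mul _)) (Filter.Eventually.of_forall fun z => ?_)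
      show ‖starRingEnd ℂ (f z.1) * f z.2 * Kz z‖ ≤
        (1 / 2) * (‖f z.1‖ ^ 2 * ‖Kz z‖) + (1 / 2) * (‖f z.2‖ ^ 2 * ‖Kz z‖)
      rw [norm_mul, norm_mul, RCLike.norm_conj]
      have h5 : ‖f z.1‖ * ‖f z.2‖ ≤ 1 / 2 * (‖f z.1‖ ^ 2 + ‖f z.2‖ ^ 2) := by
        nlinarith [sq_nonneg (‖f z.1‖ - ‖f z.2‖)]
      have h6 := mul_le_mul_of_nonneg_right h5 (norm_nonneg (Kz z))
      linarith
    refine e7.trans ?_
    rw [integral_add (hKint1.const_mul _) (hKint2.const_mul _), integral_const_mul,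
      integral_const_mul]
    linarith
  -- conclusion
  have h4 : S ^ 2 ≤ X * (κ * S) := h2.trans (mul_le_mul_of_nonneg_left h3 hX0)
  rcases hS0.eq_or_lt with h0 | hpos
  · rw [← h0]
    positivity
  · have h5 : S * S ≤ (κ * X) * S := by
      calc S * S = S ^ 2 := by ring
        _ ≤ X * (κ * S) := h4
        _ = (κ * X) * S := by ring
    exact le_of_mul_le_mul_right h5 hpos

end U01

theorem stHM (h : StSmooth) : StHM := by
  intro A K hA
  set Φ : ContDiffBump (0 : ℝ) := ⟨A, A + 1, by linarith, by linarith⟩ with hΦ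
  obtain ⟨c, C₀, hc, hC₀, hK⟩ := h Φ K Φ.contDiff Φ.hasCompactSupport
  refine ⟨c, C₀ * 4, hc, by positivity, ?_⟩
  intro w T hw hT hTK U hU hUT N a ha
  have hUfin : volume U < ⊤ := lt_of_le_of_lt (measure_mono hUT) (by simp)
  have : IsFiniteMeasure (volume.restrict U) := ⟨by simpa using hUfin⟩
  set V : ℝ := (volume U).toReal with hV
  have hV0 : 0 ≤ V := ENNReal.toReal_nonneg
  set E : ℝ := Real.exp (-(c * w)) with hE
  have hE0 : 0 < E := Real.exp_pos _
  set M : ℕ := max N ⌈Real.exp (w + (A + 1))⌉₊ with hM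
  have hMN : N ≤ M := le_max_left _ _
  have hMe : Real.exp (w + (A + 1)) ≤ M :=
    (Nat.le_ceil _).trans (by exact_mod_cast le_max_right _ _)
  set ω : ℕ → ℝ := fun n => Φ (Real.log n - w) / n with hω
  set φ : ℕ → ℝ → ℂ := fun n t => ph (-(t * Real.log n)) with hφ
  have hφc : ∀ n, Continuous (φ n) := by
    intro n
    rw [hφ]
    unfold ph
    fun_prop
  set a' : ℕ → ℂ := fun n => if n ≤ N then a n else 0 with ha'
  have hkey : ∀ t ∈ U, ∀ t' ∈ U,
      ‖∑ n ∈ Finset.Icc 1 M, (ω n : ℂ) * (φ n t * starRingEnd ℂ (φ n t'))‖ ≤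
        C₀ / (1 + (t - t') ^ 2) + C₀ * E := by
    intro t ht t' ht'
    have h1 := hK w (t - t') hw (by
      refine le_trans ?_ hTK
      have h2 := hUT ht
      have h3 := hUT ht'
      rw [Set.mem_Icc] at h2 h3
      rw [abs_le]
      constructor <;> linarith [h2.1, h2.2, h3.1, h3.2])
    refine le_trans (le_of_eq ?_) h1
    congr 1
    rw [tsum_eq_sum (s := Finset.Icc 1 M)]
    · refine Finset.sum_congr rfl fun n _ => ?_
      rw [hω, hφ]
      simp only
      rw [U01.ph_conj, ← U01.ph_add]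
      congr 2
      ring
    · intro n hn
      rw [Finset.mem_Icc, not_and_or, not_le, not_le] at hn
      rcases hn with hn | hn
      · have : n = 0 := by omega
        subst this
        simp
      · have hnr : (0 : ℝ) < n := by
          have : 0 < n := by omega
          exact_mod_cast this
        have h4 : w + (A + 1) ≤ Real.log n := by
          rw [Real.le_log_iff_exp_le hnr]
          refine hMe.trans ?_
          exact_mod_cast hn.le
        have h5 : (Φ : ℝ → ℝ) (Real.log n - w) = 0 := by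
          apply Φ.zero_of_le_dist
          rw [Real.dist_eq, sub_zero, abs_of_nonneg (by linarith)]
          show A + 1 ≤ Real.log n - w
          linarith
        rw [h5]
        simp
  have hmain := U01.dual_aux (volume.restrict U) (Finset.Icc 1 M) φ hφc
    (fun n t => U01.ph_norm _) ω (fun n => div_nonneg Φ.nonneg (Nat.cast_nonneg n)) a'
    (C₀ * 4 * (1 + V * E)) (by positivity)
    (by
      refine (ae_restrict_iff' hU).2 (Filter.Eventually.of_forall fun t ht => ?_)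
      have hint1 : Integrable (fun t' : ℝ => C₀ / (1 + (t - t') ^ 2)) := by
        have h2 : Integrable (fun s : ℝ => (1 + s ^ 2)⁻¹) := integrable_inv_one_add_sq
        have h3 := (h2.comp_sub_left t).const_mul C₀
        exact h3
      have hint2 : IntegrableOn (fun _ : ℝ => C₀ * E) U :=
        integrableOn_const hUfin.ne
      calc ∫ t' in U, ‖∑ n ∈ Finset.Icc 1 M, (ω n : ℂ) * (φ n t * starRingEnd ℂ (φ n t'))‖
          ≤ ∫ t' in U, (C₀ / (1 + (t - t') ^ 2) + C₀ * E) := by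
            refine integral_mono_of_nonneg (Filter.Eventually.of_forall fun _ => norm_nonneg _)
              (hint1.integrableOn.add hint2) ?_
            exact (ae_restrict_iff' hU).2 (Filter.Eventually.of_forall fun t' ht' =>
              hkey t ht t' ht')
        _ = (∫ t' in U, C₀ / (1 + (t - t') ^ 2)) + ∫ _ in U, C₀ * E :=
            integral_add hint1.integrableOn hint2
        _ ≤ (∫ t' : ℝ, C₀ / (1 + (t - t') ^ 2)) + V * (C₀ * E) := by
            refine add_le_add ?_ (le_of_eq ?_)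
            · exact setIntegral_le_integral hint1
                (Filter.Eventually.of_forall fun t' => by positivity)
            · rw [setIntegral_const, smul_eq_mul]
              rfl
        _ = C₀ * Real.pi + V * (C₀ * E) := by
            congr 1
            have h4 : ∫ t' : ℝ, C₀ / (1 + (t - t') ^ 2) = ∫ s : ℝ, C₀ * (1 + s ^ 2)⁻¹ :=
              integral_sub_left_eq_self (fun s : ℝ => C₀ * (1 + s ^ 2)⁻¹) volume t
            rw [h4, integral_const_mul, integral_univ_inv_one_add_sq]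
        _ ≤ C₀ * 4 * (1 + V * E) := by
            have h5 := Real.pi_le_four
            have h6 : 0 ≤ V * (C₀ * E) := by positivity
            nlinarith)
    (fun n hn => (Finset.mem_Icc.1 hn).1)
    (by
      intro n _ han
      have h7 : a n ≠ 0 := by
        intro h8
        apply han
        rw [ha']
        simp [h8]
      have h8 : |Real.log n - w| < A := by
        by_contra h9
        exact h7 (ha n (not_lt.1 h9))
      rw [hω]
      simp only
      have h10 : (Φ : ℝ → ℝ) (Real.log n - w) = 1 := by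
        apply Φ.one_of_mem_closedBall
        rw [Metric.mem_closedBall, Real.dist_eq, sub_zero]
        exact h8.le
      rw [h10])
  have e1 : ∀ t : ℝ, ∑ n ∈ Finset.Icc 1 M, a' n * φ n t =
      ∑ n ∈ Finset.Icc 1 N, a n * ph (-(t * Real.log n)) := by
    intro t
    have hsub : Finset.Icc 1 N ⊆ Finset.Icc 1 M := Finset.Icc_subset_Icc le_rfl hMN
    rw [← Finset.sum_subset hsub]
    · refine Finset.sum_congr rfl fun n hn => ?_
      rw [ha']
      simp only
      rw [if_pos (Finset.mem_Icc.1 hn).2]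
    · intro n hn hn'
      have h11 : ¬ n ≤ N := fun h12 => hn' (Finset.mem_Icc.2 ⟨(Finset.mem_Icc.1 hn).1, h12⟩)
      rw [ha']
      simp only
      rw [if_neg h11, zero_mul]
  have e2 : ∑ n ∈ Finset.Icc 1 M, (n : ℝ) * ‖a' n‖ ^ 2 =
      ∑ n ∈ Finset.Icc 1 N, (n : ℝ) * ‖a n‖ ^ 2 := by
    have hsub : Finset.Icc 1 N ⊆ Finset.Icc 1 M := Finset.Icc_subset_Icc le_rfl hMN
    rw [← Finset.sum_subset hsub]
    · refine Finset.sum_congr rfl fun n hn => ?_
      rw [ha']
      simp only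
      rw [if_pos (Finset.mem_Icc.1 hn).2]
    · intro n hn hn'
      have h11 : ¬ n ≤ N := fun h12 => hn' (Finset.mem_Icc.2 ⟨(Finset.mem_Icc.1 hn).1, h12⟩)
      rw [ha']
      simp only
      rw [if_neg h11, norm_zero]
      simp
  rw [e2] at hmain
  simp only [e1] at hmain
  exact hmain

end MRP.U
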