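import Mathlib
import Pool.Agent.Helper6.MR.UDefs

/-!
# U01b: mean square of the smoothed polynomial over U

PROOF.  `StHM` with `a_n = g n * (φ(log n - w)/n)` for `n ≥ 1` (`a_n = 0` if `A ≤ |log n - w|`; put `a_0 = 0`): `∑ n ‖a_n‖^2 ≤ B^2 ∑_{|log n - w| ≤ A} 1/n ≤ B^2 C` by `StWindow`.
-/

set_option autoImplicit false

namespace MRP.U

open Finset Complex MeasureTheory MRP.E

theorem stFF (h : StHM) (hW : StWindow) : StFF := by
  intro A B K hA hB
  obtain ⟨c, C, hc, hC, hmain⟩ := h A K hA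
  obtain ⟨Cw, hCw, hwin⟩ := hW A hA
  refine ⟨c, C * (B ^ 2 * Cw), hc, by positivity, ?_⟩
  intro w T hw hT hTw U hU hUs φ hφB hφ0 N g hg
  set a : ℕ → ℂ := fun n => g n * ((φ (Real.log n - w) / n : ℝ) : ℂ) with ha
  have ha0 : ∀ n : ℕ, A ≤ |Real.log n - w| → a n = 0 := by
    intro n hn
    simp only [ha]
    rw [hφ0 _ hn]
    simp
  have hb := hmain w T hw hT hTw U hU hUs N a ha0
  have hF : ∀ t, FF φ g N w t = ∑ n ∈ Finset.Icc 1 N, a n * ph (-(t * Real.log n)) := by
    intro t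
    rfl
  have hsum : ∑ n ∈ Finset.Icc 1 N, (n : ℝ) * ‖a n‖ ^ 2 ≤ B ^ 2 * Cw := by
    have h1 : ∑ n ∈ Finset.Icc 1 N, (n : ℝ) * ‖a n‖ ^ 2 ≤
        ∑ n ∈ (Finset.Icc 1 N).filter (fun n : ℕ => |Real.log n - w| ≤ A),
          B ^ 2 * (1 / (n : ℝ)) := by
      rw [Finset.sum_filter]
      refine Finset.sum_le_sum fun n hn => ?_
      have hn1 : (1 : ℝ) ≤ n := by exact_mod_cast (Finset.mem_Icc.mp hn).1
      have hn0 : (0 : ℝ) < n := by linarith
      split_ifs with hA'
      · simp only [ha]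
        rw [norm_mul, Complex.norm_real, Real.norm_eq_abs, abs_div, abs_of_pos hn0, mul_pow,
          div_pow]
        have h2 : ‖g n‖ ^ 2 ≤ 1 := by
          have := hg n
          have h0 := norm_nonneg (g n)
          nlinarith
        have h3 : |φ (Real.log n - w)| ^ 2 ≤ B ^ 2 := by
          have := hφB (Real.log n - w)
          have h0 := abs_nonneg (φ (Real.log n - w))
          exact pow_le_pow_left₀ h0 this 2
        have h4 : (n : ℝ) * (‖g n‖ ^ 2 * (|φ (Real.log n - w)| ^ 2 / (n : ℝ) ^ 2)) =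
            ‖g n‖ ^ 2 * |φ (Real.log n - w)| ^ 2 * (1 / (n : ℝ)) := by
          field_simp
        rw [h4]
        refine mul_le_mul_of_nonneg_right ?_ (by positivity)
        calc ‖g n‖ ^ 2 * |φ (Real.log n - w)| ^ 2 ≤ 1 * B ^ 2 :=
              mul_le_mul h2 h3 (by positivity) (by norm_num)
          _ = B ^ 2 := one_mul _
      · rw [ha0 n (by linarith [not_le.mp hA'])]
        simp
    refine h1.trans ?_
    rw [← Finset.mul_sum]
    exact mul_le_mul_of_nonneg_left (hwin w hw N) (by positivity)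
  have hvol : 0 ≤ (volume U).toReal := ENNReal.toReal_nonneg
  calc ∫ t in U, ‖FF φ g N w t‖ ^ 2
      ≤ C * (1 + (volume U).toReal * Real.exp (-(c * w))) *
          ∑ n ∈ Finset.Icc 1 N, (n : ℝ) * ‖a n‖ ^ 2 := hb
    _ ≤ C * (1 + (volume U).toReal * Real.exp (-(c * w))) * (B ^ 2 * Cw) :=
        mul_le_mul_of_nonneg_left hsum (by positivity)
    _ = C * (B ^ 2 * Cw) * (1 + (volume U).toReal * Real.exp (-(c * w))) := by ring

end MRP.U
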