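import Mathlib
import Pool.Agent.Helper6.MR.UDefs

/-!
# U02: integers in a multiplicative window

PROOF.  If `w ≥ A` the sum is over `e^(w-A) ≤ n ≤ e^(w+A)`, at most `1 + 2A` (compare with `∫ dx/x`; the first term is `≤ 1`).  If `w < A` it is at most `∑_{n ≤ e^(2A)} 1/n ≤ 1 + 2A`.
-/

set_option autoImplicit false

namespace MRP.U

open Finset Complex MeasureTheory MRP.E

/-- `∑_{a < n ≤ b} 1/n ≤ log (b/a)` for naturals `1 ≤ a ≤ b`. -/
lemma sum_Ioc_inv_le (a b : ℕ) (ha : 1 ≤ a) (hab : a ≤ b) :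
    ∑ n ∈ Finset.Ioc a b, (1 / (n : ℝ)) ≤ Real.log b - Real.log a := by
  induction b, hab using Nat.le_induction with
  | base => simp
  | succ b hab ih =>
    rw [Finset.sum_Ioc_succ_top (by omega)]
    have hb : (0 : ℝ) < b := by exact_mod_cast (by omega : 0 < b)
    have h1 : 1 / ((b + 1 : ℕ) : ℝ) ≤ Real.log ((b + 1 : ℕ) : ℝ) - Real.log b := by
      have h2 := Real.log_le_sub_one_of_pos (x := (b : ℝ) / ((b + 1 : ℕ) : ℝ)) (by positivity)
      rw [Real.log_div (by positivity) (by positivity)] at h2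
      have h3 : (b : ℝ) / ((b + 1 : ℕ) : ℝ) - 1 = -(1 / ((b + 1 : ℕ) : ℝ)) := by
        have : ((b + 1 : ℕ) : ℝ) ≠ 0 := by positivity
        field_simp
        push_cast
        ring
      rw [h3] at h2
      linarith
    linarith

theorem stWindow : StWindow := by
  intro A hA
  refine ⟨2 * A + 2, by linarith, ?_⟩
  intro w hw N
  set a : ℕ := ⌈Real.exp (w - A)⌉₊ with ha
  set b : ℕ := ⌊Real.exp (w + A)⌋₊ with hb
  have ha1 : 1 ≤ a := Nat.one_le_ceil_iff.mpr (Real.exp_pos _)
  have hsub : (Finset.Icc 1 N).filter (fun n : ℕ => |Real.log n - w| ≤ A) ⊆ Finset.Icc a b := by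
    intro n hn
    rw [Finset.mem_filter, Finset.mem_Icc] at hn
    obtain ⟨⟨hn1, _⟩, hn2⟩ := hn
    have hn0 : (0 : ℝ) < n := by exact_mod_cast hn1
    rw [abs_le] at hn2
    rw [Finset.mem_Icc]
    constructor
    · refine Nat.ceil_le.mpr ?_
      rw [← Real.le_log_iff_exp_le hn0]
      linarith
    · refine Nat.le_floor ?_
      rw [← Real.log_le_iff_le_exp hn0]
      linarith
  have hle : ∑ n ∈ (Finset.Icc 1 N).filter (fun n : ℕ => |Real.log n - w| ≤ A), (1 / (n : ℝ)) ≤
      ∑ n ∈ Finset.Icc a b, (1 / (n : ℝ)) :=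
    Finset.sum_le_sum_of_subset_of_nonneg hsub fun n _ _ => by positivity
  refine hle.trans ?_
  rcases le_or_gt a b with hab | hab
  · have hsplit : Finset.Icc a b = insert a (Finset.Ioc a b) := by
      ext n
      simp only [Finset.mem_Icc, Finset.mem_insert, Finset.mem_Ioc]
      omega
    rw [hsplit, Finset.sum_insert (by simp)]
    have h1 := sum_Ioc_inv_le a b ha1 hab
    have ha0 : (0 : ℝ) < a := by exact_mod_cast ha1
    have hb0 : (0 : ℝ) < b := by exact_mod_cast (by omega : 0 < b)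
    have h2 : Real.log b ≤ w + A := by
      rw [Real.log_le_iff_le_exp hb0]
      exact Nat.floor_le (Real.exp_pos _).le
    have h3 : w - A ≤ Real.log a := by
      rw [Real.le_log_iff_exp_le ha0]
      exact Nat.le_ceil _
    have h4 : (1 : ℝ) / a ≤ 1 := by
      rw [div_le_one ha0]
      exact_mod_cast ha1
    linarith
  · rw [Finset.Icc_eq_empty (by omega)]
    simp
    linarith

end MRP.U
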