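import Mathlib
import Pool.Agent.Helper6.MR.UDefs
import Pool.Agent.Helper13.Om.TK

/-!
# U03: Turan and Kubilius in a multiplicative window

PROOF.  Let `x = ⌊e^(w+A)⌋`, `ω(n)` the number of primes of `prs a c` dividing `n`, `W = Wt a c`.  The inequality of Turan and Kubilius on `[1, x]`: `∑_{n≤x} (ω(n) - W)^2 ≤ C x W`
(expand: `∑_{n≤x} ω(n)^2 ≤ x (W^2 + W) `, `∑_{n≤x} ω(n) ≥ x W - #prs`, `W ≥ 1`, and `#prs * W ≤ e^c (1 + c) ≤ x^(1/4) ... ≤ x`, because `c ≤ w/4`; or `Helper13.Om.turan_kubilius` in `Pool/Agent/Helper13/Om/TK.lean`,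
whose hypothesis is `Q.card ≤ N`).  Divide by `n ≥ e^(w-A)` and by `W^2`: the sum is `≤ e^(-(w-A)) C x W/W^2 ≤ C e^(2A)/W`.
-/

set_option autoImplicit false

namespace MRP.U

open Finset Complex MeasureTheory MRP.E

theorem stTKw : StTKw := by
  intro A _
  refine ⟨3 * Real.exp (2 * A), by positivity, ?_⟩
  intro a c w _ _ hcw hAw hW N
  set Q : Finset ℕ := prs a c with hQdef
  set W : ℝ := Wt a c with hWdef
  set N' : ℕ := ⌊Real.exp (w + A)⌋₊ with hN'
  have hW0 : 0 < W := by linarith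
  have hWsum : (∑ p ∈ Q, (1 : ℝ) / p) = W := rfl
  have hQ : ∀ p ∈ Q, p.Prime := by
    intro p hp
    rw [hQdef, prs, Finset.mem_filter] at hp
    exact hp.2
  have hQle : Q ⊆ Finset.Icc 1 N' := by
    intro p hp
    have hp1 := (hQ p hp).one_lt.le
    rw [hQdef, prs, Finset.mem_filter, Finset.mem_Ioc] at hp
    rw [Finset.mem_Icc]
    refine ⟨hp1, hp.1.2.trans ?_⟩
    refine Nat.floor_mono (Real.exp_le_exp.2 ?_)
    by_cases h : 0 ≤ c
    · linarith
    · have : A ≤ w := by nlinarith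
      linarith
  have hcard : Q.card ≤ N' := by
    have h := Finset.card_le_card hQle
    rwa [Nat.card_Icc, Nat.add_sub_cancel] at h
  have htk := Helper13.Om.turan_kubilius Q hQ N' hcard
  rw [hWsum] at htk
  have hN'le : (N' : ℝ) ≤ Real.exp (w + A) := Nat.floor_le (Real.exp_pos _).le
  have h1 : ∑ n ∈ (Finset.Icc 1 N).filter (fun n : ℕ => |Real.log n - w| ≤ A), (1 / (n : ℝ)) *
      (1 - ((Q.filter (fun p => p ∣ n)).card : ℝ) / W) ^ 2 ≤
      ∑ n ∈ (Finset.Icc 1 N).filter (fun n : ℕ => |Real.log n - w| ≤ A),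
        (Real.exp (-(w - A)) / W ^ 2) * ((Helper13.Om.om Q n : ℝ) - W) ^ 2 := by
    refine Finset.sum_le_sum fun n hn => ?_
    rw [Finset.mem_filter, Finset.mem_Icc, abs_le] at hn
    have hn0 : (0 : ℝ) < n := by exact_mod_cast hn.1.1
    have h2 : Real.exp (w - A) ≤ n := by
      calc Real.exp (w - A) ≤ Real.exp (Real.log n) := Real.exp_le_exp.2 (by linarith [hn.2.1])
        _ = n := Real.exp_log hn0
    have h3 : (1 - ((Q.filter (fun p => p ∣ n)).card : ℝ) / W) ^ 2 =
        ((Helper13.Om.om Q n : ℝ) - W) ^ 2 / W ^ 2 := by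
      unfold Helper13.Om.om
      rw [← div_pow, sub_div, div_self hW0.ne']
      ring
    rw [h3]
    have h4 : 1 / (n : ℝ) ≤ Real.exp (-(w - A)) := by
      rw [Real.exp_neg, one_div]
      exact inv_anti₀ (Real.exp_pos _) h2
    calc 1 / (n : ℝ) * (((Helper13.Om.om Q n : ℝ) - W) ^ 2 / W ^ 2)
        ≤ Real.exp (-(w - A)) * (((Helper13.Om.om Q n : ℝ) - W) ^ 2 / W ^ 2) :=
          mul_le_mul_of_nonneg_right h4 (by positivity)
      _ = _ := by ring
  refine h1.trans ?_
  rw [← Finset.mul_sum]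
  have h5 : ∑ n ∈ (Finset.Icc 1 N).filter (fun n : ℕ => |Real.log n - w| ≤ A),
      ((Helper13.Om.om Q n : ℝ) - W) ^ 2 ≤
      ∑ n ∈ Finset.Icc 1 N', ((Helper13.Om.om Q n : ℝ) - W) ^ 2 := by
    refine Finset.sum_le_sum_of_subset_of_nonneg ?_ fun n _ _ => sq_nonneg _
    intro n hn
    rw [Finset.mem_filter, Finset.mem_Icc, abs_le] at hn
    have hn0 : (0 : ℝ) < n := by exact_mod_cast hn.1.1
    rw [Finset.mem_Icc]
    refine ⟨hn.1.1, Nat.le_floor ?_⟩
    calc (n : ℝ) = Real.exp (Real.log n) := (Real.exp_log hn0).symm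
      _ ≤ Real.exp (w + A) := Real.exp_le_exp.2 (by linarith [hn.2.2])
  calc Real.exp (-(w - A)) / W ^ 2 *
        ∑ n ∈ (Finset.Icc 1 N).filter (fun n : ℕ => |Real.log n - w| ≤ A),
          ((Helper13.Om.om Q n : ℝ) - W) ^ 2
      ≤ Real.exp (-(w - A)) / W ^ 2 * (3 * W * Real.exp (w + A)) := by
        refine mul_le_mul_of_nonneg_left (h5.trans (htk.trans ?_)) (by positivity)
        exact mul_le_mul_of_nonneg_left hN'le (by positivity)
    _ = 3 * Real.exp (2 * A) / W := by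
        have h6 : Real.exp (-(w - A)) * Real.exp (w + A) = Real.exp (2 * A) := by
          rw [← Real.exp_add]
          congr 1
          ring
        calc Real.exp (-(w - A)) / W ^ 2 * (3 * W * Real.exp (w + A))
            = 3 * (Real.exp (-(w - A)) * Real.exp (w + A)) * (W / W ^ 2) := by ring
          _ = 3 * Real.exp (2 * A) / W := by
            rw [h6]
            field_simp

end MRP.U
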