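import Mathlib
import Pool.Agent.Helper6.MR.UDefs
import Pool.Agent.Helper10.P5.Mert

/-!
# U04: integers with a very large prime factor are rare

PROOF.  Write `n = p m` with `p > y := e^((1-e)v)`, `p ≤ n ≤ e^(v+A)`.  The sum is `≤ ∑_{y<p≤e^(v+A)} (1/p) ∑_{m : |log m - (v - log p)| ≤ A} 1/m ≤ C ∑_{y<p≤e^(v+A)} 1/p` by `StWindow` (if `v - log p < 0` bound the inner sum by
`∑_{m ≤ e^A} 1/m ≤ 1 + A`).  Mertens: `∑_{y<p≤z} 1/p ≤ log(log z/log y) + C/log y` (library: `Pool/Agent/Helper16/UB/Mert.lean` and others; or a dyadic Chebyshev bound: `∑_{y<p≤z} 1/p ≤ C (log(z/y) + 1)/log y`,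
which is enough: `log(z/y) = ev + A`, `log y ≥ v/2`: `≤ 2C(ev + A + 1)/v ≤ 4C e` for `v ≥ v₀`).
-/

set_option autoImplicit false

namespace MRP.U

open Finset Complex MeasureTheory MRP.E

private theorem u04_window {A C : ℝ}
    (hC : ∀ (w : ℝ), 0 ≤ w → ∀ N : ℕ,
      ∑ n ∈ (Finset.Icc 1 N).filter (fun n : ℕ => |Real.log n - w| ≤ A), (1 / (n : ℝ)) ≤ C)
    (w : ℝ) (N : ℕ) :
    ∑ n ∈ (Finset.Icc 1 N).filter (fun n : ℕ => |Real.log n - w| ≤ A), (1 / (n : ℝ)) ≤ C := by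
  rcases le_or_gt 0 w with hw | hw
  · exact hC w hw N
  · refine le_trans ?_ (hC 0 le_rfl N)
    refine Finset.sum_le_sum_of_subset_of_nonneg ?_ fun _ _ _ => by positivity
    intro m hm
    rw [Finset.mem_filter, Finset.mem_Icc] at hm ⊢
    refine ⟨hm.1, ?_⟩
    have h1 := (abs_le.1 hm.2).2
    have h2 : 0 ≤ Real.log (m : ℝ) := Real.log_natCast_nonneg m
    rw [sub_zero, abs_of_nonneg h2]
    linarith

private theorem u04_prime {A C v : ℝ}
    (hC : ∀ (w : ℝ), 0 ≤ w → ∀ N : ℕ,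
      ∑ n ∈ (Finset.Icc 1 N).filter (fun n : ℕ => |Real.log n - w| ≤ A), (1 / (n : ℝ)) ≤ C)
    (N p : ℕ) (hp : 1 ≤ p) :
    ∑ n ∈ ((Finset.Icc 1 N).filter (fun n : ℕ => |Real.log n - v| ≤ A)).filter (fun n => p ∣ n),
      (1 / (n : ℝ)) ≤ C * (1 / (p : ℝ)) := by
  classical
  have hp0 : (0 : ℝ) < p := by exact_mod_cast hp
  have hsub : ((Finset.Icc 1 N).filter (fun n : ℕ => |Real.log n - v| ≤ A)).filter (fun n => p ∣ n) ⊆
      ((Finset.Icc 1 N).filter (fun m : ℕ => |Real.log m - (v - Real.log p)| ≤ A)).image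
        (fun m => p * m) := by
    intro n hn
    rw [Finset.mem_filter, Finset.mem_filter, Finset.mem_Icc] at hn
    obtain ⟨⟨⟨h1, h2⟩, h3⟩, m, rfl⟩ := hn
    have hm1 : 1 ≤ m := by
      rcases Nat.eq_zero_or_pos m with rfl | h
      · omega
      · exact h
    have hm0 : (0 : ℝ) < m := by exact_mod_cast hm1
    refine Finset.mem_image_of_mem _ ?_
    rw [Finset.mem_filter, Finset.mem_Icc]
    refine ⟨⟨hm1, (Nat.le_mul_of_pos_left m hp).trans h2⟩, ?_⟩
    rw [Nat.cast_mul, Real.log_mul hp0.ne' hm0.ne'] at h3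
    rwa [show Real.log (m : ℝ) - (v - Real.log p) = Real.log p + Real.log m - v by ring]
  refine (Finset.sum_le_sum_of_subset_of_nonneg hsub fun _ _ _ => by positivity).trans ?_
  rw [Finset.sum_image (fun a _ b _ hab => Nat.eq_of_mul_eq_mul_left hp hab)]
  have h4 := mul_le_mul_of_nonneg_right (u04_window hC (v - Real.log p) N)
    (show (0 : ℝ) ≤ 1 / (p : ℝ) by positivity)
  refine le_trans (le_of_eq ?_) h4
  rw [Finset.sum_mul]
  refine Finset.sum_congr rfl fun m _ => ?_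
  push_cast
  rw [one_div_mul_one_div, mul_comm]

theorem stLargeP (hW : StWindow) : StLargeP := by
  classical
  intro A hA
  obtain ⟨C, hC0, hC⟩ := hW A hA
  obtain ⟨M, hM0, hM⟩ := Pool.Agent.Helper10.P5.mertens_interval
  refine ⟨4 * C, by positivity, fun e he he2 => ⟨max 1 ((A + 1 + M) / e), fun v hv N => ?_⟩⟩
  have hv1 : 1 ≤ v := (le_max_left _ _).trans hv
  have hv2 : A + 1 + M ≤ e * v := by
    have h1 : (A + 1 + M) / e ≤ v := (le_max_right _ _).trans hv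
    rw [div_le_iff₀ he] at h1
    linarith
  set y : ℝ := Real.exp ((1 - e) * v) with hy
  set a : ℕ := ⌊y⌋₊ with ha
  set b : ℕ := ⌊Real.exp (v + A)⌋₊ with hb
  have hy1 : 1 ≤ y := by
    rw [hy]
    exact Real.one_le_exp (by nlinarith)
  have ha1 : 1 ≤ a := Nat.le_floor (by exact_mod_cast hy1)
  have hab : a ≤ b := Nat.floor_mono (Real.exp_le_exp.2 (by nlinarith))
  have hb1 : 1 ≤ b := ha1.trans hab
  set P := (Pool.Agent.Helper10.P5.PL b).filter (fun p => a < p) with hP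
  have hPmem : ∀ p ∈ P, p.Prime ∧ y < p := by
    intro p hp
    rw [hP, Finset.mem_filter, Pool.Agent.Helper10.P5.mem_PL] at hp
    exact ⟨hp.1.2, Nat.lt_of_floor_lt hp.2⟩
  -- the sum over the primes
  have hsum : ∑ p ∈ P, (1 / (p : ℝ)) ≤ 4 * e := by
    have h1 : ((1 - e) * v) * ∑ p ∈ P, (1 / (p : ℝ)) ≤ ∑ p ∈ P, Real.log p / p := by
      rw [Finset.mul_sum]
      refine Finset.sum_le_sum fun p hp => ?_
      obtain ⟨hpp, hyp⟩ := hPmem p hp
      have hp0 : (0 : ℝ) < p := by exact_mod_cast hpp.pos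
      have h2 : (1 - e) * v ≤ Real.log p := by
        rw [Real.le_log_iff_exp_le hp0]
        exact hyp.le
      rw [mul_one_div]
      exact div_le_div_of_nonneg_right h2 hp0.le
    have h3 := hM a b ha1 hab
    have h4 : Real.log b ≤ v + A := by
      rw [Real.log_le_iff_le_exp (by exact_mod_cast hb1)]
      exact Nat.floor_le (Real.exp_pos _).le
    have h5 : (1 - e) * v - 1 ≤ Real.log a := by
      have ha0 : (0 : ℝ) < a := by exact_mod_cast ha1
      rw [Real.le_log_iff_exp_le ha0, Real.exp_sub]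
      have h6 : y < (a : ℝ) + 1 := Nat.lt_floor_add_one y
      have h7 : (1 : ℝ) ≤ a := by exact_mod_cast ha1
      have h8 := Real.exp_one_gt_d9
      rw [div_le_iff₀ (Real.exp_pos 1)]
      nlinarith
    have h9 : ((1 - e) * v) * ∑ p ∈ P, (1 / (p : ℝ)) ≤ 2 * (e * v) := by
      calc _ ≤ _ := h1
        _ ≤ Real.log b - Real.log a + M := h3
        _ ≤ 2 * (e * v) := by linarith
    have h10 : 1 / 2 * v * ∑ p ∈ P, (1 / (p : ℝ)) ≤ ((1 - e) * v) * ∑ p ∈ P, (1 / (p : ℝ)) := by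
      apply mul_le_mul_of_nonneg_right _ (Finset.sum_nonneg fun _ _ => by positivity)
      nlinarith
    have h11 : v * (∑ p ∈ P, (1 / (p : ℝ))) ≤ v * (4 * e) := by linarith
    exact le_of_mul_le_mul_left h11 (by linarith)
  -- the reduction to multiples
  have hred : ∑ n ∈ (Finset.Icc 1 N).filter (fun n : ℕ => |Real.log n - v| ≤ A ∧
      ∃ p : ℕ, p.Prime ∧ p ∣ n ∧ Real.exp ((1 - e) * v) < p), (1 / (n : ℝ)) ≤
      ∑ p ∈ P, ∑ n ∈ ((Finset.Icc 1 N).filter (fun n : ℕ => |Real.log n - v| ≤ A)).filter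
        (fun n => p ∣ n), (1 / (n : ℝ)) := by
    simp only [Finset.sum_filter (p := fun n : ℕ => _ ∣ n)]
    rw [Finset.sum_comm]
    have hss : (Finset.Icc 1 N).filter (fun n : ℕ => |Real.log n - v| ≤ A ∧
        ∃ p : ℕ, p.Prime ∧ p ∣ n ∧ Real.exp ((1 - e) * v) < p) ⊆
        (Finset.Icc 1 N).filter (fun n : ℕ => |Real.log n - v| ≤ A) := by
      intro n hn
      rw [Finset.mem_filter] at hn ⊢
      exact ⟨hn.1, hn.2.1⟩
    refine le_trans ?_ (Finset.sum_le_sum_of_subset_of_nonneg hss fun n _ _ =>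
      Finset.sum_nonneg fun p _ => by split_ifs <;> positivity)
    refine Finset.sum_le_sum fun n hn => ?_
    rw [Finset.mem_filter, Finset.mem_Icc] at hn
    obtain ⟨⟨hn1, hn2⟩, hn3, p, hp, hpn, hyp⟩ := hn
    have hn0 : (0 : ℝ) < n := by exact_mod_cast hn1
    have hpP : p ∈ P := by
      rw [hP, Finset.mem_filter, Pool.Agent.Helper10.P5.mem_PL]
      refine ⟨⟨?_, hp⟩, (Nat.floor_lt (by linarith)).2 hyp⟩
      refine (Nat.le_of_dvd hn1 hpn).trans (Nat.le_floor ?_)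
      rw [← Real.log_le_iff_le_exp hn0]
      linarith [(abs_le.1 hn3).2]
    refine le_trans (le_of_eq ?_) (Finset.single_le_sum (f := fun p : ℕ =>
      if p ∣ n then 1 / (n : ℝ) else 0) (fun p _ => by split_ifs <;> positivity) hpP)
    rw [if_pos hpn]
  calc _ ≤ _ := hred
    _ ≤ ∑ p ∈ P, C * (1 / (p : ℝ)) :=
        Finset.sum_le_sum fun p hp => u04_prime hC N p (hPmem p hp).1.one_lt.le
    _ = C * ∑ p ∈ P, (1 / (p : ℝ)) := by rw [Finset.mul_sum]
    _ ≤ C * (4 * e) := mul_le_mul_of_nonneg_left hsum hC0.le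
    _ = 4 * C * e := by ring

end MRP.U
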