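import Mathlib
import Pool.Agent.Helper6.MR.UDefs
import Pool.Agent.Helper13.Om.Short

/-!
# U05: sums over primes of a Lipschitz function

PROOF.  Brun and Titchmarsh: there is an absolute `C₁` and for every `θ` a number `s₀(θ) ≥ 1` with `∑_{e^s<p≤e^(s+θ)} log p/p ≤ C₁ θ` for `s ≥ s₀` (the number of primes in `(y, y e^θ]` is `≤ C y(e^θ-1)/log(y(e^θ-1)) ≤ C' θ y/log y`;
`Helper13.Om.bt_short` in `Pool/Agent/Helper13/Om/Short.lean` or `brun_titchmarsh` in `BT.lean`).  For `p ∈ (e^(iθ), e^((i+1)θ)]`, `iθ ≤ L`: `G(log p) ≤ (1/θ) ∫_{iθ}^{(i+1)θ} G + B θ` (Lipschitz on `[0, L+1]`).  Sum over `i` with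
`s₀ ≤ iθ ≤ L`: `≤ C₁ ∫_0^{L+1} G + C₁ B θ (L + 1)`, `L + 1 ≤ 2L`.  The primes `p ≤ e^(s₀+1)` contribute at most `B ∑ log p/p =: B C_θ`.
-/

set_option autoImplicit false

namespace MRP.U

open Finset Complex MeasureTheory MRP.E

theorem u05_block (θ : ℝ) (hθ : 0 < θ) (hθ1 : θ ≤ 1) : ∃ s₀ : ℝ, 4 ≤ s₀ ∧ ∀ s ≥ s₀,
    ∑ p ∈ (Finset.Ioc ⌊Real.exp s⌋₊ ⌊Real.exp (s + θ)⌋₊).filter Nat.Prime,
      Real.log p / (p : ℝ) ≤ 24 * Helper13.Om.Cs * θ := by
  refine ⟨max 4 (2 * Real.log (3 / θ)), le_max_left _ _, fun s hs => ?_⟩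
  have hs4 : 4 ≤ s := le_trans (le_max_left _ _) hs
  have hs2 : 2 * Real.log (3 / θ) ≤ s := le_trans (le_max_right _ _) hs
  have hCs := Helper13.Om.Cs_pos
  have hr : 3 / θ ≤ Real.exp (s / 2) := by
    have h1 : Real.log (3 / θ) ≤ s / 2 := by linarith
    calc 3 / θ = Real.exp (Real.log (3 / θ)) := (Real.exp_log (by positivity)).symm
      _ ≤ _ := Real.exp_le_exp.mpr h1
  have hr1 : 3 ≤ θ * Real.exp (s / 2) := by
    rw [div_le_iff₀ hθ] at hr
    linarith
  have hr2 : 1 ≤ Real.exp (s / 2) := Real.one_le_exp (by linarith)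
  have hx : Real.exp s = Real.exp (s / 2) * Real.exp (s / 2) := by
    rw [← Real.exp_add]; congr 1; ring
  have hxp : 0 < Real.exp s := Real.exp_pos s
  have hθx : 3 * Real.exp (s / 2) ≤ θ * Real.exp s := by
    rw [hx]
    calc 3 * Real.exp (s / 2) ≤ (θ * Real.exp (s / 2)) * Real.exp (s / 2) :=
          mul_le_mul_of_nonneg_right hr1 (by positivity)
      _ = _ := by ring
  have hy : Real.exp (s + θ) = Real.exp s * Real.exp θ := Real.exp_add s θ
  have he1 : 1 + θ ≤ Real.exp θ := by linarith [Real.add_one_le_exp θ]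
  have he2 : Real.exp θ - 1 ≤ 2 * θ := by
    have h1 := Real.abs_exp_sub_one_le (x := θ) (by rw [abs_of_pos hθ]; exact hθ1)
    rw [abs_of_pos hθ] at h1
    exact (le_abs_self _).trans h1
  have hy1 : Real.exp s + θ * Real.exp s ≤ Real.exp (s + θ) := by
    rw [hy]
    nlinarith
  have hy2 : Real.exp (s + θ) ≤ Real.exp s + 2 * θ * Real.exp s := by
    rw [hy]
    nlinarith
  obtain ⟨a, ha⟩ : ∃ a, a = ⌊Real.exp s⌋₊ := ⟨_, rfl⟩
  obtain ⟨b, hb⟩ : ∃ b, b = ⌊Real.exp (s + θ)⌋₊ := ⟨_, rfl⟩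
  rw [← ha, ← hb]
  have ha1 : (a : ℝ) ≤ Real.exp s := by rw [ha]; exact Nat.floor_le hxp.le
  have ha2 : Real.exp s < a + 1 := by rw [ha]; exact Nat.lt_floor_add_one _
  have hb1 : (b : ℝ) ≤ Real.exp (s + θ) := by rw [hb]; exact Nat.floor_le (Real.exp_pos _).le
  have hb2 : Real.exp (s + θ) < b + 1 := by rw [hb]; exact Nat.lt_floor_add_one _
  have hab : a ≤ b := by
    have : (a : ℝ) ≤ b := by nlinarith
    exact_mod_cast this
  obtain ⟨e, he⟩ : ∃ e, e = ⌊s / 2⌋₊ := ⟨_, rfl⟩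
  have he3 : (e : ℝ) ≤ s / 2 := by rw [he]; exact Nat.floor_le (by linarith)
  have he4 : s / 2 < e + 1 := by rw [he]; exact Nat.lt_floor_add_one _
  have he5 : s / 4 ≤ e := by linarith
  have he6 : 1 ≤ e := by
    have : (1 : ℝ) ≤ e := by linarith
    exact_mod_cast this
  have h2e : (2 : ℝ) ^ e ≤ Real.exp (s / 2) := by
    calc (2 : ℝ) ^ e ≤ (Real.exp 1) ^ e := by
          apply pow_le_pow_left₀ (by norm_num)
          linarith [Real.add_one_le_exp (1 : ℝ)]
      _ = Real.exp e := by rw [← Real.exp_nat_mul]; simp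
      _ ≤ _ := Real.exp_le_exp.mpr he3
  have hX : 2 ^ e ≤ a + 1 := by
    have : ((2 ^ e : ℕ) : ℝ) ≤ ((a + 1 : ℕ) : ℝ) := by
      push_cast
      have h3 : Real.exp (s / 2) ≤ Real.exp s := Real.exp_le_exp.mpr (by linarith)
      linarith
    exact_mod_cast this
  have hYr : ((b - a : ℕ) : ℝ) = b - a := by rw [Nat.cast_sub hab]
  have hY : 2 ^ e ≤ b - a := by
    have : ((2 ^ e : ℕ) : ℝ) ≤ ((b - a : ℕ) : ℝ) := by
      rw [hYr]
      push_cast
      linarith
    exact_mod_cast this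
  have hbt := Helper13.Om.bt_short e he6 (a + 1) (b - a) hX hY
  have hset : Finset.Ico (a + 1) (a + 1 + (b - a)) = Finset.Ioc a b := by
    ext m
    simp only [Finset.mem_Ico, Finset.mem_Ioc]
    omega
  rw [hset, hYr] at hbt
  have hYu : (b : ℝ) - a ≤ 3 * θ * Real.exp s := by nlinarith
  have hterm : ∀ p ∈ (Finset.Ioc a b).filter Nat.Prime, Real.log p / (p : ℝ) ≤
      2 * s / Real.exp s := by
    intro p hp
    rw [Finset.mem_filter, Finset.mem_Ioc] at hp
    obtain ⟨⟨h1, h2⟩, _⟩ := hp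
    have h3 : Real.exp s < p := by
      have : ((a + 1 : ℕ) : ℝ) ≤ p := by exact_mod_cast h1
      push_cast at this
      linarith
    have h4 : (p : ℝ) ≤ Real.exp (s + θ) := by
      have : (p : ℝ) ≤ b := by exact_mod_cast h2
      linarith
    have hp0 : (0 : ℝ) < p := hxp.trans h3
    have h5 : Real.log p ≤ s + θ := by
      have := Real.log_le_log hp0 h4
      rwa [Real.log_exp] at this
    have h6 : Real.log p ≤ 2 * s := by linarith
    calc Real.log p / (p : ℝ) ≤ 2 * s / p := div_le_div_of_nonneg_right h6 hp0.le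
      _ ≤ 2 * s / Real.exp s := div_le_div_of_nonneg_left (by linarith) hxp h3.le
  have h7 := Finset.sum_le_card_nsmul _ _ _ hterm
  rw [nsmul_eq_mul] at h7
  refine h7.trans ?_
  have heR : (0 : ℝ) < e := by exact_mod_cast he6
  have h8 : (((Finset.Ioc a b).filter Nat.Prime).card : ℝ) ≤
      Helper13.Om.Cs * (3 * θ * Real.exp s) / (s / 4) := by
    refine hbt.trans ?_
    have h9 : Helper13.Om.Cs * ((b : ℝ) - a) ≤ Helper13.Om.Cs * (3 * θ * Real.exp s) :=
      mul_le_mul_of_nonneg_left hYu hCs.le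
    calc Helper13.Om.Cs * ((b : ℝ) - a) / e ≤ Helper13.Om.Cs * (3 * θ * Real.exp s) / e :=
          div_le_div_of_nonneg_right h9 heR.le
      _ ≤ _ := div_le_div_of_nonneg_left (by positivity) (by linarith) he5
  calc (((Finset.Ioc a b).filter Nat.Prime).card : ℝ) * (2 * s / Real.exp s) ≤
        Helper13.Om.Cs * (3 * θ * Real.exp s) / (s / 4) * (2 * s / Real.exp s) :=
        mul_le_mul_of_nonneg_right h8 (by positivity)
    _ = 24 * Helper13.Om.Cs * θ := by
        field_simp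
        ring

theorem stPrimeInt : StPrimeInt := by
  have hCs := Helper13.Om.Cs_pos
  refine ⟨48 * Helper13.Om.Cs, by positivity, fun θ hθ hθ1 => ?_⟩
  obtain ⟨s₀, hs₀, hblock⟩ := u05_block θ hθ hθ1
  obtain ⟨i₀, hi₀⟩ : ∃ i₀, i₀ = ⌈s₀ / θ⌉₊ := ⟨_, rfl⟩
  have hi₀θ : s₀ ≤ i₀ * θ := by
    rw [← div_le_iff₀ hθ, hi₀]
    exact Nat.le_ceil _
  obtain ⟨F₀, hF₀⟩ : ∃ F₀, F₀ = (Finset.Icc 1 ⌊Real.exp (i₀ * θ)⌋₊).filter Nat.Prime := ⟨_, rfl⟩
  have hnn : ∀ p : ℕ, 0 ≤ Real.log p / (p : ℝ) := fun p =>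
    div_nonneg (Real.log_natCast_nonneg p) (Nat.cast_nonneg p)
  refine ⟨∑ p ∈ F₀, Real.log p / (p : ℝ) + 1, by
    have : 0 ≤ ∑ p ∈ F₀, Real.log p / (p : ℝ) := Finset.sum_nonneg (fun p _ => hnn p)
    linarith, fun L B G hL hB hGc hG0 hGB hGL => ?_⟩
  obtain ⟨F, hF⟩ : ∃ F, F = (Finset.Icc 1 ⌊Real.exp L⌋₊).filter Nat.Prime := ⟨_, rfl⟩
  rw [← hF]
  have hFm : ∀ p ∈ F, p.Prime ∧ 0 ≤ Real.log p ∧ Real.log p ≤ L ∧ (0 : ℝ) < p := by
    intro p hp
    rw [hF, Finset.mem_filter, Finset.mem_Icc] at hp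
    obtain ⟨⟨h1, h2⟩, h3⟩ := hp
    have h4 : (0 : ℝ) < p := by exact_mod_cast h3.pos
    have h5 : (p : ℝ) ≤ Real.exp L :=
      (Nat.le_floor_iff (Real.exp_pos L).le).mp h2
    refine ⟨h3, Real.log_natCast_nonneg p, ?_, h4⟩
    have := Real.log_le_log h4 h5
    rwa [Real.log_exp] at this
  -- split
  rw [← Finset.sum_filter_add_sum_filter_not F (fun p => Real.log p ≤ i₀ * θ)]
  have hpart1 : ∑ p ∈ F.filter (fun p : ℕ => Real.log p ≤ i₀ * θ),
      (Real.log p / p) * G (Real.log p) ≤ (∑ p ∈ F₀, Real.log p / (p : ℝ) + 1) * B := by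
    calc ∑ p ∈ F.filter (fun p : ℕ => Real.log p ≤ i₀ * θ), (Real.log p / p) * G (Real.log p)
        ≤ ∑ p ∈ F.filter (fun p : ℕ => Real.log p ≤ i₀ * θ), (Real.log p / p) * B := by
          apply Finset.sum_le_sum
          intro p hp
          rw [Finset.mem_filter] at hp
          obtain ⟨_, h2, h3, _⟩ := hFm p hp.1
          exact mul_le_mul_of_nonneg_left (hGB _ ⟨h2, by linarith⟩) (hnn p)
      _ ≤ ∑ p ∈ F₀, (Real.log p / p) * B := by
          apply Finset.sum_le_sum_of_subset_of_nonneg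
          · intro p hp
            rw [Finset.mem_filter] at hp
            obtain ⟨h1, h2, h3, h4⟩ := hFm p hp.1
            rw [hF₀, Finset.mem_filter, Finset.mem_Icc]
            refine ⟨⟨h1.pos, ?_⟩, h1⟩
            rw [Nat.le_floor_iff (Real.exp_pos _).le]
            rw [← Real.exp_log h4]
            exact Real.exp_le_exp.mpr hp.2
          · intro p _ _
            exact mul_nonneg (hnn p) hB
      _ = (∑ p ∈ F₀, Real.log p / (p : ℝ)) * B := by rw [Finset.sum_mul]
      _ ≤ _ := by nlinarith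
  obtain ⟨i₁, hi₁⟩ : ∃ i₁, i₁ = ⌈L / θ⌉₊ := ⟨_, rfl⟩
  have hi₁a : L ≤ i₁ * θ := by
    rw [← div_le_iff₀ hθ, hi₁]
    exact Nat.le_ceil _
  have hi₁b : i₁ * θ ≤ L + 1 := by
    have h1 : (i₁ : ℝ) < L / θ + 1 := by
      rw [hi₁]
      exact Nat.ceil_lt_add_one (by positivity)
    have h2 : (i₁ : ℝ) * θ < (L / θ + 1) * θ := mul_lt_mul_of_pos_right h1 hθ
    have h3 : (L / θ + 1) * θ = L + θ := by field_simp
    linarith
  have hint : ∀ x y : ℝ, IntervalIntegrable G volume x y := fun x y => hGc.intervalIntegrable x y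
  have hpart2 : ∑ p ∈ F.filter (fun p : ℕ => ¬ Real.log p ≤ i₀ * θ),
      (Real.log p / p) * G (Real.log p) ≤
      48 * Helper13.Om.Cs * (∫ s in (0 : ℝ)..(L + 1), G s) + 48 * Helper13.Om.Cs * B * θ * L := by
    have hmaps : ∀ p ∈ F.filter (fun p : ℕ => ¬ Real.log p ≤ i₀ * θ),
        (⌈Real.log p / θ⌉₊ - 1) ∈ Finset.Ico i₀ i₁ := by
      intro p hp
      rw [Finset.mem_filter, not_le] at hp
      obtain ⟨_, h2, h3, _⟩ := hFm p hp.1
      have h5 : (i₀ : ℝ) < Real.log p / θ := by rw [lt_div_iff₀ hθ]; exact hp.2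
      have h6 : i₀ < ⌈Real.log p / θ⌉₊ := Nat.lt_ceil.mpr h5
      have h7 : ⌈Real.log p / θ⌉₊ ≤ i₁ := by
        rw [hi₁]
        exact Nat.ceil_le_ceil (div_le_div_of_nonneg_right h3 hθ.le)
      rw [Finset.mem_Ico]
      omega
    rw [← Finset.sum_fiberwise_of_maps_to hmaps]
    have hfib : ∀ i ∈ Finset.Ico i₀ i₁,
        ∑ p ∈ (F.filter (fun p : ℕ => ¬ Real.log p ≤ i₀ * θ)).filter
          (fun p : ℕ => ⌈Real.log p / θ⌉₊ - 1 = i), (Real.log p / p) * G (Real.log p) ≤
        24 * Helper13.Om.Cs * (∫ s in (i * θ : ℝ)..((i + 1 : ℕ) * θ), G s) +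
          24 * Helper13.Om.Cs * B * θ * θ := by
      intro i hi
      rw [Finset.mem_Ico] at hi
      have hiθ0 : (0 : ℝ) ≤ i * θ := by positivity
      have hi1θ : ((i + 1 : ℕ) : ℝ) * θ ≤ L + 1 := by
        have h1 : ((i + 1 : ℕ) : ℝ) ≤ i₁ := by exact_mod_cast hi.2
        calc ((i + 1 : ℕ) : ℝ) * θ ≤ i₁ * θ := mul_le_mul_of_nonneg_right h1 hθ.le
          _ ≤ _ := hi₁b
      have hi1 : ((i + 1 : ℕ) : ℝ) * θ = i * θ + θ := by push_cast; ring
      have hloc : ∀ p : ℕ, i * θ < Real.log p → Real.log p ≤ i * θ + θ →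
          G (Real.log p) ≤ (1 / θ) * (∫ s in (i * θ : ℝ)..((i + 1 : ℕ) * θ), G s) + B * θ := by
        intro p h1 h2
        have h3 : ∀ s ∈ Set.Icc (i * θ : ℝ) ((i + 1 : ℕ) * θ), G (Real.log p) - B * θ ≤ G s := by
          intro s hs
          rw [hi1] at hs hi1θ
          have h4 := hGL (Real.log p) ⟨by linarith, by linarith⟩ s
            ⟨by linarith [hs.1], by linarith [hs.2]⟩
          have h5 : |Real.log p - s| ≤ θ := by
            rw [abs_le]
            constructor <;> linarith [hs.1, hs.2]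
          have h6 : B * |Real.log p - s| ≤ B * θ := mul_le_mul_of_nonneg_left h5 hB
          have h7 := (le_abs_self (G (Real.log p) - G s)).trans h4
          linarith
        have h8 : ∫ _ in (i * θ : ℝ)..((i + 1 : ℕ) * θ), (G (Real.log p) - B * θ) ≤
            ∫ s in (i * θ : ℝ)..((i + 1 : ℕ) * θ), G s := by
          apply intervalIntegral.integral_mono_on (by rw [hi1]; linarith)
            intervalIntegrable_const (hint _ _) h3
        rw [intervalIntegral.integral_const, smul_eq_mul, hi1] at h8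
        have h9 : (i * θ + θ - i * θ) * (G (Real.log p) - B * θ) =
            θ * (G (Real.log p) - B * θ) := by ring
        rw [h9] at h8
        rw [hi1]
        have h10 : G (Real.log p) - B * θ ≤ (1 / θ) * ∫ s in (i * θ : ℝ)..(i * θ + θ), G s := by
          rw [one_div, inv_mul_eq_div, le_div_iff₀ hθ]
          linarith
        linarith
      have hKnn : 0 ≤ (1 / θ) * (∫ s in (i * θ : ℝ)..((i + 1 : ℕ) * θ), G s) + B * θ := by
        have : 0 ≤ ∫ s in (i * θ : ℝ)..((i + 1 : ℕ) * θ), G s := by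
          apply intervalIntegral.integral_nonneg (by rw [hi1]; linarith)
          intro s _
          exact hG0 s
        positivity
      calc ∑ p ∈ (F.filter (fun p : ℕ => ¬ Real.log p ≤ i₀ * θ)).filter
            (fun p : ℕ => ⌈Real.log p / θ⌉₊ - 1 = i), (Real.log p / p) * G (Real.log p)
          ≤ ∑ p ∈ (F.filter (fun p : ℕ => ¬ Real.log p ≤ i₀ * θ)).filter
            (fun p : ℕ => ⌈Real.log p / θ⌉₊ - 1 = i), (Real.log p / p) *
              ((1 / θ) * (∫ s in (i * θ : ℝ)..((i + 1 : ℕ) * θ), G s) + B * θ) := by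
            apply Finset.sum_le_sum
            intro p hp
            rw [Finset.mem_filter, Finset.mem_filter, not_le] at hp
            obtain ⟨⟨h1, h2⟩, h3⟩ := hp
            have h4 : (i₀ : ℝ) < Real.log p / θ := by rw [lt_div_iff₀ hθ]; exact h2
            have h5 : i₀ < ⌈Real.log p / θ⌉₊ := Nat.lt_ceil.mpr h4
            have h6 : ⌈Real.log p / θ⌉₊ = i + 1 := by omega
            have h7 : i < ⌈Real.log p / θ⌉₊ := by omega
            rw [Nat.lt_ceil, lt_div_iff₀ hθ] at h7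
            have h8 : Real.log p / θ ≤ ((i + 1 : ℕ) : ℝ) := by
              rw [← h6]
              exact Nat.le_ceil _
            rw [div_le_iff₀ hθ, hi1] at h8
            exact mul_le_mul_of_nonneg_left (hloc p h7 h8) (hnn p)
        _ ≤ ∑ p ∈ (Finset.Ioc ⌊Real.exp (i * θ)⌋₊ ⌊Real.exp (i * θ + θ)⌋₊).filter Nat.Prime,
              (Real.log p / p) *
              ((1 / θ) * (∫ s in (i * θ : ℝ)..((i + 1 : ℕ) * θ), G s) + B * θ) := by
            apply Finset.sum_le_sum_of_subset_of_nonneg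
            · intro p hp
              rw [Finset.mem_filter, Finset.mem_filter, not_le] at hp
              obtain ⟨⟨h1, h2⟩, h3⟩ := hp
              obtain ⟨g1, g2, g3, g4⟩ := hFm p h1
              have h4 : (i₀ : ℝ) < Real.log p / θ := by rw [lt_div_iff₀ hθ]; exact h2
              have h5 : i₀ < ⌈Real.log p / θ⌉₊ := Nat.lt_ceil.mpr h4
              have h6 : ⌈Real.log p / θ⌉₊ = i + 1 := by omega
              have h7 : i < ⌈Real.log p / θ⌉₊ := by omega
              rw [Nat.lt_ceil, lt_div_iff₀ hθ] at h7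
              have h8 : Real.log p / θ ≤ ((i + 1 : ℕ) : ℝ) := by
                rw [← h6]
                exact Nat.le_ceil _
              rw [div_le_iff₀ hθ, hi1] at h8
              rw [Finset.mem_filter, Finset.mem_Ioc]
              refine ⟨⟨?_, ?_⟩, g1⟩
              · rw [Nat.floor_lt (Real.exp_pos _).le, ← Real.exp_log g4]
                exact Real.exp_lt_exp.mpr h7
              · rw [Nat.le_floor_iff (Real.exp_pos _).le, ← Real.exp_log g4]
                exact Real.exp_le_exp.mpr h8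
            · intro p _ _
              exact mul_nonneg (hnn p) hKnn
        _ = (∑ p ∈ (Finset.Ioc ⌊Real.exp (i * θ)⌋₊ ⌊Real.exp (i * θ + θ)⌋₊).filter Nat.Prime,
              (Real.log p / (p : ℝ))) *
              ((1 / θ) * (∫ s in (i * θ : ℝ)..((i + 1 : ℕ) * θ), G s) + B * θ) := by
            rw [Finset.sum_mul]
        _ ≤ (24 * Helper13.Om.Cs * θ) *
              ((1 / θ) * (∫ s in (i * θ : ℝ)..((i + 1 : ℕ) * θ), G s) + B * θ) := by
            apply mul_le_mul_of_nonneg_right _ hKnn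
            apply hblock
            have h1 : (i₀ : ℝ) ≤ i := by exact_mod_cast hi.1
            have h2 : (i₀ : ℝ) * θ ≤ i * θ := mul_le_mul_of_nonneg_right h1 hθ.le
            linarith
        _ = _ := by
            field_simp
    refine (Finset.sum_le_sum hfib).trans ?_
    rw [Finset.sum_add_distrib, ← Finset.mul_sum]
    by_cases hii : i₀ ≤ i₁
    · have hsumint : ∑ i ∈ Finset.Ico i₀ i₁, ∫ s in (i * θ : ℝ)..((i + 1 : ℕ) * θ), G s =
          ∫ s in (i₀ * θ : ℝ)..(i₁ * θ), G s :=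
        intervalIntegral.sum_integral_adjacent_intervals_Ico (a := fun k : ℕ => (k : ℝ) * θ) hii
          (fun k _ => hint _ _)
      rw [hsumint]
      have hle : ∫ s in (i₀ * θ : ℝ)..(i₁ * θ), G s ≤ ∫ s in (0 : ℝ)..(L + 1), G s := by
        apply intervalIntegral.integral_mono_interval (by positivity) _ hi₁b _ (hint _ _)
        · exact mul_le_mul_of_nonneg_right (by exact_mod_cast hii) hθ.le
        · exact Filter.Eventually.of_forall hG0
      have hint0 : 0 ≤ ∫ s in (0 : ℝ)..(L + 1), G s :=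
        intervalIntegral.integral_nonneg (by linarith) (fun s _ => hG0 s)
      have hcard : ∑ _i ∈ Finset.Ico i₀ i₁, 24 * Helper13.Om.Cs * B * θ * θ ≤
          48 * Helper13.Om.Cs * B * θ * L := by
        rw [Finset.sum_const, Nat.card_Ico, nsmul_eq_mul]
        have h1 : ((i₁ - i₀ : ℕ) : ℝ) ≤ i₁ := by exact_mod_cast Nat.sub_le _ _
        have h2 : (0 : ℝ) ≤ 24 * Helper13.Om.Cs * B * θ := by positivity
        calc ((i₁ - i₀ : ℕ) : ℝ) * (24 * Helper13.Om.Cs * B * θ * θ)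
            ≤ i₁ * (24 * Helper13.Om.Cs * B * θ * θ) :=
              mul_le_mul_of_nonneg_right h1 (by positivity)
          _ = (24 * Helper13.Om.Cs * B * θ) * (i₁ * θ) := by ring
          _ ≤ (24 * Helper13.Om.Cs * B * θ) * (2 * L) :=
              mul_le_mul_of_nonneg_left (by linarith) h2
          _ = _ := by ring
      have h3 : 24 * Helper13.Om.Cs * (∫ s in (i₀ * θ : ℝ)..(i₁ * θ), G s) ≤
          48 * Helper13.Om.Cs * (∫ s in (0 : ℝ)..(L + 1), G s) := by
        calc 24 * Helper13.Om.Cs * (∫ s in (i₀ * θ : ℝ)..(i₁ * θ), G s)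
            ≤ 24 * Helper13.Om.Cs * (∫ s in (0 : ℝ)..(L + 1), G s) :=
              mul_le_mul_of_nonneg_left hle (by positivity)
          _ ≤ _ := mul_le_mul_of_nonneg_right (by linarith) hint0
      linarith
    · have hint0 : 0 ≤ ∫ s in (0 : ℝ)..(L + 1), G s :=
        intervalIntegral.integral_nonneg (by linarith) (fun s _ => hG0 s)
      rw [Finset.Ico_eq_empty (by omega)]
      simp only [Finset.sum_empty, mul_zero, add_zero]
      positivity
  linarith

end MRP.U
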