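import Mathlib
import Pool.Agent.Helper6.MR.UDefs

/-!
# U06: convolution with a finite measure; Plancherel

PROOF.  Let `F w = ∑_{p∈P} c p * G (w - h p)`; `G, F, deriv G` are continuous with compact support, so in `L¹ ∩ L²`.  Fourier transform `𝓕 G ξ = ∫ exp(-2πi w ξ) G w dw`: `𝓕 (G(· - a)) ξ = exp(-2πi a ξ) 𝓕 G ξ`, hence `𝓕 F ξ = m(ξ) 𝓕 G ξ`,
`m(ξ) = ∑ c p * ph(-(2πξ h p))`.  `𝓕 (deriv G) ξ = 2πiξ 𝓕 G ξ` (`Real.fourierIntegral_deriv` / `Real.fourier_deriv`).  Plancherel (Mathlib: `MeasureTheory.integral_norm_sq_fourier...` / `Lp.norm_fourier_eq`, search for Plancherel; `G`, `F` and `deriv G`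
are in `L¹ ∩ L²`).  For `|ξ| ≤ U₀/(2π)`: `‖m ξ‖ ≤ M`.  For `|ξ| > U₀/(2π)`: `‖m ξ‖ ≤ ∑‖c p‖ =: S` and `‖𝓕 G ξ‖ ≤ ‖𝓕 (deriv G) ξ‖/(2π|ξ|) ≤ ‖𝓕 (deriv G) ξ‖/U₀`.  So
`∫‖F‖^2 = ∫‖𝓕 F‖^2 ≤ M^2 ∫‖𝓕 G‖^2 + (S^2/U₀^2) ∫ ‖𝓕(deriv G)‖^2`, and Plancherel again.
-/

set_option autoImplicit false

namespace MRP.U

open Finset Complex MeasureTheory MRP.E FourierTransform SchwartzMap
open scoped SchwartzMap ContDiff

lemma u06_flip (f g : ℝ → ℂ) (hf : Integrable f) (hg : Integrable g) : ∫ x, 𝓕 f x * g x = ∫ x, f x * 𝓕 g x := by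
  have := VectorFourier.integral_fourierIntegral_smul_eq_flip (L := innerₗ ℝ) Real.continuous_fourierChar continuous_inner hf hg
  simpa using! this

lemma u06_cont (f : ℝ → ℂ) (hf : Integrable f) : Continuous (𝓕 f) :=
  VectorFourier.fourierIntegral_continuous (L := innerₗ ℝ) Real.continuous_fourierChar continuous_inner hf

lemma u06_fourier_ae (f : ℝ → ℂ) (hfi : Integrable f) (hm : MemLp f 2 (volume : Measure ℝ)) :
    ((𝓕 (hm.toLp f) : Lp ℂ 2 (volume : Measure ℝ)) : ℝ → ℂ) =ᵐ[volume] 𝓕 f := by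
  have key : ∀ g : 𝓢(ℝ, ℂ), ∫ x, g x • ((𝓕 (hm.toLp f) : Lp ℂ 2 (volume : Measure ℝ)) : ℝ → ℂ) x = ∫ x, g x • 𝓕 f x := by
    intro g
    have h1 : (𝓕 ((hm.toLp f : Lp ℂ 2 (volume : Measure ℝ)) : 𝓢'(ℝ, ℂ))) g =
        ((𝓕 (hm.toLp f) : Lp ℂ 2 (volume : Measure ℝ)) : 𝓢'(ℝ,ℂ)) g := by
      rw [Lp.fourier_toTemperedDistribution_eq]
    rw [TemperedDistribution.fourier_apply, Lp.toTemperedDistribution_apply, Lp.toTemperedDistribution_apply] at h1
    rw [← h1]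
    have h2 : ∫ x, (𝓕 g : 𝓢(ℝ, ℂ)) x • ((hm.toLp f : Lp ℂ 2 (volume : Measure ℝ)) : ℝ → ℂ) x = ∫ x, (𝓕 g : 𝓢(ℝ, ℂ)) x • f x := by
      apply integral_congr_ae
      filter_upwards [hm.coeFn_toLp] with x hx
      rw [hx]
    rw [h2]
    have h3 := u06_flip g f g.integrable hfi
    simp only [smul_eq_mul]
    rw [← h3]
    rfl
  refine ae_eq_of_integral_contDiff_smul_eq ?_ ?_ ?_
  · exact (Lp.memLp _).locallyIntegrable (by norm_num)
  · exact (u06_cont f hfi).locallyIntegrable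
  · intro g hg hgc
    have hgc' : HasCompactSupport (fun x => ((g x : ℝ) : ℂ)) := hgc.comp_left (g := fun x : ℝ => (x : ℂ)) (by simp)
    have hg' : ContDiff ℝ (∞ : WithTop ℕ∞) (fun x => ((g x : ℝ) : ℂ)) := Complex.ofRealCLM.contDiff.comp hg
    have := key (hgc'.toSchwartzMap hg')
    simpa using this

lemma u06_plancherel (f : ℝ → ℂ) (hfi : Integrable f) (hm : MemLp f 2 (volume : Measure ℝ)) :
    Integrable (fun ξ => ‖𝓕 f ξ‖ ^ 2) ∧ ∫ ξ, ‖𝓕 f ξ‖ ^ 2 = ∫ x, ‖f x‖ ^ 2 := by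
  have hae := u06_fourier_ae f hfi hm
  have h2 : MemLp (𝓕 f) 2 (volume : Measure ℝ) := (memLp_congr_ae hae).mp (Lp.memLp _)
  refine ⟨h2.integrable_norm_pow (by norm_num), ?_⟩
  have key : ∀ g : Lp ℂ 2 (volume : Measure ℝ), ‖g‖ ^ 2 = ∫ x, ‖g x‖ ^ 2 := by
    intro g
    have h := L2.inner_def (𝕜 := ℂ) g g
    simp only [inner_self_eq_norm_sq_to_K] at h
    have h' : ((‖g‖ ^ 2 : ℝ) : ℂ) = ((∫ x, ‖g x‖ ^ 2 : ℝ) : ℂ) := by
      rw [← integral_complex_ofReal]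
      simpa using! h
    exact_mod_cast h'
  have h3 := key (𝓕 (hm.toLp f))
  have h4 := key (hm.toLp f)
  rw [Lp.norm_fourier_eq, h4] at h3
  rw [integral_congr_ae (show (fun ξ => ‖𝓕 f ξ‖ ^ 2) =ᵐ[volume] fun ξ => ‖((𝓕 (hm.toLp f) : Lp ℂ 2 (volume : Measure ℝ)) : ℝ → ℂ) ξ‖ ^ 2 from ?_), ← h3]
  · apply integral_congr_ae
    filter_upwards [hm.coeFn_toLp] with x hx
    rw [hx]
  · filter_upwards [hae] with x hx
    rw [hx]

lemma u06_shift (G : ℝ → ℂ) (a ξ : ℝ) : 𝓕 (fun w => G (w - a)) ξ = ph (-(2 * Real.pi * ξ * a)) * 𝓕 G ξ := by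
  rw [Real.fourier_real_eq_integral_exp_smul, Real.fourier_real_eq_integral_exp_smul]
  rw [← integral_sub_right_eq_self (fun v => Complex.exp (↑(-2 * Real.pi * v * ξ) * I) • G v) a] 
  rw [← integral_const_mul]
  congr 1
  ext v
  unfold ph
  simp only [smul_eq_mul]
  rw [← mul_assoc, ← Complex.exp_add]
  congr 2
  push_cast
  ring

lemma u06_sum (P : Finset ℕ) (c : ℕ → ℂ) (h : ℕ → ℝ) (G : ℝ → ℂ) (hG : Integrable G) (ξ : ℝ) :
    𝓕 (fun w => ∑ p ∈ P, c p * G (w - h p)) ξ = (∑ p ∈ P, c p * ph (-(2 * Real.pi * ξ * h p))) * 𝓕 G ξ := by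
  rw [Real.fourier_real_eq_integral_exp_smul, Finset.sum_mul]
  have : ∀ v : ℝ, Complex.exp (↑(-2 * Real.pi * v * ξ) * I) • ∑ p ∈ P, c p * G (v - h p)
      = ∑ p ∈ P, c p * (Complex.exp (↑(-2 * Real.pi * v * ξ) * I) • G (v - h p)) := by
    intro v
    rw [Finset.smul_sum]
    apply Finset.sum_congr rfl
    intro p _
    simp only [smul_eq_mul]
    ring
  simp_rw [this]
  rw [integral_finsetSum]
  · apply Finset.sum_congr rfl
    intro p _
    rw [integral_const_mul, mul_assoc, ← u06_shift, Real.fourier_real_eq_integral_exp_smul]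
  · intro p _
    apply Integrable.const_mul
    have h0 := (Real.fourierIntegral_convergent_iff (V := ℝ) (μ := volume) (f := fun v => G (v - h p)) ξ).2 (hG.comp_sub_right (h p))
    refine h0.congr (Filter.Eventually.of_forall (fun v => ?_))
    simp only [Circle.smul_def, Real.fourierChar_apply]
    congr 3
    simp
    ring

theorem stConv : StConv := by
  intro P c h G U₀ M hU₀ hG hGc hM
  have hGcont : Continuous G := hG.continuous
  have hGi : Integrable G := hGcont.integrable_of_hasCompactSupport hGc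
  have hGm : MemLp G 2 (volume : Measure ℝ) := hGcont.memLp_of_hasCompactSupport hGc
  have hDcont : Continuous (deriv G) := hG.continuous_deriv (le_refl _)
  have hDc : HasCompactSupport (deriv G) := hGc.deriv
  have hDi : Integrable (deriv G) := hDcont.integrable_of_hasCompactSupport hDc
  have hDm : MemLp (deriv G) 2 (volume : Measure ℝ) := hDcont.memLp_of_hasCompactSupport hDc
  set F : ℝ → ℂ := fun w => ∑ p ∈ P, c p * G (w - h p) with hF
  have hFcont : Continuous F := by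
    apply continuous_finsetSum
    intro p _
    exact continuous_const.mul (hGcont.comp (continuous_id.sub continuous_const))
  have hFi : Integrable F := by
    apply integrable_finsetSum
    intro p _
    exact (hGi.comp_sub_right (h p)).const_mul _
  have hFm : MemLp F 2 (volume : Measure ℝ) := by
    apply memLp_finsetSum
    intro p _
    apply MemLp.const_mul
    exact hGm.comp_measurePreserving (measurePreserving_sub_right volume (h p))
  obtain ⟨hF1, hF2⟩ := u06_plancherel F hFi hFm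
  obtain ⟨hG1, hG2⟩ := u06_plancherel G hGi hGm
  obtain ⟨hD1, hD2⟩ := u06_plancherel (deriv G) hDi hDm
  change ∫ w, ‖F w‖ ^ 2 ≤ _
  rw [← hF2, ← hG2, ← hD2, ← integral_const_mul, ← integral_const_mul, ← integral_add (hG1.const_mul _) (hD1.const_mul _)]
  apply integral_mono hF1 ((hG1.const_mul _).add (hD1.const_mul _))
  intro ξ
  simp only [Pi.add_apply]
  have hd := congrFun (Real.fourier_deriv hGi (hG.differentiable (by norm_num)) hDi) ξ
  have hFe : 𝓕 F ξ = (∑ p ∈ P, c p * ph (-(2 * Real.pi * ξ * h p))) * 𝓕 G ξ := u06_sum P c h G hGi ξ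
  rw [hFe, norm_mul, mul_pow]
  set S := ∑ p ∈ P, ‖c p‖ with hS
  have hS0 : 0 ≤ S := Finset.sum_nonneg (fun _ _ => norm_nonneg _)
  by_cases hξ : |2 * Real.pi * ξ| ≤ U₀
  · have h1 := hM (2 * Real.pi * ξ) hξ
    have h2 : ‖∑ p ∈ P, c p * ph (-(2 * Real.pi * ξ * h p))‖ ^ 2 ≤ M ^ 2 := pow_le_pow_left₀ (norm_nonneg _) h1 2
    have h3 : 0 ≤ S ^ 2 / U₀ ^ 2 * ‖𝓕 (deriv G) ξ‖ ^ 2 := by positivity
    have h4 : 0 ≤ ‖𝓕 G ξ‖ ^ 2 := by positivity
    nlinarith [mul_le_mul_of_nonneg_right h2 h4]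
  · push Not at hξ
    have h1 : ‖∑ p ∈ P, c p * ph (-(2 * Real.pi * ξ * h p))‖ ≤ S := by
      refine (norm_sum_le _ _).trans (Finset.sum_le_sum ?_)
      intro p _
      rw [norm_mul]
      have : ‖ph (-(2 * Real.pi * ξ * h p))‖ = 1 := by
        unfold ph
        exact Complex.norm_exp_ofReal_mul_I _
      rw [this, mul_one]
    have h2 : ‖𝓕 (deriv G) ξ‖ = |2 * Real.pi * ξ| * ‖𝓕 G ξ‖ := by
      rw [hd]
      simp only [smul_eq_mul, norm_mul, Complex.norm_I, Complex.norm_real, Real.norm_eq_abs, abs_mul, mul_one, Complex.norm_ofNat]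
      norm_num
    have h3 : S ^ 2 / U₀ ^ 2 * ‖𝓕 (deriv G) ξ‖ ^ 2 ≥ S ^ 2 * ‖𝓕 G ξ‖ ^ 2 := by
      rw [h2, mul_pow, sq_abs]
      have h5 : U₀ ^ 2 ≤ (2 * Real.pi * ξ) ^ 2 := by
        rw [← sq_abs (2 * Real.pi * ξ)]
        exact pow_le_pow_left₀ hU₀.le hξ.le 2
      rw [ge_iff_le, div_mul_eq_mul_div, le_div_iff₀ (by positivity)]
      have h6 : 0 ≤ S ^ 2 * ‖𝓕 G ξ‖ ^ 2 := by positivity
      nlinarith [mul_le_mul_of_nonneg_left h5 h6]
    have h4 : ‖∑ p ∈ P, c p * ph (-(2 * Real.pi * ξ * h p))‖ ^ 2 ≤ S ^ 2 := pow_le_pow_left₀ (norm_nonneg _) h1 2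
    have h6 : 0 ≤ M ^ 2 * ‖𝓕 G ξ‖ ^ 2 := by positivity
    have h7 : 0 ≤ ‖𝓕 G ξ‖ ^ 2 := by positivity
    nlinarith [mul_le_mul_of_nonneg_right h4 h7]

end MRP.U
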