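import Mathlib
import Pool.Agent.Helper6.MR.UDefs

/-!
# U07a: the decomposition of Turan and Kubilius

PROOF.  For `p ∈ prs a c` (so `p ≤ e^c ≤ D`) and `m ≥ 1`: `Sm D (p m) ↔ Sm D m`, `Ω(p m) = Ω(m) + 1`, `χ(pm) = χ(p) χ(m)`, so `cs χ b D s (p m) = χ(p) cs χ b D (s+1) m`.  `φ(log m - (w - log p)) = φ(log(pm) - w)` and
`1/p · 1/m · ph(-(t log p)) ph(-(t log m)) = (1/(pm)) ph(-(t log (pm)))`.  Terms with `pm > N` vanish in `FF φ _ N (w - log p) t` because `log(pm) - w > A` (`N ≥ e^(w+A)`).  So the first sum on the right is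
`(1/W) ∑_{n ≤ N} ω(n) cs χ b D s n (φ(log n - w)/n) ph(-(t log n))`, `ω(n)` = number of `p ∈ prs a c` dividing `n` (the pairs `(p, m)`, `pm = n`); add the second sum.
-/

set_option autoImplicit false

namespace MRP.U

open Finset Complex MeasureTheory MRP.E

private lemma u07_ph_add (x y : ℝ) : ph (x + y) = ph x * ph y := by
  unfold ph
  rw [← Complex.exp_add]
  congr 1
  push_cast
  ring

private lemma u07_Sm (D : ℝ) (p m : ℕ) (hp : p.Prime) (hpD : (p : ℝ) ≤ D) (hm : m ≠ 0) :
    Sm D (p * m) ↔ Sm D m := by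
  unfold Sm
  constructor
  · intro h q hq hqm
    exact h q hq (Dvd.dvd.mul_left hqm p)
  · intro h q hq hqm
    rcases (hq.dvd_mul).1 hqm with h1 | h1
    · rw [(Nat.prime_dvd_prime_iff_eq hq hp).1 h1]
      exact hpD
    · exact h q hq h1

private lemma u07_cs {q : ℕ} (χ : DirichletCharacter ℂ q) (b : ℕ → ℝ) (D : ℝ) (s p m : ℕ)
    (hp : p.Prime) (hpD : (p : ℝ) ≤ D) (hm : m ≠ 0) :
    cs χ b D s (p * m) = χ ((p : ℕ) : ZMod q) * cs χ b D (s + 1) m := by
  unfold cs
  by_cases h : Sm D m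
  · rw [if_pos ((u07_Sm D p m hp hpD hm).2 h), if_pos h]
    unfold cf
    have h1 : Om (p * m) + s = Om m + (s + 1) := by
      unfold Om
      rw [ArithmeticFunction.cardFactors_mul hp.ne_zero hm,
        ArithmeticFunction.cardFactors_apply_prime hp]
      ring
    rw [h1]
    push_cast
    rw [map_mul]
    ring
  · rw [if_neg (fun h' => h ((u07_Sm D p m hp hpD hm).1 h')), if_neg h, mul_zero]

theorem stDecomp : StDecomp := by
  intro q _ χ A B φ hφ a c w t D N b s hW hcD hN
  obtain ⟨_, _, _, hφ0⟩ := hφ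
  set F : ℕ → ℂ := fun n => cs χ b D s n * ((φ (Real.log n - w) / n : ℝ) : ℂ) *
    ph (-(t * Real.log n)) with hF
  have hterm : ∀ p ∈ prs a c, (χ ((p : ℕ) : ZMod q) * (((1 / (p : ℝ) : ℝ)) : ℂ) *
      ph (-(t * Real.log p))) * FF φ (cs χ b D (s + 1)) N (w - Real.log p) t =
      ∑ n ∈ (Finset.Icc 1 N).filter (fun n => p ∣ n), F n := by
    intro p hp
    unfold prs at hp
    rw [Finset.mem_filter, Finset.mem_Ioc] at hp
    obtain ⟨⟨_, hpc⟩, hpp⟩ := hp
    have hpD : (p : ℝ) ≤ D := by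
      have h1 : (p : ℝ) ≤ Real.exp c := by
        have := Nat.floor_le (Real.exp_pos c).le
        exact le_trans (by exact_mod_cast hpc) this
      linarith
    have hp0 : (p : ℝ) ≠ 0 := by exact_mod_cast hpp.ne_zero
    unfold FF
    rw [Finset.mul_sum]
    have hG : ∀ m ∈ Finset.Icc 1 N, χ ((p : ℕ) : ZMod q) * (((1 / (p : ℝ) : ℝ)) : ℂ) *
        ph (-(t * Real.log p)) * (cs χ b D (s + 1) m *
        ((φ (Real.log m - (w - Real.log p)) / m : ℝ) : ℂ) * ph (-(t * Real.log m))) =
        F (p * m) := by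
      intro m hm
      rw [Finset.mem_Icc] at hm
      have hm0 : m ≠ 0 := by omega
      have hm0' : (m : ℝ) ≠ 0 := by exact_mod_cast hm0
      have hlog : Real.log ((p * m : ℕ) : ℝ) = Real.log p + Real.log m := by
        push_cast
        exact Real.log_mul hp0 hm0'
      simp only [hF]
      rw [u07_cs χ b D s p m hpp hpD hm0, hlog]
      have e1 : Real.log m - (w - Real.log p) = Real.log p + Real.log m - w := by ring
      have e2 : -(t * (Real.log p + Real.log m)) = -(t * Real.log p) + -(t * Real.log m) := by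
        ring
      rw [e1, e2, u07_ph_add]
      have e3 : ((φ (Real.log p + Real.log m - w) / ((p * m : ℕ) : ℝ) : ℝ) : ℂ) =
          (((1 / (p : ℝ) : ℝ)) : ℂ) * ((φ (Real.log p + Real.log m - w) / m : ℝ) : ℂ) := by
        rw [← Complex.ofReal_mul]
        congr 1
        push_cast
        field_simp
      rw [e3]
      ring
    rw [Finset.sum_congr rfl hG]
    -- terms with p m > N vanish
    rw [← Finset.sum_filter_add_sum_filter_not (Finset.Icc 1 N) (fun m => p * m ≤ N)]
    have hz : ∑ m ∈ (Finset.Icc 1 N).filter (fun m => ¬ p * m ≤ N), F (p * m) = 0 := by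
      refine Finset.sum_eq_zero fun m hm => ?_
      rw [Finset.mem_filter, Finset.mem_Icc] at hm
      obtain ⟨⟨hm1, _⟩, hmN⟩ := hm
      have h1 : Real.exp (w + A) < ((p * m : ℕ) : ℝ) := by
        refine lt_of_le_of_lt hN ?_
        exact_mod_cast not_le.1 hmN
      have h2 : w + A < Real.log ((p * m : ℕ) : ℝ) := by
        rw [Real.lt_log_iff_exp_lt]
        · exact h1
        · exact lt_trans (Real.exp_pos _) h1
      have h3 : φ (Real.log ((p * m : ℕ) : ℝ) - w) = 0 := by
        apply hφ0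
        refine le_trans ?_ (le_abs_self _)
        linarith
      simp only [hF]
      rw [h3]
      simp
    rw [hz, add_zero]
    refine Finset.sum_bij (fun (m : ℕ) _ => p * m) ?_ ?_ ?_ ?_
    · intro m hm
      rw [Finset.mem_filter, Finset.mem_Icc] at hm
      rw [Finset.mem_filter, Finset.mem_Icc]
      exact ⟨⟨Nat.mul_pos hpp.pos hm.1.1, hm.2⟩, dvd_mul_right _ _⟩
    · intro x _ y _ h
      exact Nat.eq_of_mul_eq_mul_left hpp.pos h
    · intro n hn
      rw [Finset.mem_filter, Finset.mem_Icc] at hn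
      obtain ⟨m, rfl⟩ := hn.2
      have hm1 : 1 ≤ m := Nat.pos_of_mul_pos_left hn.1.1
      refine ⟨m, ?_, rfl⟩
      rw [Finset.mem_filter, Finset.mem_Icc]
      refine ⟨⟨hm1, le_trans ?_ hn.1.2⟩, hn.1.2⟩
      exact Nat.le_mul_of_pos_left m hpp.pos
    · intro m _
      rfl
  rw [Finset.sum_congr rfl hterm]
  have hswap : ∑ p ∈ prs a c, ∑ n ∈ (Finset.Icc 1 N).filter (fun n => p ∣ n), F n =
      ∑ n ∈ Finset.Icc 1 N, ((((prs a c).filter (fun p => p ∣ n)).card : ℝ) : ℂ) * F n := by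
    simp_rw [Finset.sum_filter]
    rw [Finset.sum_comm]
    refine Finset.sum_congr rfl fun n _ => ?_
    rw [← Finset.sum_filter, Finset.sum_const, nsmul_eq_mul]
    push_cast
    rfl
  rw [hswap, Finset.mul_sum, ← Finset.sum_add_distrib]
  unfold FF
  refine Finset.sum_congr rfl fun n _ => ?_
  simp only [hF]
  have hW0 : ((Wt a c : ℝ) : ℂ) ≠ 0 := by exact_mod_cast hW.ne'
  push_cast
  field_simp
  ring

end MRP.U
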