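import Mathlib
import Pool.Agent.Helper6.MR.UDefs
import Pool.Agent.Helper16.UB.Mert

/-!
# U07b: the mean square over the scales

PROOF.  (`C` denotes constants depending on `q, χ, A, B` only, `v ≥ v₀` large.)  Let `C₀` be the constant of `PRIME1` for `χ`.  Choose `W₀, U₀` large in terms of `ε`; `d₂ = e/16`, `d₁ ∈ (0, d₂)` with `log(d₂/d₁) ≥ 2W₀`, so by Mertens
`W := Wt (d₁ v) (d₂ v) ∈ [W₀, 4 W₀]` for `v ≥ v₀`.  `T₀ = U₀ + 2` if `χ = 1`, else `0`.  `StHM`, `StFF` with `K = ⌈20/e⌉`, `T = e^(2v)`, `w ≥ ev/8`; `η := c e/8` with `c` from these, so `vol(U) e^(-cw) ≤ 1`.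
(1) `StDecomp` with `a = d₁v`, `c = d₂v` (`w + A ≤ v + 1 + A`): `FF_w = M_w + E_w`.  (2) `E_w`: `StHM` with `a_n = cs_n (1 - ω(n)/W) φ(log n - w)/n`: `∫_U ‖E_w‖^2 ≤ 2C B^2 ∑_{|log n - w|≤A} (1/n)(1 - ω(n)/W)^2 ≤ C/W` (`StTKw`: `4 d₂ v ≤ w`).
(3) For `t ∈ U` let `G_t(w) = ψ(w) FF φ (cs χ b D (s+1)) N w t`, `ψ` a `C¹` function with `ψ = 1` on `[ev/4, v+1]`, support in `[ev/8, v+2]`, `0 ≤ ψ ≤ 1`, `|ψ'| ≤ 1` (`v ≥ v₀`).  For `w ∈ [ev/2, v+1]`, `p ∈ prs`: `w - log p ≥ ev/4`, so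
`M_w = (1/W) ∑_p c_p G_t(w - log p)`, `c_p = χ(p) p⁻¹ ph(-(t log p))`, `∑‖c_p‖ ≤ W`.  `StConv` with `h p = log p`, `U₀`, `M = C₀`: `∑ c_p ph(-(u log p)) = ∑_{p} χ(p) p^(-1-i(t+u))` is bounded by `C₀` for `|u| ≤ U₀` by `PRIME1` with `X = e^(3v)`, exponents
`d₁/3, d₂/3` (`X^(d₁/3) = e^(d₁v)`; `|t+u| ≤ e^(2v) + U₀ ≤ X`; `|t+u| ≥ 2` if `χ = 1`).  `G_t' = ψ' FF_w[φ] - ψ FF_w[φ']` (`d/dw φ(log n - w) = -φ'(log n - w)`).
(4) `∫_U ∫ ‖G_t‖^2 dw dt ≤ ∫_{ev/8}^{v+2} ∫_U ‖FF‖^2 ≤ C v` and the same for `G_t'` (`StFF` for `φ` and for `deriv φ`, both bounded by `B` with support in `[-A, A]`).  So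
`∫_{ev/2}^{v+1} ∫_U ‖M_w‖^2 ≤ (1/W^2)(C₀^2 C v + (W^2/U₀^2) C v) `.  Total `≤ 2 C v (C₀^2/W₀^2 + 1/U₀^2 + 1/W₀) ≤ ε v`.  Everything is continuous in `(w, t)`, `U` is bounded: Fubini is harmless.
Please split into lemmas; helper lemmas in the same file.
-/

set_option autoImplicit false

namespace MRP.U

open Finset Complex MeasureTheory MRP.E

/-! ### The cutoff in the scale -/

private lemma h45_sT : ∃ K : ℝ, 0 ≤ K ∧ ∀ x, |deriv Real.smoothTransition x| ≤ K := by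
  have hcd : ContDiff ℝ 1 Real.smoothTransition := Real.smoothTransition.contDiff
  have hcont : Continuous (deriv Real.smoothTransition) := hcd.continuous_deriv le_rfl
  obtain ⟨K, hK⟩ := (isCompact_Icc (a := (0 : ℝ)) (b := 1)).exists_bound_of_continuousOn
    hcont.continuousOn
  refine ⟨max K 0, le_max_right _ _, fun x => ?_⟩
  rcases lt_or_ge x 0 with h | h
  · have h1 : Real.smoothTransition =ᶠ[nhds x] fun _ => 0 := by
      filter_upwards [Iio_mem_nhds h] with y hy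
      exact Real.smoothTransition.zero_of_nonpos (le_of_lt hy)
    rw [h1.deriv_eq]
    simp
  · rcases lt_or_ge 1 x with h' | h'
    · have h1 : Real.smoothTransition =ᶠ[nhds x] fun _ => 1 := by
        filter_upwards [Ioi_mem_nhds h'] with y hy
        exact Real.smoothTransition.one_of_one_le (le_of_lt hy)
      rw [h1.deriv_eq]
      simp
    · exact (hK x ⟨h, h'⟩).trans (le_max_left _ _)

private noncomputable def h45_psi (α β w : ℝ) : ℝ :=
  Real.smoothTransition (w - α) * Real.smoothTransition (β - w)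

private lemma h45_psi_nonneg (α β w : ℝ) : 0 ≤ h45_psi α β w :=
  mul_nonneg (Real.smoothTransition.nonneg _) (Real.smoothTransition.nonneg _)

private lemma h45_psi_le (α β w : ℝ) : h45_psi α β w ≤ 1 :=
  mul_le_one₀ (Real.smoothTransition.le_one _) (Real.smoothTransition.nonneg _)
    (Real.smoothTransition.le_one _)

private lemma h45_psi_one {α β w : ℝ} (h1 : α + 1 ≤ w) (h2 : w + 1 ≤ β) : h45_psi α β w = 1 := by
  unfold h45_psi
  rw [Real.smoothTransition.one_of_one_le (by linarith),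
    Real.smoothTransition.one_of_one_le (by linarith), one_mul]

private lemma h45_psi_zero {α β w : ℝ} (h : w ∉ Set.Icc α β) : h45_psi α β w = 0 := by
  unfold h45_psi
  rw [Set.mem_Icc, not_and_or, not_le, not_le] at h
  rcases h with h | h
  · rw [Real.smoothTransition.zero_of_nonpos (by linarith), zero_mul]
  · rw [Real.smoothTransition.zero_of_nonpos (x := β - w) (by linarith), mul_zero]

private lemma h45_psi_contDiff (α β : ℝ) : ContDiff ℝ 1 (h45_psi α β) := by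
  unfold h45_psi
  exact (Real.smoothTransition.contDiff.comp (contDiff_id.sub contDiff_const)).mul
    (Real.smoothTransition.contDiff.comp (contDiff_const.sub contDiff_id))

private lemma h45_psi_deriv {K : ℝ} (hK : ∀ x, |deriv Real.smoothTransition x| ≤ K) (α β w : ℝ) :
    |deriv (h45_psi α β) w| ≤ 2 * K := by
  have hcd : ContDiff ℝ 1 Real.smoothTransition := Real.smoothTransition.contDiff
  have hd : ∀ x, HasDerivAt Real.smoothTransition (deriv Real.smoothTransition x) x := fun x =>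
    ((hcd.differentiable one_ne_zero) x).hasDerivAt
  have h1 : HasDerivAt (fun w => Real.smoothTransition (w - α))
      (deriv Real.smoothTransition (w - α)) w := by
    have h := (hd (w - α)).comp w ((hasDerivAt_id w).sub_const α)
    rwa [mul_one] at h
  have h2 : HasDerivAt (fun w => Real.smoothTransition (β - w))
      (-deriv Real.smoothTransition (β - w)) w := by
    have h := (hd (β - w)).comp w ((hasDerivAt_id w).const_sub β)
    rwa [mul_neg_one] at h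
  have h3 : HasDerivAt (h45_psi α β) (deriv Real.smoothTransition (w - α) *
      Real.smoothTransition (β - w) + Real.smoothTransition (w - α) *
        (-deriv Real.smoothTransition (β - w))) w := h1.mul h2
  rw [h3.deriv]
  have a1 := hK (w - α)
  have a2 := hK (β - w)
  have hK0 : 0 ≤ K := (abs_nonneg _).trans a1
  have b1 := Real.smoothTransition.nonneg (w - α)
  have b2 := Real.smoothTransition.nonneg (β - w)
  have b3 := Real.smoothTransition.le_one (w - α)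
  have b4 := Real.smoothTransition.le_one (β - w)
  refine (abs_add_le _ _).trans ?_
  rw [abs_mul, abs_mul, abs_neg, abs_of_nonneg b1, abs_of_nonneg b2]
  have c1 : |deriv Real.smoothTransition (w - α)| * Real.smoothTransition (β - w) ≤ K * 1 :=
    mul_le_mul a1 b4 b2 hK0
  have c2 : Real.smoothTransition (w - α) * |deriv Real.smoothTransition (β - w)| ≤ 1 * K :=
    mul_le_mul b3 a2 (abs_nonneg _) zero_le_one
  linarith

/-! ### The polynomial as a function of the scale and the frequency -/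

private lemma h45_ph_cont : Continuous ph := by
  unfold ph
  fun_prop

private lemma h45_FF_cont {φ : ℝ → ℝ} (hφ : Continuous φ) (g : ℕ → ℂ) (N : ℕ) :
    Continuous (fun x : ℝ × ℝ => FF φ g N x.1 x.2) := by
  unfold FF
  refine continuous_finsetSum _ fun n _ => ?_
  have h1 : Continuous (fun x : ℝ × ℝ => φ (Real.log n - x.1) / n) :=
    (hφ.comp (continuous_const.sub continuous_fst)).div_const _
  have h2 : Continuous (fun x : ℝ × ℝ => ph (-(x.2 * Real.log n))) :=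
    h45_ph_cont.comp ((continuous_snd.mul continuous_const).neg)
  exact (continuous_const.mul (Complex.continuous_ofReal.comp h1)).mul h2

private lemma h45_FF_deriv {φ : ℝ → ℝ} (hφ : ContDiff ℝ 2 φ) (g : ℕ → ℂ) (N : ℕ) (t w : ℝ) :
    HasDerivAt (fun w => FF φ g N w t) (-FF (deriv φ) g N w t) w := by
  have hd : ∀ x, HasDerivAt φ (deriv φ x) x := fun x =>
    ((hφ.differentiable two_ne_zero) x).hasDerivAt
  have h1 : -FF (deriv φ) g N w t = ∑ n ∈ Finset.Icc 1 N,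
      g n * ((-(deriv φ (Real.log n - w)) / n : ℝ) : ℂ) * ph (-(t * Real.log n)) := by
    unfold FF
    rw [← Finset.sum_neg_distrib]
    refine Finset.sum_congr rfl fun n _ => ?_
    push_cast
    ring
  rw [h1]
  unfold FF
  refine HasDerivAt.fun_sum fun n _ => ?_
  have h2 : HasDerivAt (fun w => φ (Real.log n - w) / n) (-(deriv φ (Real.log n - w)) / n) w := by
    have h := (hd (Real.log n - w)).comp w ((hasDerivAt_id w).const_sub (Real.log n))
    rw [mul_neg_one] at h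
    exact h.div_const _
  exact ((h2.ofReal_comp).const_mul (g n)).mul_const _

private lemma h45_FF_contDiff {φ : ℝ → ℝ} (hφ : ContDiff ℝ 2 φ) (g : ℕ → ℂ) (N : ℕ) (t : ℝ) :
    ContDiff ℝ 1 (fun w => FF φ g N w t) := by
  rw [contDiff_one_iff_deriv]
  refine ⟨fun w => (h45_FF_deriv hφ g N t w).differentiableAt, ?_⟩
  have h1 : deriv (fun w => FF φ g N w t) = fun w => -FF (deriv φ) g N w t :=
    funext fun w => (h45_FF_deriv hφ g N t w).deriv
  rw [h1]
  have h2 : Continuous (deriv φ) := hφ.continuous_deriv one_le_two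
  have h3 : Continuous (fun w : ℝ => (w, t)) := continuous_id.prodMk continuous_const
  have h4 := (h45_FF_cont h2 g N).comp h3
  exact h4.neg

/-! ### Fubini for continuous functions on bounded sets -/

private lemma h45_integrable {f : ℝ × ℝ → ℝ} (hf : Continuous f) {I U : Set ℝ} {a b T : ℝ}
    (hI : I ⊆ Set.Icc a b) (hU : U ⊆ Set.Icc (-T) T) :
    Integrable f ((volume.restrict I).prod (volume.restrict U)) := by
  rw [Measure.prod_restrict]
  have h1 : IntegrableOn f (Set.Icc a b ×ˢ Set.Icc (-T) T) (volume.prod volume) :=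
    hf.continuousOn.integrableOn_compact (isCompact_Icc.prod isCompact_Icc)
  exact h1.mono_set (Set.prod_mono hI hU)

private lemma h45_swap {f : ℝ × ℝ → ℝ} (hf : Continuous f) {I U : Set ℝ} {a b T : ℝ}
    (hI : I ⊆ Set.Icc a b) (hU : U ⊆ Set.Icc (-T) T) :
    ∫ w in I, ∫ t in U, f (w, t) = ∫ t in U, ∫ w in I, f (w, t) :=
  integral_integral_swap (f := fun w t => f (w, t)) (h45_integrable hf hI hU)

private lemma h45_int_left {f : ℝ × ℝ → ℝ} (hf : Continuous f) {I U : Set ℝ} {a b T : ℝ}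
    (hI : I ⊆ Set.Icc a b) (hU : U ⊆ Set.Icc (-T) T) :
    IntegrableOn (fun w => ∫ t in U, f (w, t)) I :=
  (h45_integrable hf hI hU).integral_prod_left

private lemma h45_int_right {f : ℝ × ℝ → ℝ} (hf : Continuous f) {I U : Set ℝ} {a b T : ℝ}
    (hI : I ⊆ Set.Icc a b) (hU : U ⊆ Set.Icc (-T) T) :
    IntegrableOn (fun t => ∫ w in I, f (w, t)) U :=
  (h45_integrable hf hI hU).integral_prod_right

private lemma h45_slice {f : ℝ × ℝ → ℝ} (hf : Continuous f) {I : Set ℝ} {a b : ℝ}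
    (hI : I ⊆ Set.Icc a b) (t : ℝ) : IntegrableOn (fun w => f (w, t)) I := by
  have h3 : Continuous (fun w : ℝ => (w, t)) := continuous_id.prodMk continuous_const
  have h4 := hf.comp h3
  exact (h4.continuousOn.integrableOn_compact isCompact_Icc).mono_set hI

private lemma h45_slice' {f : ℝ × ℝ → ℝ} (hf : Continuous f) {U : Set ℝ} {T : ℝ}
    (hU : U ⊆ Set.Icc (-T) T) (w : ℝ) : IntegrableOn (fun t => f (w, t)) U := by
  have h3 : Continuous (fun t : ℝ => (w, t)) := continuous_const.prodMk continuous_id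
  have h4 := hf.comp h3
  exact (h4.continuousOn.integrableOn_compact isCompact_Icc).mono_set hU

/-! ### The main part -/

private lemma h45_Mpart (hC : StConv) (P : Finset ℕ) (cc : ℕ → ℝ → ℂ)
    (hcc : ∀ p, Continuous (cc p)) {φ : ℝ → ℝ} (hφ : ContDiff ℝ 2 φ) (g : ℕ → ℂ) (N : ℕ)
    {U : Set ℝ} (hUm : MeasurableSet U) {T : ℝ} (hUT : U ⊆ Set.Icc (-T) T)
    {K C₀ S U₀ CF α β a b : ℝ} (hK : ∀ x, |deriv Real.smoothTransition x| ≤ K) (hU₀ : 0 < U₀)
    (hab : a ≤ b)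
    (hsupp : ∀ w ∈ Set.Ioc α β, ∀ p ∈ P, a + 1 ≤ w - Real.log p ∧ w - Real.log p + 1 ≤ b)
    (hC₀ : ∀ t ∈ U, ∀ u : ℝ, |u| ≤ U₀ → ‖∑ p ∈ P, cc p t * ph (-(u * Real.log p))‖ ≤ C₀)
    (hS : ∀ t ∈ U, ∑ p ∈ P, ‖cc p t‖ ≤ S)
    (h1 : ∀ w ∈ Set.Icc a b, ∫ t in U, ‖FF φ g N w t‖ ^ 2 ≤ CF)
    (h2 : ∀ w ∈ Set.Icc a b, ∫ t in U, ‖FF (deriv φ) g N w t‖ ^ 2 ≤ CF) :
    ∫ w in Set.Ioc α β, ∫ t in U, ‖∑ p ∈ P, cc p t * FF φ g N (w - Real.log p) t‖ ^ 2 ≤
      C₀ ^ 2 * ((b - a) * CF) + S ^ 2 / U₀ ^ 2 * ((8 * K ^ 2 + 2) * ((b - a) * CF)) := by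
  have hφ1 : Continuous (deriv φ) := hφ.continuous_deriv one_le_two
  have hF := h45_FF_cont hφ.continuous g N
  have hF1 := h45_FF_cont hφ1 g N
  have hK0 : 0 ≤ K := (abs_nonneg _).trans (hK 0)
  -- the function on the product
  have hsum : Continuous (fun x : ℝ × ℝ =>
      ‖∑ p ∈ P, cc p x.2 * FF φ g N (x.1 - Real.log p) x.2‖ ^ 2) := by
    have e1 : Continuous (fun x : ℝ × ℝ =>
        ∑ p ∈ P, cc p x.2 * FF φ g N (x.1 - Real.log p) x.2) := by
      refine continuous_finsetSum _ fun p _ => ?_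
      have e2 : Continuous (fun x : ℝ × ℝ => (x.1 - Real.log p, x.2)) :=
        (continuous_fst.sub continuous_const).prodMk continuous_snd
      have e3 := hF.comp e2
      simp only [Function.comp_def] at e3
      exact ((hcc p).comp continuous_snd).mul e3
    exact (continuous_norm.comp e1).pow 2
  have hf1 : Continuous (fun x : ℝ × ℝ => ‖FF φ g N x.1 x.2‖ ^ 2) :=
    (continuous_norm.comp hF).pow 2
  have hf2 : Continuous (fun x : ℝ × ℝ => ‖FF (deriv φ) g N x.1 x.2‖ ^ 2) :=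
    (continuous_norm.comp hF1).pow 2
  have hf3 : Continuous (fun x : ℝ × ℝ => 8 * K ^ 2 * ‖FF φ g N x.1 x.2‖ ^ 2 +
      2 * ‖FF (deriv φ) g N x.1 x.2‖ ^ 2) :=
    (continuous_const.mul hf1).add (continuous_const.mul hf2)
  rw [h45_swap hsum Set.Ioc_subset_Icc_self hUT]
  -- bound for each frequency
  have key : ∀ t ∈ U, ∫ w in Set.Ioc α β,
      ‖∑ p ∈ P, cc p t * FF φ g N (w - Real.log p) t‖ ^ 2 ≤
      C₀ ^ 2 * (∫ w in Set.Icc a b, ‖FF φ g N w t‖ ^ 2) + S ^ 2 / U₀ ^ 2 *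
        (∫ w in Set.Icc a b, (8 * K ^ 2 * ‖FF φ g N w t‖ ^ 2 +
          2 * ‖FF (deriv φ) g N w t‖ ^ 2)) := by
    intro t ht
    obtain ⟨G, hG⟩ : ∃ G : ℝ → ℂ, G = fun w => (h45_psi a b w : ℂ) * FF φ g N w t := ⟨_, rfl⟩
    have hGcd : ContDiff ℝ 1 G := by
      rw [hG]
      exact (Complex.ofRealCLM.contDiff.comp (h45_psi_contDiff a b)).mul
        (h45_FF_contDiff hφ g N t)
    have hGz : ∀ w, w ∉ Set.Icc a b → G w = 0 := by
      intro w hw
      rw [hG]
      simp only [h45_psi_zero hw, Complex.ofReal_zero, zero_mul]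
    have hGcs : HasCompactSupport G := HasCompactSupport.intro isCompact_Icc hGz
    have hGd : ∀ w, deriv G w = ((deriv (h45_psi a b) w : ℝ) : ℂ) * FF φ g N w t +
        (h45_psi a b w : ℂ) * (-FF (deriv φ) g N w t) := by
      intro w
      have e1 : HasDerivAt (fun w => (h45_psi a b w : ℂ)) ((deriv (h45_psi a b) w : ℝ) : ℂ) w :=
        (((h45_psi_contDiff a b).differentiable one_ne_zero) w).hasDerivAt.ofReal_comp
      rw [hG]
      exact (e1.mul (h45_FF_deriv hφ g N t w)).deriv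
    have hGdz : ∀ w, w ∉ Set.Icc a b → deriv G w = 0 := by
      intro w hw
      have e1 : G =ᶠ[nhds w] fun _ => 0 := by
        filter_upwards [isClosed_Icc.isOpen_compl.mem_nhds hw] with y hy
        exact hGz y hy
      rw [e1.deriv_eq]
      simp
    have hconv := hC P (fun p => cc p t) (fun p => Real.log p) G U₀ C₀ hU₀ hGcd hGcs
      (fun u hu => hC₀ t ht u hu)
    have hint1 : Integrable (fun w => ‖∑ p ∈ P, cc p t * G (w - Real.log p)‖ ^ 2) := by
      have e1 : Continuous (fun w => ∑ p ∈ P, cc p t * G (w - Real.log p)) :=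
        continuous_finsetSum _ fun p _ => continuous_const.mul
          (hGcd.continuous.comp (continuous_id.sub continuous_const))
      have e2 : HasCompactSupport (fun w => ∑ p ∈ P, cc p t * G (w - Real.log p)) := by
        obtain ⟨L, hL⟩ : ∃ L : ℝ, ∀ p ∈ P, |Real.log p| ≤ L :=
          ⟨∑ p ∈ P, |Real.log p|, fun p hp =>
            Finset.single_le_sum (f := fun p : ℕ => |Real.log p|) (fun i _ => abs_nonneg _) hp⟩
        refine HasCompactSupport.intro (isCompact_Icc (a := a - L) (b := b + L)) fun w hw => ?_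
        refine Finset.sum_eq_zero fun p hp => ?_
        have e3 := abs_le.1 (hL p hp)
        rw [hGz, mul_zero]
        intro hmem
        apply hw
        rw [Set.mem_Icc] at hmem ⊢
        constructor <;> linarith [hmem.1, hmem.2, e3.1, e3.2]
      have e4 : HasCompactSupport (fun w => ‖∑ p ∈ P, cc p t * G (w - Real.log p)‖ ^ 2) :=
        e2.comp_left (g := fun z : ℂ => ‖z‖ ^ 2) (by simp)
      exact ((continuous_norm.comp e1).pow 2).integrable_of_hasCompactSupport e4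
    have s1 : ∫ w in Set.Ioc α β, ‖∑ p ∈ P, cc p t * FF φ g N (w - Real.log p) t‖ ^ 2 ≤
        ∫ w : ℝ, ‖∑ p ∈ P, cc p t * G (w - Real.log p)‖ ^ 2 := by
      have e1 : ∫ w in Set.Ioc α β, ‖∑ p ∈ P, cc p t * FF φ g N (w - Real.log p) t‖ ^ 2 =
          ∫ w in Set.Ioc α β, ‖∑ p ∈ P, cc p t * G (w - Real.log p)‖ ^ 2 := by
        refine setIntegral_congr_fun measurableSet_Ioc fun w hw => ?_
        have e2 : ∑ p ∈ P, cc p t * FF φ g N (w - Real.log p) t =
            ∑ p ∈ P, cc p t * G (w - Real.log p) := by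
          refine Finset.sum_congr rfl fun p hp => ?_
          obtain ⟨e3, e4⟩ := hsupp w hw p hp
          rw [hG]
          simp only [h45_psi_one e3 e4, Complex.ofReal_one, one_mul]
        simp only [e2]
      rw [e1]
      exact setIntegral_le_integral hint1 (Filter.Eventually.of_forall fun w => by positivity)
    have s2 : ∫ w : ℝ, ‖G w‖ ^ 2 ≤ ∫ w in Set.Icc a b, ‖FF φ g N w t‖ ^ 2 := by
      have e1 : ∫ w : ℝ, ‖G w‖ ^ 2 = ∫ w in Set.Icc a b, ‖G w‖ ^ 2 := by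
        rw [setIntegral_eq_integral_of_forall_compl_eq_zero]
        intro w hw
        rw [hGz w hw]
        simp
      rw [e1]
      refine setIntegral_mono_on ?_ (h45_slice hf1 (subset_refl _) t) measurableSet_Icc ?_
      · exact ((continuous_norm.comp hGcd.continuous).pow 2).continuousOn.integrableOn_compact
          isCompact_Icc
      · intro w _
        have e2 : ‖G w‖ ≤ ‖FF φ g N w t‖ := by
          rw [hG]
          simp only
          rw [norm_mul, Complex.norm_real, Real.norm_of_nonneg (h45_psi_nonneg a b w)]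
          exact mul_le_of_le_one_left (norm_nonneg _) (h45_psi_le a b w)
        exact pow_le_pow_left₀ (norm_nonneg _) e2 2
    have s3 : ∫ w : ℝ, ‖deriv G w‖ ^ 2 ≤ ∫ w in Set.Icc a b, (8 * K ^ 2 * ‖FF φ g N w t‖ ^ 2 +
          2 * ‖FF (deriv φ) g N w t‖ ^ 2) := by
      have e1 : ∫ w : ℝ, ‖deriv G w‖ ^ 2 = ∫ w in Set.Icc a b, ‖deriv G w‖ ^ 2 := by
        rw [setIntegral_eq_integral_of_forall_compl_eq_zero]
        intro w hw
        rw [hGdz w hw]
        simp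
      rw [e1]
      refine setIntegral_mono_on ?_ (h45_slice hf3 (subset_refl _) t) measurableSet_Icc ?_
      · exact ((continuous_norm.comp (hGcd.continuous_deriv le_rfl)).pow 2).continuousOn.integrableOn_compact
          isCompact_Icc
      · intro w _
        have e2 : ‖deriv G w‖ ≤ 2 * K * ‖FF φ g N w t‖ + ‖FF (deriv φ) g N w t‖ := by
          rw [hGd w]
          refine (norm_add_le _ _).trans ?_
          rw [norm_mul, norm_mul, norm_neg, Complex.norm_real, Complex.norm_real,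
            Real.norm_eq_abs, Real.norm_of_nonneg (h45_psi_nonneg a b w)]
          exact add_le_add
            (mul_le_mul_of_nonneg_right (h45_psi_deriv hK a b w) (norm_nonneg _))
            (mul_le_of_le_one_left (norm_nonneg _) (h45_psi_le a b w))
        have e3 : ‖deriv G w‖ ^ 2 ≤ (2 * K * ‖FF φ g N w t‖ + ‖FF (deriv φ) g N w t‖) ^ 2 :=
          pow_le_pow_left₀ (norm_nonneg _) e2 2
        refine e3.trans ?_
        nlinarith [sq_nonneg (2 * K * ‖FF φ g N w t‖ - ‖FF (deriv φ) g N w t‖)]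
    have s4 : (∑ p ∈ P, ‖cc p t‖) ^ 2 / U₀ ^ 2 ≤ S ^ 2 / U₀ ^ 2 :=
      div_le_div_of_nonneg_right
        (pow_le_pow_left₀ (Finset.sum_nonneg fun p _ => norm_nonneg _) (hS t ht) 2) (by positivity)
    have s5 : 0 ≤ ∫ w : ℝ, ‖deriv G w‖ ^ 2 := integral_nonneg fun w => by positivity
    refine s1.trans (hconv.trans (add_le_add ?_ ?_))
    · exact mul_le_mul_of_nonneg_left s2 (sq_nonneg _)
    · exact mul_le_mul s4 s3 s5 (by positivity)
  -- integrate over the frequencies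
  have i1 := h45_int_right hf1 (subset_refl (Set.Icc a b)) hUT
  have i3 := h45_int_right hf3 (subset_refl (Set.Icc a b)) hUT
  have step1 : ∫ t in U, ∫ w in Set.Ioc α β,
      ‖∑ p ∈ P, cc p t * FF φ g N (w - Real.log p) t‖ ^ 2 ≤
      ∫ t in U, (C₀ ^ 2 * (∫ w in Set.Icc a b, ‖FF φ g N w t‖ ^ 2) + S ^ 2 / U₀ ^ 2 *
        (∫ w in Set.Icc a b, (8 * K ^ 2 * ‖FF φ g N w t‖ ^ 2 +
          2 * ‖FF (deriv φ) g N w t‖ ^ 2))) :=
    setIntegral_mono_on (h45_int_right hsum Set.Ioc_subset_Icc_self hUT)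
      ((i1.const_mul _).add (i3.const_mul _)) hUm key
  refine step1.trans ?_
  rw [integral_add (i1.const_mul _) (i3.const_mul _), integral_const_mul, integral_const_mul]
  have j1 : ∫ t in U, ∫ w in Set.Icc a b, ‖FF φ g N w t‖ ^ 2 ≤ (b - a) * CF := by
    rw [← h45_swap hf1 (subset_refl (Set.Icc a b)) hUT]
    have e1 : ∫ w in Set.Icc a b, ∫ t in U, ‖FF φ g N w t‖ ^ 2 ≤
        ∫ _w in Set.Icc a b, CF :=
      setIntegral_mono_on (h45_int_left hf1 (subset_refl (Set.Icc a b)) hUT)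
        (integrableOn_const (by simp)) measurableSet_Icc h1
    refine e1.trans (le_of_eq ?_)
    rw [setIntegral_const, Measure.real, Real.volume_Icc, ENNReal.toReal_ofReal (by linarith),
      smul_eq_mul]
  have j3 : ∫ t in U, ∫ w in Set.Icc a b, (8 * K ^ 2 * ‖FF φ g N w t‖ ^ 2 +
          2 * ‖FF (deriv φ) g N w t‖ ^ 2) ≤ (8 * K ^ 2 + 2) * ((b - a) * CF) := by
    rw [← h45_swap hf3 (subset_refl (Set.Icc a b)) hUT]
    have e1 : ∫ w in Set.Icc a b, ∫ t in U, (8 * K ^ 2 * ‖FF φ g N w t‖ ^ 2 +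
          2 * ‖FF (deriv φ) g N w t‖ ^ 2) ≤
        ∫ _w in Set.Icc a b, (8 * K ^ 2 + 2) * CF := by
      refine setIntegral_mono_on (h45_int_left hf3 (subset_refl (Set.Icc a b)) hUT)
        (integrableOn_const (by simp)) measurableSet_Icc fun w hw => ?_
      rw [integral_add ((h45_slice' hf1 hUT w).const_mul _) ((h45_slice' hf2 hUT w).const_mul _),
        integral_const_mul, integral_const_mul]
      have e2 := h1 w hw
      have e3 := h2 w hw
      have e4 : 0 ≤ 8 * K ^ 2 := by positivity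
      nlinarith [mul_le_mul_of_nonneg_left e2 e4]
    refine e1.trans (le_of_eq ?_)
    rw [setIntegral_const, Measure.real, Real.volume_Icc, ENNReal.toReal_ofReal (by linarith),
      smul_eq_mul]
    ring
  exact add_le_add (mul_le_mul_of_nonneg_left j1 (sq_nonneg _))
    (mul_le_mul_of_nonneg_left j3 (by positivity))

/-! ### The error part -/

private lemma h45_cs_norm {q : ℕ} (χ : DirichletCharacter ℂ q) {b : ℕ → ℝ} (hb : ∀ m, |b m| ≤ 1)
    (D : ℝ) (s n : ℕ) : ‖cs χ b D s n‖ ≤ 1 := by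
  unfold cs
  split_ifs
  · unfold cf
    rw [norm_mul, Complex.norm_real, Real.norm_eq_abs]
    exact mul_le_one₀ (hb _) (norm_nonneg _) (χ.norm_le_one _)
  · simp

private lemma h45_Epart {q : ℕ} (χ : DirichletCharacter ℂ q) {b : ℕ → ℝ} (hb : ∀ m, |b m| ≤ 1)
    {A B : ℝ} {φ : ℝ → ℝ} (hφB : ∀ x, |φ x| ≤ B) (hφA : ∀ x, A ≤ |x| → φ x = 0)
    (W w D : ℝ) (om : ℕ → ℝ) (N s : ℕ) (U : Set ℝ) {CH CT : ℝ} (hCH : 0 ≤ CH)
    (hHM : ∀ a : ℕ → ℂ, (∀ n : ℕ, A ≤ |Real.log n - w| → a n = 0) →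
      ∫ t in U, ‖∑ n ∈ Finset.Icc 1 N, a n * ph (-(t * Real.log n))‖ ^ 2 ≤
        CH * ∑ n ∈ Finset.Icc 1 N, n * ‖a n‖ ^ 2)
    (hTK : ∑ n ∈ (Finset.Icc 1 N).filter (fun n : ℕ => |Real.log n - w| ≤ A), (1 / (n : ℝ)) *
      (1 - om n / W) ^ 2 ≤ CT / W) :
    ∫ t in U, ‖∑ n ∈ Finset.Icc 1 N, cs χ b D s n * ((1 - om n / W : ℝ) : ℂ) *
        ((φ (Real.log n - w) / n : ℝ) : ℂ) * ph (-(t * Real.log n))‖ ^ 2 ≤
      CH * (B ^ 2 * (CT / W)) := by
  have hB0 : 0 ≤ B := (abs_nonneg _).trans (hφB 0)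
  refine (hHM (fun n => cs χ b D s n * ((1 - om n / W : ℝ) : ℂ) *
        ((φ (Real.log n - w) / n : ℝ) : ℂ)) ?_).trans (mul_le_mul_of_nonneg_left ?_ hCH)
  · intro n hn
    simp only [hφA _ hn, zero_div, Complex.ofReal_zero, mul_zero]
  · refine le_trans ?_ (mul_le_mul_of_nonneg_left hTK (sq_nonneg B))
    rw [Finset.mul_sum, Finset.sum_filter]
    refine Finset.sum_le_sum fun n hn => ?_
    have hn1 : (0 : ℝ) < n := by
      have := (Finset.mem_Icc.1 hn).1
      exact_mod_cast this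
    have e1 : (n : ℝ) * ‖cs χ b D s n * ((1 - om n / W : ℝ) : ℂ) *
        ((φ (Real.log n - w) / n : ℝ) : ℂ)‖ ^ 2 =
        ‖cs χ b D s n‖ ^ 2 * (φ (Real.log n - w)) ^ 2 * ((1 / (n : ℝ)) * (1 - om n / W) ^ 2) := by
      rw [norm_mul, norm_mul, Complex.norm_real, Complex.norm_real, Real.norm_eq_abs,
        Real.norm_eq_abs, mul_pow, mul_pow, sq_abs, sq_abs]
      field_simp
    rw [e1]
    split_ifs with h
    · refine mul_le_mul_of_nonneg_right ?_ (by positivity)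
      have e2 : ‖cs χ b D s n‖ ^ 2 ≤ 1 :=
        pow_le_one₀ (norm_nonneg _) (h45_cs_norm χ hb D s n)
      have e3 : (φ (Real.log n - w)) ^ 2 ≤ B ^ 2 := by
        rw [← sq_abs]
        exact pow_le_pow_left₀ (abs_nonneg _) (hφB _) 2
      calc ‖cs χ b D s n‖ ^ 2 * (φ (Real.log n - w)) ^ 2 ≤ 1 * B ^ 2 :=
            mul_le_mul e2 e3 (sq_nonneg _) zero_le_one
        _ = B ^ 2 := one_mul _
    · rw [hφA _ (not_le.1 h).le]
      simp

/-! ### Sums over primes -/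

private lemma h45_cpow {p : ℕ} (hp : p ≠ 0) (x : ℝ) :
    ((p : ℕ) : ℂ) ^ (-(1 + (x : ℂ) * Complex.I)) =
      (((1 / (p : ℝ) : ℝ)) : ℂ) * ph (-(x * Real.log p)) := by
  have hp0 : (p : ℂ) ≠ 0 := by exact_mod_cast hp
  have hpR : (0 : ℝ) < p := by
    have : 0 < p := Nat.pos_of_ne_zero hp
    exact_mod_cast this
  rw [Complex.cpow_def_of_ne_zero hp0, ← Complex.natCast_log]
  have e1 : (Real.log p : ℂ) * -(1 + (x : ℂ) * Complex.I) =
      ((-Real.log p : ℝ) : ℂ) + ((-(x * Real.log p) : ℝ) : ℂ) * Complex.I := by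
    push_cast
    ring
  rw [e1, Complex.exp_add, ← Complex.ofReal_exp, Real.exp_neg, Real.exp_log hpR, one_div]
  rfl

private lemma h45_Wt : ∃ CM : ℝ, 0 ≤ CM ∧ ∀ a c : ℝ, 1 ≤ a → 2 ≤ c → a ≤ c →
    Real.log (c / 2) - Real.log a - CM ≤ Wt a c := by
  classical
  obtain ⟨C, hC⟩ := Pool.Agent.Helper16.UB.exists_W_le
  refine ⟨1 + |C|, by positivity, fun a c ha hc hac => ?_⟩
  obtain ⟨m, hm⟩ : ∃ m, m = ⌊Real.exp a⌋₊ := ⟨_, rfl⟩
  obtain ⟨n, hn⟩ : ∃ n, n = ⌊Real.exp c⌋₊ := ⟨_, rfl⟩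
  have hmn : m ≤ n := by
    rw [hm, hn]
    exact Nat.floor_le_floor (Real.exp_le_exp.2 hac)
  have hm2 : 2 ≤ m := by
    rw [hm]
    refine Nat.le_floor ?_
    have := Real.add_one_le_exp a
    push_cast
    linarith
  have hsplit : Pool.Agent.Helper16.UB.W n = Pool.Agent.Helper16.UB.W m + Wt a c := by
    unfold Pool.Agent.Helper16.UB.W Wt prs
    rw [← hm, ← hn, ← Finset.sum_union]
    · refine Finset.sum_congr ?_ fun _ _ => rfl
      ext p
      rw [Finset.mem_union, Pool.Agent.Helper16.UB.mem_PL, Pool.Agent.Helper16.UB.mem_PL,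
        Finset.mem_filter, Finset.mem_Ioc]
      constructor
      · rintro ⟨h1, h2⟩
        by_cases h3 : p ≤ m
        · exact Or.inl ⟨h3, h2⟩
        · exact Or.inr ⟨⟨by omega, h1⟩, h2⟩
      · rintro (⟨h1, h2⟩ | ⟨⟨_, h1⟩, h2⟩)
        · exact ⟨by omega, h2⟩
        · exact ⟨h1, h2⟩
    · rw [Finset.disjoint_left]
      intro p h1 h2
      rw [Pool.Agent.Helper16.UB.mem_PL] at h1
      rw [Finset.mem_filter, Finset.mem_Ioc] at h2
      omega
  have h1 := Pool.Agent.Helper16.UB.W_ge n (by omega)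
  have h2 := hC m hm2
  have hmR : (2 : ℝ) ≤ m := by exact_mod_cast hm2
  have h3 : Real.log m ≤ a := by
    rw [Real.log_le_iff_le_exp (by linarith), hm]
    exact Nat.floor_le (Real.exp_pos a).le
  have h4 : 0 < Real.log m := Real.log_pos (by linarith)
  have h5 : Real.log (Real.log m) ≤ Real.log a := Real.log_le_log h4 h3
  have hnR : Real.exp (c / 2) ≤ n := by
    have e1 : Real.exp c < n + 1 := by
      rw [hn]
      exact Nat.lt_floor_add_one _
    have e2 : Real.exp c = Real.exp (c / 2) * Real.exp (c / 2) := by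
      rw [← Real.exp_add]
      congr 1
      ring
    have e3 := Real.add_one_le_exp (c / 2)
    nlinarith
  have h6 : c / 2 ≤ Real.log n := by
    rw [Real.le_log_iff_exp_le (lt_of_lt_of_le (Real.exp_pos _) hnR)]
    exact hnR
  have h7 : Real.log (c / 2) ≤ Real.log (Real.log n) := Real.log_le_log (by linarith) h6
  have h8 := le_abs_self C
  linarith

private lemma h45_Wt_nonneg (a c : ℝ) : 0 ≤ Wt a c := by
  unfold Wt
  exact Finset.sum_nonneg fun p _ => by positivity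

private lemma h45_mem_prs {a c : ℝ} {p : ℕ} (hp : p ∈ prs a c) :
    p.Prime ∧ Real.log p ≤ c ∧ 0 ≤ Real.log p := by
  unfold prs at hp
  rw [Finset.mem_filter, Finset.mem_Ioc] at hp
  have h1 : (1 : ℝ) ≤ p := by exact_mod_cast hp.2.one_lt.le
  refine ⟨hp.2, ?_, Real.log_nonneg h1⟩
  rw [Real.log_le_iff_le_exp (by linarith)]
  exact (Nat.le_floor_iff (Real.exp_pos c).le).1 hp.1.2

private lemma h45_deriv_zero {φ : ℝ → ℝ} {A : ℝ} (hφA : ∀ x, A ≤ |x| → φ x = 0) (x : ℝ)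
    (hx : A + 1 ≤ |x|) : deriv φ x = 0 := by
  have h1 : φ =ᶠ[nhds x] fun _ => 0 := by
    filter_upwards [(isOpen_lt continuous_const continuous_abs).mem_nhds
      (show A < |x| by linarith)] with y hy
    exact hφA y (le_of_lt hy)
  rw [h1.deriv_eq]
  simp

/-- one scale -/
private lemma h45_one_scale {φ : ℝ → ℝ} (hφ : Continuous φ) {q : ℕ} (χ : DirichletCharacter ℂ q)
    (b : ℕ → ℝ) (D W w : ℝ) (om : ℕ → ℝ) (N s : ℕ) (P : Finset ℕ) {U : Set ℝ}
    (hUm : MeasurableSet U) {T : ℝ} (hUT : U ⊆ Set.Icc (-T) T) {EB : ℝ}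
    (hdec : ∀ t ∈ U, FF φ (cs χ b D s) N w t =
      ((1 / W : ℝ) : ℂ) * ∑ p ∈ P, (χ ((p : ℕ) : ZMod q) * (((1 / (p : ℝ) : ℝ)) : ℂ) *
        ph (-(t * Real.log p))) * FF φ (cs χ b D (s + 1)) N (w - Real.log p) t +
      ∑ n ∈ Finset.Icc 1 N, cs χ b D s n * ((1 - om n / W : ℝ) : ℂ) *
        ((φ (Real.log n - w) / n : ℝ) : ℂ) * ph (-(t * Real.log n)))
    (hE : ∫ t in U, ‖∑ n ∈ Finset.Icc 1 N, cs χ b D s n * ((1 - om n / W : ℝ) : ℂ) *
        ((φ (Real.log n - w) / n : ℝ) : ℂ) * ph (-(t * Real.log n))‖ ^ 2 ≤ EB) :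
    ∫ t in U, ‖FF φ (cs χ b D s) N w t‖ ^ 2 ≤
      2 / W ^ 2 * (∫ t in U, ‖∑ p ∈ P, (χ ((p : ℕ) : ZMod q) * (((1 / (p : ℝ) : ℝ)) : ℂ) *
        ph (-(t * Real.log p))) * FF φ (cs χ b D (s + 1)) N (w - Real.log p) t‖ ^ 2) + 2 * EB := by
  have hphc : ∀ x : ℝ, Continuous (fun t : ℝ => ph (-(t * x))) := fun x =>
    h45_ph_cont.comp ((continuous_id.mul continuous_const).neg)
  have hFFc : ∀ (g : ℕ → ℂ) (w : ℝ), Continuous (fun t => FF φ g N w t) := by
    intro g w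
    have h3 : Continuous (fun t : ℝ => (w, t)) := continuous_const.prodMk continuous_id
    have h4 := (h45_FF_cont hφ g N).comp h3
    exact h4
  have hM : Continuous (fun t => ‖∑ p ∈ P, (χ ((p : ℕ) : ZMod q) * (((1 / (p : ℝ) : ℝ)) : ℂ) *
        ph (-(t * Real.log p))) * FF φ (cs χ b D (s + 1)) N (w - Real.log p) t‖ ^ 2) := by
    refine (continuous_norm.comp (continuous_finsetSum _ fun p _ => ?_)).pow 2
    exact (continuous_const.mul (hphc _)).mul (hFFc _ _)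
  have hEc : Continuous (fun t => ‖∑ n ∈ Finset.Icc 1 N, cs χ b D s n *
      ((1 - om n / W : ℝ) : ℂ) *
        ((φ (Real.log n - w) / n : ℝ) : ℂ) * ph (-(t * Real.log n))‖ ^ 2) := by
    refine (continuous_norm.comp (continuous_finsetSum _ fun n _ => ?_)).pow 2
    exact continuous_const.mul (hphc _)
  have hint : ∀ f : ℝ → ℝ, Continuous f → IntegrableOn f U := fun f hf =>
    (hf.continuousOn.integrableOn_compact isCompact_Icc).mono_set hUT
  have h1 : ∫ t in U, ‖FF φ (cs χ b D s) N w t‖ ^ 2 ≤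
      ∫ t in U, (2 / W ^ 2 * ‖∑ p ∈ P, (χ ((p : ℕ) : ZMod q) * (((1 / (p : ℝ) : ℝ)) : ℂ) *
        ph (-(t * Real.log p))) * FF φ (cs χ b D (s + 1)) N (w - Real.log p) t‖ ^ 2 +
        2 * ‖∑ n ∈ Finset.Icc 1 N, cs χ b D s n * ((1 - om n / W : ℝ) : ℂ) *
        ((φ (Real.log n - w) / n : ℝ) : ℂ) * ph (-(t * Real.log n))‖ ^ 2) := by
    refine setIntegral_mono_on (hint _ ((continuous_norm.comp (hFFc _ _)).pow 2))
      (hint _ ((continuous_const.mul hM).add (continuous_const.mul hEc))) hUm fun t ht => ?_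
    rw [hdec t ht]
    refine (pow_le_pow_left₀ (norm_nonneg _) (norm_add_le _ _) 2).trans ?_
    rw [norm_mul, Complex.norm_real, Real.norm_eq_abs]
    obtain ⟨x, hx⟩ : ∃ x, x = ‖∑ p ∈ P, (χ ((p : ℕ) : ZMod q) * (((1 / (p : ℝ) : ℝ)) : ℂ) *
        ph (-(t * Real.log p))) * FF φ (cs χ b D (s + 1)) N (w - Real.log p) t‖ := ⟨_, rfl⟩
    obtain ⟨y, hy⟩ : ∃ y, y = ‖∑ n ∈ Finset.Icc 1 N, cs χ b D s n * ((1 - om n / W : ℝ) : ℂ) *
        ((φ (Real.log n - w) / n : ℝ) : ℂ) * ph (-(t * Real.log n))‖ := ⟨_, rfl⟩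
    rw [← hx, ← hy]
    have e1 : 2 / W ^ 2 * x ^ 2 = 2 * (|1 / W| * x) ^ 2 := by
      rw [mul_pow, sq_abs]
      ring
    rw [e1]
    nlinarith [sq_nonneg (|1 / W| * x - y)]
  refine h1.trans ?_
  rw [integral_add ((hint _ hM).const_mul _) ((hint _ hEc).const_mul _), integral_const_mul,
    integral_const_mul]
  linarith

theorem stScales (hP : MRP.PRIME1) (hHM : StHM) (hF : StFF) (hTK : StTKw) (hD : StDecomp)
    (hC : StConv) : StScales := by
  classical
  intro q hq χ A B hA hB e ε he he2 hε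
  obtain ⟨C₀, hP⟩ := hP q hq χ
  obtain ⟨K, hK0, hK⟩ := h45_sT
  obtain ⟨c1, CH, hc1, hCH, hHM⟩ := hHM A ⌈24 / e⌉₊ hA
  obtain ⟨c2, CF, hc2, hCF, hF⟩ := hF (A + 1) B ⌈24 / e⌉₊ (by linarith) hB
  obtain ⟨CT, hCT, hTK⟩ := hTK A hA
  obtain ⟨CM, hCM, hWt⟩ := h45_Wt
  -- the constants
  obtain ⟨Z, hZ⟩ : ∃ Z, Z = 8 * CF * C₀ ^ 2 + 8 * (8 * K ^ 2 + 2) * CF +
    8 * CH * B ^ 2 * CT + 1 := ⟨_, rfl⟩
  have hZ1 : 1 ≤ Z := by
    rw [hZ]
    have : 0 ≤ 8 * CF * C₀ ^ 2 + 8 * (8 * K ^ 2 + 2) * CF + 8 * CH * B ^ 2 * CT := by positivity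
    linarith
  obtain ⟨δ, hδ⟩ : ∃ δ, δ = min 1 (ε / Z) := ⟨_, rfl⟩
  have hδ0 : 0 < δ := by rw [hδ]; exact lt_min one_pos (by positivity)
  have hδ1 : δ ≤ 1 := by rw [hδ]; exact min_le_left _ _
  have hδε : Z * δ ≤ ε := by
    have : δ ≤ ε / Z := by rw [hδ]; exact min_le_right _ _
    rw [le_div_iff₀ (by linarith)] at this
    linarith
  obtain ⟨W₀, hW₀⟩ : ∃ W₀, W₀ = 1 / δ := ⟨_, rfl⟩
  have hW₀1 : 1 ≤ W₀ := by rw [hW₀]; exact (one_le_div hδ0).2 hδ1
  have hW₀0 : 0 < W₀ := by linarith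
  obtain ⟨d₂, hd₂⟩ : ∃ d₂, d₂ = e / 16 := ⟨_, rfl⟩
  obtain ⟨d₁, hd₁⟩ : ∃ d₁, d₁ = d₂ / 2 * Real.exp (-(W₀ + CM)) := ⟨_, rfl⟩
  have hd₂0 : 0 < d₂ := by rw [hd₂]; positivity
  have hd₁0 : 0 < d₁ := by rw [hd₁]; positivity
  have hd12 : d₁ < d₂ := by
    rw [hd₁]
    have h1 : Real.exp (-(W₀ + CM)) ≤ 1 := Real.exp_le_one_iff.2 (by linarith)
    have h2 := mul_le_mul_of_nonneg_left h1 (by positivity : 0 ≤ d₂ / 2)
    linarith
  obtain ⟨X0, hX0⟩ := hP (d₁ / 3) (d₂ / 3) (by positivity) (by linarith) (by linarith)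
  obtain ⟨T₀, hT₀⟩ : ∃ T₀ : ℝ, T₀ = if χ = 1 then W₀ + 2 else 0 := ⟨_, rfl⟩
  obtain ⟨c, hc⟩ : ∃ c, c = min c1 c2 := ⟨_, rfl⟩
  have hc0 : 0 < c := by rw [hc]; exact lt_min hc1 hc2
  have hcc1 : c ≤ c1 := by rw [hc]; exact min_le_left _ _
  have hcc2 : c ≤ c2 := by rw [hc]; exact min_le_right _ _
  obtain ⟨v₀, hv₀⟩ : ∃ v₀ : ℝ, v₀ = 1 / d₁ + 2 / d₂ + 16 * A / e + 8 / e + 2 + W₀ + |X0| :=
    ⟨_, rfl⟩
  refine ⟨T₀, c * e / 8, v₀, ?_, ?_, by positivity, ?_⟩
  · rw [hT₀]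
    split_ifs
    · linarith
    · exact le_rfl
  · intro hχ
    rw [hT₀, if_neg hχ]
  intro v hv φ hcut N hN b hb s U hUm hUT hUT₀ hUv
  have p1 : 0 < 1 / d₁ := by positivity
  have p2 : 0 < 2 / d₂ := by positivity
  have p3 : 0 < 16 * A / e := by positivity
  have p4 : 0 < 8 / e := by positivity
  have p5 : 0 ≤ |X0| := abs_nonneg _
  have v1 : 1 ≤ d₁ * v := by
    have h1 : 1 / d₁ ≤ v := by linarith
    rw [div_le_iff₀ hd₁0] at h1
    linarith
  have v2 : 2 ≤ d₂ * v := by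
    have h1 : 2 / d₂ ≤ v := by linarith
    rw [div_le_iff₀ hd₂0] at h1
    linarith
  have v3 : 16 * A ≤ e * v := by
    have h1 : 16 * A / e ≤ v := by linarith
    rw [div_le_iff₀ he] at h1
    linarith
  have v4 : 8 ≤ e * v := by
    have h1 : 8 / e ≤ v := by linarith
    rw [div_le_iff₀ he] at h1
    linarith
  have v5 : 2 ≤ v := by linarith
  have v6 : W₀ ≤ v := by linarith
  have v7 : X0 ≤ v := by linarith [le_abs_self X0]
  have hv0 : 0 ≤ v := by linarith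
  have hev2 : e * v ≤ 1 / 2 * v := mul_le_mul_of_nonneg_right he2 hv0
  have hd12v : d₁ * v ≤ d₂ * v := mul_le_mul_of_nonneg_right hd12.le hv0
  obtain ⟨hφ2, hφB, hφB', hφA⟩ := hcut
  -- the weight
  obtain ⟨W, hW⟩ : ∃ W, W = Wt (d₁ * v) (d₂ * v) := ⟨_, rfl⟩
  have hWW : W₀ ≤ W := by
    have h1 := hWt (d₁ * v) (d₂ * v) v1 v2 hd12v
    have h2 : d₂ * v / 2 = d₁ * v * Real.exp (W₀ + CM) := by
      rw [hd₁, Real.exp_neg]
      have := (Real.exp_pos (W₀ + CM)).ne'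
      field_simp
    rw [h2, Real.log_mul (by linarith) (Real.exp_pos _).ne', Real.log_exp] at h1
    rw [hW]
    linarith
  have hW0 : 0 < W := by linarith
  have hW1 : 1 / W ≤ δ := by
    have h1 : W₀ * δ = 1 := by rw [hW₀]; field_simp
    rw [div_le_iff₀ hW0, mul_comm, ← h1]
    exact mul_le_mul_of_nonneg_right hWW hδ0.le
  have hvol : (volume U).toReal ≤ Real.exp (c * e / 8 * v) :=
    ENNReal.toReal_le_of_le_ofReal (Real.exp_pos _).le hUv
  have hdecay : ∀ c' w : ℝ, c ≤ c' → e * v / 8 ≤ w → (volume U).toReal * Real.exp (-(c' * w)) ≤ 1 := by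
    intro c' w hc' hw
    have h1 : Real.exp (-(c' * w)) ≤ Real.exp (-(c * e / 8 * v)) := by
      rw [Real.exp_le_exp, neg_le_neg_iff]
      have h2 : 0 ≤ e * v / 8 := by positivity
      calc c * e / 8 * v = c * (e * v / 8) := by ring
        _ ≤ c' * (e * v / 8) := mul_le_mul_of_nonneg_right hc' h2
        _ ≤ c' * w := mul_le_mul_of_nonneg_left hw (by linarith)
    calc (volume U).toReal * Real.exp (-(c' * w)) ≤
        Real.exp (c * e / 8 * v) * Real.exp (-(c * e / 8 * v)) :=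
          mul_le_mul hvol h1 (Real.exp_pos _).le (Real.exp_pos _).le
      _ = 1 := by rw [← Real.exp_add]; simp
  have hexp : ∀ w : ℝ, e * v / 8 ≤ w → 2 * Real.exp (2 * v) ≤
      Real.exp ((⌈24 / e⌉₊ : ℕ) * w) := by
    intro w hw
    have h1 : 24 / e ≤ (⌈24 / e⌉₊ : ℕ) := Nat.le_ceil _
    have h2 : 3 * v ≤ (⌈24 / e⌉₊ : ℕ) * w := by
      have h3 : 24 / e * (e * v / 8) = 3 * v := by field_simp; ring
      calc 3 * v = 24 / e * (e * v / 8) := h3.symm
        _ ≤ (⌈24 / e⌉₊ : ℕ) * w := mul_le_mul h1 hw (by positivity) (Nat.cast_nonneg _)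
    refine le_trans ?_ (Real.exp_le_exp.2 h2)
    have h3 : Real.exp (3 * v) = Real.exp v * Real.exp (2 * v) := by
      rw [← Real.exp_add]; congr 1; ring
    rw [h3]
    refine mul_le_mul_of_nonneg_right ?_ (Real.exp_pos _).le
    have := Real.add_one_le_exp v
    linarith
  obtain ⟨D, hDdef⟩ : ∃ D, D = Real.exp ((1 - e) * v) := ⟨_, rfl⟩
  rw [← hDdef]
  obtain ⟨T, hT⟩ : ∃ T, T = Real.exp (2 * v) := ⟨_, rfl⟩
  rw [← hT] at hUT
  have hT0 : 0 ≤ T := by rw [hT]; exact (Real.exp_pos _).le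
  have hTexp : ∀ w : ℝ, e * v / 8 ≤ w → 2 * T ≤ Real.exp ((⌈24 / e⌉₊ : ℕ) * w) := by
    intro w hw
    rw [hT]
    exact hexp w hw
  have hev : 0 < e * v := by linarith
  -- mean squares at one scale
  have hFb : ∀ ψ : ℝ → ℝ, (∀ x, |ψ x| ≤ B) → (∀ x, A + 1 ≤ |x| → ψ x = 0) →
      ∀ w ∈ Set.Icc (e * v / 8) (v + 2), ∫ t in U, ‖FF ψ (cs χ b D (s + 1)) N w t‖ ^ 2 ≤
        2 * CF := by
    intro ψ h1 h2 w hw
    refine (hF w T (by linarith [hw.1]) hT0 (hTexp w hw.1) U hUm hUT ψ h1 h2 N _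
      (h45_cs_norm χ hb D (s + 1))).trans ?_
    have h3 := mul_le_mul_of_nonneg_left (hdecay c2 w hcc2 hw.1) hCF.le
    linarith
  have hFb1 := hFb φ hφB (fun x hx => hφA x (by linarith))
  have hFb2 := hFb (deriv φ) hφB' (fun x hx => h45_deriv_zero hφA x hx)
  -- the sum over the primes
  obtain ⟨P, hPdef⟩ : ∃ P, P = prs (d₁ * v) (d₂ * v) := ⟨_, rfl⟩
  have hmemP : ∀ p ∈ P, p.Prime ∧ Real.log p ≤ d₂ * v ∧ 0 ≤ Real.log p := by
    intro p hp
    rw [hPdef] at hp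
    exact h45_mem_prs hp
  obtain ⟨cc, hcc⟩ : ∃ cc : ℕ → ℝ → ℂ, cc = fun p t => χ ((p : ℕ) : ZMod q) *
    (((1 / (p : ℝ) : ℝ)) : ℂ) * ph (-(t * Real.log p)) := ⟨_, rfl⟩
  have hph : ∀ x, ‖ph x‖ = 1 := fun x => Complex.norm_exp_ofReal_mul_I x
  have hphadd : ∀ x y, ph (x + y) = ph x * ph y := by
    intro x y
    unfold ph
    rw [← Complex.exp_add]
    congr 1
    push_cast
    ring
  have hPsum : ∀ t ∈ U, ∀ u : ℝ, |u| ≤ W₀ → ‖∑ p ∈ P, cc p t * ph (-(u * Real.log p))‖ ≤ C₀ := by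
    intro t ht u hu
    have h1 : X0 ≤ Real.exp (3 * v) := by
      have := Real.add_one_le_exp (3 * v)
      linarith
    have ht1 : |t| ≤ T := abs_le.2 (hUT ht)
    have h2 : |t + u| ≤ Real.exp (3 * v) := by
      have h3 : Real.exp (3 * v) = Real.exp v * Real.exp (2 * v) := by
        rw [← Real.exp_add]; congr 1; ring
      have h4 := Real.add_one_le_exp v
      have h5 := Real.add_one_le_exp (2 * v)
      have h6 : 2 * Real.exp (2 * v) ≤ Real.exp v * Real.exp (2 * v) :=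
        mul_le_mul_of_nonneg_right (by linarith) (Real.exp_pos _).le
      rw [hT] at ht1
      refine (abs_add_le _ _).trans ?_
      rw [h3]
      linarith
    have h3 : 2 ≤ |t + u| ∨ χ ≠ 1 := by
      by_cases hχ : χ = 1
      · left
        have h4 := hUT₀ t ht
        rw [hT₀, if_pos hχ] at h4
        have h5 : |t| ≤ |t + u| + |u| := by
          have h6 := abs_add_le (t + u) (-u)
          rw [abs_neg, add_neg_cancel_right] at h6
          exact h6
        linarith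
      · right
        exact hχ
    have h4 := hX0 (Real.exp (3 * v)) h1 (t + u) h2 h3
    have e1 : Real.exp (3 * v) ^ (d₁ / 3) = Real.exp (d₁ * v) := by
      rw [← Real.exp_mul]
      congr 1
      ring
    have e2 : Real.exp (3 * v) ^ (d₂ / 3) = Real.exp (d₂ * v) := by
      rw [← Real.exp_mul]
      congr 1
      ring
    rw [e1, e2] at h4
    have e3 : ∑ p ∈ P, cc p t * ph (-(u * Real.log p)) =
        ∑ p ∈ (Finset.Ioc ⌊Real.exp (d₁ * v)⌋₊ ⌊Real.exp (d₂ * v)⌋₊).filter Nat.Prime,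
        χ ((p : ℕ) : ZMod q) * ((p : ℂ) ^ (-(1 + ((t + u : ℝ) : ℂ) * Complex.I))) := by
      rw [hPdef]
      unfold prs
      refine Finset.sum_congr rfl fun p hp => ?_
      have hp0 : p ≠ 0 := (Finset.mem_filter.1 hp).2.ne_zero
      rw [h45_cpow hp0, hcc]
      have e4 : -((t + u) * Real.log p) = -(t * Real.log p) + -(u * Real.log p) := by ring
      rw [e4, hphadd]
      ring
    rw [e3]
    exact h4
  have hSsum : ∀ t ∈ U, ∑ p ∈ P, ‖cc p t‖ ≤ W := by
    intro t _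
    rw [hW, hPdef]
    unfold Wt
    refine Finset.sum_le_sum fun p _ => ?_
    rw [hcc]
    simp only
    rw [norm_mul, norm_mul, hph, mul_one, Complex.norm_real, Real.norm_of_nonneg (by positivity)]
    exact mul_le_of_le_one_left (by positivity) (χ.norm_le_one _)
  have hcccont : ∀ p, Continuous (cc p) := by
    intro p
    rw [hcc]
    exact continuous_const.mul (h45_ph_cont.comp ((continuous_id.mul continuous_const).neg))
  have hsupp : ∀ w ∈ Set.Ioc (e * v / 2) (v + 1), ∀ p ∈ P,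
      e * v / 8 + 1 ≤ w - Real.log p ∧ w - Real.log p + 1 ≤ v + 2 := by
    intro w hw p hp
    obtain ⟨_, h1, h2⟩ := hmemP p hp
    rw [hd₂] at h1
    constructor
    · linarith [hw.1]
    · linarith [hw.2]
  have hmain := h45_Mpart hC P cc hcccont hφ2 (cs χ b D (s + 1)) N hUm hUT
    (α := e * v / 2) (β := v + 1) (a := e * v / 8) (b := v + 2) hK hW₀0 (by linarith) hsupp
    hPsum hSsum hFb1 hFb2
  -- one scale
  obtain ⟨om, hom⟩ : ∃ om : ℕ → ℝ, om = fun n => (((P.filter (fun p => p ∣ n)).card : ℕ) : ℝ) :=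
    ⟨_, rfl⟩
  have hscale : ∀ w ∈ Set.Ioc (e * v / 2) (v + 1), ∫ t in U, ‖FF φ (cs χ b D s) N w t‖ ^ 2 ≤
      2 / W ^ 2 * (∫ t in U, ‖∑ p ∈ P, cc p t *
        FF φ (cs χ b D (s + 1)) N (w - Real.log p) t‖ ^ 2) +
      2 * (2 * CH * (B ^ 2 * (CT / W))) := by
    intro w hw
    have hNR : Real.exp (w + A) ≤ N := by
      refine (Real.exp_le_exp.2 ?_).trans hN
      linarith [hw.2]
    have hdec : ∀ t ∈ U, FF φ (cs χ b D s) N w t =
        ((1 / W : ℝ) : ℂ) * ∑ p ∈ P, (χ ((p : ℕ) : ZMod q) * (((1 / (p : ℝ) : ℝ)) : ℂ) *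
          ph (-(t * Real.log p))) * FF φ (cs χ b D (s + 1)) N (w - Real.log p) t +
        ∑ n ∈ Finset.Icc 1 N, cs χ b D s n * ((1 - om n / W : ℝ) : ℂ) *
          ((φ (Real.log n - w) / n : ℝ) : ℂ) * ph (-(t * Real.log n)) := by
      intro t _
      have h1 := hD q hq χ A B φ ⟨hφ2, hφB, hφB', hφA⟩ (d₁ * v) (d₂ * v) w t D N b s
        (by rw [← hW]; exact hW0)
        (by
          rw [hDdef, hd₂]
          exact Real.exp_le_exp.2 (mul_le_mul_of_nonneg_right (by linarith) hv0)) hNR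
      rw [← hW, ← hPdef] at h1
      rw [hom]
      exact h1
    have hE : ∫ t in U, ‖∑ n ∈ Finset.Icc 1 N, cs χ b D s n * ((1 - om n / W : ℝ) : ℂ) *
        ((φ (Real.log n - w) / n : ℝ) : ℂ) * ph (-(t * Real.log n))‖ ^ 2 ≤
        2 * CH * (B ^ 2 * (CT / W)) := by
      refine h45_Epart χ hb hφB hφA W w D om N s U (by positivity) ?_ ?_
      · intro a ha
        refine (hHM w T (by linarith [hw.1]) hT0 (hTexp w (by linarith [hw.1])) U hUm hUT N a
          ha).trans ?_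
        refine mul_le_mul_of_nonneg_right ?_ (Finset.sum_nonneg fun n _ => by positivity)
        have h3 := mul_le_mul_of_nonneg_left (hdecay c1 w hcc1 (by linarith [hw.1])) hCH.le
        linarith
      · have h1 := hTK (d₁ * v) (d₂ * v) w v1 hd12v (by rw [hd₂]; linarith [hw.1])
          (by linarith [hw.1]) (by rw [← hW]; linarith) N
        rw [← hW, ← hPdef] at h1
        rw [hom]
        exact h1
    have h2 := h45_one_scale hφ2.continuous χ b D W w om N s P hUm hUT hdec hE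
    rw [hcc]
    exact h2
  -- integrate over the scales
  have hle : e * v / 2 ≤ v + 1 := by linarith
  rw [intervalIntegral.integral_of_le hle]
  have hFc := h45_FF_cont hφ2.continuous (cs χ b D s) N
  have hf1 : Continuous (fun x : ℝ × ℝ => ‖FF φ (cs χ b D s) N x.1 x.2‖ ^ 2) :=
    (continuous_norm.comp hFc).pow 2
  have hf2 : Continuous (fun x : ℝ × ℝ =>
      ‖∑ p ∈ P, cc p x.2 * FF φ (cs χ b D (s + 1)) N (x.1 - Real.log p) x.2‖ ^ 2) := by
    have e1 : Continuous (fun x : ℝ × ℝ =>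
        ∑ p ∈ P, cc p x.2 * FF φ (cs χ b D (s + 1)) N (x.1 - Real.log p) x.2) := by
      refine continuous_finsetSum _ fun p _ => ?_
      have e2 : Continuous (fun x : ℝ × ℝ => (x.1 - Real.log p, x.2)) :=
        (continuous_fst.sub continuous_const).prodMk continuous_snd
      have e3 := (h45_FF_cont hφ2.continuous (cs χ b D (s + 1)) N).comp e2
      simp only [Function.comp_def] at e3
      exact ((hcccont p).comp continuous_snd).mul e3
    exact (continuous_norm.comp e1).pow 2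
  have hi1 := h45_int_left hf1 (Set.Ioc_subset_Icc_self (a := e * v / 2) (b := v + 1)) hUT
  have hi2 := h45_int_left hf2 (Set.Ioc_subset_Icc_self (a := e * v / 2) (b := v + 1)) hUT
  have hconst : IntegrableOn (fun _ : ℝ => 2 * (2 * CH * (B ^ 2 * (CT / W))))
      (Set.Ioc (e * v / 2) (v + 1)) := integrableOn_const (by simp)
  have step : ∫ w in Set.Ioc (e * v / 2) (v + 1), ∫ t in U, ‖FF φ (cs χ b D s) N w t‖ ^ 2 ≤
      ∫ w in Set.Ioc (e * v / 2) (v + 1), (2 / W ^ 2 * (∫ t in U, ‖∑ p ∈ P, cc p t *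
        FF φ (cs χ b D (s + 1)) N (w - Real.log p) t‖ ^ 2) +
      2 * (2 * CH * (B ^ 2 * (CT / W)))) :=
    setIntegral_mono_on hi1 ((hi2.const_mul _).add hconst) measurableSet_Ioc hscale
  refine step.trans ?_
  rw [integral_add (hi2.const_mul _) hconst, integral_const_mul, setIntegral_const, Measure.real,
    Real.volume_Ioc, ENNReal.toReal_ofReal (by linarith), smul_eq_mul]
  have hlen1 : v + 2 - e * v / 8 ≤ 2 * v := by linarith
  have hlen2 : v + 1 - e * v / 2 ≤ 2 * v := by linarith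
  have hlen3 : 0 ≤ v + 2 - e * v / 8 := by linarith
  -- the two terms
  have hW2 : 1 / W ^ 2 ≤ δ := by
    have h1 : 1 / W ^ 2 = 1 / W * (1 / W) := by ring
    have h2 : 0 < 1 / W := by positivity
    rw [h1]
    calc 1 / W * (1 / W) ≤ δ * 1 := mul_le_mul hW1 (hW1.trans hδ1) h2.le hδ0.le
      _ = δ := mul_one _
  have hU2 : 1 / W₀ ^ 2 ≤ δ := by
    have h1 : 1 / W₀ ^ 2 = δ * δ := by rw [hW₀]; field_simp
    rw [h1]
    exact mul_le_of_le_one_right hδ0.le hδ1
  have t1 : 2 / W ^ 2 * (∫ w in Set.Ioc (e * v / 2) (v + 1), ∫ t in U, ‖∑ p ∈ P, cc p t *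
      FF φ (cs χ b D (s + 1)) N (w - Real.log p) t‖ ^ 2) ≤
      (8 * CF * C₀ ^ 2 + 8 * (8 * K ^ 2 + 2) * CF) * (δ * v) := by
    refine (mul_le_mul_of_nonneg_left hmain (by positivity)).trans ?_
    have h1 : (v + 2 - e * v / 8) * (2 * CF) ≤ 4 * CF * v := by
      have := mul_le_mul_of_nonneg_right hlen1 (by positivity : 0 ≤ 2 * CF)
      linarith
    have h2 : 2 / W ^ 2 * (C₀ ^ 2 * ((v + 2 - e * v / 8) * (2 * CF)) + W ^ 2 / W₀ ^ 2 *
        ((8 * K ^ 2 + 2) * ((v + 2 - e * v / 8) * (2 * CF)))) ≤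
        2 / W ^ 2 * (C₀ ^ 2 * (4 * CF * v) + W ^ 2 / W₀ ^ 2 *
        ((8 * K ^ 2 + 2) * (4 * CF * v))) := by
      refine mul_le_mul_of_nonneg_left (add_le_add ?_ ?_) (by positivity)
      · exact mul_le_mul_of_nonneg_left h1 (sq_nonneg _)
      · exact mul_le_mul_of_nonneg_left (mul_le_mul_of_nonneg_left h1 (by positivity))
          (by positivity)
    refine h2.trans ?_
    have h3 : 2 / W ^ 2 * (C₀ ^ 2 * (4 * CF * v) + W ^ 2 / W₀ ^ 2 *
        ((8 * K ^ 2 + 2) * (4 * CF * v))) =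
        (8 * CF * C₀ ^ 2 * v) * (1 / W ^ 2) + (8 * (8 * K ^ 2 + 2) * CF * v) * (1 / W₀ ^ 2) := by
      have := hW0.ne'
      field_simp
      norm_num
    rw [h3]
    have h4 : (8 * CF * C₀ ^ 2 * v) * (1 / W ^ 2) ≤ (8 * CF * C₀ ^ 2 * v) * δ :=
      mul_le_mul_of_nonneg_left hW2 (by positivity)
    have h5 : (8 * (8 * K ^ 2 + 2) * CF * v) * (1 / W₀ ^ 2) ≤
        (8 * (8 * K ^ 2 + 2) * CF * v) * δ :=
      mul_le_mul_of_nonneg_left hU2 (by positivity)
    calc _ ≤ (8 * CF * C₀ ^ 2 * v) * δ + (8 * (8 * K ^ 2 + 2) * CF * v) * δ := add_le_add h4 h5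
      _ = _ := by ring
  have t2 : (v + 1 - e * v / 2) * (2 * (2 * CH * (B ^ 2 * (CT / W)))) ≤
      (8 * CH * B ^ 2 * CT) * (δ * v) := by
    have h1 : 2 * (2 * CH * (B ^ 2 * (CT / W))) = (4 * CH * B ^ 2 * CT) * (1 / W) := by ring
    rw [h1]
    have h2 : (4 * CH * B ^ 2 * CT) * (1 / W) ≤ (4 * CH * B ^ 2 * CT) * δ :=
      mul_le_mul_of_nonneg_left hW1 (by positivity)
    calc (v + 1 - e * v / 2) * ((4 * CH * B ^ 2 * CT) * (1 / W)) ≤
        (2 * v) * ((4 * CH * B ^ 2 * CT) * δ) :=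
          mul_le_mul hlen2 h2 (by positivity) (by positivity)
      _ = _ := by ring
  have hZv : (8 * CF * C₀ ^ 2 + 8 * (8 * K ^ 2 + 2) * CF) * (δ * v) +
      (8 * CH * B ^ 2 * CT) * (δ * v) ≤ ε * v := by
    have h1 : (8 * CF * C₀ ^ 2 + 8 * (8 * K ^ 2 + 2) * CF) * (δ * v) +
      (8 * CH * B ^ 2 * CT) * (δ * v) = (Z - 1) * (δ * v) := by rw [hZ]; ring
    rw [h1]
    have h2 : 0 ≤ δ * v := by positivity
    calc (Z - 1) * (δ * v) ≤ Z * (δ * v) := by linarith
      _ = Z * δ * v := by ring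
      _ ≤ ε * v := mul_le_mul_of_nonneg_right hδε (by linarith)
  linarith

end MRP.U
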