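import Mathlib
import Pool.Agent.Helper6.MR.UDefs

/-!
# U08a: the logarithm identity

PROOF.  `v φ(log n - v) = (log n) φ(log n - v) - (log n - v) φ(log n - v)`, which gives the last sum.  `log n = ∑_{d ∣ n} Λ(d)` (`ArithmeticFunction.vonMangoldt_sum`).  Exchange: `∑_{n≤N} log n g(n) (φ(log n - v)/n) ph(-(t log n)) = ∑_{d≤N} Λ(d) ∑_{m ≤ N/d} g(dm)
(φ(log d + log m - v)/(dm)) ph(-(t log d)) ph(-(t log m))` with `g = cs χ b D 0`; the sum over `m` may be extended to `m ≤ N` since for `dm > N ≥ e^(v+A)` the factor `φ(log(dm) - v)` vanishes.  For `d` prime: if `d > D` then `Sm D (dm)` fails and the term is `0`; if `d ≤ D`: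
`Λ(d) = log d`, `Sm D (dm) ↔ Sm D m`, `cs χ b D 0 (dm) = χ(d) cs χ b D 1 m`.  For `d` not prime keep the term (`Λ(1) = 0`).
-/

set_option autoImplicit false

namespace MRP.U

open Finset Complex MeasureTheory MRP.E

private lemma h45_ph_add (x y : ℝ) : ph (x + y) = ph x * ph y := by
  unfold ph
  rw [← Complex.exp_add]
  congr 1
  push_cast
  ring

/-- the summand of `FF` -/
private noncomputable def h45_T (φ : ℝ → ℝ) (g : ℕ → ℂ) (v t : ℝ) (n : ℕ) : ℂ :=
  g n * ((φ (Real.log n - v) / n : ℝ) : ℂ) * ph (-(t * Real.log n))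

private lemma h45_T_zero {φ : ℝ → ℝ} {A : ℝ} (hφ : ∀ x, A ≤ |x| → φ x = 0) (g : ℕ → ℂ) (v t : ℝ)
    {N n : ℕ} (hN : Real.exp (v + A) ≤ N) (hn : N < n) : h45_T φ g v t n = 0 := by
  have h1 : Real.exp (v + A) < n := lt_of_le_of_lt hN (by exact_mod_cast hn)
  have hn0 : (0 : ℝ) < n := lt_trans (Real.exp_pos _) h1
  have h2 : v + A < Real.log n := (Real.lt_log_iff_exp_lt hn0).2 h1
  have h3 : φ (Real.log n - v) = 0 := hφ _ (le_trans (by linarith) (le_abs_self _))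
  unfold h45_T
  rw [h3]
  simp

private lemma h45_T_mul {φ : ℝ → ℝ} (g : ℕ → ℂ) (v t : ℝ) {d m : ℕ} (hd : 1 ≤ d) (hm : 1 ≤ m) :
    h45_T φ g v t (d * m) = ((1 / (d : ℝ) : ℝ) : ℂ) * ph (-(t * Real.log d)) *
      h45_T φ (fun m => g (d * m)) (v - Real.log d) t m := by
  have hd0 : (d : ℝ) ≠ 0 := by
    have : d ≠ 0 := by omega
    exact_mod_cast this
  have hm0 : (m : ℝ) ≠ 0 := by
    have : m ≠ 0 := by omega
    exact_mod_cast this
  unfold h45_T
  have h1 : Real.log ((d * m : ℕ) : ℝ) = Real.log d + Real.log m := by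
    rw [Nat.cast_mul, Real.log_mul hd0 hm0]
  have h2 : -(t * Real.log ((d * m : ℕ) : ℝ)) = -(t * Real.log d) + -(t * Real.log m) := by
    rw [h1]; ring
  have h3 : Real.log ((d * m : ℕ) : ℝ) - v = Real.log m - (v - Real.log d) := by
    rw [h1]; ring
  rw [h2, h3, h45_ph_add]
  have h4 : ((φ (Real.log m - (v - Real.log d)) / ((d * m : ℕ) : ℝ) : ℝ) : ℂ) =
      ((1 / (d : ℝ) : ℝ) : ℂ) * ((φ (Real.log m - (v - Real.log d)) / (m : ℝ) : ℝ) : ℂ) := by
    rw [← Complex.ofReal_mul]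
    congr 1
    push_cast
    field_simp
  rw [h4]
  ring

private lemma h45_sum_mul (T : ℕ → ℂ) (N : ℕ) (hT : ∀ n, N < n → T n = 0) {d : ℕ} (hd : 1 ≤ d) :
    ∑ m ∈ Finset.Icc 1 N, T (d * m) = ∑ n ∈ Finset.Icc 1 N, if d ∣ n then T n else 0 := by
  rw [← Finset.sum_filter]
  have h1 : ∑ m ∈ Finset.Icc 1 N, T (d * m) =
      ∑ m ∈ (Finset.Icc 1 N).filter (fun m => d * m ≤ N), T (d * m) := by
    rw [Finset.sum_filter_of_ne]
    intro m _ hne
    by_contra hcon
    push Not at hcon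
    exact hne (hT _ hcon)
  rw [h1]
  apply Finset.sum_nbij (fun m => d * m)
  · intro m hm
    rw [Finset.mem_filter, Finset.mem_Icc] at hm
    rw [Finset.mem_filter, Finset.mem_Icc]
    refine ⟨⟨?_, hm.2⟩, Dvd.intro m rfl⟩
    have : 1 * 1 ≤ d * m := Nat.mul_le_mul hd hm.1.1
    omega
  · intro a _ b _ hab
    exact Nat.eq_of_mul_eq_mul_left hd hab
  · intro n hn
    rw [Finset.mem_coe, Finset.mem_filter, Finset.mem_Icc] at hn
    obtain ⟨⟨h2, h3⟩, m, rfl⟩ := hn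
    refine ⟨m, ?_, rfl⟩
    rw [Finset.mem_coe, Finset.mem_filter, Finset.mem_Icc]
    have hm : m ≠ 0 := by
      rintro rfl
      simp at h2
    have h4 : 1 * m ≤ d * m := Nat.mul_le_mul_right m hd
    refine ⟨⟨by omega, by omega⟩, h3⟩
  · intro m _
    rfl

private lemma h45_log_sum (T : ℕ → ℂ) (N : ℕ) (hT : ∀ n, N < n → T n = 0) :
    ∑ n ∈ Finset.Icc 1 N, (Real.log n : ℂ) * T n =
      ∑ d ∈ Finset.Icc 1 N, ((ArithmeticFunction.vonMangoldt d : ℝ) : ℂ) *
        ∑ m ∈ Finset.Icc 1 N, T (d * m) := by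
  have h1 : ∀ d ∈ Finset.Icc 1 N, ((ArithmeticFunction.vonMangoldt d : ℝ) : ℂ) *
      ∑ m ∈ Finset.Icc 1 N, T (d * m) =
      ∑ n ∈ Finset.Icc 1 N, if d ∣ n then ((ArithmeticFunction.vonMangoldt d : ℝ) : ℂ) * T n
        else 0 := by
    intro d hd
    rw [h45_sum_mul T N hT (Finset.mem_Icc.1 hd).1, Finset.mul_sum]
    apply Finset.sum_congr rfl
    intro n _
    split_ifs
    · rfl
    · rw [mul_zero]
  rw [Finset.sum_congr rfl h1, Finset.sum_comm]
  apply Finset.sum_congr rfl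
  intro n hn
  rw [Finset.mem_Icc] at hn
  rw [← Finset.sum_filter, ← Finset.sum_mul]
  congr 1
  have h2 : (Finset.Icc 1 N).filter (fun d => d ∣ n) = n.divisors := by
    ext d
    rw [Finset.mem_filter, Finset.mem_Icc, Nat.mem_divisors]
    constructor
    · rintro ⟨_, h⟩
      exact ⟨h, by omega⟩
    · rintro ⟨h, _⟩
      have h3 := Nat.le_of_dvd (by omega) h
      have h4 := Nat.pos_of_dvd_of_pos h (by omega)
      exact ⟨⟨h4, by omega⟩, h⟩
  rw [h2, ← ArithmeticFunction.vonMangoldt_sum]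
  push_cast
  rfl

private lemma h45_Sm_mul {D : ℝ} {d m : ℕ} (hd : d.Prime) (hdD : (d : ℝ) ≤ D) :
    Sm D (d * m) ↔ Sm D m := by
  constructor
  · intro h p hp hpm
    exact h p hp (Dvd.dvd.mul_left hpm d)
  · intro h p hp hpm
    rcases (hp.dvd_mul).1 hpm with h1 | h1
    · rw [(Nat.prime_dvd_prime_iff_eq hp hd).1 h1]
      exact hdD
    · exact h p hp h1

private lemma h45_cs_mul {q : ℕ} (χ : DirichletCharacter ℂ q) (b : ℕ → ℝ) {D : ℝ} {d m : ℕ}
    (hd : d.Prime) (hdD : (d : ℝ) ≤ D) (hm : 1 ≤ m) :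
    cs χ b D 0 (d * m) = χ ((d : ℕ) : ZMod q) * cs χ b D 1 m := by
  unfold cs
  by_cases hS : Sm D m
  · rw [if_pos hS, if_pos ((h45_Sm_mul hd hdD).2 hS)]
    unfold cf
    have h1 : Om (d * m) = Om m + 1 := by
      unfold Om
      rw [ArithmeticFunction.cardFactors_mul hd.ne_zero (by omega),
        ArithmeticFunction.cardFactors_apply_prime hd]
      ring
    rw [h1, Nat.cast_mul, map_mul]
    simp only [Nat.add_zero]
    ring
  · rw [if_neg hS, if_neg (fun h => hS ((h45_Sm_mul hd hdD).1 h)), mul_zero]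

private lemma h45_cs_zero {q : ℕ} (χ : DirichletCharacter ℂ q) (b : ℕ → ℝ) {D : ℝ} {d m : ℕ}
    (hd : d.Prime) (hdD : D < (d : ℝ)) : cs χ b D 0 (d * m) = 0 := by
  unfold cs
  rw [if_neg]
  intro h
  have := h d hd (Dvd.intro m rfl)
  linarith

theorem stLogId : StLogId := by
  classical
  intro q _ χ A B φ hcut v t D N b hD0 hN hDN
  obtain ⟨_, _, _, hφ⟩ := hcut
  set g : ℕ → ℂ := cs χ b D 0 with hg
  have hFF : ∀ (g' : ℕ → ℂ) (w : ℝ), FF φ g' N w t = ∑ m ∈ Finset.Icc 1 N, h45_T φ g' w t m :=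
    fun _ _ => rfl
  have hT0 : ∀ n, N < n → h45_T φ g v t n = 0 := fun n hn => h45_T_zero hφ g v t hN hn
  have h1 : (v : ℂ) * FF φ g N v t = ∑ n ∈ Finset.Icc 1 N, (Real.log n : ℂ) * h45_T φ g v t n -
      ∑ n ∈ Finset.Icc 1 N, g n * (((Real.log n - v) * φ (Real.log n - v) / n : ℝ) : ℂ) *
        ph (-(t * Real.log n)) := by
    rw [hFF, Finset.mul_sum, ← Finset.sum_sub_distrib]
    apply Finset.sum_congr rfl
    intro n _
    unfold h45_T
    have h2 : (((Real.log n - v) * φ (Real.log n - v) / n : ℝ) : ℂ) =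
        ((Real.log n : ℂ) - v) * ((φ (Real.log n - v) / n : ℝ) : ℂ) := by
      rw [← Complex.ofReal_sub, ← Complex.ofReal_mul]
      congr 1
      ring
    rw [h2]
    ring
  have h2 := h45_log_sum (h45_T φ g v t) N hT0
  have h3 : ∀ d ∈ Finset.Icc 1 N, ((ArithmeticFunction.vonMangoldt d : ℝ) : ℂ) *
      ∑ m ∈ Finset.Icc 1 N, h45_T φ g v t (d * m) =
      (((ArithmeticFunction.vonMangoldt d / (d : ℝ) : ℝ)) : ℂ) * ph (-(t * Real.log d)) *
          FF φ (fun m => g (d * m)) N (v - Real.log d) t := by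
    intro d hd
    rw [hFF, Finset.mul_sum, Finset.mul_sum]
    apply Finset.sum_congr rfl
    intro m hm
    rw [h45_T_mul g v t (Finset.mem_Icc.1 hd).1 (Finset.mem_Icc.1 hm).1]
    have h4 : ((ArithmeticFunction.vonMangoldt d / (d : ℝ) : ℝ) : ℂ) =
        ((ArithmeticFunction.vonMangoldt d : ℝ) : ℂ) * ((1 / (d : ℝ) : ℝ) : ℂ) := by
      rw [← Complex.ofReal_mul]
      congr 1
      ring
    rw [h4]
    ring
  rw [Finset.sum_congr rfl h3] at h2
  rw [h1, h2, ← Finset.sum_filter_add_sum_filter_not (Finset.Icc 1 N) Nat.Prime]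
  congr 2
  -- the prime part
  have h5 : (Finset.Icc 1 ⌊D⌋₊).filter Nat.Prime =
      ((Finset.Icc 1 N).filter Nat.Prime).filter (fun d : ℕ => (d : ℝ) ≤ D) := by
    ext d
    rw [Finset.mem_filter, Finset.mem_filter, Finset.mem_filter, Finset.mem_Icc, Finset.mem_Icc,
      Nat.le_floor_iff hD0]
    constructor
    · rintro ⟨⟨h6, h7⟩, h8⟩
      exact ⟨⟨⟨h6, by exact_mod_cast h7.trans hDN⟩, h8⟩, h7⟩
    · rintro ⟨⟨⟨h6, _⟩, h8⟩, h7⟩
      exact ⟨⟨h6, h7⟩, h8⟩
  rw [h5, Finset.sum_filter (fun d : ℕ => (d : ℝ) ≤ D)]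
  apply Finset.sum_congr rfl
  intro d hd
  rw [Finset.mem_filter] at hd
  have hdp := hd.2
  split_ifs with hdD
  · have h6 : FF φ (fun m => g (d * m)) N (v - Real.log d) t =
        χ ((d : ℕ) : ZMod q) * FF φ (cs χ b D 1) N (v - Real.log d) t := by
      rw [hFF, hFF, Finset.mul_sum]
      apply Finset.sum_congr rfl
      intro m hm
      unfold h45_T
      have h7 : g (d * m) = χ ((d : ℕ) : ZMod q) * cs χ b D 1 m :=
        h45_cs_mul χ b hdp hdD (Finset.mem_Icc.1 hm).1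
      dsimp only
      rw [h7]
      ring
    rw [h6, ArithmeticFunction.vonMangoldt_apply_prime hdp]
    ring
  · push Not at hdD
    have h6 : FF φ (fun m => g (d * m)) N (v - Real.log d) t = 0 := by
      rw [hFF]
      apply Finset.sum_eq_zero
      intro m _
      unfold h45_T
      have h7 : g (d * m) = 0 := h45_cs_zero χ b hdp hdD
      dsimp only
      rw [h7, zero_mul, zero_mul]
    rw [h6, mul_zero]

end MRP.U
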