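import Mathlib
import Pool.Agent.Helper6.MR.UDefs
import Pool.Agent.Helper16.UB.Mert

/-!
# U08b: the trick of Halasz

PROOF.  All `L²(U)` norms are squared; sums are handled by the weighted Cauchy-Schwarz inequality
`‖∑ c_i F_i‖^2 ≤ (∑ |c_i|) ∑ |c_i| ‖F_i‖^2`.  `K = ⌈8/e⌉ + 8`, `η = min(ce/8, 1/8)`: for
`w ≥ ev/4` the factor `1 + vol(U) e^(-cw)` is at most `2`.  `D = e^((1-e)v)`.
By `StLogId`, `v FF_v = P + Q - R`.
(1) `R` has coefficients `≤ A B/n` on `|log n - v| ≤ A`: norm `≤ C`.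
(2) `Q`, the non prime `d = p^k`, `k ≥ 2`: if `d ≤ e^(v/2)` the norm of the polynomial is `≤ C`; if
`d > e^(v/2)` it is at most `C vol(U) ≤ C e^(ηv)`; and `∑ Λ(d) d^(-3/4)` converges.
(3) `P`, the primes `p ≤ D`: `≤ (∑ log p/p) ∑ (log p/p) G(log p)`, `G(s) = ∫_U ‖FF_(v-s)‖^2`
is continuous, bounded and Lipschitz on `[0, (1-e)v + 1]`; `StPrimeInt`.
(4) Divide by `v^2`.
-/

set_option autoImplicit false

namespace MRP.U

open Finset Complex MeasureTheory MRP.E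

private lemma t_norm_ph (x : ℝ) : ‖ph x‖ = 1 := Complex.norm_exp_ofReal_mul_I x

private lemma t_cont_ph : Continuous ph := by
  unfold ph
  fun_prop

private lemma t_norm_cs {q : ℕ} (χ : DirichletCharacter ℂ q) {b : ℕ → ℝ} (hb : ∀ m, |b m| ≤ 1)
    (D : ℝ) (s n : ℕ) : ‖cs χ b D s n‖ ≤ 1 := by
  unfold cs cf
  split_ifs
  · rw [norm_mul, Complex.norm_real, Real.norm_eq_abs]
    exact mul_le_one₀ (hb _) (norm_nonneg _) (DirichletCharacter.norm_le_one χ _)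
  · rw [norm_zero]
    exact zero_le_one

private lemma t_wcs {ι : Type} (S : Finset ι) (c f : ι → ℂ) (w : ι → ℝ)
    (hw : ∀ i ∈ S, 0 ≤ w i) (hc : ∀ i ∈ S, ‖c i‖ ≤ w i) :
    ‖∑ i ∈ S, c i * f i‖ ^ 2 ≤ (∑ i ∈ S, w i) * ∑ i ∈ S, w i * ‖f i‖ ^ 2 := by
  have h1 : ‖∑ i ∈ S, c i * f i‖ ≤ ∑ i ∈ S, w i * ‖f i‖ := by
    refine (norm_sum_le _ _).trans (Finset.sum_le_sum fun i hi => ?_)
    rw [norm_mul]
    exact mul_le_mul_of_nonneg_right (hc i hi) (norm_nonneg _)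
  have h2 : (∑ i ∈ S, w i * ‖f i‖) ^ 2 ≤ (∑ i ∈ S, w i) * ∑ i ∈ S, w i * ‖f i‖ ^ 2 := by
    apply Finset.sum_sq_le_sum_mul_sum_of_sq_le_mul
    · exact hw
    · intro i hi
      have := hw i hi
      positivity
    · intro i _
      exact le_of_eq (by ring)
  calc ‖∑ i ∈ S, c i * f i‖ ^ 2 ≤ (∑ i ∈ S, w i * ‖f i‖) ^ 2 :=
        pow_le_pow_left₀ (norm_nonneg _) h1 2
    _ ≤ _ := h2

private lemma t_int {U : Set ℝ} {T : ℝ} (hUT : U ⊆ Set.Icc (-T) T) {f : ℝ → ℝ}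
    (hf : Continuous f) : IntegrableOn f U :=
  (hf.integrableOn_Icc).mono_set hUT

private lemma t_wcs_int {ι : Type} {U : Set ℝ} {T : ℝ} (hUT : U ⊆ Set.Icc (-T) T)
    (S : Finset ι) (c f : ι → ℝ → ℂ) (w : ι → ℝ)
    (hw : ∀ i ∈ S, 0 ≤ w i) (hc : ∀ i ∈ S, ∀ t, ‖c i t‖ ≤ w i)
    (hcc : ∀ i ∈ S, Continuous (c i)) (hfc : ∀ i ∈ S, Continuous (f i)) :
    ∫ t in U, ‖∑ i ∈ S, c i t * f i t‖ ^ 2 ≤
      (∑ i ∈ S, w i) * ∑ i ∈ S, w i * ∫ t in U, ‖f i t‖ ^ 2 := by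
  have hi1 : IntegrableOn (fun t => ‖∑ i ∈ S, c i t * f i t‖ ^ 2) U := by
    refine t_int hUT ?_
    refine (Continuous.norm ?_).pow 2
    exact continuous_finsetSum _ fun i hi => (hcc i hi).mul (hfc i hi)
  have hi2 : ∀ i ∈ S, IntegrableOn (fun t => w i * ‖f i t‖ ^ 2) U := fun i hi =>
    t_int hUT (continuous_const.mul ((hfc i hi).norm.pow 2))
  have hi3 : IntegrableOn (fun t => (∑ i ∈ S, w i) * ∑ i ∈ S, w i * ‖f i t‖ ^ 2) U := by
    refine t_int hUT ?_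
    refine continuous_const.mul ?_
    exact continuous_finsetSum _ fun i hi => continuous_const.mul ((hfc i hi).norm.pow 2)
  calc ∫ t in U, ‖∑ i ∈ S, c i t * f i t‖ ^ 2
      ≤ ∫ t in U, (∑ i ∈ S, w i) * ∑ i ∈ S, w i * ‖f i t‖ ^ 2 := by
        refine integral_mono hi1 hi3 fun t => ?_
        exact t_wcs S (fun i => c i t) (fun i => f i t) w hw (fun i hi => hc i hi t)
    _ = (∑ i ∈ S, w i) * ∑ i ∈ S, w i * ∫ t in U, ‖f i t‖ ^ 2 := by
        rw [integral_const_mul]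
        congr 1
        rw [integral_finsetSum _ hi2]
        exact Finset.sum_congr rfl fun i _ => integral_const_mul _ _

private lemma t_cont_FF (φ : ℝ → ℝ) (g : ℕ → ℂ) (N : ℕ) (w : ℝ) :
    Continuous (fun t => FF φ g N w t) := by
  unfold FF
  refine continuous_finsetSum _ fun n _ => ?_
  refine continuous_const.mul (t_cont_ph.comp ?_)
  fun_prop

private lemma t_cont_FF' {φ : ℝ → ℝ} (hφ : Continuous φ) (g : ℕ → ℂ) (N : ℕ) (t : ℝ) :
    Continuous (fun w => FF φ g N w t) := by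
  unfold FF
  refine continuous_finsetSum _ fun n _ => ?_
  refine (continuous_const.mul ?_).mul continuous_const
  refine Complex.continuous_ofReal.comp ?_
  refine Continuous.div_const ?_ _
  exact hφ.comp (by fun_prop)

private lemma t_FF_le {φ : ℝ → ℝ} {B : ℝ} (hφ : ∀ x, |φ x| ≤ B) {g : ℕ → ℂ}
    (hg : ∀ n, ‖g n‖ ≤ 1) (N : ℕ) (w t : ℝ) : ‖FF φ g N w t‖ ≤ N * B := by
  have hB : 0 ≤ B := (abs_nonneg _).trans (hφ 0)
  unfold FF
  refine (norm_sum_le _ _).trans ?_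
  have : ∀ n ∈ Finset.Icc 1 N, ‖g n * ((φ (Real.log n - w) / n : ℝ) : ℂ) *
      ph (-(t * Real.log n))‖ ≤ B := by
    intro n hn
    have hn1 : (1 : ℝ) ≤ n := by exact_mod_cast (Finset.mem_Icc.mp hn).1
    rw [norm_mul, norm_mul, t_norm_ph, mul_one, Complex.norm_real, Real.norm_eq_abs, abs_div,
      abs_of_pos (by linarith : (0 : ℝ) < n)]
    have h1 : |φ (Real.log n - w)| / n ≤ B := by
      rw [div_le_iff₀ (by linarith)]
      nlinarith [hφ (Real.log n - w)]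
    calc ‖g n‖ * (|φ (Real.log n - w)| / n) ≤ 1 * B :=
          mul_le_mul (hg n) h1 (by positivity) zero_le_one
      _ = B := one_mul B
  calc _ ≤ ∑ n ∈ Finset.Icc 1 N, B := Finset.sum_le_sum this
    _ = N * B := by simp

private lemma t_cont_G {U : Set ℝ} (hUf : volume U < ⊤) {φ : ℝ → ℝ} (hφc : Continuous φ) {B : ℝ}
    (hφ : ∀ x, |φ x| ≤ B) {g : ℕ → ℂ} (hg : ∀ n, ‖g n‖ ≤ 1) (N : ℕ) :
    Continuous (fun w => ∫ t in U, ‖FF φ g N w t‖ ^ 2) := by
  have : IsFiniteMeasure (volume.restrict U) := ⟨by rw [Measure.restrict_apply_univ]; exact hUf⟩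
  refine continuous_of_dominated (bound := fun _ => (N * B) ^ 2) ?_ ?_ ?_ ?_
  · intro w
    exact ((t_cont_FF φ g N w).norm.pow 2).aestronglyMeasurable
  · intro w
    refine Filter.Eventually.of_forall fun t => ?_
    rw [Real.norm_eq_abs, abs_of_nonneg (by positivity)]
    exact pow_le_pow_left₀ (norm_nonneg _) (t_FF_le hφ hg N w t) 2
  · exact integrable_const _
  · refine Filter.Eventually.of_forall fun t => ?_
    exact (t_cont_FF' hφc g N t).norm.pow 2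

/-- non prime prime powers -/
private lemma t_pp_term {p N : ℕ} :
    ∑ k ∈ Finset.Ico 2 (N + 1), Real.log p * ((p : ℝ) ^ k) ^ (-(3 / 4) : ℝ) ≤
      12 * (p : ℝ) ^ (-(5 / 4) : ℝ) := by
  rcases Nat.lt_or_ge p 2 with hp | hp
  · interval_cases p
    · simp
    · simp
  · have hp2 : (2 : ℝ) ≤ p := by exact_mod_cast hp
    have hp0 : (0 : ℝ) < p := by linarith
    set r : ℝ := (p : ℝ) ^ (-(3 / 4) : ℝ) with hr
    have hr0 : 0 < r := Real.rpow_pos_of_pos hp0 _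
    have hr1 : r ≤ 2 / 3 := by
      have h1 : r ≤ (2 : ℝ) ^ (-(3 / 4) : ℝ) :=
        Real.rpow_le_rpow_of_nonpos (by norm_num) hp2 (by norm_num)
      have h2 : (2 : ℝ) ^ (-(3 / 4) : ℝ) ≤ 2 / 3 := by
        rw [Real.rpow_neg (by norm_num)]
        rw [inv_le_comm₀ (by positivity) (by norm_num)]
        have h3 : ((2 : ℝ) ^ ((3 : ℝ) / 4)) ^ (4 : ℕ) = 8 := by
          rw [← Real.rpow_natCast, ← Real.rpow_mul (by norm_num)]
          norm_num
        by_contra hcon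
        push Not at hcon
        have h4 : ((2 : ℝ) ^ ((3 : ℝ) / 4)) ^ (4 : ℕ) < ((2 / 3 : ℝ)⁻¹) ^ 4 :=
          pow_lt_pow_left₀ hcon (by positivity) (by norm_num)
        rw [h3] at h4
        norm_num at h4
      exact h1.trans h2
    have hpow : ∀ k : ℕ, ((p : ℝ) ^ k) ^ (-(3 / 4) : ℝ) = r ^ k := by
      intro k
      rw [hr, ← Real.rpow_natCast, ← Real.rpow_natCast, ← Real.rpow_mul hp0.le,
        ← Real.rpow_mul hp0.le, mul_comm]
    have hgeo : ∑ k ∈ Finset.Ico 2 (N + 1), r ^ k ≤ 3 * r ^ 2 := by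
      have h1 : ∑ k ∈ Finset.Ico 2 (N + 1), r ^ k ≤ r ^ 2 / (1 - r) :=
        geom_sum_Ico_le_of_lt_one hr0.le (by linarith)
      refine h1.trans ?_
      rw [div_le_iff₀ (by linarith)]
      nlinarith [sq_nonneg r, hr0]
    have hlog : Real.log p ≤ 4 * (p : ℝ) ^ ((1 : ℝ) / 4) := by
      have := Real.log_le_rpow_div hp0.le (ε := 1 / 4) (by norm_num)
      calc Real.log p ≤ (p : ℝ) ^ ((1 : ℝ) / 4) / (1 / 4) := this
        _ = 4 * (p : ℝ) ^ ((1 : ℝ) / 4) := by ring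
    have hlog0 : 0 ≤ Real.log p := Real.log_nonneg (by linarith)
    calc ∑ k ∈ Finset.Ico 2 (N + 1), Real.log p * ((p : ℝ) ^ k) ^ (-(3 / 4) : ℝ)
        = Real.log p * ∑ k ∈ Finset.Ico 2 (N + 1), r ^ k := by
          rw [Finset.mul_sum]
          exact Finset.sum_congr rfl fun k _ => by rw [hpow]
      _ ≤ Real.log p * (3 * r ^ 2) := mul_le_mul_of_nonneg_left hgeo hlog0
      _ ≤ (4 * (p : ℝ) ^ ((1 : ℝ) / 4)) * (3 * r ^ 2) :=
          mul_le_mul_of_nonneg_right hlog (by positivity)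
      _ = 12 * ((p : ℝ) ^ ((1 : ℝ) / 4) * r ^ 2) := by ring
      _ = 12 * (p : ℝ) ^ (-(5 / 4) : ℝ) := by
          congr 1
          rw [hr, ← Real.rpow_natCast, ← Real.rpow_mul hp0.le, ← Real.rpow_add hp0]
          norm_num

private lemma t_pp : ∃ S : ℝ, 0 < S ∧ ∀ N : ℕ,
    ∑ d ∈ (Finset.Icc 1 N).filter (fun d => ¬ d.Prime),
      ArithmeticFunction.vonMangoldt d * (d : ℝ) ^ (-(3 / 4) : ℝ) ≤ S := by
  have hsum : Summable (fun n : ℕ => 12 * (n : ℝ) ^ (-(5 / 4) : ℝ)) :=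
    (Real.summable_nat_rpow.mpr (by norm_num)).mul_left 12
  have hnn : ∀ n : ℕ, 0 ≤ 12 * (n : ℝ) ^ (-(5 / 4) : ℝ) := fun n => by positivity
  refine ⟨(∑' n : ℕ, 12 * (n : ℝ) ^ (-(5 / 4) : ℝ)) + 1,
    by
      have h0 : 0 ≤ ∑' n : ℕ, 12 * (n : ℝ) ^ (-(5 / 4) : ℝ) := tsum_nonneg hnn
      linarith, fun N => ?_⟩
  classical
  set F : ℕ × ℕ → ℝ := fun x => Real.log x.1 * ((x.1 : ℝ) ^ x.2) ^ (-(3 / 4) : ℝ) with hF
  have hFnn : ∀ x, 0 ≤ F x := by
    intro x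
    rw [hF]
    have : 0 ≤ Real.log x.1 := Real.log_natCast_nonneg _
    positivity
  set P := ((Finset.Icc 1 N).filter (fun d => ¬ d.Prime)).filter
    (fun d => ArithmeticFunction.vonMangoldt d ≠ 0) with hP
  have h1 : ∑ d ∈ (Finset.Icc 1 N).filter (fun d => ¬ d.Prime),
      ArithmeticFunction.vonMangoldt d * (d : ℝ) ^ (-(3 / 4) : ℝ) =
      ∑ d ∈ P, ArithmeticFunction.vonMangoldt d * (d : ℝ) ^ (-(3 / 4) : ℝ) := by
    symm
    apply Finset.sum_subset (Finset.filter_subset _ _)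
    intro d hd hd'
    have : ArithmeticFunction.vonMangoldt d = 0 := by
      by_contra hne
      exact hd' (Finset.mem_filter.mpr ⟨hd, hne⟩)
    rw [this, zero_mul]
  have hpk : ∀ d ∈ P, d.minFac.Prime ∧ d = d.minFac ^ (d.factorization d.minFac) ∧
      2 ≤ d.factorization d.minFac ∧ d.factorization d.minFac ≤ N ∧ d.minFac ≤ N ∧
      ArithmeticFunction.vonMangoldt d = Real.log d.minFac := by
    intro d hd
    rw [hP, Finset.mem_filter, Finset.mem_filter, Finset.mem_Icc] at hd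
    obtain ⟨⟨⟨hd1, hdN⟩, hdp⟩, hL⟩ := hd
    have hpp : IsPrimePow d := ArithmeticFunction.vonMangoldt_ne_zero_iff.mp hL
    have hmf : d.minFac.Prime := Nat.minFac_prime hpp.ne_one
    have hval : ArithmeticFunction.vonMangoldt d = Real.log d.minFac := by
      rw [ArithmeticFunction.vonMangoldt_apply, if_pos hpp]
    have heq : d.minFac ^ d.factorization d.minFac = d := hpp.minFac_pow_factorization_eq
    have hk0 : 2 ≤ d.factorization d.minFac := by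
      by_contra hlt
      push Not at hlt
      interval_cases h : d.factorization d.minFac
      · rw [pow_zero] at heq
        exact hpp.ne_one heq.symm
      · rw [pow_one] at heq
        rw [heq] at hmf
        exact hdp hmf
    refine ⟨hmf, heq.symm, hk0, ?_, (Nat.minFac_le (by omega)).trans hdN, hval⟩
    have h2 : d.factorization d.minFac < d.minFac ^ d.factorization d.minFac :=
      Nat.lt_pow_self hmf.one_lt
    rw [heq] at h2
    omega
  rw [h1]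
  have h2 : ∑ d ∈ P, ArithmeticFunction.vonMangoldt d * (d : ℝ) ^ (-(3 / 4) : ℝ) =
      ∑ x ∈ P.image (fun d => (d.minFac, d.factorization d.minFac)), F x := by
    rw [Finset.sum_image]
    · refine Finset.sum_congr rfl fun d hd => ?_
      obtain ⟨_, h4, _, _, _, h5⟩ := hpk d hd
      rw [hF]
      simp only
      rw [h5]
      congr 2
      conv_lhs => rw [h4]
      push_cast
      rfl
    · intro d hd d' hd' hdd
      simp only [Prod.mk.injEq] at hdd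
      obtain ⟨_, h4, _⟩ := hpk d hd
      obtain ⟨_, h4', _⟩ := hpk d' hd'
      rw [h4, h4', hdd.2, hdd.1]
  rw [h2]
  have h3 : P.image (fun d => (d.minFac, d.factorization d.minFac)) ⊆
      (Finset.range (N + 1)) ×ˢ (Finset.Ico 2 (N + 1)) := by
    intro x hx
    rw [Finset.mem_image] at hx
    obtain ⟨d, hd, rfl⟩ := hx
    obtain ⟨_, _, h6, h7, h8, _⟩ := hpk d hd
    rw [Finset.mem_product, Finset.mem_range, Finset.mem_Ico]
    simp only
    omega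
  calc ∑ x ∈ P.image (fun d => (d.minFac, d.factorization d.minFac)), F x
      ≤ ∑ x ∈ (Finset.range (N + 1)) ×ˢ (Finset.Ico 2 (N + 1)), F x :=
        Finset.sum_le_sum_of_subset_of_nonneg h3 fun x _ _ => hFnn x
    _ = ∑ p ∈ Finset.range (N + 1), ∑ k ∈ Finset.Ico 2 (N + 1), F (p, k) :=
        Finset.sum_product _ _ _
    _ ≤ ∑ p ∈ Finset.range (N + 1), 12 * (p : ℝ) ^ (-(5 / 4) : ℝ) :=
        Finset.sum_le_sum fun p _ => t_pp_term
    _ ≤ ∑' n : ℕ, 12 * (n : ℝ) ^ (-(5 / 4) : ℝ) := hsum.sum_le_tsum _ fun n _ => hnn n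
    _ ≤ _ := by linarith

private lemma t_vol {U : Set ℝ} {η v c w : ℝ} (hU : volume U ≤ ENNReal.ofReal (Real.exp (η * v)))
    (hc : η * v ≤ c * w) : (volume U).toReal * Real.exp (-(c * w)) ≤ 1 := by
  have h1 : (volume U).toReal ≤ Real.exp (η * v) :=
    ENNReal.toReal_le_of_le_ofReal (Real.exp_pos _).le hU
  calc (volume U).toReal * Real.exp (-(c * w)) ≤ Real.exp (η * v) * Real.exp (-(c * w)) :=
        mul_le_mul_of_nonneg_right h1 (Real.exp_pos _).le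
    _ = Real.exp (η * v + -(c * w)) := (Real.exp_add _ _).symm
    _ ≤ 1 := by
        rw [Real.exp_le_one_iff]
        linarith

private lemma t_coef {A w M W : ℝ} (hW : ∀ N : ℕ,
    ∑ n ∈ (Finset.Icc 1 N).filter (fun n : ℕ => |Real.log n - w| ≤ A), (1 / (n : ℝ)) ≤ W)
    {g : ℕ → ℂ} (hg : ∀ n, ‖g n‖ ≤ 1) {ρ : ℕ → ℝ} (hρ : ∀ n, |ρ n| ≤ M)
    (hρ0 : ∀ n : ℕ, A ≤ |Real.log n - w| → ρ n = 0) (N : ℕ) :
    ∑ n ∈ Finset.Icc 1 N, (n : ℝ) * ‖g n * ((ρ n / n : ℝ) : ℂ)‖ ^ 2 ≤ M ^ 2 * W := by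
  have hM : 0 ≤ M := (abs_nonneg _).trans (hρ 0)
  calc ∑ n ∈ Finset.Icc 1 N, (n : ℝ) * ‖g n * ((ρ n / n : ℝ) : ℂ)‖ ^ 2
      ≤ ∑ n ∈ Finset.Icc 1 N, (if |Real.log n - w| ≤ A then M ^ 2 * (1 / (n : ℝ)) else 0) := by
        refine Finset.sum_le_sum fun n hn => ?_
        have hn1 : (1 : ℝ) ≤ n := by exact_mod_cast (Finset.mem_Icc.mp hn).1
        have hn0 : (0 : ℝ) < n := by linarith
        split_ifs with h
        · have h1 : ‖g n * ((ρ n / n : ℝ) : ℂ)‖ ≤ M / n := by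
            rw [norm_mul, Complex.norm_real, Real.norm_eq_abs, abs_div, abs_of_pos hn0]
            calc ‖g n‖ * (|ρ n| / n) ≤ 1 * (M / n) :=
                  mul_le_mul (hg n) (div_le_div_of_nonneg_right (hρ n) hn0.le)
                    (by positivity) zero_le_one
              _ = M / n := one_mul _
          calc (n : ℝ) * ‖g n * ((ρ n / n : ℝ) : ℂ)‖ ^ 2 ≤ n * (M / n) ^ 2 :=
                mul_le_mul_of_nonneg_left (pow_le_pow_left₀ (norm_nonneg _) h1 2) hn0.le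
            _ = M ^ 2 * (1 / (n : ℝ)) := by field_simp
        · rw [hρ0 n (le_of_lt (not_le.mp h))]
          simp
    _ = M ^ 2 * ∑ n ∈ (Finset.Icc 1 N).filter (fun n : ℕ => |Real.log n - w| ≤ A),
          (1 / (n : ℝ)) := by
        rw [Finset.mul_sum, Finset.sum_filter]
    _ ≤ M ^ 2 * W := mul_le_mul_of_nonneg_left (hW N) (by positivity)

private lemma t_window {A W : ℝ} (hW : ∀ w : ℝ, 0 ≤ w → ∀ N : ℕ,
    ∑ n ∈ (Finset.Icc 1 N).filter (fun n : ℕ => |Real.log n - w| ≤ A), (1 / (n : ℝ)) ≤ W)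
    (w : ℝ) (N : ℕ) :
    ∑ n ∈ (Finset.Icc 1 N).filter (fun n : ℕ => |Real.log n - w| ≤ A), (1 / (n : ℝ)) ≤ W := by
  rcases le_total 0 w with hw | hw
  · exact hW w hw N
  · refine le_trans ?_ (hW 0 le_rfl N)
    refine Finset.sum_le_sum_of_subset_of_nonneg ?_ fun n _ _ => by positivity
    intro n hn
    rw [Finset.mem_filter] at hn ⊢
    refine ⟨hn.1, ?_⟩
    have h0 : 0 ≤ Real.log n := Real.log_natCast_nonneg n
    have h1 := (abs_le.mp hn.2).2
    rw [sub_zero, abs_of_nonneg h0]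
    linarith

private lemma t_FF_unif {A B W : ℝ} (hW : ∀ w : ℝ, 0 ≤ w → ∀ N : ℕ,
    ∑ n ∈ (Finset.Icc 1 N).filter (fun n : ℕ => |Real.log n - w| ≤ A), (1 / (n : ℝ)) ≤ W)
    {φ : ℝ → ℝ} (hφ : ∀ x, |φ x| ≤ B) (hφ0 : ∀ x, A ≤ |x| → φ x = 0) {g : ℕ → ℂ}
    (hg : ∀ n, ‖g n‖ ≤ 1) (N : ℕ) (w t : ℝ) : ‖FF φ g N w t‖ ≤ B * W := by
  have hB : 0 ≤ B := (abs_nonneg _).trans (hφ 0)
  unfold FF
  refine (norm_sum_le _ _).trans ?_
  calc ∑ n ∈ Finset.Icc 1 N, ‖g n * ((φ (Real.log n - w) / n : ℝ) : ℂ) * ph (-(t * Real.log n))‖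
      ≤ ∑ n ∈ Finset.Icc 1 N, (if |Real.log n - w| ≤ A then B * (1 / (n : ℝ)) else 0) := by
        refine Finset.sum_le_sum fun n hn => ?_
        have hn1 : (1 : ℝ) ≤ n := by exact_mod_cast (Finset.mem_Icc.mp hn).1
        have hn0 : (0 : ℝ) < n := by linarith
        split_ifs with h
        · rw [norm_mul, norm_mul, t_norm_ph, mul_one, Complex.norm_real, Real.norm_eq_abs, abs_div,
            abs_of_pos hn0]
          calc ‖g n‖ * (|φ (Real.log n - w)| / n) ≤ 1 * (B / n) :=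
                mul_le_mul (hg n) (div_le_div_of_nonneg_right (hφ _) hn0.le)
                  (by positivity) zero_le_one
            _ = B * (1 / (n : ℝ)) := by ring
        · rw [hφ0 _ (le_of_lt (not_le.mp h))]
          simp
    _ = B * ∑ n ∈ (Finset.Icc 1 N).filter (fun n : ℕ => |Real.log n - w| ≤ A),
          (1 / (n : ℝ)) := by
        rw [Finset.mul_sum, Finset.sum_filter]
    _ ≤ B * W := mul_le_mul_of_nonneg_left (t_window hW w N) hB

/-- the non prime part -/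
private lemma t_Q {U : Set ℝ} {v : ℝ}
    (hUT : U ⊆ Set.Icc (-Real.exp (2 * v)) (Real.exp (2 * v)))
    (hUf : volume U < ⊤) (hUv : (volume U).toReal ≤ Real.exp (v / 8))
    {S : ℝ} (hS : ∀ N : ℕ, ∑ d ∈ (Finset.Icc 1 N).filter (fun d => ¬ d.Prime),
      ArithmeticFunction.vonMangoldt d * (d : ℝ) ^ (-(3 / 4) : ℝ) ≤ S)
    {φ : ℝ → ℝ} {F3 M : ℝ} (hF3 : 0 ≤ F3) (N : ℕ)
    (h3 : ∀ w : ℝ, v / 2 ≤ w → ∀ g : ℕ → ℂ, (∀ n, ‖g n‖ ≤ 1) →
      ∫ t in U, ‖FF φ g N w t‖ ^ 2 ≤ F3)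
    (hb : ∀ g : ℕ → ℂ, (∀ n, ‖g n‖ ≤ 1) → ∀ w t, ‖FF φ g N w t‖ ≤ M)
    (g : ℕ → ℂ) (hg : ∀ n, ‖g n‖ ≤ 1) :
    ∫ t in U, ‖∑ d ∈ (Finset.Icc 1 N).filter (fun d => ¬ d.Prime),
        (((ArithmeticFunction.vonMangoldt d / (d : ℝ) : ℝ)) : ℂ) * ph (-(t * Real.log d)) *
          FF φ (fun m => g (d * m)) N (v - Real.log d) t‖ ^ 2 ≤ S * (S * (F3 + M ^ 2)) := by
  have hw : ∀ d ∈ (Finset.Icc 1 N).filter (fun d => ¬ d.Prime), (1 : ℝ) ≤ d := fun d hd => by
    exact_mod_cast (Finset.mem_Icc.mp (Finset.mem_filter.mp hd).1).1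
  have hS0 : 0 ≤ S := le_trans (Finset.sum_nonneg fun d _ =>
    mul_nonneg ArithmeticFunction.vonMangoldt_nonneg (by positivity)) (hS N)
  have hle : ∀ d ∈ (Finset.Icc 1 N).filter (fun d => ¬ d.Prime),
      ArithmeticFunction.vonMangoldt d / (d : ℝ) ≤
        ArithmeticFunction.vonMangoldt d * (d : ℝ) ^ (-(3 / 4) : ℝ) := by
    intro d hd
    have h1 := hw d hd
    rw [div_eq_mul_inv, ← Real.rpow_neg_one]
    refine mul_le_mul_of_nonneg_left ?_ ArithmeticFunction.vonMangoldt_nonneg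
    exact Real.rpow_le_rpow_of_exponent_le h1 (by norm_num)
  have h1 := t_wcs_int hUT ((Finset.Icc 1 N).filter (fun d => ¬ d.Prime))
    (fun d t => (((ArithmeticFunction.vonMangoldt d / (d : ℝ) : ℝ)) : ℂ) *
      ph (-(t * Real.log d)))
    (fun d t => FF φ (fun m => g (d * m)) N (v - Real.log d) t)
    (fun d => ArithmeticFunction.vonMangoldt d / (d : ℝ))
    (fun d hd => div_nonneg ArithmeticFunction.vonMangoldt_nonneg (by positivity))
    (fun d hd t => by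
      rw [norm_mul, t_norm_ph, mul_one, Complex.norm_real, Real.norm_eq_abs, abs_of_nonneg
        (div_nonneg ArithmeticFunction.vonMangoldt_nonneg (by positivity))])
    (fun d hd => continuous_const.mul (t_cont_ph.comp (by fun_prop)))
    (fun d hd => t_cont_FF _ _ _ _)
  refine h1.trans ?_
  have hsum1 : ∑ d ∈ (Finset.Icc 1 N).filter (fun d => ¬ d.Prime),
      ArithmeticFunction.vonMangoldt d / (d : ℝ) ≤ S := (Finset.sum_le_sum hle).trans (hS N)
  refine mul_le_mul hsum1 ?_ ?_ hS0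
  · calc ∑ d ∈ (Finset.Icc 1 N).filter (fun d => ¬ d.Prime),
          ArithmeticFunction.vonMangoldt d / (d : ℝ) *
            ∫ t in U, ‖FF φ (fun m => g (d * m)) N (v - Real.log d) t‖ ^ 2
        ≤ ∑ d ∈ (Finset.Icc 1 N).filter (fun d => ¬ d.Prime),
          (ArithmeticFunction.vonMangoldt d * (d : ℝ) ^ (-(3 / 4) : ℝ)) * (F3 + M ^ 2) := by
          refine Finset.sum_le_sum fun d hd => ?_
          have hd1 := hw d hd
          have hd0 : (0 : ℝ) < d := by linarith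
          have hL0 : 0 ≤ ArithmeticFunction.vonMangoldt d := ArithmeticFunction.vonMangoldt_nonneg
          have hint0 : 0 ≤ ∫ t in U, ‖FF φ (fun m => g (d * m)) N (v - Real.log d) t‖ ^ 2 :=
            integral_nonneg fun t => by positivity
          rcases le_total (Real.log d) (v / 2) with hlog | hlog
          · have h2 := h3 (v - Real.log d) (by linarith) (fun m => g (d * m)) (fun n => hg _)
            refine mul_le_mul (hle d hd) (h2.trans ?_) hint0 (by positivity)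
            nlinarith [sq_nonneg M]
          · have h2 : ∫ t in U, ‖FF φ (fun m => g (d * m)) N (v - Real.log d) t‖ ^ 2 ≤
                M ^ 2 * Real.exp (v / 8) := by
              have : IsFiniteMeasure (volume.restrict U) :=
                ⟨by rw [Measure.restrict_apply_univ]; exact hUf⟩
              calc ∫ t in U, ‖FF φ (fun m => g (d * m)) N (v - Real.log d) t‖ ^ 2
                  ≤ ∫ t in U, M ^ 2 := by
                    refine integral_mono (t_int hUT ((t_cont_FF _ _ _ _).norm.pow 2))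
                      (integrable_const _) fun t => ?_
                    exact pow_le_pow_left₀ (norm_nonneg _) (hb _ (fun n => hg _) _ _) 2
                _ = M ^ 2 * (volume U).toReal := by
                    rw [setIntegral_const, smul_eq_mul, mul_comm]
                    rfl
                _ ≤ M ^ 2 * Real.exp (v / 8) := mul_le_mul_of_nonneg_left hUv (by positivity)
            have h4 : ArithmeticFunction.vonMangoldt d / (d : ℝ) ≤
                ArithmeticFunction.vonMangoldt d * (d : ℝ) ^ (-(3 / 4) : ℝ) *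
                  Real.exp (-(v / 8)) := by
              rw [div_eq_mul_inv, ← Real.rpow_neg_one, mul_assoc]
              refine mul_le_mul_of_nonneg_left ?_ hL0
              have h5 : (d : ℝ) ^ (-1 : ℝ) =
                  (d : ℝ) ^ (-(3 / 4) : ℝ) * (d : ℝ) ^ (-(1 / 4) : ℝ) := by
                rw [← Real.rpow_add hd0]
                norm_num
              rw [h5]
              refine mul_le_mul_of_nonneg_left ?_ (by positivity)
              rw [Real.rpow_def_of_pos hd0]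
              apply Real.exp_le_exp.mpr
              linarith
            calc ArithmeticFunction.vonMangoldt d / (d : ℝ) *
                  ∫ t in U, ‖FF φ (fun m => g (d * m)) N (v - Real.log d) t‖ ^ 2
                ≤ (ArithmeticFunction.vonMangoldt d * (d : ℝ) ^ (-(3 / 4) : ℝ) *
                  Real.exp (-(v / 8))) * (M ^ 2 * Real.exp (v / 8)) :=
                  mul_le_mul h4 h2 hint0 (by positivity)
              _ = (ArithmeticFunction.vonMangoldt d * (d : ℝ) ^ (-(3 / 4) : ℝ)) * M ^ 2 *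
                  (Real.exp (-(v / 8)) * Real.exp (v / 8)) := by ring
              _ = (ArithmeticFunction.vonMangoldt d * (d : ℝ) ^ (-(3 / 4) : ℝ)) * M ^ 2 := by
                  rw [← Real.exp_add, neg_add_cancel, Real.exp_zero, mul_one]
              _ ≤ _ := mul_le_mul_of_nonneg_left (by linarith) (by positivity)
      _ = (∑ d ∈ (Finset.Icc 1 N).filter (fun d => ¬ d.Prime),
          ArithmeticFunction.vonMangoldt d * (d : ℝ) ^ (-(3 / 4) : ℝ)) * (F3 + M ^ 2) := by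
          rw [Finset.sum_mul]
      _ ≤ S * (F3 + M ^ 2) := mul_le_mul_of_nonneg_right (hS N) (by positivity)
  · refine Finset.sum_nonneg fun d _ => mul_nonneg
      (div_nonneg ArithmeticFunction.vonMangoldt_nonneg (by positivity))
      (integral_nonneg fun t => by positivity)

private lemma t_real_aux {x y z δ : ℝ} (hδ : 0 < δ) (hx : 0 ≤ x) (hy : 0 ≤ y) (hz : |x - y| ≤ z) :
    x ^ 2 - y ^ 2 ≤ 1 / (2 * δ) * z ^ 2 + δ * (x ^ 2 + y ^ 2) := by
  have h1 : x - y ≤ z := (le_abs_self _).trans hz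
  have h2 : x ^ 2 - y ^ 2 ≤ z * (x + y) := by nlinarith
  have h3 : z * (x + y) ≤ 1 / (2 * δ) * z ^ 2 + δ / 2 * (x + y) ^ 2 := by
    have h4 : 0 ≤ 1 / (2 * δ) * (z - δ * (x + y)) ^ 2 := by positivity
    have h5 : 1 / (2 * δ) * (z - δ * (x + y)) ^ 2 =
        1 / (2 * δ) * z ^ 2 + δ / 2 * (x + y) ^ 2 - z * (x + y) := by
      field_simp
      ring
    linarith
  have h6 : δ / 2 * (x + y) ^ 2 ≤ δ * (x ^ 2 + y ^ 2) := by
    nlinarith [mul_nonneg hδ.le (sq_nonneg (x - y))]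
  linarith

private lemma t_lip {A B : ℝ} {U : Set ℝ} {T : ℝ} (hUT : U ⊆ Set.Icc (-T) T) {φ : ℝ → ℝ}
    (hφ : Cut A B φ) (N : ℕ) {g : ℕ → ℂ} (hg : ∀ n, ‖g n‖ ≤ 1) {F3 C2 W2 w w' : ℝ} (hC2 : 0 ≤ C2)
    (h3 : ∫ t in U, ‖FF φ g N w t‖ ^ 2 ≤ F3) (h3' : ∫ t in U, ‖FF φ g N w' t‖ ^ 2 ≤ F3)
    (h2 : ∀ a : ℕ → ℂ, (∀ n : ℕ, A + 1 ≤ |Real.log n - w| → a n = 0) →
      ∫ t in U, ‖∑ n ∈ Finset.Icc 1 N, a n * ph (-(t * Real.log n))‖ ^ 2 ≤
        C2 * ∑ n ∈ Finset.Icc 1 N, n * ‖a n‖ ^ 2)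
    (hW2 : ∀ N : ℕ, ∑ n ∈ (Finset.Icc 1 N).filter (fun n : ℕ => |Real.log n - w| ≤ A + 1),
      (1 / (n : ℝ)) ≤ W2) (hδ : |w - w'| ≤ 1) (hne : w ≠ w') :
    (∫ t in U, ‖FF φ g N w t‖ ^ 2) - ∫ t in U, ‖FF φ g N w' t‖ ^ 2 ≤
      (C2 * B ^ 2 * W2 / 2 + 2 * F3) * |w - w'| := by
  obtain ⟨hφ2, hφb, hφd, hφ0⟩ := hφ
  have hB : 0 ≤ B := (abs_nonneg _).trans (hφb 0)
  set δ := |w - w'| with hδd
  have hδ0 : 0 < δ := abs_pos.mpr (sub_ne_zero.mpr hne)
  have hlip : ∀ x y : ℝ, |φ x - φ y| ≤ B * |x - y| := by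
    intro x y
    have hd : Differentiable ℝ φ := hφ2.differentiable (by norm_num)
    have := Convex.norm_image_sub_le_of_norm_deriv_le (f := φ) (s := Set.univ) (C := B)
      (fun z _ => hd z) (fun z _ => by rw [Real.norm_eq_abs]; exact hφd z) convex_univ
      (Set.mem_univ y) (Set.mem_univ x)
    simpa [Real.norm_eq_abs] using this
  set ρ : ℕ → ℝ := fun n => φ (Real.log n - w) - φ (Real.log n - w') with hρd
  have hρ : ∀ n, |ρ n| ≤ B * δ := by
    intro n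
    refine (hlip _ _).trans (le_of_eq ?_)
    rw [hδd, show Real.log n - w - (Real.log n - w') = -(w - w') by ring, abs_neg]
  have hρ0 : ∀ n : ℕ, A + 1 ≤ |Real.log n - w| → ρ n = 0 := by
    intro n hn
    have h4 : A ≤ |Real.log n - w'| := by
      have h5 : |Real.log n - w| ≤ |Real.log n - w'| + |w - w'| := by
        have h6 := abs_sub_le (Real.log n) w' w
        rw [abs_sub_comm w' w] at h6
        exact h6
      linarith
    rw [hρd]
    simp only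
    rw [hφ0 _ (by linarith), hφ0 _ h4, sub_zero]
  have hdiff : ∀ t, FF φ g N w t - FF φ g N w' t =
      ∑ n ∈ Finset.Icc 1 N, (g n * ((ρ n / n : ℝ) : ℂ)) * ph (-(t * Real.log n)) := by
    intro t
    unfold FF
    rw [← Finset.sum_sub_distrib]
    refine Finset.sum_congr rfl fun n _ => ?_
    rw [hρd]
    push_cast
    ring
  have hI : ∫ t in U, ‖FF φ g N w t - FF φ g N w' t‖ ^ 2 ≤ C2 * ((B * δ) ^ 2 * W2) := by
    have h4 := h2 (fun n => g n * ((ρ n / n : ℝ) : ℂ)) (fun n hn => by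
      rw [hρ0 n hn]
      simp)
    have h5 := t_coef hW2 hg hρ hρ0 N
    calc ∫ t in U, ‖FF φ g N w t - FF φ g N w' t‖ ^ 2
        = ∫ t in U, ‖∑ n ∈ Finset.Icc 1 N, (g n * ((ρ n / n : ℝ) : ℂ)) *
            ph (-(t * Real.log n))‖ ^ 2 := by
          refine integral_congr_ae (Filter.Eventually.of_forall fun t => ?_)
          simp only
          rw [hdiff]
      _ ≤ _ := h4
      _ ≤ _ := mul_le_mul_of_nonneg_left h5 hC2
  have hc := t_cont_FF φ g N w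
  have hc' := t_cont_FF φ g N w'
  have hi1 : IntegrableOn (fun t => ‖FF φ g N w t‖ ^ 2) U := t_int hUT (hc.norm.pow 2)
  have hi2 : IntegrableOn (fun t => ‖FF φ g N w' t‖ ^ 2) U := t_int hUT (hc'.norm.pow 2)
  have hi3 : IntegrableOn (fun t => ‖FF φ g N w t - FF φ g N w' t‖ ^ 2) U :=
    t_int hUT ((hc.sub hc').norm.pow 2)
  have hi4 : IntegrableOn (fun t => ‖FF φ g N w t‖ ^ 2 + ‖FF φ g N w' t‖ ^ 2) U := hi1.add hi2
  have hi5 : IntegrableOn (fun t => 1 / (2 * δ) * ‖FF φ g N w t - FF φ g N w' t‖ ^ 2) U :=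
    hi3.const_mul _
  have hi6 : IntegrableOn (fun t => δ * (‖FF φ g N w t‖ ^ 2 + ‖FF φ g N w' t‖ ^ 2)) U :=
    hi4.const_mul _
  rw [← integral_sub hi1 hi2]
  calc ∫ t in U, (‖FF φ g N w t‖ ^ 2 - ‖FF φ g N w' t‖ ^ 2)
      ≤ ∫ t in U, (1 / (2 * δ) * ‖FF φ g N w t - FF φ g N w' t‖ ^ 2 +
          δ * (‖FF φ g N w t‖ ^ 2 + ‖FF φ g N w' t‖ ^ 2)) := by
        refine integral_mono (hi1.sub hi2) (hi5.add hi6) fun t => ?_
        exact t_real_aux hδ0 (norm_nonneg _) (norm_nonneg _) (abs_norm_sub_norm_le _ _)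
    _ = 1 / (2 * δ) * (∫ t in U, ‖FF φ g N w t - FF φ g N w' t‖ ^ 2) +
          δ * ((∫ t in U, ‖FF φ g N w t‖ ^ 2) + ∫ t in U, ‖FF φ g N w' t‖ ^ 2) := by
        rw [integral_add hi5 hi6, integral_const_mul, integral_const_mul, integral_add hi1 hi2]
    _ ≤ 1 / (2 * δ) * (C2 * ((B * δ) ^ 2 * W2)) + δ * (F3 + F3) := by
        refine add_le_add (mul_le_mul_of_nonneg_left hI (by positivity))
          (mul_le_mul_of_nonneg_left (add_le_add h3 h3') hδ0.le)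
    _ = (C2 * B ^ 2 * W2 / 2 + 2 * F3) * δ := by
        field_simp
        ring

private lemma t_norm3 (a b c : ℂ) : ‖a + b - c‖ ^ 2 ≤ 3 * (‖a‖ ^ 2 + ‖b‖ ^ 2 + ‖c‖ ^ 2) := by
  have h1 : ‖a + b - c‖ ≤ ‖a‖ + ‖b‖ + ‖c‖ := by
    calc ‖a + b - c‖ ≤ ‖a + b‖ + ‖c‖ := norm_sub_le _ _
      _ ≤ ‖a‖ + ‖b‖ + ‖c‖ := by linarith [norm_add_le a b]
  calc ‖a + b - c‖ ^ 2 ≤ (‖a‖ + ‖b‖ + ‖c‖) ^ 2 := pow_le_pow_left₀ (norm_nonneg _) h1 2
    _ ≤ 3 * (‖a‖ ^ 2 + ‖b‖ ^ 2 + ‖c‖ ^ 2) := by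
      nlinarith [sq_nonneg (‖a‖ - ‖b‖), sq_nonneg (‖b‖ - ‖c‖), sq_nonneg (‖a‖ - ‖c‖)]

/-- the prime part -/
private lemma t_P {U : Set ℝ} {T v e : ℝ} (hv2 : 2 ≤ v) (he : 0 < e) (he2 : e ≤ 1 / 2)
    (hve : 4 ≤ e * v) (hUT : U ⊆ Set.Icc (-T) T) (hUf : volume U < ⊤)
    {A B : ℝ} {φ : ℝ → ℝ} (hφ : Cut A B φ) (N : ℕ) {g : ℕ → ℂ} (hg : ∀ n, ‖g n‖ ≤ 1)
    {F3 B' Cp Cθ θ : ℝ} (hCp : 0 ≤ Cp) (hCθ : 0 ≤ Cθ) (hθ : 0 ≤ θ) (hB' : 0 ≤ B')
    (hFB : F3 ≤ B')
    (h3 : ∀ w : ℝ, e * v / 4 ≤ w → ∫ t in U, ‖FF φ g N w t‖ ^ 2 ≤ F3)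
    (hL : ∀ w w' : ℝ, e * v / 4 ≤ w → e * v / 4 ≤ w' →
      |(∫ t in U, ‖FF φ g N w t‖ ^ 2) - ∫ t in U, ‖FF φ g N w' t‖ ^ 2| ≤ B' * |w - w'|)
    (hPI : ∀ (L B : ℝ) (G : ℝ → ℝ), 1 ≤ L → 0 ≤ B → Continuous G → (∀ s, 0 ≤ G s) →
      (∀ s ∈ Set.Icc 0 (L + 1), G s ≤ B) →
      (∀ s ∈ Set.Icc 0 (L + 1), ∀ s' ∈ Set.Icc 0 (L + 1), |G s - G s'| ≤ B * |s - s'|) →
        ∑ p ∈ (Finset.Icc 1 ⌊Real.exp L⌋₊).filter Nat.Prime,
          (Real.log p / p) * G (Real.log p) ≤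
            Cp * (∫ s in (0 : ℝ)..(L + 1), G s) + Cp * B * θ * L + Cθ * B)
    (x : ℕ → ℂ) (hx : ∀ n, ‖x n‖ ≤ 1) :
    ∫ t in U, ‖∑ p ∈ (Finset.Icc 1 ⌊Real.exp ((1 - e) * v)⌋₊).filter Nat.Prime,
        (x p * ((Real.log p / (p : ℝ) : ℝ) : ℂ) * ph (-(t * Real.log p))) *
          FF φ g N (v - Real.log p) t‖ ^ 2 ≤
      3 * v * (Cp * (∫ w in (e * v / 2)..(v + 1), ∫ t in U, ‖FF φ g N w t‖ ^ 2) +
        Cp * B' * θ * v + Cθ * B') := by
  set L := (1 - e) * v with hLd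
  have hL1 : 1 ≤ L := by nlinarith
  have hLv : L ≤ v := by nlinarith
  have hmem : ∀ p ∈ (Finset.Icc 1 ⌊Real.exp L⌋₊).filter Nat.Prime, (1 : ℝ) ≤ p := fun p hp => by
    exact_mod_cast (Finset.mem_Icc.mp (Finset.mem_filter.mp hp).1).1
  have hw0 : ∀ p ∈ (Finset.Icc 1 ⌊Real.exp L⌋₊).filter Nat.Prime, 0 ≤ Real.log p / (p : ℝ) :=
    fun p hp => div_nonneg (Real.log_nonneg (hmem p hp)) (by positivity)
  have h1 := t_wcs_int hUT ((Finset.Icc 1 ⌊Real.exp L⌋₊).filter Nat.Prime)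
    (fun p t => x p * ((Real.log p / (p : ℝ) : ℝ) : ℂ) * ph (-(t * Real.log p)))
    (fun p t => FF φ g N (v - Real.log p) t)
    (fun p => Real.log p / (p : ℝ)) hw0
    (fun p hp t => by
      rw [norm_mul, norm_mul, t_norm_ph, mul_one, Complex.norm_real, Real.norm_eq_abs,
        abs_of_nonneg (hw0 p hp)]
      exact mul_le_of_le_one_left (hw0 p hp) (hx p))
    (fun p hp => continuous_const.mul (t_cont_ph.comp (by fun_prop)))
    (fun p hp => t_cont_FF _ _ _ _)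
  refine h1.trans ?_
  have hsum : ∑ p ∈ (Finset.Icc 1 ⌊Real.exp L⌋₊).filter Nat.Prime, Real.log p / (p : ℝ) ≤
      3 * v := by
    have hfl : 1 ≤ ⌊Real.exp L⌋₊ := Nat.le_floor (by
      push_cast
      exact Real.one_le_exp (by linarith))
    have h2 : ∑ p ∈ (Finset.Icc 1 ⌊Real.exp L⌋₊).filter Nat.Prime, Real.log p / (p : ℝ) ≤
        Real.log ⌊Real.exp L⌋₊ + Real.log 4 := Pool.Agent.Helper16.UB.Aa_le _ hfl
    have h3 : Real.log ⌊Real.exp L⌋₊ ≤ L := by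
      have h4 : ((⌊Real.exp L⌋₊ : ℕ) : ℝ) ≤ Real.exp L := Nat.floor_le (Real.exp_pos _).le
      have h5 := Real.log_le_log (by exact_mod_cast hfl) h4
      rwa [Real.log_exp] at h5
    have h6 : Real.log 4 ≤ 2 := by
      have h7 : Real.log 4 = 2 * Real.log 2 := by
        rw [show (4 : ℝ) = 2 ^ (2 : ℕ) by norm_num, Real.log_pow]
        norm_num
      have := Real.log_two_lt_d9
      linarith
    linarith
  set G : ℝ → ℝ := fun s => ∫ t in U, ‖FF φ g N (v - s) t‖ ^ 2 with hG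
  have hnc := t_cont_G hUf hφ.1.continuous hφ.2.1 hg N
  have hGc : Continuous G := hnc.comp (by fun_prop : Continuous fun s : ℝ => v - s)
  have hn0 : ∀ w, 0 ≤ ∫ t in U, ‖FF φ g N w t‖ ^ 2 := fun w =>
    integral_nonneg fun t => by positivity
  have hrange : ∀ s ∈ Set.Icc 0 (L + 1), e * v / 4 ≤ v - s := by
    intro s hs
    have := hs.2
    rw [hLd] at this
    nlinarith
  have h2 := hPI L B' G hL1 hB' hGc (fun s => hn0 _)
    (fun s hs => (h3 _ (hrange s hs)).trans hFB)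
    (fun s hs s' hs' => by
      refine (hL _ _ (hrange s hs) (hrange s' hs')).trans (le_of_eq ?_)
      rw [show v - s - (v - s') = -(s - s') by ring, abs_neg])
  have h4 : ∫ s in (0 : ℝ)..(L + 1), G s ≤
      ∫ w in (e * v / 2)..(v + 1), ∫ t in U, ‖FF φ g N w t‖ ^ 2 := by
    have h5 : ∫ s in (0 : ℝ)..(L + 1), G s =
        ∫ w in (v - (L + 1))..(v - 0), ∫ t in U, ‖FF φ g N w t‖ ^ 2 :=
      intervalIntegral.integral_comp_sub_left (fun w => ∫ t in U, ‖FF φ g N w t‖ ^ 2) v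
    rw [h5]
    refine intervalIntegral.integral_mono_interval ?_ ?_ ?_ ?_ (hnc.intervalIntegrable _ _)
    · rw [hLd]
      nlinarith
    · linarith
    · linarith
    · exact Filter.Eventually.of_forall fun w => hn0 w
  have hI0 : 0 ≤ ∫ w in (e * v / 2)..(v + 1), ∫ t in U, ‖FF φ g N w t‖ ^ 2 :=
    intervalIntegral.integral_nonneg (by nlinarith) fun w _ => hn0 w
  refine mul_le_mul hsum ?_ ?_ (by linarith)
  · refine h2.trans ?_
    have h5 := mul_le_mul_of_nonneg_left h4 hCp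
    have h6 : Cp * B' * θ * L ≤ Cp * B' * θ * v := mul_le_mul_of_nonneg_left hLv (by positivity)
    linarith
  · exact Finset.sum_nonneg fun p hp => mul_nonneg (hw0 p hp) (hn0 _)

private lemma t_int3 {U : Set ℝ} {T : ℝ} (hUT : U ⊆ Set.Icc (-T) T) {F p q r : ℝ → ℂ}
    (hF : Continuous F) (hp : Continuous p) (hq : Continuous q) (hr : Continuous r) {v : ℝ}
    (hv : 0 < v) (h : ∀ t, (v : ℂ) * F t = p t + q t - r t) :
    v ^ 2 * ∫ t in U, ‖F t‖ ^ 2 ≤
      3 * ((∫ t in U, ‖p t‖ ^ 2) + (∫ t in U, ‖q t‖ ^ 2) + ∫ t in U, ‖r t‖ ^ 2) := by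
  have hiP : IntegrableOn (fun t => ‖p t‖ ^ 2) U := t_int hUT (hp.norm.pow 2)
  have hiQ : IntegrableOn (fun t => ‖q t‖ ^ 2) U := t_int hUT (hq.norm.pow 2)
  have hiR : IntegrableOn (fun t => ‖r t‖ ^ 2) U := t_int hUT (hr.norm.pow 2)
  have hiPQ : IntegrableOn (fun t => ‖p t‖ ^ 2 + ‖q t‖ ^ 2) U := hiP.add hiQ
  have hiPQR : IntegrableOn (fun t => ‖p t‖ ^ 2 + ‖q t‖ ^ 2 + ‖r t‖ ^ 2) U := hiPQ.add hiR
  rw [← integral_const_mul]
  calc ∫ t in U, v ^ 2 * ‖F t‖ ^ 2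
      ≤ ∫ t in U, 3 * (‖p t‖ ^ 2 + ‖q t‖ ^ 2 + ‖r t‖ ^ 2) := by
        refine integral_mono (t_int hUT (continuous_const.mul (hF.norm.pow 2)))
          (hiPQR.const_mul 3) fun t => ?_
        have h5 : v ^ 2 * ‖F t‖ ^ 2 = ‖(v : ℂ) * F t‖ ^ 2 := by
          rw [norm_mul, Complex.norm_real, Real.norm_eq_abs, abs_of_pos hv, mul_pow]
        simp only
        rw [h5, h t]
        exact t_norm3 _ _ _
    _ = _ := by
        rw [integral_const_mul, integral_add hiPQ hiR, integral_add hiP hiQ]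

theorem stTrick (hHM : StHM) (hF : StFF) (hW : StWindow) (hP : StPrimeInt) (hI : StLogId) :
    StTrick := by
  intro q hq χ A B hA hB e he he2
  obtain ⟨S, hS0, hS⟩ := t_pp
  obtain ⟨K, hK⟩ : ∃ K : ℕ, K = ⌈8 / e⌉₊ + 8 := ⟨_, rfl⟩
  have hK1 : 8 / e + 8 ≤ (K : ℝ) := by
    rw [hK]
    push_cast
    have := Nat.le_ceil (8 / e)
    linarith
  obtain ⟨c1, C1, hc1, hC1, h1⟩ := hHM A K hA
  obtain ⟨c2, C2, hc2, hC2, h2⟩ := hHM (A + 1) K (by linarith)
  obtain ⟨c3, C3, hc3, hC3, h3⟩ := hF A B K hA hB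
  obtain ⟨W1, hW1, hw1⟩ := hW A hA
  obtain ⟨W2, hW2, hw2⟩ := hW (A + 1) (by linarith)
  obtain ⟨Cp, hCp, hPI⟩ := hP
  obtain ⟨c0, hc0, hc01, hc02, hc03⟩ : ∃ c0 : ℝ, 0 < c0 ∧ c0 ≤ c1 ∧ c0 ≤ c2 ∧ c0 ≤ c3 :=
    ⟨min c1 (min c2 c3), lt_min hc1 (lt_min hc2 hc3), min_le_left _ _,
      (min_le_right _ _).trans (min_le_left _ _), (min_le_right _ _).trans (min_le_right _ _)⟩
  obtain ⟨η, hη, hηc, hη8⟩ : ∃ η : ℝ, 0 < η ∧ η ≤ c0 * e / 8 ∧ η ≤ 1 / 8 :=
    ⟨min (c0 * e / 8) (1 / 8), lt_min (by positivity) (by norm_num), min_le_left _ _,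
      min_le_right _ _⟩
  refine ⟨9 * Cp, η, by positivity, hη, fun ε hε => ?_⟩
  obtain ⟨B', hB'⟩ : ∃ B' : ℝ, B' = 2 * C2 * B ^ 2 * W2 / 2 + 2 * (2 * C3) := ⟨_, rfl⟩
  have hB'0 : 0 < B' := by
    rw [hB']
    positivity
  have hFB : 2 * C3 ≤ B' := by
    rw [hB']
    have : 0 < 2 * C2 * B ^ 2 * W2 / 2 := by positivity
    linarith
  obtain ⟨θ, hθ, hθ1, hθε⟩ : ∃ θ : ℝ, 0 < θ ∧ θ ≤ 1 ∧ 9 * Cp * B' * θ ≤ ε / 2 := by
    refine ⟨min 1 (ε / (18 * Cp * B')), lt_min one_pos (by positivity), min_le_left _ _, ?_⟩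
    calc 9 * Cp * B' * min 1 (ε / (18 * Cp * B')) ≤ 9 * Cp * B' * (ε / (18 * Cp * B')) :=
          mul_le_mul_of_nonneg_left (min_le_right _ _) (by positivity)
      _ = ε / 2 := by
          field_simp
          norm_num
  obtain ⟨Cθ, hCθ, hPIθ⟩ := hPI θ hθ hθ1
  obtain ⟨CQ, hCQ⟩ : ∃ CQ : ℝ, CQ = S * (S * (2 * C3 + (B * W1) ^ 2)) := ⟨_, rfl⟩
  obtain ⟨CR, hCR⟩ : ∃ CR : ℝ, CR = 2 * C1 * ((A * B) ^ 2 * W1) := ⟨_, rfl⟩
  have hCQ0 : 0 ≤ CQ := by
    rw [hCQ]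
    positivity
  have hCR0 : 0 ≤ CR := by
    rw [hCR]
    positivity
  refine ⟨max (max 2 (4 / e)) ((2 / ε) * (9 * Cθ * B' + 3 * (CQ + CR))),
    fun v hv φ hφ N hN b hb U hUm hUT hUv => ?_⟩
  have hv2 : 2 ≤ v := (le_max_left _ _).trans ((le_max_left _ _).trans hv)
  have hv0 : 0 < v := by linarith
  have hve : 4 ≤ e * v := by
    have h4 : 4 / e ≤ v := (le_max_right _ _).trans ((le_max_left _ _).trans hv)
    rw [div_le_iff₀ he] at h4
    linarith
  have hvε : 9 * Cθ * B' * v + 3 * (CQ + CR) ≤ ε / 2 * v ^ 2 := by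
    have h4 : (2 / ε) * (9 * Cθ * B' + 3 * (CQ + CR)) ≤ v := (le_max_right _ _).trans hv
    have h5 : 9 * Cθ * B' + 3 * (CQ + CR) ≤ ε / 2 * v := by
      have h6 := mul_le_mul_of_nonneg_left h4 (by positivity : (0 : ℝ) ≤ ε / 2)
      calc 9 * Cθ * B' + 3 * (CQ + CR) =
            ε / 2 * ((2 / ε) * (9 * Cθ * B' + 3 * (CQ + CR))) := by
            field_simp
        _ ≤ ε / 2 * v := h6
    have h7 : 3 * (CQ + CR) ≤ 3 * (CQ + CR) * v := by nlinarith
    have h8 := mul_le_mul_of_nonneg_right h5 hv0.le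
    nlinarith
  have hUf : volume U < ⊤ := hUv.trans_lt ENNReal.ofReal_lt_top
  have hcs : ∀ s n, ‖cs χ b (Real.exp ((1 - e) * v)) s n‖ ≤ 1 := fun s n =>
    t_norm_cs χ hb _ s n
  have hT : ∀ w, e * v / 4 ≤ w → 2 * Real.exp (2 * v) ≤ Real.exp (K * w) := by
    intro w hw
    have h4 : (2 : ℝ) ≤ Real.exp 1 := by
      have := Real.add_one_le_exp (1 : ℝ)
      linarith
    calc 2 * Real.exp (2 * v) ≤ Real.exp 1 * Real.exp (2 * v) :=
          mul_le_mul_of_nonneg_right h4 (Real.exp_pos _).le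
      _ = Real.exp (1 + 2 * v) := (Real.exp_add _ _).symm
      _ ≤ Real.exp (K * w) := by
          apply Real.exp_le_exp.mpr
          have h5 : (8 / e + 8) * (e * v / 4) ≤ K * w :=
            mul_le_mul hK1 hw (by positivity) (by positivity)
          have h6 : (8 / e + 8) * (e * v / 4) = 2 * v + 2 * (e * v) := by
            field_simp
            ring
          linarith
  have hvol : ∀ c w, c0 ≤ c → e * v / 4 ≤ w →
      (volume U).toReal * Real.exp (-(c * w)) ≤ 1 := by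
    intro c w hc hw
    refine t_vol hUv ?_
    have h4 : c0 * (e * v / 4) ≤ c * w := mul_le_mul hc hw (by positivity) (by linarith)
    have h5 : η * v ≤ c0 * e / 8 * v := mul_le_mul_of_nonneg_right hηc hv0.le
    have h6 : 0 ≤ c0 * e * v := by positivity
    nlinarith
  have hE0 : (0 : ℝ) ≤ Real.exp (2 * v) := (Real.exp_pos _).le
  have h1' : ∀ a : ℕ → ℂ, (∀ n : ℕ, A ≤ |Real.log n - v| → a n = 0) →
      ∫ t in U, ‖∑ n ∈ Finset.Icc 1 N, a n * ph (-(t * Real.log n))‖ ^ 2 ≤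
        2 * C1 * ∑ n ∈ Finset.Icc 1 N, n * ‖a n‖ ^ 2 := by
    intro a ha
    have hw : e * v / 4 ≤ v := by nlinarith
    refine (h1 v _ hv0.le hE0 (hT v hw) U hUm hUT N a ha).trans ?_
    refine mul_le_mul_of_nonneg_right ?_ (Finset.sum_nonneg fun n _ => by positivity)
    have := hvol c1 v hc01 hw
    nlinarith
  have h2' : ∀ w, e * v / 4 ≤ w → ∀ a : ℕ → ℂ, (∀ n : ℕ, A + 1 ≤ |Real.log n - w| → a n = 0) →
      ∫ t in U, ‖∑ n ∈ Finset.Icc 1 N, a n * ph (-(t * Real.log n))‖ ^ 2 ≤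
        2 * C2 * ∑ n ∈ Finset.Icc 1 N, n * ‖a n‖ ^ 2 := by
    intro w hw a ha
    refine (h2 w _ ((by positivity : (0 : ℝ) ≤ e * v / 4).trans hw) hE0 (hT w hw) U hUm hUT N a
      ha).trans ?_
    refine mul_le_mul_of_nonneg_right ?_ (Finset.sum_nonneg fun n _ => by positivity)
    have := hvol c2 w hc02 hw
    nlinarith
  have h3' : ∀ w, e * v / 4 ≤ w → ∀ g : ℕ → ℂ, (∀ n, ‖g n‖ ≤ 1) →
      ∫ t in U, ‖FF φ g N w t‖ ^ 2 ≤ 2 * C3 := by
    intro w hw g hg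
    refine (h3 w _ ((by positivity : (0 : ℝ) ≤ e * v / 4).trans hw) hE0 (hT w hw) U hUm hUT φ
      hφ.2.1 hφ.2.2.2 N g hg).trans ?_
    have := hvol c3 w hc03 hw
    nlinarith
  -- the prime part
  have hPp := t_P hv2 he he2 hve hUT hUf hφ N (hcs 1) hCp.le hCθ.le hθ.le hB'0.le hFB
    (fun w hw => h3' w hw _ (hcs 1))
    (fun w w' hw hw' => by
      have hn0 : ∀ w, 0 ≤ ∫ t in U, ‖FF φ (cs χ b (Real.exp ((1 - e) * v)) 1) N w t‖ ^ 2 :=
        fun w => integral_nonneg fun t => by positivity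
      have ha := h3' w hw _ (hcs 1)
      have ha' := h3' w' hw' _ (hcs 1)
      rcases eq_or_ne w w' with heq | hne
      · subst heq
        simp
      rcases le_total |w - w'| 1 with hδ | hδ
      · have h5 := t_lip hUT hφ N (hcs 1) (by positivity) ha ha' (h2' w hw)
          (fun N => hw2 w ((by positivity : (0 : ℝ) ≤ e * v / 4).trans hw) N) hδ hne
        have h6 := t_lip hUT hφ N (hcs 1) (by positivity) ha' ha (h2' w' hw')
          (fun N => hw2 w' ((by positivity : (0 : ℝ) ≤ e * v / 4).trans hw') N)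
          (by rw [abs_sub_comm]; exact hδ) hne.symm
        rw [abs_sub_comm w' w] at h6
        rw [← hB'] at h5 h6
        rw [abs_le]
        constructor <;> linarith
      · have h5 : B' * 1 ≤ B' * |w - w'| := mul_le_mul_of_nonneg_left hδ hB'0.le
        have h6 := hn0 w
        have h7 := hn0 w'
        rw [abs_le]
        constructor <;> linarith)
    hPIθ (fun n => χ ((n : ℕ) : ZMod q)) (fun n => DirichletCharacter.norm_le_one χ _)
  -- the non prime part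
  have hUv8 : (volume U).toReal ≤ Real.exp (v / 8) := by
    refine (ENNReal.toReal_le_of_le_ofReal (Real.exp_pos _).le hUv).trans ?_
    apply Real.exp_le_exp.mpr
    nlinarith
  have hQ := t_Q hUT hUf hUv8 hS (F3 := 2 * C3) (M := B * W1) (by positivity) N
    (fun w hw g hg => h3' w (by nlinarith) g hg)
    (fun g hg w t => t_FF_unif hw1 hφ.2.1 hφ.2.2.2 hg N w t)
    (cs χ b (Real.exp ((1 - e) * v)) 0) (hcs 0)
  rw [← hCQ] at hQ
  -- the remainder
  have hR : ∫ t in U, ‖∑ n ∈ Finset.Icc 1 N, cs χ b (Real.exp ((1 - e) * v)) 0 n *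
      (((Real.log n - v) * φ (Real.log n - v) / n : ℝ) : ℂ) * ph (-(t * Real.log n))‖ ^ 2 ≤
      CR := by
    have hρ : ∀ n : ℕ, |(Real.log n - v) * φ (Real.log n - v)| ≤ A * B := by
      intro n
      rcases le_total A |Real.log n - v| with h | h
      · rw [hφ.2.2.2 _ h, mul_zero, abs_zero]
        positivity
      · rw [abs_mul]
        exact mul_le_mul h (hφ.2.1 _) (abs_nonneg _) (by linarith)
    have hρ0 : ∀ n : ℕ, A ≤ |Real.log n - v| →
        (Real.log n - v) * φ (Real.log n - v) = 0 := by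
      intro n h
      rw [hφ.2.2.2 _ h, mul_zero]
    have h4 := h1' (fun n => cs χ b (Real.exp ((1 - e) * v)) 0 n *
      (((Real.log n - v) * φ (Real.log n - v) / n : ℝ) : ℂ)) (fun n hn => by
        rw [hρ0 n hn]
        simp)
    have h5 := t_coef (hw1 v hv0.le) (hcs 0) hρ hρ0 N
    rw [hCR]
    exact h4.trans (mul_le_mul_of_nonneg_left h5 (by positivity))
  -- assembly
  obtain ⟨I, hIdef⟩ : ∃ I : ℝ, I = ∫ w in (e * v / 2)..(v + 1), ∫ t in U,
    ‖FF φ (cs χ b (Real.exp ((1 - e) * v)) 1) N w t‖ ^ 2 := ⟨_, rfl⟩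
  rw [← hIdef] at hPp ⊢
  have hN1 : Real.exp (v + A) ≤ N := (Real.exp_le_exp.mpr (by linarith)).trans hN
  have hN2 : Real.exp ((1 - e) * v) ≤ N := (Real.exp_le_exp.mpr (by nlinarith)).trans hN
  have hid := fun t => hI q hq χ A B φ hφ v t (Real.exp ((1 - e) * v)) N b
    (Real.exp_pos _).le hN1 hN2
  have hcP : Continuous fun t => ∑ p ∈ (Finset.Icc 1 ⌊Real.exp ((1 - e) * v)⌋₊).filter Nat.Prime,
      (χ ((p : ℕ) : ZMod q) * ((Real.log p / (p : ℝ) : ℝ) : ℂ) * ph (-(t * Real.log p))) *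
        FF φ (cs χ b (Real.exp ((1 - e) * v)) 1) N (v - Real.log p) t := by
    refine continuous_finsetSum _ fun p _ => ?_
    exact (continuous_const.mul (t_cont_ph.comp (by fun_prop))).mul (t_cont_FF _ _ _ _)
  have hcQ : Continuous fun t => ∑ d ∈ (Finset.Icc 1 N).filter (fun d => ¬ d.Prime),
      (((ArithmeticFunction.vonMangoldt d / (d : ℝ) : ℝ)) : ℂ) * ph (-(t * Real.log d)) *
        FF φ (fun m => cs χ b (Real.exp ((1 - e) * v)) 0 (d * m)) N (v - Real.log d) t := by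
    refine continuous_finsetSum _ fun p _ => ?_
    exact (continuous_const.mul (t_cont_ph.comp (by fun_prop))).mul (t_cont_FF _ _ _ _)
  have hcR : Continuous fun t => ∑ n ∈ Finset.Icc 1 N, cs χ b (Real.exp ((1 - e) * v)) 0 n *
      (((Real.log n - v) * φ (Real.log n - v) / n : ℝ) : ℂ) * ph (-(t * Real.log n)) := by
    refine continuous_finsetSum _ fun p _ => ?_
    exact continuous_const.mul (t_cont_ph.comp (by fun_prop))
  have hmain : v ^ 2 * ∫ t in U, ‖FF φ (cs χ b (Real.exp ((1 - e) * v)) 0) N v t‖ ^ 2 ≤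
      3 * (3 * v * (Cp * I + Cp * B' * θ * v + Cθ * B') + CQ + CR) := by
    refine (t_int3 hUT (t_cont_FF _ _ _ _) hcP hcQ hcR hv0 hid).trans ?_
    have h6 := add_le_add (add_le_add hPp hQ) hR
    linarith
  have hv2' : 0 < v ^ 2 := by positivity
  have h7 : v ^ 2 * (ε + 9 * Cp / v * I) = ε * v ^ 2 + 9 * Cp * v * I := by
    field_simp
  have h8 : 3 * (3 * v * (Cp * I + Cp * B' * θ * v + Cθ * B') + CQ + CR) ≤
      v ^ 2 * (ε + 9 * Cp / v * I) := by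
    rw [h7]
    have h9 : 9 * Cp * B' * θ * v ^ 2 ≤ ε / 2 * v ^ 2 :=
      mul_le_mul_of_nonneg_right hθε hv2'.le
    nlinarith
  exact le_of_mul_le_mul_left (hmain.trans h8) hv2'

end MRP.U
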