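import Mathlib
import Pool.Agent.Helper6.MR.UDefs

/-!
# U09: assembly of block U

PROOF.  Let `C₁` be the constant of `StHM` (with `K = 3`) and `C₂` that of `StLargeP`.  Choose `e ≤ 1/2` with `2 · 2 C₁ B^2 C₂ e ≤ ε/4`.  `cf χ b 0 = cs χ b D 0 + r`, `D = e^((1-e)v)`, `r(n) = cf χ b 0 n` if `n` has a prime factor `> D`, else `0`; `‖r‖ ≤ 1`.  `StHM` (`w = v`, `T = e^(2v)`, `K = 3`)
for the part `r`: `∫_U ‖FF φ r N v t‖^2 ≤ C₁ (1 + vol(U)e^(-cv)) B^2 ∑_{|log n - v|≤A, ∃ p > D, p ∣ n} 1/n ≤ 2 C₁ B^2 C₂ e` for `v ≥ v₀` (if `η ≤ c`).  `StTrick` (constants `C, η₁` for this `e`) with `ε/8`, and `StScales` with `s = 1` and `ε/(8C)`: `∫_U ‖FF φ (cs χ b D 0) N v t‖^2 ≤ ε/8 + (C/v)(ε/(8C)) v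
= ε/4`.  `‖x+y‖^2 ≤ 2‖x‖^2 + 2‖y‖^2`.  `T₀` from `StScales`, `η` the minimum.
-/

set_option autoImplicit false

namespace MRP.U

open Finset Complex MeasureTheory MRP.E

lemma cf_norm {q : ℕ} (χ : DirichletCharacter ℂ q) (b : ℕ → ℝ) (hb : ∀ m, |b m| ≤ 1) (s n : ℕ) :
    ‖cf χ b s n‖ ≤ 1 := by
  unfold cf
  rw [norm_mul, Complex.norm_real, Real.norm_eq_abs]
  have h1 := DirichletCharacter.norm_le_one χ ((n : ℕ) : ZMod q)
  have h2 := hb (Om n + s)
  have h3 := abs_nonneg (b (Om n + s))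
  have h4 := norm_nonneg (χ ((n : ℕ) : ZMod q))
  nlinarith

lemma sq_norm_add_le (x y : ℂ) : ‖x + y‖ ^ 2 ≤ 2 * ‖x‖ ^ 2 + 2 * ‖y‖ ^ 2 := by
  have h := norm_add_le x y
  have h0 := norm_nonneg (x + y)
  nlinarith [norm_nonneg x, norm_nonneg y, sq_nonneg (‖x‖ - ‖y‖)]

lemma FF_cont (φ : ℝ → ℝ) (g : ℕ → ℂ) (N : ℕ) (w : ℝ) : Continuous (fun t => FF φ g N w t) := by
  unfold FF ph
  refine continuous_finsetSum _ fun n _ => ?_
  fun_prop

open Classical in
theorem stUMain (hHM : StHM) (hL : StLargeP) (hS : StScales) (hT : StTrick) : StUMain := by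
  intro q hq χ A B hA hB ε hε
  obtain ⟨c, C₁, hc, hC₁, hhm⟩ := hHM A 3 hA
  obtain ⟨C₂, hC₂, hlp⟩ := hL A hA
  -- choose `e`
  set e : ℝ := min (1 / 2) (ε / (16 * (C₁ * B ^ 2 * C₂ + 1))) with he
  have hB0 : 0 < B := by linarith
  have hden : 0 < 16 * (C₁ * B ^ 2 * C₂ + 1) := by positivity
  have he0 : 0 < e := lt_min (by norm_num) (div_pos hε hden)
  have he2 : e ≤ 1 / 2 := min_le_left _ _
  have he3 : C₁ * B ^ 2 * C₂ * e ≤ ε / 16 := by
    have h1 : e ≤ ε / (16 * (C₁ * B ^ 2 * C₂ + 1)) := min_le_right _ _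
    have h2 : 0 ≤ C₁ * B ^ 2 * C₂ := by positivity
    calc C₁ * B ^ 2 * C₂ * e ≤ (C₁ * B ^ 2 * C₂ + 1) * e := by nlinarith
      _ ≤ (C₁ * B ^ 2 * C₂ + 1) * (ε / (16 * (C₁ * B ^ 2 * C₂ + 1))) :=
          mul_le_mul_of_nonneg_left h1 (by positivity)
      _ = ε / 16 := by field_simp
  obtain ⟨C, η₁, hC, hη₁, htr⟩ := hT q hq χ A B hA hB e he0 he2
  obtain ⟨v₁, htr⟩ := htr (ε / 8) (by positivity)
  obtain ⟨T₀, η₂, v₂, hT₀, hTχ, hη₂, hsc⟩ := hS q hq χ A B hA hB e (ε / (8 * C)) he0 he2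
    (by positivity)
  obtain ⟨v₃, hlp⟩ := hlp e he0 he2
  refine ⟨T₀, min c (min η₁ η₂), max (max v₁ v₂) (max v₃ 1), hT₀, hTχ,
    lt_min hc (lt_min hη₁ hη₂), ?_⟩
  intro v hv φ hφ N hN b hb U hU hUs hUT hvol
  have hv1 : v₁ ≤ v := ((le_max_left _ _).trans (le_max_left _ _)).trans hv
  have hv2 : v₂ ≤ v := ((le_max_right _ _).trans (le_max_left _ _)).trans hv
  have hv3 : v₃ ≤ v := ((le_max_left _ _).trans (le_max_right _ _)).trans hv
  have hv4 : 1 ≤ v := ((le_max_right _ _).trans (le_max_right _ _)).trans hv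
  have hv0 : 0 < v := by linarith
  have hmono : ∀ η : ℝ, min c (min η₁ η₂) ≤ η → volume U ≤ ENNReal.ofReal (Real.exp (η * v)) := by
    intro η hη
    refine hvol.trans (ENNReal.ofReal_le_ofReal (Real.exp_le_exp.mpr ?_))
    exact mul_le_mul_of_nonneg_right hη hv0.le
  set D : ℝ := Real.exp ((1 - e) * v) with hD
  -- the two parts
  set r : ℕ → ℂ := fun n => if Sm D n then 0 else cf χ b 0 n with hr
  have hsplit : ∀ t, FF φ (cf χ b 0) N v t = FF φ (cs χ b D 0) N v t + FF φ r N v t := by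
    intro t
    unfold FF
    rw [← Finset.sum_add_distrib]
    refine Finset.sum_congr rfl fun n _ => ?_
    have : cf χ b 0 n = cs χ b D 0 n + r n := by
      simp only [hr, cs]
      split_ifs <;> simp
    rw [this]
    ring
  have h1 := htr v hv1 φ hφ N hN b hb U hU hUs (hmono η₁ ((min_le_right _ _).trans (min_le_left _ _)))
  have h2 := hsc v hv2 φ hφ N hN b hb 1 U hU hUs hUT
    (hmono η₂ ((min_le_right _ _).trans (min_le_right _ _)))
  have hcs : ∫ t in U, ‖FF φ (cs χ b D 0) N v t‖ ^ 2 ≤ ε / 4 := by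
    refine h1.trans ?_
    have h3 : C / v * ∫ w in (e * v / 2)..(v + 1), ∫ t in U, ‖FF φ (cs χ b D 1) N w t‖ ^ 2 ≤
        C / v * (ε / (8 * C) * v) := mul_le_mul_of_nonneg_left h2 (by positivity)
    have h4 : C / v * (ε / (8 * C) * v) = ε / 8 := by field_simp
    linarith
  -- the part with a large prime factor
  have hvol1 : (volume U).toReal * Real.exp (-(c * v)) ≤ 1 := by
    have h5 : (volume U).toReal ≤ Real.exp (c * v) :=
      ENNReal.toReal_le_of_le_ofReal (Real.exp_pos _).le (hmono c (min_le_left _ _))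
    calc (volume U).toReal * Real.exp (-(c * v)) ≤ Real.exp (c * v) * Real.exp (-(c * v)) :=
          mul_le_mul_of_nonneg_right h5 (Real.exp_pos _).le
      _ = 1 := by rw [← Real.exp_add]; simp
  have hT2 : 2 * Real.exp (2 * v) ≤ Real.exp ((3 : ℕ) * v) := by
    have h6 : (2 : ℝ) ≤ Real.exp v := by
      have := Real.add_one_le_exp v
      linarith
    calc 2 * Real.exp (2 * v) ≤ Real.exp v * Real.exp (2 * v) :=
          mul_le_mul_of_nonneg_right h6 (Real.exp_pos _).le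
      _ = Real.exp ((3 : ℕ) * v) := by
          rw [← Real.exp_add]
          congr 1
          push_cast
          ring
  set a : ℕ → ℂ := fun n => r n * ((φ (Real.log n - v) / n : ℝ) : ℂ) with ha
  have ha0 : ∀ n : ℕ, A ≤ |Real.log n - v| → a n = 0 := by
    intro n hn
    simp only [ha]
    rw [hφ.2.2.2 _ hn]
    simp
  have h7 := hhm v (Real.exp (2 * v)) hv0.le (Real.exp_pos _).le hT2 U hU hUs N a ha0
  have hFr : ∀ t, FF φ r N v t = ∑ n ∈ Finset.Icc 1 N, a n * ph (-(t * Real.log n)) := by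
    intro t
    rfl
  have hsum : ∑ n ∈ Finset.Icc 1 N, (n : ℝ) * ‖a n‖ ^ 2 ≤ B ^ 2 * (C₂ * e) := by
    have h8 : ∑ n ∈ Finset.Icc 1 N, (n : ℝ) * ‖a n‖ ^ 2 ≤
        ∑ n ∈ (Finset.Icc 1 N).filter (fun n : ℕ => |Real.log n - v| ≤ A ∧
          ∃ p : ℕ, p.Prime ∧ p ∣ n ∧ Real.exp ((1 - e) * v) < p), B ^ 2 * (1 / (n : ℝ)) := by
      rw [Finset.sum_filter]
      refine Finset.sum_le_sum fun n hn => ?_
      have hn1 : (1 : ℝ) ≤ n := by exact_mod_cast (Finset.mem_Icc.mp hn).1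
      have hn0 : (0 : ℝ) < n := by linarith
      split_ifs with hA'
      · simp only [ha]
        rw [norm_mul, Complex.norm_real, Real.norm_eq_abs, abs_div, abs_of_pos hn0, mul_pow,
          div_pow]
        have hrn : ‖r n‖ ≤ 1 := by
          simp only [hr]
          split_ifs
          · simp
          · exact cf_norm χ b hb 0 n
        have h9 : ‖r n‖ ^ 2 ≤ 1 := by
          have h0 := norm_nonneg (r n)
          nlinarith
        have h10 : |φ (Real.log n - v)| ^ 2 ≤ B ^ 2 :=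
          pow_le_pow_left₀ (abs_nonneg _) (hφ.2.1 _) 2
        have h11 : (n : ℝ) * (‖r n‖ ^ 2 * (|φ (Real.log n - v)| ^ 2 / (n : ℝ) ^ 2)) =
            ‖r n‖ ^ 2 * |φ (Real.log n - v)| ^ 2 * (1 / (n : ℝ)) := by
          field_simp
        rw [h11]
        refine mul_le_mul_of_nonneg_right ?_ (by positivity)
        calc ‖r n‖ ^ 2 * |φ (Real.log n - v)| ^ 2 ≤ 1 * B ^ 2 :=
              mul_le_mul h9 h10 (by positivity) (by norm_num)
          _ = B ^ 2 := one_mul _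
      · have hz : a n = 0 := by
          by_cases h12 : A ≤ |Real.log n - v|
          · exact ha0 n h12
          · have h13 : Sm D n := by
              intro p hp hpn
              by_contra h14
              exact hA' ⟨(not_le.mp h12).le, p, hp, hpn, not_le.mp h14⟩
            simp only [ha, hr, if_pos h13]
            simp
        rw [hz]
        simp
    refine h8.trans ?_
    rw [← Finset.mul_sum]
    exact mul_le_mul_of_nonneg_left (hlp v hv3 N) (by positivity)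
  have hrest : ∫ t in U, ‖FF φ r N v t‖ ^ 2 ≤ ε / 8 := by
    calc ∫ t in U, ‖FF φ r N v t‖ ^ 2
        ≤ C₁ * (1 + (volume U).toReal * Real.exp (-(c * v))) *
            ∑ n ∈ Finset.Icc 1 N, (n : ℝ) * ‖a n‖ ^ 2 := h7
      _ ≤ C₁ * (1 + 1) * (B ^ 2 * (C₂ * e)) := by
          refine mul_le_mul ?_ hsum (Finset.sum_nonneg fun n _ => by positivity) (by positivity)
          exact mul_le_mul_of_nonneg_left (by linarith) hC₁.le
      _ = 2 * (C₁ * B ^ 2 * C₂ * e) := by ring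
      _ ≤ ε / 8 := by linarith
  -- conclusion
  have hfin : volume U < ⊤ := by
    refine lt_of_le_of_lt (measure_mono hUs) ?_
    rw [Real.volume_Icc]
    exact ENNReal.ofReal_lt_top
  have hint : ∀ g : ℕ → ℂ, IntegrableOn (fun t => ‖FF φ g N v t‖ ^ 2) U := by
    intro g
    have hcont : Continuous (fun t => ‖FF φ g N v t‖ ^ 2) := ((FF_cont φ g N v).norm).pow 2
    exact (hcont.integrableOn_Icc).mono_set hUs
  calc ∫ t in U, ‖FF φ (cf χ b 0) N v t‖ ^ 2
      ≤ ∫ t in U, (2 * ‖FF φ (cs χ b D 0) N v t‖ ^ 2 + 2 * ‖FF φ r N v t‖ ^ 2) := by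
        refine integral_mono (hint _) (((hint _).const_mul 2).add ((hint _).const_mul 2)) ?_
        intro t
        show ‖FF φ (cf χ b 0) N v t‖ ^ 2 ≤ _
        rw [hsplit t]
        exact sq_norm_add_le _ _
    _ = 2 * (∫ t in U, ‖FF φ (cs χ b D 0) N v t‖ ^ 2) + 2 * (∫ t in U, ‖FF φ r N v t‖ ^ 2) := by
        rw [integral_add ((hint _).const_mul 2) ((hint _).const_mul 2), integral_const_mul,
          integral_const_mul]
    _ ≤ 2 * (ε / 4) + 2 * (ε / 8) := by linarith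
    _ ≤ ε := by linarith

end MRP.U
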