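import Mathlib
import Pool.Agent.Helper6.MR.UDefs
import Pool.Agent.Helper72.MRD.Defs

/-!
# U10: the main statement of block U in the notation of block D (`MRD`)

PROOF.  `MRD.FF N φ (fb b χ) v t = MRP.U.FF φ (cf χ b 0) N v t` by `MRD.cp_eq` (termwise; `Om n + 0`).
For `phi`: `Cut 3 B phi` with `B = max 1 C` from `MRD.phi_deriv`, `phi_eq_zero`.  For `|b| ≤ 2` apply
`StUMain` to `b/2` and `ε/4`.  `N ≥ exp (v + 4)` may be increased to `N' ≥ exp (v + 8)`, since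
`phi (log n - v) = 0` for `n > N ≥ exp (v + 4)`.
-/

set_option autoImplicit false

namespace MRP.U

open Finset Complex MeasureTheory MRP.E

lemma FF_eq_MRD (N : ℕ) (φ : ℝ → ℝ) (b : ℕ → ℝ) {q : ℕ} (χ : DirichletCharacter ℂ q) (v t : ℝ) :
    MRD.FF N φ (MRD.fb b χ) v t = FF φ (cf χ b 0) N v t := by
  unfold MRD.FF MRD.DP FF MRD.cut MRD.fb cf
  refine Finset.sum_congr rfl fun n hn => ?_
  have hn1 : 1 ≤ n := (Finset.mem_Icc.mp hn).1
  rw [MRD.cp_eq hn1]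
  unfold ph
  rw [Nat.add_zero]
  push_cast
  ring_nf

lemma FF_ext (φ : ℝ → ℝ) (g : ℕ → ℂ) (N N' : ℕ) (v t : ℝ) (hN : N ≤ N')
    (h : ∀ n : ℕ, N < n → φ (Real.log n - v) = 0) : FF φ g N v t = FF φ g N' v t := by
  unfold FF
  refine Finset.sum_subset (Finset.Icc_subset_Icc_right hN) fun n hn hn' => ?_
  rw [Finset.mem_Icc] at hn hn'
  rw [h n (by omega)]
  simp

theorem umain_mrd (h : StUMain) (q : ℕ) (hq : 1 ≤ q) (χ : DirichletCharacter ℂ q) (ε : ℝ)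
    (hε : 0 < ε) : ∃ T₀ c V₀ : ℝ, 0 < T₀ ∧ 0 < c ∧ 0 < V₀ ∧ ∀ v : ℝ, V₀ ≤ v → ∀ b : ℕ → ℝ,
      (∀ m, |b m| ≤ 2) → ∀ N : ℕ, Real.exp (v + 4) ≤ N → ∀ U : Set ℝ, MeasurableSet U →
      U ⊆ Set.Icc (-Real.exp (6 * v / 5)) (Real.exp (6 * v / 5)) →
      volume.real U ≤ Real.exp (c * v) → (χ ≠ 1 ∨ ∀ t ∈ U, T₀ ≤ |t|) →
        ∫ t in U, ‖MRD.FF N MRD.phi (MRD.fb b χ) v t‖ ^ 2 ≤ ε := by
  obtain ⟨C, hC1, hC2, hC3, hC4⟩ := MRD.phi_deriv
  have hcut : Cut 3 (max 1 C) MRD.phi := by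
    refine ⟨MRD.contDiff_phi 2, fun x => ?_, fun x => (hC2 x).trans (le_max_right _ _),
      fun x hx => ?_⟩
    · rw [abs_of_nonneg (MRD.phi_nonneg x)]
      exact (MRD.phi_le_one x).trans (le_max_left _ _)
    · rcases abs_cases x with ⟨h1, h2⟩ | ⟨h1, h2⟩
      · exact MRD.phi_eq_zero (Or.inr (by linarith))
      · exact MRD.phi_eq_zero (Or.inl (by linarith))
  obtain ⟨T₀, η, v₀, hT0, hTχ, hη, hmain⟩ := h q hq χ 3 (max 1 C) (by norm_num) (le_max_left _ _)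
    (ε / 4) (by linarith)
  refine ⟨max T₀ 1, η, max v₀ 1, lt_of_lt_of_le one_pos (le_max_right _ _), hη,
    lt_of_lt_of_le one_pos (le_max_right _ _), ?_⟩
  intro v hv b hb N hN U hU hUs hvol hχ
  have hv0 : v₀ ≤ v := (le_max_left _ _).trans hv
  have hv1 : (1 : ℝ) ≤ v := (le_max_right _ _).trans hv
  set N' : ℕ := max N ⌈Real.exp (v + 2 * 3 + 2)⌉₊ with hN'
  have hNN' : N ≤ N' := le_max_left _ _
  have hN'2 : Real.exp (v + 2 * 3 + 2) ≤ N' :=
    (Nat.le_ceil _).trans (Nat.cast_le.mpr (le_max_right N _))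
  have hvan : ∀ n : ℕ, N < n → MRD.phi (Real.log n - v) = 0 := by
    intro n hn
    refine MRD.phi_eq_zero (Or.inr ?_)
    have h1 : Real.exp (v + 4) ≤ n := hN.trans (by exact_mod_cast hn.le)
    have h2 : v + 4 ≤ Real.log n := by
      rw [Real.le_log_iff_exp_le (lt_of_lt_of_le (Real.exp_pos _) h1)]
      exact h1
    linarith
  have hb2 : ∀ m, |(fun m => b m / 2) m| ≤ 1 := by
    intro m
    show |b m / 2| ≤ 1
    rw [abs_div, abs_of_pos (by norm_num : (0 : ℝ) < 2)]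
    have := hb m
    linarith
  have hfin : volume U ≠ ⊤ := by
    refine ne_top_of_le_ne_top ?_ (measure_mono hUs)
    rw [Real.volume_Icc]
    exact ENNReal.ofReal_ne_top
  have hvol' : volume U ≤ ENNReal.ofReal (Real.exp (η * v)) := by
    rw [← ENNReal.ofReal_toReal hfin]
    exact ENNReal.ofReal_le_ofReal hvol
  have hsub : U ⊆ Set.Icc (-Real.exp (2 * v)) (Real.exp (2 * v)) := by
    refine hUs.trans (Set.Icc_subset_Icc ?_ ?_)
    · have : Real.exp (6 * v / 5) ≤ Real.exp (2 * v) := Real.exp_le_exp.mpr (by linarith)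
      linarith
    · exact Real.exp_le_exp.mpr (by linarith)
  have hT : ∀ t ∈ U, T₀ ≤ |t| := by
    rcases hχ with h1 | h1
    · intro t _
      rw [hTχ h1]
      exact abs_nonneg t
    · intro t ht
      exact (le_max_left _ _).trans (h1 t ht)
  have key := hmain v hv0 MRD.phi hcut N' hN'2 (fun m => b m / 2) hb2 U hU hsub hT hvol'
  have heq : ∀ t, ‖MRD.FF N MRD.phi (MRD.fb b χ) v t‖ ^ 2 =
      4 * ‖FF MRD.phi (cf χ (fun m => b m / 2) 0) N' v t‖ ^ 2 := by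
    intro t
    rw [FF_eq_MRD, FF_ext MRD.phi _ N N' v t hNN' hvan]
    have h2 : FF MRD.phi (cf χ b 0) N' v t = 2 * FF MRD.phi (cf χ (fun m => b m / 2) 0) N' v t := by
      unfold FF cf
      rw [Finset.mul_sum]
      refine Finset.sum_congr rfl fun n _ => ?_
      push_cast
      ring
    rw [h2, norm_mul, mul_pow]
    norm_num
  calc ∫ t in U, ‖MRD.FF N MRD.phi (MRD.fb b χ) v t‖ ^ 2
      = ∫ t in U, 4 * ‖FF MRD.phi (cf χ (fun m => b m / 2) 0) N' v t‖ ^ 2 := by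
        simp_rw [heq]
    _ = 4 * ∫ t in U, ‖FF MRD.phi (cf χ (fun m => b m / 2) 0) N' v t‖ ^ 2 := by
        rw [integral_const_mul]
    _ ≤ 4 * (ε / 4) := by
        exact mul_le_mul_of_nonneg_left key (by norm_num)
    _ = ε := by ring

end MRP.U
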