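import Mathlib
import Pool.Agent.Helper6.MR.EFinal
import Pool.Agent.Helper6.MR.U01
import Pool.Agent.Helper6.MR.U01b
import Pool.Agent.Helper6.MR.U02
import Pool.Agent.Helper6.MR.U03
import Pool.Agent.Helper6.MR.U04
import Pool.Agent.Helper6.MR.U05
import Pool.Agent.Helper6.MR.U06
import Pool.Agent.Helper6.MR.U07a
import Pool.Agent.Helper6.MR.U07b
import Pool.Agent.Helper6.MR.U08a
import Pool.Agent.Helper6.MR.U08b
import Pool.Agent.Helper6.MR.U09
import Pool.Agent.Helper6.MR.U10
import Pool.Agent.Helper72.MRD.UM

/-! Block U put together: large values at a single scale, unconditionally. -/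

set_option autoImplicit false

namespace MRP.U

open MRP.E

theorem hM : StHM := stHM smooth

theorem fF : StFF := stFF hM stWindow

theorem scales : StScales := stScales prime1_holds hM fF stTKw stDecomp stConv

theorem trick : StTrick := stTrick hM fF stWindow stPrimeInt stLogId

/-- The mean square of the smooth Dirichlet polynomial over a set of small measure is small. -/
theorem umain : StUMain := stUMain hM (stLargeP stWindow) scales trick

/-- The interface of block D (helper72). -/
theorem umain_D : MRD.UMAIN := by
  intro q hq χ ε hε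
  obtain ⟨T0, c, V0, h0, hc, hV, h⟩ := umain_mrd umain q hq χ ε hε
  refine ⟨T0, c, max 1 V0, h0, hc, le_max_left _ _, ?_⟩
  intro v hv b hb N hN U hU hUs hvol hχ
  refine h v ((le_max_right _ _).trans hv) b hb N hN U hU ?_ hvol hχ
  rwa [show 6 * v / 5 = 6 / 5 * v by ring]

end MRP.U
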