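import Mathlib
import Pool.Agent.Helper6.MR.EDefs

/-!
# E18: PRIME1

PROOF.  `q ≥ 1` gives `NeZero q`.  Let `C` be from `StLandau`, `B` from `StSmallT` (`T = 2`) if `χ ≠ 1`, `C'` from `StCompare`.  Given `d1 < d2 ≤ 1`, `X ≥ X₀` (from `StLandau` with `δ = d1`, `X^{d1} ≥ 3`,
`1/(d1 log X) ≤ 1`).  `Y₁ = X^d1`, `Y₂ = X^d2`, `a = 1/log Y₂ = 1/(d2 log X)`, `b = 1/log Y₁ = 1/(d1 log X)`.  If `2 ≤ |t| ≤ X`: the logarithmic derivative is `≤ C d1 log X` for `η ∈ [a,b]`, so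
`StIntegral` bounds the smooth sum by `(b-a) C d1 log X + 4 ≤ C + 4`.  If `χ ≠ 1`, `|t| ≤ 2`: `≤ B + 4`.  `StCompare` with `u p = χ(p) p^(-it)` (`p^(-(1+it)) = p^(-it)/p`) gives the sharp range.
The constant is `max (C+4) (B+4) + C'`.
-/

set_option autoImplicit false

namespace MRP.E

open Finset Complex DirichletCharacter

theorem E18_norm_cpow_le (n : ℕ) (t : ℝ) : ‖((n : ℕ) : ℂ) ^ (-((t : ℂ) * Complex.I))‖ ≤ 1 := by
  rcases Nat.eq_zero_or_pos n with h0 | h0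
  · subst h0
    by_cases ht : (-((t : ℂ) * Complex.I)) = 0
    · rw [ht, Complex.cpow_zero, norm_one]
    · rw [Nat.cast_zero, Complex.zero_cpow ht, norm_zero]
      exact zero_le_one
  · have h1 : (0 : ℝ) < (n : ℝ) := Nat.cast_pos.mpr h0
    have h2 : ‖((n : ℝ) : ℂ) ^ (-((t : ℂ) * Complex.I))‖ =
        (n : ℝ) ^ (-((t : ℂ) * Complex.I)).re :=
      Complex.norm_cpow_eq_rpow_re_of_pos h1 _
    have h3 : (-((t : ℂ) * Complex.I)).re = 0 := by simp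
    rw [h3, Real.rpow_zero] at h2
    have h4 : (((n : ℕ) : ℝ) : ℂ) = ((n : ℕ) : ℂ) := by push_cast; rfl
    rw [h4] at h2
    exact h2.le

theorem E18_split (p : ℕ) (hp : p ≠ 0) (t : ℝ) :
    ((p : ℕ) : ℂ) ^ (-(1 + (t : ℂ) * Complex.I)) =
      ((p : ℕ) : ℂ) ^ (-((t : ℂ) * Complex.I)) / ((p : ℕ) : ℂ) := by
  have hp' : ((p : ℕ) : ℂ) ≠ 0 := Nat.cast_ne_zero.mpr hp
  have h : -(1 + (t : ℂ) * Complex.I) = -((t : ℂ) * Complex.I) + (-1) := by ring
  rw [h, Complex.cpow_add _ _ hp', Complex.cpow_neg_one, div_eq_mul_inv]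

theorem prime1 (hL : StLandau) (hI : StIntegral) (hC : StCompare) (hS : StSmallT) : PRIME1 := by
  intro q hq χ
  have : NeZero q := ⟨by omega⟩
  obtain ⟨C, hC0, hLan⟩ := hL
  obtain ⟨C', hC'0, hCmp⟩ := hC
  obtain ⟨B, hB0, hB⟩ : ∃ B : ℝ, 0 < B ∧ (χ ≠ 1 → ∀ x t : ℝ, 0 < x → x ≤ 1 → |t| ≤ 2 →
      ‖deriv (LFunction χ) (1 + x + Complex.I * t) / LFunction χ (1 + x + Complex.I * t)‖ ≤
        B) := by
    by_cases hχ : χ = 1
    · exact ⟨1, one_pos, fun h => absurd hχ h⟩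
    · obtain ⟨B, hB0, hB⟩ := hS q χ 2 hχ
      exact ⟨B, hB0, fun _ => hB⟩
  refine ⟨max (C + 4) (B + 4) + C', ?_⟩
  intro d1 d2 hd1 hd12 hd2
  obtain ⟨X₀, hX₀⟩ := hLan q χ d1 hd1 (le_trans hd12.le hd2)
  refine ⟨max X₀ (Real.exp (2 / d1)), ?_⟩
  intro X hX t htX htχ
  have hXX₀ : X₀ ≤ X := le_trans (le_max_left _ _) hX
  have hXe : Real.exp (2 / d1) ≤ X := le_trans (le_max_right _ _) hX
  have hXpos : 0 < X := lt_of_lt_of_le (Real.exp_pos _) hXe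
  have hlog : 2 / d1 ≤ Real.log X := (Real.le_log_iff_exp_le hXpos).mpr hXe
  have hd2pos : 0 < d2 := lt_trans hd1 hd12
  have h2d : 2 ≤ d1 * Real.log X := by
    rw [div_le_iff₀ hd1] at hlog
    linarith
  have hlpos : 0 < Real.log X := lt_of_lt_of_le (by positivity) hlog
  have hX1 : 1 ≤ X := by
    have : (1 : ℝ) ≤ Real.exp (2 / d1) := Real.one_le_exp (by positivity)
    linarith
  have hY1 : (3 : ℝ) ≤ X ^ d1 := by
    rw [Real.rpow_def_of_pos hXpos]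
    have h1 : Real.exp 2 ≤ Real.exp (Real.log X * d1) :=
      Real.exp_le_exp.mpr (by linarith [mul_comm d1 (Real.log X)])
    have h2 := Real.add_one_le_exp (2 : ℝ)
    linarith
  have hY12 : X ^ d1 ≤ X ^ d2 := Real.rpow_le_rpow_of_exponent_le hX1 hd12.le
  have hl1 : Real.log (X ^ d1) = d1 * Real.log X := Real.log_rpow hXpos d1
  have hl2 : Real.log (X ^ d2) = d2 * Real.log X := Real.log_rpow hXpos d2
  have hl1p : 0 < Real.log (X ^ d1) := by rw [hl1]; positivity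
  have hl2p : 0 < Real.log (X ^ d2) := by rw [hl2]; positivity
  have ha : 0 < 1 / Real.log (X ^ d2) := by positivity
  have hab : 1 / Real.log (X ^ d2) ≤ 1 / Real.log (X ^ d1) := by
    apply one_div_le_one_div_of_le hl1p
    rw [hl1, hl2]
    exact mul_le_mul_of_nonneg_right hd12.le hlpos.le
  have hb : 1 / Real.log (X ^ d1) ≤ 1 := by
    rw [div_le_one hl1p, hl1]
    linarith
  have hu : ∀ n : ℕ, ‖(fun n : ℕ => χ ((n : ℕ) : ZMod q) *
      ((n : ℕ) : ℂ) ^ (-((t : ℂ) * Complex.I))) n‖ ≤ 1 := by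
    intro n
    simp only [norm_mul]
    have h1 := χ.norm_le_one ((n : ℕ) : ZMod q)
    have h2 := E18_norm_cpow_le n t
    calc ‖χ ((n : ℕ) : ZMod q)‖ * ‖((n : ℕ) : ℂ) ^ (-((t : ℂ) * Complex.I))‖ ≤ 1 * 1 :=
          mul_le_mul h1 h2 (norm_nonneg _) zero_le_one
      _ = 1 := one_mul 1
  have hcmp := hCmp (fun n : ℕ => χ ((n : ℕ) : ZMod q) *
      ((n : ℕ) : ℂ) ^ (-((t : ℂ) * Complex.I))) (X ^ d1) (X ^ d2) hu hY1 hY12
  have hsum : ∑ p ∈ (Finset.Ioc ⌊X ^ d1⌋₊ ⌊X ^ d2⌋₊).filter Nat.Prime,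
        χ ((p : ℕ) : ZMod q) * ((p : ℂ) ^ (-(1 + (t : ℂ) * Complex.I))) =
      ∑ p ∈ (Finset.Ioc ⌊X ^ d1⌋₊ ⌊X ^ d2⌋₊).filter Nat.Prime,
        (χ ((p : ℕ) : ZMod q) * ((p : ℕ) : ℂ) ^ (-((t : ℂ) * Complex.I))) / (p : ℂ) := by
    apply Finset.sum_congr rfl
    intro p hp
    have hpp := (Finset.mem_filter.mp hp).2
    rw [E18_split p hpp.ne_zero t, mul_div_assoc]
  have htsum : ∑' p : Nat.Primes, (χ ((p : ℕ) : ZMod q) *
        ((p : ℕ) : ℂ) ^ (-((t : ℂ) * Complex.I))) / ((p : ℕ) : ℂ) *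
        ((((p : ℕ) : ℝ) ^ (-(1 / Real.log (X ^ d2))) -
          ((p : ℕ) : ℝ) ^ (-(1 / Real.log (X ^ d1))) : ℝ) : ℂ) =
      ∑' p : Nat.Primes, χ ((p : ℕ) : ZMod q) *
        ((p : ℕ) : ℂ) ^ (-(1 + (t : ℂ) * Complex.I)) *
        ((((p : ℕ) : ℝ) ^ (-(1 / Real.log (X ^ d2))) -
          ((p : ℕ) : ℝ) ^ (-(1 / Real.log (X ^ d1))) : ℝ) : ℂ) := by
    apply tsum_congr
    intro p
    rw [E18_split p p.2.ne_zero t, mul_div_assoc]
  rw [hsum]
  refine le_trans hcmp ?_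
  rw [htsum]
  refine add_le_add ?_ le_rfl
  by_cases h2 : 2 ≤ |t|
  · have hint := hI q χ t (1 / Real.log (X ^ d2)) (1 / Real.log (X ^ d1))
      (C * (d1 * Real.log X)) ha hab hb (by positivity) (by
        intro η hη1 hη2
        refine hX₀ X hXX₀ t η h2 htX (lt_of_lt_of_le ha hη1) ?_
        rw [← hl1]
        exact hη2)
    refine le_trans hint (le_trans ?_ (le_max_left _ _))
    have h3 : (1 / Real.log (X ^ d1) - 1 / Real.log (X ^ d2)) * (C * (d1 * Real.log X)) ≤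
        1 / Real.log (X ^ d1) * (C * (d1 * Real.log X)) := by
      apply mul_le_mul_of_nonneg_right _ (by positivity)
      linarith
    have h4 : 1 / Real.log (X ^ d1) * (C * (d1 * Real.log X)) = C := by
      rw [hl1]
      field_simp
    linarith
  · have hχ : χ ≠ 1 := by
      rcases htχ with h | h
      · exact absurd h h2
      · exact h
    push Not at h2
    have hint := hI q χ t (1 / Real.log (X ^ d2)) (1 / Real.log (X ^ d1))
      B ha hab hb hB0.le (by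
        intro η hη1 hη2
        exact hB hχ η t (lt_of_lt_of_le ha hη1) (le_trans hη2 hb) h2.le)
    refine le_trans hint (le_trans ?_ (le_max_right _ _))
    have h3 : (1 / Real.log (X ^ d1) - 1 / Real.log (X ^ d2)) * B ≤ 1 * B := by
      apply mul_le_mul_of_nonneg_right _ hB0.le
      linarith
    linarith

end MRP.E
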